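import Mathlib
import Pool.Agent.W548.Odd.Ideal

/-!
# Ideals of Lie algebras generated by involutions, with scalar commutant
-/

set_option linter.unusedSectionVars false

namespace Pool.Agent.Y91.JP

open Module LinearMap Pool.Agent.W548.Odd

variable {K : Type*} [Field K] [CharZero K] {V : Type*} [AddCommGroup V] [Module K V]
  [FiniteDimensional K V]

/-- The commutant of `G` consists of scalars. -/
def Scal (G : Submodule K (End K V)) : Prop :=
  ∀ c : End K V, (∀ y ∈ G, c * y = y * c) → ∃ s : K, c = s • (1 : End K V)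

variable {G I : Submodule K (End K V)} {st : End K V →ₗ[K] End K V} (h : Setup G st)
  (hs : Scal G)

include h in
theorem st_one {D : End K V} (hD : D ∈ G) (hD2 : D * D = 1) : st 1 = 1 := by
  have e1 : st (D * D) = st D * st D := h.st_mul D D
  rw [hD2, h.skew D hD, neg_mul_neg, hD2] at e1
  exact e1

include h in
/-- A scalar in `G` is zero. -/
theorem scalar_zero {D y : End K V} (hD : D ∈ G) (hD2 : D * D = 1) (hy : y ∈ G) {s : K}
    (hsy : y = s • (1 : End K V)) : y = 0 := by
  have h1 := h.skew y hy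
  have h2 : st y = y := by
    nth_rewrite 1 [hsy]
    rw [map_smul, st_one h hD hD2, ← hsy]
  rw [h2] at h1
  have h3 : (2 : K) • y = 0 := by
    rw [two_smul]
    nth_rewrite 1 [h1]
    exact neg_add_cancel _
  exact (smul_eq_zero.1 h3).resolve_left two_ne_zero

include h hs in
theorem central_zero {D y : End K V} (hD : D ∈ G) (hD2 : D * D = 1) (hy : y ∈ G)
    (hc : ∀ z ∈ G, y * z = z * y) : y = 0 := by
  obtain ⟨s, hsy⟩ := hs y hc
  exact scalar_zero h hD hD2 hy hsy

include h hs in
/-- The representation is irreducible. -/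
theorem irr_top {M : Submodule K V} (hM : ∀ y ∈ G, ∀ w ∈ M, y w ∈ M) (hne : M ≠ ⊥) : M = ⊤ := by
  obtain ⟨π, hπ, hπM, hπ'⟩ := h.cr M hM
  obtain ⟨s, hsπ⟩ := hs π fun y hy => hπ y hy
  obtain ⟨v, hv, hv0⟩ := Submodule.exists_mem_ne_zero_of_ne_bot hne
  have h1 : s • v = v := by
    have := hπ' v hv
    rw [hsπ] at this
    exact this
  have h2 : s = 1 := by
    have h3 : (s - 1) • v = 0 := by rw [sub_smul, one_smul, h1, sub_self]
    exact sub_eq_zero.1 ((smul_eq_zero.1 h3).resolve_right hv0)
  rw [Submodule.eq_top_iff']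
  intro w
  have h3 := hπM w
  rw [hsπ, h2, one_smul] at h3
  exact h3

include h in
theorem comm_of_invol {x : End K V} (hx : ∀ D ∈ G, D * D = 1 → D * x = x * D) :
    ∀ y ∈ G, x * y = y * x := by
  let L : Submodule K (End K V) :=
    { carrier := {y | x * y = y * x}
      zero_mem' := by
        change x * 0 = 0 * x
        rw [mul_zero, zero_mul]
      add_mem' := fun {a b} ha hb => by
        change x * (a + b) = (a + b) * x
        rw [mul_add, add_mul, show x * a = a * x from ha, show x * b = b * x from hb]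
      smul_mem' := fun c a ha => by
        change x * (c • a) = (c • a) * x
        rw [mul_smul_comm, smul_mul_assoc, show x * a = a * x from ha] }
  have hL : G ≤ L := by
    refine h.gen L (fun D hD hD2 => (hx D hD hD2).symm) ?_
    intro y hy z hz
    have e1 : x * y = y * x := hy
    have e2 : x * z = z * x := hz
    change x * (y * z - z * y) = (y * z - z * y) * x
    calc x * (y * z - z * y) = (x * y) * z - (x * z) * y := by noncomm_ring
    _ = (y * x) * z - (z * x) * y := by rw [e1, e2]
    _ = y * (x * z) - z * (x * y) := by noncomm_ring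
    _ = y * (z * x) - z * (y * x) := by rw [e1, e2]
    _ = (y * z - z * y) * x := by noncomm_ring
  exact fun y hy => hL hy

include h hs in
/-- Commutative ideals are zero. -/
theorem abelian_zero {D₀ : End K V} (hD₀ : D₀ ∈ G) (hD₀2 : D₀ * D₀ = 1) (hI : IsIdl G I)
    (hab : ∀ x ∈ I, ∀ y ∈ I, x * y = y * x) : ∀ x ∈ I, x = 0 := by
  have key : ∀ D ∈ G, D * D = 1 → ∀ u ∈ I, D * u = u → u * D = -u → u = 0 := by
    intro D hD hD2 u hu h1 h2
    obtain ⟨f, hf, -, -, hufu, -⟩ := h.partner hD hD2 (hI.le hu) h1 h2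
    have h3 : u * (u * f - f * u) = (u * f - f * u) * u := hab u hu _ (hI.br' hu hf)
    rw [← hufu, quad_eq (sq_zero_of_up h1 h2), h3, sub_self, smul_zero]
  intro x hx
  refine central_zero h hs hD₀ hD₀2 (hI.le hx) (comm_of_invol h fun D hD hD2 => ?_)
  have e1 := key D hD hD2 _ (hI.up hD hD2 hx) (up_left hD2 x) (up_right hD2 x)
  have e2 := key (-D) (G.neg_mem hD) (by rw [neg_mul_neg, hD2]) _ (hI.dn hD hD2 hx)
    (by rw [neg_mul, dn_left hD2, neg_neg]) (by rw [mul_neg, dn_right hD2])
  have e3 : (2 : K) • (D * x - x * D) = 0 := by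
    have : (2 : K) • (D * x - x * D) = (1 + D) * x * (1 - D) - (1 - D) * x * (1 + D) := by
      rw [two_smul]
      noncomm_ring
    rw [this, e1, e2, sub_zero]
  exact sub_eq_zero.1 ((smul_eq_zero.1 e3).resolve_left two_ne_zero)

include h hs in
/-- The trace form is nondegenerate on ideals. -/
theorem idl_nondeg {D₀ : End K V} (hD₀ : D₀ ∈ G) (hD₀2 : D₀ * D₀ = 1) (hI : IsIdl G I) :
    ∀ c ∈ I, (∀ z ∈ I, trace K V (c * z) = 0) → c = 0 := by
  let C : Submodule K (End K V) :=
    { carrier := {c | c ∈ I ∧ ∀ z ∈ I, trace K V (c * z) = 0}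
      zero_mem' := ⟨Submodule.zero_mem _, fun z _ => by rw [zero_mul, map_zero]⟩
      add_mem' := fun {a b} ha hb => ⟨Submodule.add_mem _ ha.1 hb.1, fun z hz => by
        rw [add_mul, map_add, ha.2 z hz, hb.2 z hz, add_zero]⟩
      smul_mem' := fun t a ha => ⟨Submodule.smul_mem _ t ha.1, fun z hz => by
        rw [smul_mul_assoc, map_smul, ha.2 z hz, smul_zero]⟩ }
  have hC : IsIdl G C := by
    refine ⟨fun c hc => hI.le hc.1, fun y hy c hc => ⟨hI.br y hy c hc.1, fun z hz => ?_⟩⟩
    have e1 := hc.2 _ (hI.br y hy z hz)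
    have e2 : trace K V ((y * c - c * y) * z) = -trace K V (c * (y * z - z * y)) := by
      have e3 : trace K V (y * c * z) = trace K V (c * z * y) := by
        rw [mul_assoc, LinearMap.trace_mul_comm]
      have e4 : (y * c - c * y) * z = y * c * z - c * y * z := by noncomm_ring
      have e5 : c * (y * z - z * y) = c * y * z - c * z * y := by noncomm_ring
      rw [e4, e5, map_sub, map_sub, e3]
      ring
    rw [e2, e1, neg_zero]
  have hcomm : ∀ c ∈ C, ∀ z ∈ I, c * z = z * c := by
    intro c hc z hz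
    rw [← sub_eq_zero]
    refine h.nondeg _ (h.br c (hI.le hc.1) z (hI.le hz)) fun y hy => ?_
    have e1 := hc.2 _ (hI.br' hz hy)
    have e3 : trace K V (z * c * y) = trace K V (c * y * z) := by
      rw [mul_assoc, LinearMap.trace_mul_comm]
    have e4 : (c * z - z * c) * y = c * z * y - z * c * y := by noncomm_ring
    have e5 : c * (z * y - y * z) = c * z * y - c * y * z := by noncomm_ring
    rw [e4, map_sub, e3, ← map_sub, ← e5, e1]
  intro c hc hcz
  exact abelian_zero h hs hD₀ hD₀2 hC (fun x hx y hy => hcomm x hx y hy.1) c ⟨hc, hcz⟩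

/-- The elements of `G` that commute with `I`. -/
def cen (G I : Submodule K (End K V)) : Submodule K (End K V) where
  carrier := {b | b ∈ G ∧ ∀ z ∈ I, b * z = z * b}
  zero_mem' := ⟨G.zero_mem, fun z _ => by rw [zero_mul, mul_zero]⟩
  add_mem' := fun {a b} ha hb => ⟨G.add_mem ha.1 hb.1, fun z hz => by
    rw [add_mul, mul_add, ha.2 z hz, hb.2 z hz]⟩
  smul_mem' := fun t a ha => ⟨G.smul_mem t ha.1, fun z hz => by
    rw [smul_mul_assoc, mul_smul_comm, ha.2 z hz]⟩

include h in
theorem cen_idl (hI : IsIdl G I) : IsIdl G (cen G I) := by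
  refine ⟨fun b hb => hb.1, fun y hy b hb => ⟨h.br y hy b hb.1, fun z hz => ?_⟩⟩
  have e1 := hb.2 z hz
  have e2 := hb.2 _ (hI.br y hy z hz)
  rw [← sub_eq_zero]
  calc (y * b - b * y) * z - z * (y * b - b * y) =
      y * (b * z) - (b * (y * z - z * y)) - (b * z) * y - z * (y * b) + (z * b) * y := by
        noncomm_ring
  _ = y * (z * b) - ((y * z - z * y) * b) - (z * b) * y - z * (y * b) + (z * b) * y := by
        rw [e2, e1]
  _ = 0 := by noncomm_ring

include h hs in
/-- Each element is the sum of an element of the ideal and an element that commutes with the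
ideal. -/
theorem idl_decomp {D₀ : End K V} (hD₀ : D₀ ∈ G) (hD₀2 : D₀ * D₀ = 1) (hI : IsIdl G I)
    {y : End K V} (hy : y ∈ G) : ∃ a ∈ I, ∃ b ∈ cen G I, y = a + b := by
  have hnd := idl_nondeg h hs hD₀ hD₀2 hI
  obtain ⟨a, ha, haz⟩ := exists_repr hnd ((LinearMap.trace K V).comp (LinearMap.mulLeft K y))
  have haz' : ∀ z ∈ I, trace K V ((y - a) * z) = 0 := by
    intro z hz
    rw [sub_mul, map_sub, ← haz z hz]
    exact sub_self _
  have hb : y - a ∈ G := G.sub_mem hy (hI.le ha)
  refine ⟨a, ha, y - a, ⟨hb, fun z hz => ?_⟩, by abel⟩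
  rw [← sub_eq_zero]
  refine hnd _ (hI.br _ hb z hz) fun z' hz' => ?_
  have e1 := haz' _ (hI.br z (hI.le hz) z' hz')
  have e3 : trace K V (z * (y - a) * z') = trace K V ((y - a) * z' * z) := by
    rw [mul_assoc, LinearMap.trace_mul_comm]
  have e4 : ((y - a) * z - z * (y - a)) * z' = (y - a) * z * z' - z * (y - a) * z' := by
    noncomm_ring
  have e5 : (y - a) * (z * z' - z' * z) = (y - a) * z * z' - (y - a) * z' * z := by
    noncomm_ring
  rw [e4, map_sub, e3, ← map_sub, ← e5, e1]

include h hs in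
/-- An element of `G` that commutes with the ideal and with its commutant is zero. -/
theorem zero_of_comm {D₀ : End K V} (hD₀ : D₀ ∈ G) (hD₀2 : D₀ * D₀ = 1) (hI : IsIdl G I)
    {y : End K V} (hy : y ∈ G) (h1 : ∀ z ∈ I, y * z = z * y) (h2 : ∀ z ∈ cen G I, y * z = z * y) :
    y = 0 := by
  refine central_zero h hs hD₀ hD₀2 hy fun z hz => ?_
  obtain ⟨a, ha, b, hb, rfl⟩ := idl_decomp h hs hD₀ hD₀2 hI hz
  rw [mul_add, add_mul, h1 a ha, h2 b hb]

include h hs in
/-- If `v u = 0` where `u` commutes with the commutant of the ideal and `v` commutes with the ideal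
then one of them is zero. -/
theorem prod_zero {D₀ : End K V} (hD₀ : D₀ ∈ G) (hD₀2 : D₀ * D₀ = 1) (hI : IsIdl G I)
    {u v : End K V} (hu : ∀ z ∈ cen G I, z * u = u * z) (hv : ∀ z ∈ I, z * v = v * z)
    (hvu : v * u = 0) (hu0 : u ≠ 0) : v = 0 := by
  let Ps : Set (Submodule K V) := {P | LinearMap.range u ≤ P ∧ ∀ z ∈ I, ∀ w ∈ P, z w ∈ P}
  let W : Submodule K V := sInf Ps
  have hWle : ∀ P ∈ Ps, W ≤ P := fun P hP => sInf_le hP
  have hWr : LinearMap.range u ≤ W := le_sInf fun P hP => hP.1
  have hWI : ∀ z ∈ I, ∀ w ∈ W, z w ∈ W := by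
    intro z hz w hw
    simp only [W, Submodule.mem_sInf] at hw ⊢
    exact fun P hP => hP.2 z hz w (hw P hP)
  have hWc : ∀ z ∈ cen G I, ∀ w ∈ W, z w ∈ W := by
    intro z hz
    let P : Submodule K V := W ⊓ W.comap z
    have hP : P ∈ Ps := by
      refine ⟨?_, ?_⟩
      · rintro _ ⟨w, rfl⟩
        refine ⟨hWr ⟨w, rfl⟩, ?_⟩
        change z (u w) ∈ W
        have : z (u w) = u (z w) := LinearMap.congr_fun (hu z hz) w
        rw [this]
        exact hWr ⟨_, rfl⟩
      · rintro x hx w ⟨hw1, hw2⟩
        refine ⟨hWI x hx w hw1, ?_⟩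
        change z (x w) ∈ W
        have : z (x w) = x (z w) := LinearMap.congr_fun (hz.2 x hx) w
        rw [this]
        exact hWI x hx _ hw2
    exact fun w hw => (hWle P hP hw).2
  have hWt : W = ⊤ := by
    refine irr_top h hs (fun y hy w hw => ?_) ?_
    · obtain ⟨a, ha, b, hb, rfl⟩ := idl_decomp h hs hD₀ hD₀2 hI hy
      exact W.add_mem (hWI a ha w hw) (hWc b hb w hw)
    · intro h0
      rw [h0, le_bot_iff, LinearMap.range_eq_bot] at hWr
      exact hu0 hWr
  have hker : LinearMap.ker v ∈ Ps := by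
    refine ⟨?_, ?_⟩
    · rintro _ ⟨w, rfl⟩
      exact LinearMap.congr_fun hvu w
    · intro z hz w hw
      rw [LinearMap.mem_ker] at hw ⊢
      have : v (z w) = z (v w) := (LinearMap.congr_fun (hv z hz) w).symm
      rw [this, hw, map_zero]
  have h1 := hWle _ hker
  rw [hWt, top_le_iff] at h1
  exact LinearMap.ker_eq_top.1 h1

include h hs in
/-- An involution lies in an ideal or commutes with it. -/
theorem invol_dich (hI : IsIdl G I) {D : End K V} (hD : D ∈ G) (hD2 : D * D = 1) :
    D ∈ I ∨ D ∈ cen G I := by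
  obtain ⟨a, ha, b, hb, hab⟩ := idl_decomp h hs hD hD2 hI hD
  have hcI := cen_idl h hI
  have hba : b * a = a * b := hb.2 a ha
  by_cases h1 : ∀ z ∈ I, a * z = z * a
  · right
    have h2 : a = 0 := zero_of_comm h hs hD hD2 hI (hI.le ha) h1 fun z hz => (hz.2 a ha).symm
    rw [hab, h2, zero_add]
    exact hb
  by_cases h2 : ∀ z ∈ cen G I, b * z = z * b
  · left
    have h3 : b = 0 := zero_of_comm h hs hD hD2 hI hb.1 hb.2 h2
    rw [hab, h3, add_zero]
    exact ha
  push Not at h1 h2
  obtain ⟨z, hz, hz0⟩ := h1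
  obtain ⟨y, hy, hy0⟩ := h2
  exfalso
  have hzb : b * z = z * b := hb.2 z hz
  have hza : y * a = a * y := hy.2 a ha
  have hyz : y * z = z * y := hy.2 z hz
  have e1 : (a + b) * (a + b) = 1 := by rw [← hab]; exact hD2
  have e2 : (2 : K) • ((b * y - y * b) * (a * z - z * a)) = 0 := by
    have e3 : ((a + b) * (a + b) * z - z * ((a + b) * (a + b))) = 0 := by
      rw [e1, one_mul, mul_one, sub_self]
    have e4 : (a + b) * (a + b) * z - z * ((a + b) * (a + b)) =
        (a * a * z - z * (a * a)) + (2 : K) • (b * (a * z - z * a)) := by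
      have t1 : (a + b) * (a + b) * z - z * ((a + b) * (a + b)) =
          (a * a * z - z * (a * a)) + (a * (b * z) + (b * a) * z + b * (b * z) -
            (z * a) * b - (z * b) * a - (z * b) * b) := by noncomm_ring
      have t2 : a * (b * z) + (b * a) * z + b * (b * z) - (z * a) * b - (z * b) * a -
          (z * b) * b = (2 : K) • (b * (a * z - z * a)) := by
        rw [← hzb, two_smul]
        have t3 : a * (b * z) = b * (a * z) := by rw [← mul_assoc, ← hba, mul_assoc]
        have t4 : z * a * b = b * (z * a) := by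
          rw [mul_assoc, ← hba, ← mul_assoc, ← hzb, mul_assoc]
        have t5 : b * z * b = b * (b * z) := by rw [mul_assoc, ← hzb]
        rw [t3, t4, t5]
        noncomm_ring
      rw [t1, t2]
    rw [e4] at e3
    have hw : ∀ w : End K V, w * y = y * w → True := fun _ _ => trivial
    have c1 : (a * a * z - z * (a * a)) * y = y * (a * a * z - z * (a * a)) := by
      have : ∀ p q : End K V, y * p = p * y → y * q = q * y → y * (p * q) = p * q * y := by
        intro p q hp hq
        rw [← mul_assoc, hp, mul_assoc, hq, mul_assoc]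
      have haa := this a a hza hza
      rw [sub_mul, mul_sub, this (a * a) z haa hyz, this z (a * a) hyz haa]
    have c2 : (a * z - z * a) * y = y * (a * z - z * a) := by
      have : ∀ p q : End K V, y * p = p * y → y * q = q * y → y * (p * q) = p * q * y := by
        intro p q hp hq
        rw [← mul_assoc, hp, mul_assoc, hq, mul_assoc]
      rw [sub_mul, mul_sub, this a z hza hyz, this z a hyz hza]
    have e5 : ((a * a * z - z * (a * a)) + (2 : K) • (b * (a * z - z * a))) * y -
        y * ((a * a * z - z * (a * a)) + (2 : K) • (b * (a * z - z * a))) =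
        (2 : K) • ((b * y - y * b) * (a * z - z * a)) := by
      rw [add_mul, mul_add, c1, smul_mul_assoc, mul_smul_comm, mul_assoc b, c2]
      have : (b * y - y * b) * (a * z - z * a) = b * (y * (a * z - z * a)) -
          y * (b * (a * z - z * a)) := by
        rw [sub_mul, mul_assoc, mul_assoc]
      rw [this, smul_sub]
      abel
    rw [← e5, e3, zero_mul, mul_zero, sub_zero]
  have e3 := (smul_eq_zero.1 e2).resolve_left two_ne_zero
  apply hy0
  have hv : b * y - y * b ∈ cen G I := hcI.br b hb.1 y hy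
  have hu : a * z - z * a ∈ I := hI.br a (hI.le ha) z hz
  have h4 := prod_zero h hs hD hD2 hI (u := a * z - z * a) (v := b * y - y * b)
    (fun z' hz' => hz'.2 _ hu) (fun z' hz' => (hv.2 z' hz').symm) e3 (sub_ne_zero.2 hz0)
  exact sub_eq_zero.1 h4

end Pool.Agent.Y91.JP
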