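import Mathlib
import Pool.Agent.Y91.JP.Ideals

/-!
# The ideal generated by an involution, and its positive part
-/

set_option linter.unusedSectionVars false

namespace Pool.Agent.Y91.JP

open Module LinearMap Pool.Agent.W548.Odd

variable {K : Type*} [Field K] [CharZero K] {V : Type*} [AddCommGroup V] [Module K V]
  [FiniteDimensional K V]

variable {G I : Submodule K (End K V)} {st : End K V →ₗ[K] End K V} (h : Setup G st)
  (hs : Scal G)

theorem trace_idem {p : End K V} (hp : p * p = p) : trace K V p = (rk p : K) := by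
  have h1 : IsIdempotentElem p := hp
  exact h1.isProj_range.trace

include h hs in
/-- The ideal generated by an involution is minimal. -/
theorem gn_min {D : End K V} (hD : D ∈ G) (hD2 : D * D = 1) {J : Submodule K (End K V)}
    (hJ : IsIdl G J) (hJI : J ≤ gn G D) : (∀ x ∈ J, x = 0) ∨ gn G D ≤ J := by
  rcases invol_dich h hs hJ hD hD2 with h1 | h1
  · right
    exact gn_le hJ h1
  · left
    have h2 : gn G D ≤ cen G J := gn_le (cen_idl h hJ) h1
    exact abelian_zero h hs hD hD2 hJ fun x hx y hy => (h2 (hJI hx)).2 y hy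

include h hs in
/-- Uniqueness of the invariant form on the ideal generated by an involution. -/
theorem form_unique [IsAlgClosed K] {D c : End K V} (hD : D ∈ G) (hD2 : D * D = 1)
    (hc : ∀ z ∈ gn G D, c * z = z * c) :
    ∃ l : K, ∀ x ∈ gn G D, ∀ y ∈ gn G D, trace K V (x * y * c) = l * trace K V (x * y) := by
  classical
  by_cases hD0 : D = 0
  · refine ⟨0, fun x _ y _ => ?_⟩
    have h1 : (1 : End K V) = 0 := by rw [← hD2, hD0, mul_zero]
    have h2 : x * y * c = 0 := by rw [← mul_one (x * y * c), h1, mul_zero]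
    rw [h2, map_zero, zero_mul]
  obtain ⟨I, hIdef⟩ : ∃ I, I = gn G D := ⟨_, rfl⟩
  rw [← hIdef] at hc ⊢
  have hI : IsIdl G I := by rw [hIdef]; exact gn_idl h hD
  have hDI : D ∈ I := by rw [hIdef]; exact mem_gn
  have hnd := idl_nondeg h hs hD hD2 hI
  let B : I →ₗ[K] Dual K I :=
    LinearMap.mk₂ K (fun a z : I => trace K V ((a : End K V) * (z : End K V)))
      (fun a b z => by rw [Submodule.coe_add, add_mul, map_add])
      (fun c a z => by rw [Submodule.coe_smul, smul_mul_assoc, map_smul])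
      (fun a y z => by rw [Submodule.coe_add, mul_add, map_add])
      (fun c a z => by rw [Submodule.coe_smul, mul_smul_comm, map_smul])
  let Bc : I →ₗ[K] Dual K I :=
    LinearMap.mk₂ K (fun a z : I => trace K V ((a : End K V) * (z : End K V) * c))
      (fun a b z => by rw [Submodule.coe_add, add_mul, add_mul, map_add])
      (fun t a z => by rw [Submodule.coe_smul, smul_mul_assoc, smul_mul_assoc, map_smul])
      (fun a y z => by rw [Submodule.coe_add, mul_add, add_mul, map_add])
      (fun t a z => by rw [Submodule.coe_smul, mul_smul_comm, smul_mul_assoc, map_smul])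
  have hB : ∀ a z : I, B a z = trace K V ((a : End K V) * (z : End K V)) := fun _ _ => rfl
  have hBc : ∀ a z : I, Bc a z = trace K V ((a : End K V) * (z : End K V) * c) := fun _ _ => rfl
  have hinj : Function.Injective B := by
    rw [injective_iff_map_eq_zero]
    intro a ha
    apply Subtype.ext
    refine hnd a a.2 fun z hz => ?_
    rw [← hB a ⟨z, hz⟩, ha]
    rfl
  have hsurj : Function.Surjective B :=
    (LinearMap.injective_iff_surjective_of_finrank_eq_finrank
      Subspace.dual_finrank_eq.symm).1 hinj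
  let e : I ≃ₗ[K] Dual K I := LinearEquiv.ofBijective B ⟨hinj, hsurj⟩
  let T : End K I := (e.symm : Dual K I →ₗ[K] I).comp Bc
  have hT : ∀ x, B (T x) = Bc x := fun x => e.apply_symm_apply (Bc x)
  have : Nontrivial I := ⟨⟨⟨D, hDI⟩, 0, fun h0 => hD0 (congrArg Subtype.val h0)⟩⟩
  obtain ⟨l, hl⟩ := Module.End.exists_eigenvalue T
  obtain ⟨x0, hx0⟩ := hl.exists_hasEigenvector
  refine ⟨l, ?_⟩
  let J : Submodule K (End K V) :=
    { carrier := {x | x ∈ I ∧ ∀ y ∈ I, trace K V (x * y * c) = l * trace K V (x * y)}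
      zero_mem' := ⟨I.zero_mem, fun y _ => by simp⟩
      add_mem' := fun {a b} ha hb => ⟨I.add_mem ha.1 hb.1, fun y hy => by
        rw [add_mul, add_mul, map_add, map_add, ha.2 y hy, hb.2 y hy, mul_add]⟩
      smul_mem' := fun t a ha => ⟨I.smul_mem t ha.1, fun y hy => by
        rw [smul_mul_assoc, smul_mul_assoc, map_smul, map_smul, ha.2 y hy, smul_eq_mul,
          smul_eq_mul]
        ring⟩ }
  have hJ : IsIdl G J := by
    refine ⟨fun x hx => hI.le hx.1, ?_⟩
    rintro z hz x ⟨hx, hxy⟩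
    refine ⟨hI.br z hz x hx, fun y hy => ?_⟩
    obtain ⟨a, ha, b, hb, rfl⟩ := idl_decomp h hs hD hD2 hI hz
    have e1 : (a + b) * x - x * (a + b) = a * x - x * a := by
      rw [add_mul, mul_add, hb.2 x hx]
      abel
    rw [e1]
    have e2 : ∀ w : End K V, c * a = a * c ∧ w = w → True := fun _ _ => trivial
    have hca := hc a ha
    have e3 : trace K V ((a * x - x * a) * y * c) = trace K V (x * (y * a - a * y) * c) := by
      have t1 : trace K V (a * x * y * c) = trace K V (x * y * a * c) := by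
        calc trace K V (a * x * y * c) = trace K V (a * (x * y * c)) := by
              simp only [mul_assoc]
        _ = trace K V (x * y * c * a) := LinearMap.trace_mul_comm K _ _
        _ = trace K V (x * y * a * c) := by rw [mul_assoc (x * y) c a, hca, ← mul_assoc]
      have t2 : (a * x - x * a) * y * c = a * x * y * c - x * a * y * c := by noncomm_ring
      have t3 : x * (y * a - a * y) * c = x * y * a * c - x * a * y * c := by noncomm_ring
      rw [t2, t3, map_sub, map_sub, t1]
    have e4 : trace K V ((a * x - x * a) * y) = trace K V (x * (y * a - a * y)) := by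
      have t1 : trace K V (a * x * y) = trace K V (x * y * a) := by
        rw [mul_assoc, LinearMap.trace_mul_comm]
      have t2 : (a * x - x * a) * y = a * x * y - x * a * y := by noncomm_ring
      have t3 : x * (y * a - a * y) = x * y * a - x * a * y := by noncomm_ring
      rw [t2, t3, map_sub, map_sub, t1]
    rw [e3, e4]
    exact hxy _ (hI.br y (hI.le hy) a ha)
  have hx0J : (x0 : End K V) ∈ J := by
    refine ⟨x0.2, fun y hy => ?_⟩
    have e1 := LinearMap.congr_fun (hT x0) ⟨y, hy⟩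
    rw [hx0.apply_eq_smul, map_smul, LinearMap.smul_apply, hB, hBc, smul_eq_mul] at e1
    exact e1.symm
  rcases gn_min h hs hD hD2 hJ (fun x hx => by rw [← hIdef]; exact hx.1) with h1 | h1
  · exfalso
    exact hx0.2 (Subtype.ext (h1 _ hx0J))
  · rw [← hIdef] at h1
    exact fun x hx y hy => (h1 hx).2 y hy

include h hs in
/-- The trace of a product. -/
theorem trace_prod [IsAlgClosed K] {D c x y : End K V} (hD : D ∈ G) (hD2 : D * D = 1)
    (hc : ∀ z ∈ gn G D, c * z = z * c) (hx : x ∈ gn G D) (hy : y ∈ gn G D) :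
    trace K V (x * y * c) * (finrank K V : K) = trace K V (x * y) * trace K V c := by
  obtain ⟨l, hl⟩ := form_unique h hs hD hD2 hc
  have h1 := hl D mem_gn D mem_gn
  rw [hD2, one_mul, LinearMap.trace_one] at h1
  rw [h1, hl x hx y hy]
  ring

/-- The positive part. -/
def Kp (G : Submodule K (End K V)) (D : End K V) : Submodule K (End K V) where
  carrier := {x | x ∈ G ∧ D * x = x ∧ x * D = -x}
  zero_mem' := ⟨G.zero_mem, mul_zero _, by rw [zero_mul, neg_zero]⟩
  add_mem' := fun {a b} ha hb => ⟨G.add_mem ha.1 hb.1, by rw [mul_add, ha.2.1, hb.2.1], by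
    rw [add_mul, ha.2.2, hb.2.2, neg_add]⟩
  smul_mem' := fun t a ha => ⟨G.smul_mem t ha.1, by rw [mul_smul_comm, ha.2.1], by
    rw [smul_mul_assoc, ha.2.2, smul_neg]⟩

theorem mem_Kn {D y : End K V} : y ∈ Kp G (-D) ↔ y ∈ G ∧ D * y = -y ∧ y * D = y := by
  constructor
  · rintro ⟨h1, h2, h3⟩
    rw [neg_mul] at h2
    rw [mul_neg, neg_inj] at h3
    exact ⟨h1, neg_eq_iff_eq_neg.1 h2, h3⟩
  · rintro ⟨h1, h2, h3⟩
    exact ⟨h1, by rw [neg_mul, h2, neg_neg], by rw [mul_neg, h3]⟩

theorem kp_zero {D x y : End K V} (hx : x ∈ Kp G D) (hy : y ∈ Kp G D) : x * y = 0 := by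
  have h1 : x * D * y = x * y := by rw [mul_assoc, hy.2.1]
  rw [hx.2.2, neg_mul] at h1
  have h2 : (2 : K) • (x * y) = 0 := by
    rw [two_smul]
    nth_rewrite 1 [← h1]
    exact neg_add_cancel _
  exact (smul_eq_zero.1 h2).resolve_left two_ne_zero

include h in
theorem kp_br {D z x : End K V} (hz : z ∈ G) (hDz : D * z = z * D) (hx : x ∈ Kp G D) :
    z * x - x * z ∈ Kp G D := by
  refine ⟨h.br z hz x hx.1, ?_, ?_⟩
  · rw [mul_sub, ← mul_assoc, hDz, mul_assoc, hx.2.1, ← mul_assoc, hx.2.1]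
  · rw [sub_mul, mul_assoc, hx.2.2, mul_assoc x z D, ← hDz, ← mul_assoc, hx.2.2]
    noncomm_ring

include h in
theorem kp_tri {D x y z : End K V} (hx : x ∈ Kp G D) (hy : y ∈ Kp G (-D)) (hz : z ∈ Kp G D) :
    x * y * z + z * y * x ∈ Kp G D := by
  have hy' := mem_Kn.1 hy
  have h1 : D * (x * y - y * x) = (x * y - y * x) * D := by
    have t1 : D * (x * y) = x * y := by rw [← mul_assoc, hx.2.1]
    have t2 : D * (y * x) = -(y * x) := by rw [← mul_assoc, hy'.2.1, neg_mul]
    have t3 : x * y * D = x * y := by rw [mul_assoc, hy'.2.2]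
    have t4 : y * x * D = -(y * x) := by rw [mul_assoc, hx.2.2, mul_neg]
    rw [mul_sub, sub_mul, t1, t2, t3, t4]
  have h2 := kp_br h (h.br x hx.1 y hy.1) h1 hz
  have h3 : (x * y - y * x) * z - z * (x * y - y * x) = x * y * z + z * y * x := by
    have t1 := kp_zero hx hz
    have t2 := kp_zero hz hx
    calc (x * y - y * x) * z - z * (x * y - y * x) =
        x * y * z - y * (x * z) - (z * x) * y + z * y * x := by noncomm_ring
    _ = _ := by rw [t1, t2]; simp
  rwa [h3] at h2

theorem neg_neg_D (D : End K V) : Kp G (- -D) = Kp G D := by rw [neg_neg]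

include h in
theorem kp_tri' {D x y z : End K V} (hx : x ∈ Kp G (-D)) (hy : y ∈ Kp G D) (hz : z ∈ Kp G (-D)) :
    x * y * z + z * y * x ∈ Kp G (-D) := by
  refine kp_tri h hx ?_ hz
  rw [neg_neg_D]
  exact hy

/-- The commutators of the positive and the negative part. -/
def Kz (G : Submodule K (End K V)) (D : End K V) : Submodule K (End K V) :=
  Submodule.span K {z | ∃ x ∈ Kp G D, ∃ y ∈ Kp G (-D), z = x * y - y * x}

include h in
theorem kz_idl {D : End K V} (hD : D ∈ G) (hD2 : D * D = 1) :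
    IsIdl G (Kp G D ⊔ Kp G (-D) ⊔ Kz G D) := by
  have hJG : Kp G D ⊔ Kp G (-D) ⊔ Kz G D ≤ G := by
    refine sup_le (sup_le (fun x hx => hx.1) fun x hx => hx.1) ?_
    unfold Kz
    rw [Submodule.span_le]
    rintro _ ⟨x, hx, y, hy, rfl⟩
    exact h.br x hx.1 y hy.1
  have hp : Kp G D ≤ Kp G D ⊔ Kp G (-D) ⊔ Kz G D := le_sup_left.trans le_sup_left
  have hn : Kp G (-D) ≤ Kp G D ⊔ Kp G (-D) ⊔ Kz G D := le_sup_right.trans le_sup_left
  have hz' : Kz G D ≤ Kp G D ⊔ Kp G (-D) ⊔ Kz G D := le_sup_right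
  refine ⟨hJG, fun z hz u hu => ?_⟩
  obtain ⟨J, hJ⟩ : ∃ J, J = Kp G D ⊔ Kp G (-D) ⊔ Kz G D := ⟨_, rfl⟩
  rw [← hJ] at hu hp hn hz' ⊢
  -- decomposition of `z`
  obtain ⟨z1, hz1d⟩ : ∃ z1, z1 = (1 + D) * z * (1 - D) := ⟨_, rfl⟩
  obtain ⟨z2, hz2d⟩ : ∃ z2, z2 = (1 - D) * z * (1 + D) := ⟨_, rfl⟩
  obtain ⟨z0, hz0d⟩ : ∃ z0, z0 = z + D * z * D := ⟨_, rfl⟩
  have hz1 : z1 ∈ Kp G D := ⟨by rw [hz1d]; exact h.idl.up hD hD2 hz, by
    rw [hz1d]; exact up_left hD2 z, by rw [hz1d]; exact up_right hD2 z⟩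
  have hz2 : z2 ∈ Kp G (-D) := mem_Kn.2 ⟨by rw [hz2d]; exact h.idl.dn hD hD2 hz, by
    rw [hz2d]; exact dn_left hD2 z, by rw [hz2d]; exact dn_right hD2 z⟩
  have hz0 : z0 ∈ G := by rw [hz0d]; exact h.idl.ze hD hD2 hz
  have hDz0 : D * z0 = z0 * D := by
    rw [hz0d, mul_add, add_mul]
    have e1 : D * (D * z * D) = (D * D) * (z * D) := by noncomm_ring
    have e2 : D * z * D * D = D * z * (D * D) := by noncomm_ring
    rw [e1, e2, hD2, one_mul, mul_one, add_comm]
  have hDz0' : -D * z0 = z0 * -D := by rw [neg_mul, mul_neg, hDz0]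
  have hzz : (4 : K) • z = z1 + z2 + (2 : K) • z0 := by
    rw [hz1d, hz2d, hz0d, show (4 : K) = 2 * 2 by norm_num, mul_smul]
    have : (1 + D) * z * (1 - D) + (1 - D) * z * (1 + D) = (2 : K) • (z - D * z * D) := by
      rw [two_smul]
      noncomm_ring
    rw [this, ← smul_add]
    congr 1
    rw [two_smul]
    abel
  have p0 : ∀ u ∈ Kp G D, z0 * u - u * z0 ∈ Kp G D := fun u hu => kp_br h hz0 hDz0 hu
  have n0 : ∀ u ∈ Kp G (-D), z0 * u - u * z0 ∈ Kp G (-D) := fun u hu => kp_br h hz0 hDz0' hu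
  have cz : ∀ x ∈ Kp G D, ∀ y ∈ Kp G (-D), x * y - y * x ∈ Kz G D := fun x hx y hy =>
    Submodule.subset_span ⟨x, hx, y, hy, rfl⟩
  -- brackets with the three parts
  have b1 : ∀ u ∈ J, z1 * u - u * z1 ∈ J := by
    intro u hu
    let L : Submodule K (End K V) := J.comap (LinearMap.mulLeft K z1 - LinearMap.mulRight K z1)
    have hL : J ≤ L := by
      rw [hJ]
      refine sup_le (sup_le ?_ ?_) ?_
      · intro u hu
        change z1 * u - u * z1 ∈ J
        rw [kp_zero hz1 hu, kp_zero hu hz1, sub_zero]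
        exact J.zero_mem
      · intro u hu
        exact hz' (cz z1 hz1 u hu)
      · unfold Kz
        rw [Submodule.span_le]
        rintro _ ⟨x, hx, y, hy, rfl⟩
        change z1 * (x * y - y * x) - (x * y - y * x) * z1 ∈ J
        have e1 : z1 * (x * y - y * x) - (x * y - y * x) * z1 =
            -(x * y * z1 + z1 * y * x) := by
          have t1 := kp_zero hx hz1
          have t2 := kp_zero hz1 hx
          calc z1 * (x * y - y * x) - (x * y - y * x) * z1 =
            (z1 * x) * y - z1 * y * x - x * y * z1 + y * (x * z1) := by noncomm_ring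
          _ = _ := by rw [t1, t2, zero_mul, mul_zero]; abel
        rw [e1]
        exact J.neg_mem (hp (kp_tri h hx hy hz1))
    exact hL hu
  have b2 : ∀ u ∈ J, z2 * u - u * z2 ∈ J := by
    intro u hu
    let L : Submodule K (End K V) := J.comap (LinearMap.mulLeft K z2 - LinearMap.mulRight K z2)
    have hL : J ≤ L := by
      rw [hJ]
      refine sup_le (sup_le ?_ ?_) ?_
      · intro u hu
        change z2 * u - u * z2 ∈ J
        have := J.neg_mem (hz' (cz u hu z2 hz2))
        rwa [neg_sub] at this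
      · intro u hu
        change z2 * u - u * z2 ∈ J
        rw [kp_zero hz2 hu, kp_zero hu hz2, sub_zero]
        exact J.zero_mem
      · unfold Kz
        rw [Submodule.span_le]
        rintro _ ⟨x, hx, y, hy, rfl⟩
        change z2 * (x * y - y * x) - (x * y - y * x) * z2 ∈ J
        have e1 : z2 * (x * y - y * x) - (x * y - y * x) * z2 =
            (y * x * z2 + z2 * x * y) := by
          have t1 := kp_zero hy hz2
          have t2 := kp_zero hz2 hy
          calc z2 * (x * y - y * x) - (x * y - y * x) * z2 =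
            z2 * x * y - (z2 * y) * x - x * (y * z2) + y * x * z2 := by noncomm_ring
          _ = _ := by rw [t1, t2, zero_mul, mul_zero]; abel
        rw [e1]
        exact hn (kp_tri' h hy hx hz2)
    exact hL hu
  have b0 : ∀ u ∈ J, z0 * u - u * z0 ∈ J := by
    intro u hu
    let L : Submodule K (End K V) := J.comap (LinearMap.mulLeft K z0 - LinearMap.mulRight K z0)
    have hL : J ≤ L := by
      rw [hJ]
      refine sup_le (sup_le ?_ ?_) ?_
      · intro u hu
        exact hp (p0 u hu)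
      · intro u hu
        exact hn (n0 u hu)
      · unfold Kz
        rw [Submodule.span_le]
        rintro _ ⟨x, hx, y, hy, rfl⟩
        change z0 * (x * y - y * x) - (x * y - y * x) * z0 ∈ J
        have e1 : z0 * (x * y - y * x) - (x * y - y * x) * z0 =
            ((z0 * x - x * z0) * y - y * (z0 * x - x * z0)) +
            (x * (z0 * y - y * z0) - (z0 * y - y * z0) * x) := by noncomm_ring
        rw [e1]
        exact J.add_mem (hz' (cz _ (p0 x hx) y hy)) (hz' (cz x hx _ (n0 y hy)))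
    exact hL hu
  have h4 : (4 : K) • (z * u - u * z) ∈ J := by
    have e1 : (4 : K) • (z * u - u * z) = (z1 * u - u * z1) + (z2 * u - u * z2) +
        (2 : K) • (z0 * u - u * z0) := by
      have : (4 : K) • (z * u - u * z) = ((4 : K) • z) * u - u * ((4 : K) • z) := by
        rw [smul_mul_assoc, mul_smul_comm, smul_sub]
      rw [this, hzz, add_mul, add_mul, mul_add, mul_add, smul_mul_assoc, mul_smul_comm, smul_sub]
      abel
    rw [e1]
    exact J.add_mem (J.add_mem (b1 u hu) (b2 u hu)) (J.smul_mem _ (b0 u hu))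
  exact (Submodule.smul_mem_iff J (show (4 : K) ≠ 0 by norm_num)).1 h4

include h hs in
/-- Irreducibility of the positive part of the space. -/
theorem irr_plus {D e : End K V} (hD : D ∈ G) (hD2 : D * D = 1) (hgn : G ≤ gn G D)
    (he : e ∈ Kp G D) (he0 : e ≠ 0) {W : Submodule K V} (hW1 : ∀ w ∈ W, D w = w)
    (hW : ∀ x ∈ Kp G D, ∀ y ∈ Kp G (-D), ∀ w ∈ W, x (y w) ∈ W) :
    W = ⊥ ∨ ∀ v, D v = v → v ∈ W := by
  have hJ := kz_idl h hD hD2
  have hDJ : D ∈ Kp G D ⊔ Kp G (-D) ⊔ Kz G D := by
    rcases invol_dich h hs hJ hD hD2 with h1 | h1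
    · exact h1
    · exfalso
      have h2 := h1.2 e (le_sup_left (a := Kp G D ⊔ Kp G (-D)) (le_sup_left (a := Kp G D) he))
      rw [he.2.1, he.2.2] at h2
      apply he0
      have h3 : (2 : K) • e = 0 := by
        rw [two_smul]
        nth_rewrite 1 [h2]
        exact neg_add_cancel _
      exact (smul_eq_zero.1 h3).resolve_left two_ne_zero
  have hGJ : G ≤ Kp G D ⊔ Kp G (-D) ⊔ Kz G D := hgn.trans (gn_le hJ hDJ)
  have hxW : ∀ x ∈ Kp G D, ∀ w ∈ W, x w = 0 := by
    intro x hx w hw
    have h1 : x (D w) = -(x w) := LinearMap.congr_fun hx.2.2 w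
    rw [hW1 w hw] at h1
    have h2 : (2 : K) • x w = 0 := by
      rw [two_smul]
      nth_rewrite 1 [h1]
      exact neg_add_cancel _
    exact (smul_eq_zero.1 h2).resolve_left two_ne_zero
  let U : Submodule K V := Submodule.span K {v | ∃ y ∈ Kp G (-D), ∃ w ∈ W, v = y w}
  have hU : ∀ u ∈ U, D u = -u := by
    intro u hu
    induction hu using Submodule.span_induction with
    | mem x hx =>
      obtain ⟨y, hy, w, hw, rfl⟩ := hx
      exact LinearMap.congr_fun (mem_Kn.1 hy).2.1 w
    | zero => rw [map_zero, neg_zero]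
    | add x y _ _ hx hy => rw [map_add, hx, hy, neg_add]
    | smul c x _ hx => rw [map_smul, hx, smul_neg]
  have hxU : ∀ x ∈ Kp G D, ∀ u ∈ U, x u ∈ W := by
    intro x hx u hu
    induction hu using Submodule.span_induction with
    | mem v hv =>
      obtain ⟨y, hy, w, hw, rfl⟩ := hv
      exact hW x hx y hy w hw
    | zero => rw [map_zero]; exact W.zero_mem
    | add a b _ _ ha hb => rw [map_add]; exact W.add_mem ha hb
    | smul c a _ ha => rw [map_smul]; exact W.smul_mem _ ha
  have hyU : ∀ y ∈ Kp G (-D), ∀ u ∈ U, y u = 0 := by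
    intro y hy u hu
    have h1 : y (D u) = y u := LinearMap.congr_fun (mem_Kn.1 hy).2.2 u
    rw [hU u hu, map_neg] at h1
    have h2 : (2 : K) • y u = 0 := by
      rw [two_smul]
      nth_rewrite 1 [← h1]
      exact neg_add_cancel _
    exact (smul_eq_zero.1 h2).resolve_left two_ne_zero
  have hyW : ∀ y ∈ Kp G (-D), ∀ w ∈ W, y w ∈ U := fun y hy w hw =>
    Submodule.subset_span ⟨y, hy, w, hw, rfl⟩
  have st1 : ∀ x ∈ Kp G D, ∀ w ∈ W ⊔ U, x w ∈ W ⊔ U := by
    intro x hx w hw
    obtain ⟨a, ha, b, hb, rfl⟩ := Submodule.mem_sup.1 hw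
    rw [map_add, hxW x hx a ha, zero_add]
    exact Submodule.mem_sup_left (hxU x hx b hb)
  have st2 : ∀ y ∈ Kp G (-D), ∀ w ∈ W ⊔ U, y w ∈ W ⊔ U := by
    intro x hx w hw
    obtain ⟨a, ha, b, hb, rfl⟩ := Submodule.mem_sup.1 hw
    rw [map_add, hyU x hx b hb, add_zero]
    exact Submodule.mem_sup_right (hyW x hx a ha)
  let S : Submodule K (End K V) :=
    { carrier := {z | ∀ w ∈ W ⊔ U, z w ∈ W ⊔ U}
      zero_mem' := fun w _ => Submodule.zero_mem _
      add_mem' := fun {a b} ha hb w hw => Submodule.add_mem _ (ha w hw) (hb w hw)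
      smul_mem' := fun c a ha w hw => Submodule.smul_mem _ c (ha w hw) }
  have hJS : Kp G D ⊔ Kp G (-D) ⊔ Kz G D ≤ S := by
    refine sup_le (sup_le (fun x hx => st1 x hx) fun x hx => st2 x hx) ?_
    unfold Kz
    rw [Submodule.span_le]
    rintro _ ⟨x, hx, y, hy, rfl⟩ w hw
    change x (y w) - y (x w) ∈ W ⊔ U
    exact Submodule.sub_mem _ (st1 x hx _ (st2 y hy w hw)) (st2 y hy _ (st1 x hx w hw))
  by_cases h0 : W ⊔ U = ⊥
  · left
    rw [← le_bot_iff, ← h0]
    exact le_sup_left
  · right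
    have htop := irr_top h hs (M := W ⊔ U) (fun y hy => hJS (hGJ hy)) h0
    intro v hv
    have hvt : v ∈ W ⊔ U := by rw [htop]; trivial
    obtain ⟨a, ha, b, hb, rfl⟩ := Submodule.mem_sup.1 hvt
    rw [map_add, hW1 a ha, hU b hb] at hv
    have h1 : b = 0 := by
      have h2 : (2 : K) • b = 0 := by
        have h3 : -b = b := add_left_cancel hv
        rw [two_smul]
        nth_rewrite 1 [← h3]
        exact neg_add_cancel _
      exact (smul_eq_zero.1 h2).resolve_left two_ne_zero
    rw [h1, add_zero]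
    exact ha

end Pool.Agent.Y91.JP
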