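import Mathlib
import Pool.Agent.Y91.JP.Jordan

/-!
# Minimal pairs, the Casimir operator
-/

set_option linter.unusedSectionVars false

namespace Pool.Agent.Y91.JP

open Module LinearMap Pool.Agent.W548.Odd

variable {K : Type*} [Field K] [CharZero K] {V : Type*} [AddCommGroup V] [Module K V]
  [FiniteDimensional K V]

/-- Irreducibility of the positive part of the space. -/
def Irr (G : Submodule K (End K V)) (D : End K V) : Prop :=
  ∀ W : Submodule K V, (∀ w ∈ W, D w = w) →
    (∀ x ∈ Kp G D, ∀ y ∈ Kp G (-D), ∀ w ∈ W, x (y w) ∈ W) → W = ⊥ ∨ ∀ v, D v = v → v ∈ W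

/-- Compatibility of the anti-involution with the trace. -/
def TrSt (st : End K V →ₗ[K] End K V) : Prop := ∀ x, trace K V (st x) = trace K V x

/-- A minimal pair. -/
structure MP (G : Submodule K (End K V)) (st : End K V →ₗ[K] End K V)
    (D c d p q : End K V) : Prop where
  cm : c ∈ Kp G D
  dm : d ∈ Kp G (-D)
  cd : c * d = p
  dc : d * c = q
  pc : p * c = c
  dp : d * p = d
  cq : c * q = c
  qd : q * d = d
  pp : p * p = p
  qq : q * q = q
  ne : c ≠ 0
  min : ∀ y ∈ G, ∃ s : K, c * y * c = s • c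
  mx : ∀ x ∈ G, ∃ s : K, p * x * q = s • c
  my : ∀ y ∈ G, ∃ s : K, q * y * p = s • d
  sp : st p = q
  sq : st q = p

variable {G I : Submodule K (End K V)} {st : End K V →ₗ[K] End K V} (h : Setup G st)

theorem kp_sq {D x : End K V} (hx : x ∈ Kp G D) : x * x = 0 := kp_zero hx hx

include h in
theorem MP.mk' {D c d : End K V} (cm : c ∈ Kp G D) (dm : d ∈ Kp G (-D)) (h1 : c * d * c = c)
    (h2 : d * c * d = d) (ne : c ≠ 0) (min : ∀ y ∈ G, ∃ s : K, c * y * c = s • c) :
    MP G st D c d (c * d) (d * c) := by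
  refine ⟨cm, dm, rfl, rfl, h1, ?_, ?_, h2, ?_, ?_, ne, min, ?_, ?_, ?_, ?_⟩
  · rw [← mul_assoc, h2]
  · rw [← mul_assoc, h1]
  · rw [← mul_assoc, h1]
  · rw [← mul_assoc, h2]
  · intro x hx
    obtain ⟨s, hs⟩ := min _ (h.quad dm.1 (kp_sq dm) hx)
    refine ⟨s, ?_⟩
    rw [← hs]
    noncomm_ring
  · intro y hy
    obtain ⟨s, hs⟩ := min y hy
    refine ⟨s, ?_⟩
    calc d * c * y * (c * d) = d * (c * y * c) * d := by noncomm_ring
    _ = s • d := by rw [hs, mul_smul_comm, smul_mul_assoc, h2]
  · rw [h.st_mul, h.skew c cm.1, h.skew d dm.1, neg_mul_neg]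
  · rw [h.st_mul, h.skew c cm.1, h.skew d dm.1, neg_mul_neg]

include h in
/-- Minimal elements of subspaces closed under the quadratic operators. -/
theorem exists_min [IsAlgClosed K] {D : End K V} (hD : D ∈ G) (hD2 : D * D = 1)
    {S : Submodule K (End K V)} (hS : S ≤ Kp G D) (hq : ∀ e ∈ S, ∀ y ∈ G, e * y * e ∈ S)
    {e₀ : End K V} (he₀ : e₀ ∈ S) (h0 : e₀ ≠ 0) :
    ∃ e ∈ S, e ≠ 0 ∧ rk e ≤ rk e₀ ∧ ∀ y ∈ G, ∃ s : K, e * y * e = s • e := by
  classical
  let P : ℕ → Prop := fun n => ∃ e ∈ S, e ≠ 0 ∧ rk e = n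
  have hP : ∃ n, P n := ⟨rk e₀, e₀, he₀, h0, rfl⟩
  obtain ⟨e, heS, hne, hr⟩ := Nat.find_spec hP
  refine ⟨e, heS, hne, hr ▸ Nat.find_min' hP ⟨e₀, he₀, h0, rfl⟩, fun y hy => ?_⟩
  obtain ⟨heG, h1, h2⟩ := hS heS
  have he2 := sq_zero_of_up h1 h2
  obtain ⟨f, hf, -, -, hefe, -⟩ := h.partner hD hD2 heG h1 h2
  set z := e * y * e with hz
  have hzS : z ∈ S := hq e heS y hy
  have hne' : LinearMap.range e ≠ ⊥ := fun h0 => hne (LinearMap.range_eq_bot.1 h0)
  obtain ⟨v, ⟨v', hv'⟩, hv0, s, hs⟩ := exists_eigenvector_mem (z * f) (LinearMap.range e) hne'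
    (fun x _ => ⟨y (e (f x)), by
      rw [hz]
      rfl⟩)
  refine ⟨s, ?_⟩
  by_contra hcon
  have hefv : e (f v) = v := by
    rw [← hv']
    exact LinearMap.congr_fun hefe v'
  have hlt : rk (z - s • e) < rk e := by
    refine rk_lt_of_kernel (v := f v) ?_ ?_ ?_
    · intro w hw
      rw [LinearMap.sub_apply, LinearMap.smul_apply, hw, hz]
      change e (y (e w)) - _ = 0
      rw [hw, map_zero, map_zero, smul_zero, sub_zero]
    · rw [hefv]
      exact hv0
    · rw [LinearMap.sub_apply, LinearMap.smul_apply, hefv]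
      change (z * f) v - _ = 0
      rw [hs, sub_self]
  exact Nat.find_min hP (m := rk (z - s • e)) (hr ▸ hlt)
    ⟨z - s • e, S.sub_mem hzS (S.smul_mem _ heS), sub_ne_zero.2 hcon, rfl⟩

include h in
/-- The partner in the positive part. -/
theorem kp_partner {D x : End K V} (hD : D ∈ G) (hD2 : D * D = 1) (hx : x ∈ Kp G D) :
    ∃ y ∈ Kp G (-D), x * y * x = x ∧ y * x * y = y := by
  obtain ⟨f, hf, h1, h2, h3, h4⟩ := h.partner hD hD2 hx.1 hx.2.1 hx.2.2
  exact ⟨f, mem_Kn.2 ⟨hf, h1, h2⟩, h3, h4⟩

include h in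
theorem kn_partner {D x : End K V} (hD : D ∈ G) (hD2 : D * D = 1) (hx : x ∈ Kp G (-D)) :
    ∃ y ∈ Kp G D, x * y * x = x ∧ y * x * y = y := by
  obtain ⟨y, hy, h1, h2⟩ := kp_partner h (G.neg_mem hD) (by rw [neg_mul_neg, hD2]) hx
  rw [neg_neg_D] at hy
  exact ⟨y, hy, h1, h2⟩

theorem rk_pos_of_ne {x : End K V} (hx : x ≠ 0) : 0 < rk x :=
  Nat.pos_of_ne_zero fun h0 => hx (rk_eq_zero h0)

/-- The trace of `x y` for a pair. -/
theorem trace_pair_ne {x y : End K V} (h1 : x * y * x = x) (hx : x ≠ 0) :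
    trace K V (x * y) ≠ 0 := by
  have h2 : x * y * (x * y) = x * y := by rw [← mul_assoc, h1]
  rw [trace_idem h2]
  have h3 : x * y ≠ 0 := by
    intro h0
    apply hx
    rw [← h1, h0, zero_mul]
  exact_mod_cast (rk_pos_of_ne h3).ne'

include h in
theorem trace_inv {D : End K V} (ht : TrSt st) (hD : D ∈ G) : trace K V D = 0 := by
  have h1 := ht D
  rw [h.skew D hD, map_neg] at h1
  have h2 : (2 : K) * trace K V D = 0 := by linear_combination -h1
  exact (mul_eq_zero.1 h2).resolve_left two_ne_zero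

include h in
/-- The trace identity for a pair. -/
theorem MP.trace_symm {D c d p q x y : End K V} (F : MP G st D c d p q) (ht : TrSt st)
    (hx : x ∈ G) (hy : y ∈ G) : trace K V (p * x * y) = trace K V (x * q * y) := by
  have h1 := ht (p * x * y)
  rw [h.st_mul, h.st_mul, h.skew x hx, h.skew y hy, F.sp] at h1
  rw [← h1]
  have h2 : -y * (-x * q) = y * (x * q) := by noncomm_ring
  rw [h2, LinearMap.trace_mul_comm]

include h in
/-- Representation of functionals. -/
theorem exists_dual {D : End K V} (hD : D ∈ G) (hD2 : D * D = 1) (φ : Kp G D →ₗ[K] K) :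
    ∃ y ∈ Kp G (-D), ∀ x : Kp G D, trace K V ((x : End K V) * y) = φ x := by
  obtain ⟨φ', hφ'⟩ := LinearMap.exists_extend φ
  obtain ⟨a, ha, haz⟩ := exists_repr h.nondeg φ'
  refine ⟨(4 : K)⁻¹ • ((1 - D) * a * (1 + D)), ?_, fun x => ?_⟩
  · refine Submodule.smul_mem _ _ (mem_Kn.2 ⟨h.idl.dn hD hD2 ha, dn_left hD2 a, dn_right hD2 a⟩)
  · have h1 : φ' x = φ x := by
      rw [← hφ']
      rfl
    rw [← h1, haz x x.2.1]
    have e1 : (x : End K V) * (1 - D) = (2 : K) • (x : End K V) := by
      rw [mul_sub, mul_one, x.2.2.2, sub_neg_eq_add, two_smul]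
    have e2 : (1 + D) * (x : End K V) = (2 : K) • (x : End K V) := by
      rw [add_mul, one_mul, x.2.2.1, two_smul]
    have e3 : trace K V ((x : End K V) * ((1 - D) * a * (1 + D))) =
        4 * trace K V (a * (x : End K V)) := by
      calc trace K V ((x : End K V) * ((1 - D) * a * (1 + D))) =
          trace K V (((x : End K V) * (1 - D)) * (a * (1 + D))) := by
            simp only [mul_assoc]
      _ = trace K V ((2 : K) • ((x : End K V) * (a * (1 + D)))) := by
            rw [e1, smul_mul_assoc]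
      _ = 2 * trace K V ((x : End K V) * (a * (1 + D))) := by rw [map_smul, smul_eq_mul]
      _ = 2 * trace K V (a * ((1 + D) * (x : End K V))) := by
            rw [LinearMap.trace_mul_comm, mul_assoc]
      _ = 4 * trace K V (a * (x : End K V)) := by
            rw [e2, mul_smul_comm, map_smul, smul_eq_mul]
            ring
    rw [mul_smul_comm, map_smul, e3, smul_eq_mul, ← mul_assoc, inv_mul_cancel₀ (by norm_num),
      one_mul]

include h in
theorem kn_nondeg {D y : End K V} (hD : D ∈ G) (hD2 : D * D = 1) (hy : y ∈ Kp G (-D))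
    (h0 : ∀ x ∈ Kp G D, trace K V (x * y) = 0) : y = 0 := by
  by_contra hne
  obtain ⟨x, hx, h1, -⟩ := kn_partner h hD hD2 hy
  apply trace_pair_ne h1 hne
  rw [LinearMap.trace_mul_comm]
  exact h0 x hx

/-- The operator `x ↦ (u v x + x v u) / 2` on the positive part. -/
noncomputable def Lop (h : Setup G st) {D u v : End K V} (hu : u ∈ Kp G D) (hv : v ∈ Kp G (-D)) :
    Kp G D →ₗ[K] Kp G D where
  toFun x := ⟨u * v * (x : End K V) + (x : End K V) * v * u, kp_tri h hu hv x.2⟩
  map_add' x y := by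
    apply Subtype.ext
    simp only [Submodule.coe_add, mul_add, add_mul]
    abel
  map_smul' c x := by
    apply Subtype.ext
    simp only [Submodule.coe_smul, mul_smul_comm, smul_mul_assoc, smul_add, RingHom.id_apply]

include h in
/-- **The Casimir step**: if the rank is small then there are elements orthogonal to the pair. -/
theorem MP.exists_orth [IsAlgClosed K] {D c d p q : End K V} (F : MP G st D c d p q)
    (ht : TrSt st) (hD : D ∈ G) (hD2 : D * D = 1) (hirr : Irr G D)
    (hrk : 4 * rk c ≤ finrank K V) :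
    ∃ x ∈ Kp G D, x - p * x - x * q + p * x * q ≠ 0 := by
  classical
  by_contra hcon
  push Not at hcon
  obtain ⟨n, hn⟩ : ∃ n, n = finrank K (Kp G D) := ⟨_, rfl⟩
  let b : Basis (Fin (finrank K (Kp G D))) K (Kp G D) := Module.finBasis K (Kp G D)
  choose b' hb' hbb' using fun i => exists_dual h hD hD2 (b.coord i)
  -- expansions
  have ex1 : ∀ x : Kp G D, (x : End K V) = ∑ j, trace K V ((x : End K V) * b' j) •
      (b j : End K V) := by
    intro x
    have e1 : x = ∑ j, trace K V ((x : End K V) * b' j) • b j := by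
      conv_lhs => rw [← b.sum_repr x]
      refine Finset.sum_congr rfl fun j _ => ?_
      rw [hbb' j x]
      rfl
    conv_lhs => rw [e1]
    rw [Submodule.coe_sum]
    rfl
  have ex2 : ∀ y ∈ Kp G (-D), y = ∑ i, trace K V ((b i : End K V) * y) • b' i := by
    intro y hy
    rw [← sub_eq_zero]
    refine kn_nondeg h hD hD2 (Submodule.sub_mem _ hy (Submodule.sum_mem _ fun i _ =>
      Submodule.smul_mem _ _ (hb' i))) fun x hx => ?_
    rw [mul_sub, map_sub, Finset.mul_sum, map_sum]
    have e1 : trace K V (x * y) = ∑ j, trace K V (x * b' j) * trace K V ((b j : End K V) * y) := by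
      have e2 := ex1 ⟨x, hx⟩
      simp only at e2
      conv_lhs => rw [e2]
      rw [Finset.sum_mul, map_sum]
      refine Finset.sum_congr rfl fun j _ => ?_
      rw [smul_mul_assoc, map_smul, smul_eq_mul]
    rw [e1, sub_eq_zero]
    refine Finset.sum_congr rfl fun j _ => ?_
    rw [mul_smul_comm, map_smul, smul_eq_mul]
    ring
  have trR : ∀ R : Kp G D →ₗ[K] Kp G D, ∑ i, trace K V (((R (b i) : Kp G D) : End K V) * b' i) =
      trace K (Kp G D) R := by
    intro R
    rw [LinearMap.trace_eq_matrix_trace K b R, Matrix.trace]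
    refine Finset.sum_congr rfl fun i _ => ?_
    rw [hbb' i, Matrix.diag_apply, LinearMap.toMatrix_apply]
    rfl
  -- the Casimir operator
  obtain ⟨C, hC⟩ : ∃ C : End K V, C = ∑ i, (b i : End K V) * b' i := ⟨_, rfl⟩
  have hDC : D * C = C := by
    rw [hC, Finset.mul_sum]
    refine Finset.sum_congr rfl fun i _ => ?_
    rw [← mul_assoc, (b i).2.2.1]
  have hCD : C * D = C := by
    rw [hC, Finset.sum_mul]
    refine Finset.sum_congr rfl fun i _ => ?_
    rw [mul_assoc, (mem_Kn.1 (hb' i)).2.2]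
  have hcomm : ∀ u ∈ Kp G D, ∀ v ∈ Kp G (-D), u * v * C = C * (u * v) := by
    intro u hu v hv
    have k1 : ∑ i, (u * v * (b i : End K V) + (b i : End K V) * v * u) * b' i =
        ∑ j, (b j : End K V) * (b' j * u * v + v * u * b' j) := by
      have t1 : ∀ i, u * v * (b i : End K V) + (b i : End K V) * v * u =
          ∑ j, trace K V ((u * v * (b i : End K V) + (b i : End K V) * v * u) * b' j) •
            (b j : End K V) := fun i => ex1 ⟨_, kp_tri h hu hv (b i).2⟩
      have t2 : ∀ j, b' j * u * v + v * u * b' j =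
          ∑ i, trace K V ((b i : End K V) * (b' j * u * v + v * u * b' j)) • b' i := fun j =>
        ex2 _ (kp_tri' h (hb' j) hu hv)
      have t3 : ∀ i j, trace K V ((u * v * (b i : End K V) + (b i : End K V) * v * u) * b' j) =
          trace K V ((b i : End K V) * (b' j * u * v + v * u * b' j)) := by
        intro i j
        have s1 : u * v * (b i : End K V) * b' j = (u * v) * ((b i : End K V) * b' j) := by
          noncomm_ring
        have s2 : (b i : End K V) * (b' j * u * v) = ((b i : End K V) * b' j) * (u * v) := by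
          noncomm_ring
        have s3 : (b i : End K V) * v * u * b' j = (b i : End K V) * (v * u * b' j) := by
          noncomm_ring
        rw [add_mul, mul_add, map_add, map_add, s1, s2, s3, LinearMap.trace_mul_comm]
      calc ∑ i, (u * v * (b i : End K V) + (b i : End K V) * v * u) * b' i =
          ∑ i, ∑ j, (trace K V ((u * v * (b i : End K V) + (b i : End K V) * v * u) * b' j) •
            (b j : End K V)) * b' i := by
            refine Finset.sum_congr rfl fun i _ => ?_
            conv_lhs => rw [t1 i]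
            rw [Finset.sum_mul]
      _ = ∑ j, ∑ i, (trace K V ((u * v * (b i : End K V) + (b i : End K V) * v * u) * b' j) •
            (b j : End K V)) * b' i := Finset.sum_comm
      _ = ∑ j, (b j : End K V) * (b' j * u * v + v * u * b' j) := by
            refine Finset.sum_congr rfl fun j _ => ?_
            conv_rhs => rw [t2 j]
            rw [Finset.mul_sum]
            refine Finset.sum_congr rfl fun i _ => ?_
            rw [t3, smul_mul_assoc, mul_smul_comm]
    have k2 : u * v * C = ∑ i, (u * v * (b i : End K V) + (b i : End K V) * v * u) * b' i -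
        ∑ i, (b i : End K V) * (v * u) * b' i := by
      rw [hC, Finset.mul_sum, ← Finset.sum_sub_distrib]
      refine Finset.sum_congr rfl fun i _ => ?_
      noncomm_ring
    have k3 : C * (u * v) = ∑ j, (b j : End K V) * (b' j * u * v + v * u * b' j) -
        ∑ i, (b i : End K V) * (v * u) * b' i := by
      rw [hC, Finset.sum_mul, ← Finset.sum_sub_distrib]
      refine Finset.sum_congr rfl fun i _ => ?_
      noncomm_ring
    rw [k2, k3, k1]
  -- it is a scalar on the positive part
  let M : Submodule K V := LinearMap.ker (D - 1)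
  have hM : ∀ v, v ∈ M ↔ D v = v := by
    intro v
    rw [LinearMap.mem_ker, LinearMap.sub_apply, sub_eq_zero]
    rfl
  obtain ⟨w0, hw0⟩ : ∃ w, c w ≠ 0 := by
    by_contra hc
    push Not at hc
    exact F.ne (LinearMap.ext hc)
  have hMne : M ≠ ⊥ := by
    intro h0
    have h1 : c w0 ∈ M := (hM _).2 (LinearMap.congr_fun F.cm.2.1 w0)
    rw [h0] at h1
    exact hw0 h1
  obtain ⟨v0, hv0M, hv0, l, hl⟩ := exists_eigenvector_mem C M hMne fun x hx =>
    (hM _).2 (LinearMap.congr_fun hDC x)
  let W : Submodule K V := M ⊓ LinearMap.ker (C - l • 1)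
  have hW : ∀ v, v ∈ W ↔ D v = v ∧ C v = l • v := by
    intro v
    change v ∈ M ∧ v ∈ LinearMap.ker (C - l • (1 : End K V)) ↔ _
    rw [hM, LinearMap.mem_ker, LinearMap.sub_apply, sub_eq_zero]
    rfl
  have hall : ∀ v, D v = v → C v = l • v := by
    have hst : ∀ x ∈ Kp G D, ∀ y ∈ Kp G (-D), ∀ w ∈ W, x (y w) ∈ W := by
      intro x hx y hy w hw
      refine (hW _).2 ⟨LinearMap.congr_fun hx.2.1 (y w), ?_⟩
      have h1 : C (x (y w)) = x (y (C w)) := (LinearMap.congr_fun (hcomm x hx y hy) w).symm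
      rw [h1, ((hW w).1 hw).2, map_smul, map_smul]
    rcases hirr W (fun w hw => ((hW w).1 hw).1) hst with h1 | h1
    · exfalso
      have h2 : v0 ∈ W := (hW _).2 ⟨(hM _).1 hv0M, hl⟩
      rw [h1] at h2
      exact hv0 h2
    · exact fun v hv => ((hW v).1 (h1 v hv)).2
  have hCl : C = (l * 2⁻¹) • (1 + D) := by
    refine LinearMap.ext fun v => ?_
    have h1 : (1 + D) * D = 1 + D := by rw [add_mul, one_mul, hD2, add_comm]
    have h2 : D ((1 + D) v) = (1 + D) v := by
      have h3 : D * (1 + D) = 1 + D := by rw [mul_add, mul_one, hD2, add_comm]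
      exact LinearMap.congr_fun h3 v
    have h3 := hall _ h2
    have h4 : C ((1 + D) v) = (2 : K) • C v := by
      have h5 : C * (1 + D) = (2 : K) • C := by rw [mul_add, mul_one, hCD, two_smul]
      exact LinearMap.congr_fun h5 v
    rw [h4] at h3
    rw [LinearMap.smul_apply, mul_comm, mul_smul, ← h3, smul_smul,
      inv_mul_cancel₀ two_ne_zero, one_smul]
  have hDp : D * p = p := by rw [← F.cd, ← mul_assoc, F.cm.2.1]
  have hCp : C * p = l • p := by
    rw [hCl, smul_mul_assoc, add_mul, one_mul, hDp, ← two_smul K p, smul_smul, mul_assoc,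
      inv_mul_cancel₀ two_ne_zero, mul_one]
  have hmp : trace K V p = (rk c : K) := by
    rw [trace_idem F.pp]
    congr 1
    apply le_antisymm
    · rw [← F.cd]
      exact rk_mul_le_left _ _
    · conv_lhs => rw [← F.pc]
      exact rk_mul_le_left _ _
  -- the traces
  have tr1 : (finrank K (Kp G D) : K) = l * 2⁻¹ * (finrank K V : K) := by
    have h1 := trR LinearMap.id
    rw [LinearMap.trace_id] at h1
    have h2 : ∑ i, trace K V ((((LinearMap.id : Kp G D →ₗ[K] Kp G D) (b i) : Kp G D) :
        End K V) * b' i) = trace K V C := by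
      rw [hC, map_sum]
      rfl
    rw [h2, hCl, map_smul, map_add, LinearMap.trace_one, trace_inv h ht hD, add_zero,
      smul_eq_mul] at h1
    exact h1.symm
  have hL : trace K (Kp G D) (Lop h F.cm F.dm) = 2 * (l * (rk c : K)) := by
    rw [← trR, ← hmp, ← smul_eq_mul l, ← map_smul, ← hCp, LinearMap.trace_mul_comm, hC,
      Finset.mul_sum, map_sum, Finset.mul_sum]
    refine Finset.sum_congr rfl fun i _ => ?_
    change trace K V ((c * d * (b i : End K V) + (b i : End K V) * d * c) * b' i) = _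
    have e1 : (b i : End K V) * d * c = (b i : End K V) * q := by rw [mul_assoc, F.dc]
    rw [F.cd, e1, add_mul, map_add, ← F.trace_symm h ht (b i).2.1 (mem_Kn.1 (hb' i)).1,
      ← two_mul, mul_assoc p]
  -- the rank one operator
  have hm0 : (rk c : K) ≠ 0 := by exact_mod_cast (rk_pos_of_ne F.ne).ne'
  let φ : Kp G D →ₗ[K] K := (rk c : K)⁻¹ • ((trace K V).comp ((LinearMap.mulRight K d).comp
    (Kp G D).subtype))
  have hφ : ∀ x : Kp G D, φ x = (rk c : K)⁻¹ * trace K V ((x : End K V) * d) := fun _ => rfl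
  have hLid : Lop h F.cm F.dm = LinearMap.id + φ.smulRight (⟨c, F.cm⟩ : Kp G D) := by
    refine LinearMap.ext fun x => Subtype.ext ?_
    change c * d * (x : End K V) + (x : End K V) * d * c =
      (x : End K V) + φ x • c
    have e1 : (x : End K V) * d * c = (x : End K V) * q := by rw [mul_assoc, F.dc]
    have e2 := hcon x x.2
    have e3 : p * (x : End K V) + (x : End K V) * q = (x : End K V) + p * (x : End K V) * q := by
      rw [← sub_eq_zero, ← neg_eq_zero, ← e2]
      abel
    rw [F.cd, e1, e3]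
    congr 1
    obtain ⟨s, hs⟩ := F.mx x x.2.1
    rw [hs]
    congr 1
    rw [hφ]
    have e4 : trace K V ((x : End K V) * d) = s * (rk c : K) := by
      have e5 : trace K V (p * (x : End K V) * q * d) = s * (rk c : K) := by
        rw [hs, smul_mul_assoc, map_smul, F.cd, hmp, smul_eq_mul]
      rw [← e5, mul_assoc (p * (x : End K V)) q d, F.qd, mul_assoc, LinearMap.trace_mul_comm K p,
        mul_assoc, F.dp]
    rw [e4, mul_comm s, ← mul_assoc, inv_mul_cancel₀ hm0, one_mul]
  have htrL : trace K (Kp G D) (Lop h F.cm F.dm) = (finrank K (Kp G D) : K) + 1 := by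
    rw [hLid, map_add, LinearMap.trace_id, LinearMap.trace_smulRight, hφ]
    change _ + (rk c : K)⁻¹ * trace K V (c * d) = _
    rw [F.cd, hmp, inv_mul_cancel₀ hm0]
  rw [hL, ← hn] at htrL
  rw [← hn] at tr1
  have key : (4 * n * rk c : K) = (n + 1) * (finrank K V : K) := by
    have h2 : (2 : K) * 2⁻¹ = 1 := mul_inv_cancel₀ two_ne_zero
    linear_combination (4 * (rk c : K)) * tr1 + (finrank K V : K) * htrL -
      (- 2 * l * (rk c : K) * (finrank K V : K)) * h2 * 1 - 4 * l * (rk c : K) * (finrank K V : K) * h2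
  have key' : 4 * n * rk c = (n + 1) * finrank K V := by exact_mod_cast key
  have hm : 0 < rk c := rk_pos_of_ne F.ne
  nlinarith

end Pool.Agent.Y91.JP
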