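import Mathlib
import Pool.Agent.Y91.JP.Pairs

/-!
# Stable subspaces attached to a minimal pair
-/

set_option linter.unusedSectionVars false

namespace Pool.Agent.Y91.JP

open Module LinearMap Pool.Agent.W548.Odd

variable {K : Type*} [Field K] [CharZero K] {V : Type*} [AddCommGroup V] [Module K V]
  [FiniteDimensional K V]

variable {G I : Submodule K (End K V)} {st : End K V →ₗ[K] End K V} (h : Setup G st)

namespace MP

variable {D c d p q : End K V} (F : MP G st D c d p q)

include h F

/-- The components of degree one. -/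
theorem comp_one {x : End K V} (hx : x ∈ Kp G D) :
    ∃ u ∈ Kp G D, ∃ s : K, p * x = p * u + s • c ∧ p * u * d = 0 ∧ u = p * u + u * d * c ∧
      p * x * q = s • c ∧ u = p * x + x * q - (2 : K) • (p * x * q) := by
  obtain ⟨s, hs⟩ := F.mx x hx.1
  have hq : ∀ y, x * d * c = y → x * q = y := fun y hy => by rw [← F.dc, ← mul_assoc, hy]
  have h0 : p * x + x * q ∈ Kp G D := by
    have h1 := kp_tri h F.cm F.dm hx
    rwa [F.cd, mul_assoc x, F.dc] at h1
  have e1 : p * (p * x) = p * x := by rw [← mul_assoc, F.pp]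
  have e2 : x * q * q = x * q := by rw [mul_assoc, F.qq]
  refine ⟨p * x + x * q - (2 : K) • (p * x * q), ?_, s, ?_, ?_, ?_, hs, rfl⟩
  · rw [hs]
    exact (Kp G D).sub_mem h0 ((Kp G D).smul_mem _ ((Kp G D).smul_mem _ F.cm))
  · have e3 : p * (p * x + x * q - (2 : K) • (p * x * q)) = p * x - p * x * q := by
      rw [mul_sub, mul_add, mul_smul_comm, e1, ← mul_assoc p x q, ← mul_assoc p (p * x) q, e1,
        two_smul]
      abel
    rw [e3, hs]
    abel
  · have e3 : p * (p * x + x * q - (2 : K) • (p * x * q)) = p * x - p * x * q := by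
      rw [mul_sub, mul_add, mul_smul_comm, e1, ← mul_assoc p x q, ← mul_assoc p (p * x) q, e1,
        two_smul]
      abel
    rw [e3, sub_mul, mul_assoc (p * x) q d, F.qd, sub_self]
  · have e3 : p * (p * x + x * q - (2 : K) • (p * x * q)) = p * x - p * x * q := by
      rw [mul_sub, mul_add, mul_smul_comm, e1, ← mul_assoc p x q, ← mul_assoc p (p * x) q, e1,
        two_smul]
      abel
    have e4 : (p * x + x * q - (2 : K) • (p * x * q)) * q = x * q - p * x * q := by
      rw [sub_mul, add_mul, smul_mul_assoc, mul_assoc (p * x) q q, F.qq, e2, two_smul]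
      abel
    rw [e3, mul_assoc _ d c, F.dc, e4, two_smul]
    abel

/-- The stable subspace attached to a subspace of the range of `p`. -/
theorem stab {U : Submodule K V}
    (hU : ∀ x ∈ Kp G D, ∀ y ∈ Kp G (-D), ∀ v ∈ U, p (x (y v)) ∈ U)
    {v : V} (hv : ∀ x ∈ Kp G D, ∀ y ∈ Kp G (-D), p (x (y v)) ∈ U)
    {x' y' : End K V} (hx' : x' ∈ Kp G D) (hy' : y' ∈ Kp G (-D)) :
    ∀ x ∈ Kp G D, ∀ y ∈ Kp G (-D), p (x (y (x' (y' v)))) ∈ U := by
  intro x hx y hy
  obtain ⟨w, hw⟩ : ∃ w, w = y' v := ⟨_, rfl⟩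
  have A : ∀ x'' ∈ Kp G D, p (x'' w) ∈ U := fun x'' hx'' => by rw [hw]; exact hv x'' hx'' y' hy'
  rw [← hw]
  have hcw : c w ∈ U := by
    have h1 := A c F.cm
    have h2 : p (c w) = c w := LinearMap.congr_fun F.pc w
    rwa [h2] at h1
  obtain ⟨u, hu, s, e1, e2, e3, -⟩ := F.comp_one h hx
  have t1 := A _ (kp_tri h F.cm hy hx')
  have t2 := hU x' hx' y hy _ hcw
  have t3 := A _ (kp_tri h hu hy hx')
  have t4 := hU x' hx' y hy _ (A u hu)
  have t5 := hU _ (kp_tri h hx' hy hu) d F.dm _ hcw
  have t6 := hU u hu _ (kp_tri' h hy hx' F.dm) _ hcw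
  have key : p * x * y * x' = s • (p * (c * y * x' + x' * y * c) - p * x' * y * c) +
      (p * (u * y * x' + x' * y * u) - (p * x' * y * p * u +
        (p * (x' * y * u + u * y * x') * d * c - p * u * (y * x' * d + d * x' * y) * c))) := by
    have k1 : p * x * y * x' = p * u * y * x' + s • (c * y * x') := by
      rw [e1, add_mul, add_mul, smul_mul_assoc, smul_mul_assoc]
    have k2 : p * (c * y * x' + x' * y * c) - p * x' * y * c = c * y * x' := by
      have : p * (c * y * x' + x' * y * c) - p * x' * y * c = (p * c) * y * x' := by noncomm_ring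
      rw [this, F.pc]
    have k3 : p * u * (y * x' * d + d * x' * y) * c = p * u * y * x' * d * c := by
      have : p * u * (y * x' * d + d * x' * y) * c = p * u * y * x' * d * c +
          (p * u * d) * x' * y * c := by noncomm_ring
      rw [this, e2]
      simp
    have k4 : p * (x' * y * u + u * y * x') * d * c - p * u * y * x' * d * c =
        p * x' * y * (u * d * c) := by noncomm_ring
    have k5 : p * x' * y * p * u + p * x' * y * (u * d * c) = p * x' * y * u := by
      have : p * x' * y * p * u + p * x' * y * (u * d * c) = p * x' * y * (p * u + u * d * c) := by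
        noncomm_ring
      rw [this, ← e3]
    rw [k2, k3, k4, k5, k1]
    noncomm_ring
  have key' := LinearMap.congr_fun key w
  have key2 : p (x (y (x' w))) = s • (p ((c * y * x' + x' * y * c) w) - p (x' (y (c w)))) +
      (p ((u * y * x' + x' * y * u) w) - (p (x' (y (p (u w)))) +
        (p ((x' * y * u + u * y * x') (d (c w))) - p (u ((y * x' * d + d * x' * y) (c w)))))) :=
    key'
  rw [key2]
  exact U.add_mem (U.smul_mem _ (U.sub_mem t1 t2)) (U.sub_mem t3 (U.add_mem t4 (U.sub_mem t5 t6)))

/-- Irreducibility of the range of `p`. -/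
theorem irr_one (hirr : Irr G D) {U : Submodule K V}
    (hU : ∀ x ∈ Kp G D, ∀ y ∈ Kp G (-D), ∀ v ∈ U, p (x (y v)) ∈ U) :
    ({v | D v = v ∧ ∀ x ∈ Kp G D, ∀ y ∈ Kp G (-D), p (x (y v)) ∈ U} = ({0} : Set V)) ∨
      ∀ v, p v = v → v ∈ U := by
  let W : Submodule K V :=
    { carrier := {v | D v = v ∧ ∀ x ∈ Kp G D, ∀ y ∈ Kp G (-D), p (x (y v)) ∈ U}
      zero_mem' := ⟨map_zero D, fun x _ y _ => by
        rw [map_zero, map_zero, map_zero]
        exact U.zero_mem⟩
      add_mem' := fun {a b} ha hb => ⟨by rw [map_add, ha.1, hb.1], fun x hx y hy => by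
        rw [map_add, map_add, map_add]
        exact U.add_mem (ha.2 x hx y hy) (hb.2 x hx y hy)⟩
      smul_mem' := fun t a ha => ⟨by rw [map_smul, ha.1], fun x hx y hy => by
        rw [map_smul, map_smul, map_smul]
        exact U.smul_mem t (ha.2 x hx y hy)⟩ }
  have hst : ∀ x ∈ Kp G D, ∀ y ∈ Kp G (-D), ∀ w ∈ W, x (y w) ∈ W := by
    rintro x hx y hy w ⟨-, hw⟩
    exact ⟨LinearMap.congr_fun hx.2.1 (y w), F.stab h hU hw hx hy⟩
  rcases hirr W (fun w hw => hw.1) hst with h1 | h1
  · left
    have h2 : (W : Set V) = {0} := by rw [h1]; rfl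
    exact h2
  · right
    intro v hv
    have hDv : D v = v := by
      rw [← hv]
      have : D * p = p := by rw [← F.cd, ← mul_assoc, F.cm.2.1]
      exact LinearMap.congr_fun this v
    have h2 := (h1 v hDv).2 c F.cm d F.dm
    have h3 : p (c (d v)) = v := by
      have : p * (c * d) = p := by rw [F.cd, F.pp]
      have h4 : (p * (c * d)) v = p v := by rw [this]
      rw [hv] at h4
      exact h4
    rwa [h3] at h2

end MP

end Pool.Agent.Y91.JP
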