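import Mathlib
import Pool.Agent.Y91.JP.Stab

/-!
# Two orthogonal minimal pairs
-/

set_option linter.unusedSectionVars false

namespace Pool.Agent.Y91.JP

open Module LinearMap Pool.Agent.W548.Odd

variable {K : Type*} [Field K] [CharZero K] {V : Type*} [AddCommGroup V] [Module K V]
  [FiniteDimensional K V]

/-- Two orthogonal minimal pairs. -/
structure Two (G : Submodule K (End K V)) (st : End K V →ₗ[K] End K V)
    (D c1 d1 p1 q1 c2 d2 p2 q2 : End K V) : Prop where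
  A : MP G st D c1 d1 p1 q1
  B : MP G st D c2 d2 p2 q2
  pc : p1 * c2 = 0
  cq : c2 * q1 = 0
  qd : q1 * d2 = 0
  dp : d2 * p1 = 0

variable {G I : Submodule K (End K V)} {st : End K V →ₗ[K] End K V} (h : Setup G st)

namespace Two

variable {D c1 d1 p1 q1 c2 d2 p2 q2 : End K V} (F : Two G st D c1 d1 p1 q1 c2 d2 p2 q2)

include F

theorem d1c2 : d1 * c2 = 0 := by rw [← F.A.dp, mul_assoc, F.pc, mul_zero]
theorem c2d1 : c2 * d1 = 0 := by rw [← F.A.qd, ← mul_assoc, F.cq, zero_mul]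
theorem c1d2 : c1 * d2 = 0 := by rw [← F.A.cq, mul_assoc, F.qd, mul_zero]
theorem d2c1 : d2 * c1 = 0 := by rw [← F.A.pc, ← mul_assoc, F.dp, zero_mul]
theorem p1p2 : p1 * p2 = 0 := by rw [← F.B.cd, ← mul_assoc, F.pc, zero_mul]
theorem p2p1 : p2 * p1 = 0 := by rw [← F.B.cd, mul_assoc, F.dp, mul_zero]
theorem q1q2 : q1 * q2 = 0 := by rw [← F.B.dc, ← mul_assoc, F.qd, zero_mul]
theorem q2q1 : q2 * q1 = 0 := by rw [← F.B.dc, mul_assoc, F.cq, mul_zero]
theorem p2c1 : p2 * c1 = 0 := by rw [← F.B.cd, mul_assoc, F.d2c1, mul_zero]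
theorem c1q2 : c1 * q2 = 0 := by rw [← F.B.dc, ← mul_assoc, F.c1d2, zero_mul]
theorem q2d1 : q2 * d1 = 0 := by rw [← F.B.dc, mul_assoc, F.c2d1, mul_zero]
theorem d1p2 : d1 * p2 = 0 := by rw [← F.B.cd, ← mul_assoc, F.d1c2, zero_mul]

end Two

include h in
/-- The second pair. -/
theorem MP.exists_two [IsAlgClosed K] {D c d p q : End K V} (F : MP G st D c d p q)
    (hD : D ∈ G) (hD2 : D * D = 1)
    (hx : ∃ x ∈ Kp G D, x - p * x - x * q + p * x * q ≠ 0) :
    ∃ c2 d2 p2 q2, Two G st D c d p q c2 d2 p2 q2 := by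
  obtain ⟨x, hxK, hx0⟩ := hx
  let S : Submodule K (End K V) :=
    { carrier := {x | x ∈ Kp G D ∧ p * x = 0 ∧ x * q = 0}
      zero_mem' := ⟨Submodule.zero_mem _, mul_zero _, zero_mul _⟩
      add_mem' := fun {a b} ha hb => ⟨Submodule.add_mem _ ha.1 hb.1, by
        rw [mul_add, ha.2.1, hb.2.1, add_zero], by rw [add_mul, ha.2.2, hb.2.2, add_zero]⟩
      smul_mem' := fun t a ha => ⟨Submodule.smul_mem _ t ha.1, by
        rw [mul_smul_comm, ha.2.1, smul_zero], by rw [smul_mul_assoc, ha.2.2, smul_zero]⟩ }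
  have hxS : x - p * x - x * q + p * x * q ∈ S := by
    have h1 : p * x + x * q ∈ Kp G D := by
      have h1 := kp_tri h F.cm F.dm hxK
      rwa [F.cd, mul_assoc x, F.dc] at h1
    obtain ⟨s, hs⟩ := F.mx x hxK.1
    refine ⟨?_, ?_, ?_⟩
    · have h2 : x - p * x - x * q + p * x * q = x - (p * x + x * q) + s • c := by
        rw [hs]
        abel
      rw [h2]
      exact Submodule.add_mem _ (Submodule.sub_mem _ hxK h1) (Submodule.smul_mem _ _ F.cm)
    · have h2 : p * (x - p * x - x * q + p * x * q) = p * x - (p * p) * x - p * x * q +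
          (p * p) * x * q := by noncomm_ring
      rw [h2, F.pp]
      abel
    · have h2 : (x - p * x - x * q + p * x * q) * q = x * q - p * x * q - x * (q * q) +
          p * x * (q * q) := by noncomm_ring
      rw [h2, F.qq]
      abel
  obtain ⟨c2, ⟨hc2, hpc, hcq⟩, hne, -, hmin⟩ := exists_min h hD hD2 (S := S) (fun x hx => hx.1) (by
    rintro e ⟨he, h1, h2⟩ y hy
    refine ⟨⟨h.quad he.1 (kp_sq he) hy, ?_, ?_⟩, ?_, ?_⟩
    · rw [← mul_assoc, ← mul_assoc, he.2.1]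
    · rw [mul_assoc, he.2.2, mul_neg]
    · rw [← mul_assoc, ← mul_assoc, h1, zero_mul, zero_mul]
    · rw [mul_assoc, h2, mul_zero]) hxS hx0
  obtain ⟨y, hy, h1, h2⟩ := kp_partner h hD hD2 hc2
  obtain ⟨z, hz⟩ : ∃ z, z = (1 - q) * y * (1 - p) := ⟨_, rfl⟩
  have hcz : c2 * (1 - q) = c2 := by rw [mul_sub, mul_one, hcq, sub_zero]
  have hpz : (1 - p) * c2 = c2 := by rw [sub_mul, one_mul, hpc, sub_zero]
  have hqz : q * (1 - q) = 0 := by rw [mul_sub, mul_one, F.qq, sub_self]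
  have hzp : (1 - p) * p = 0 := by rw [sub_mul, one_mul, F.pp, sub_self]
  have hzm : z ∈ Kp G (-D) := by
    have h3 : q * y + y * p ∈ Kp G (-D) := by
      have h4 := kp_tri' h F.dm F.cm hy
      rwa [F.dc, mul_assoc y, F.cd] at h4
    obtain ⟨s, hs⟩ := F.my y hy.1
    have h4 : z = y - (q * y + y * p) + s • d := by
      rw [← hs, hz]
      noncomm_ring
    rw [h4]
    exact Submodule.add_mem _ (Submodule.sub_mem _ hy h3) (Submodule.smul_mem _ _ F.dm)
  have h3 : c2 * z * c2 = c2 := by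
    calc c2 * z * c2 = (c2 * (1 - q)) * y * ((1 - p) * c2) := by rw [hz]; noncomm_ring
    _ = c2 := by rw [hcz, hpz, h1]
  have h4 : z * c2 * z = z := by
    calc z * c2 * z = (1 - q) * y * ((1 - p) * c2) * (1 - q) * y * (1 - p) := by
          rw [hz]; noncomm_ring
    _ = (1 - q) * y * (c2 * (1 - q)) * y * (1 - p) := by rw [hpz]; noncomm_ring
    _ = (1 - q) * (y * c2 * y) * (1 - p) := by rw [hcz]; noncomm_ring
    _ = z := by rw [h2, hz]
  refine ⟨c2, z, _, _, F, MP.mk' h hc2 hzm h3 h4 hne hmin, hpc, hcq, ?_, ?_⟩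
  · rw [hz, ← mul_assoc, ← mul_assoc, hqz, zero_mul, zero_mul]
  · rw [hz, mul_assoc, hzp, mul_zero]

/-- The mixed elements. -/
def Co (G : Submodule K (End K V)) (D p1 q1 p2 q2 a : End K V) : Prop :=
  a ∈ Kp G D ∧ p1 * a = a * q2 ∧ p2 * a = a * q1 ∧ p1 * a + p2 * a = a

/-- Two pairs connected by an invertible element. -/
structure Fra (G : Submodule K (End K V)) (st : End K V →ₗ[K] End K V)
    (D c1 d1 p1 q1 c2 d2 p2 q2 a : End K V) : Prop where
  T : Two G st D c1 d1 p1 q1 c2 d2 p2 q2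
  co : Co G D p1 q1 p2 q2 a
  ada : a * d2 * a = c1
  ada' : a * d1 * a = c2

namespace Two

variable {D c1 d1 p1 q1 c2 d2 p2 q2 : End K V} (F : Two G st D c1 d1 p1 q1 c2 d2 p2 q2)

include h F

/-- The two pairs are connected. -/
theorem connected (hirr : Irr G D) : ∃ x ∈ Kp G D, p1 * x * q2 ≠ 0 := by
  by_contra hcon
  push Not at hcon
  obtain ⟨w1, hw1⟩ : ∃ w, c1 w ≠ 0 := by
    by_contra hc
    push Not at hc
    exact F.A.ne (LinearMap.ext hc)
  obtain ⟨w2, hw2⟩ : ∃ w, c2 w ≠ 0 := by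
    by_contra hc
    push Not at hc
    exact F.B.ne (LinearMap.ext hc)
  rcases F.A.irr_one h hirr (U := ⊥) (fun x _ y _ v hv => by
    rw [(Submodule.mem_bot K).1 hv, map_zero, map_zero, map_zero]
    exact Submodule.zero_mem _) with h1 | h1
  · have h2 : c2 w2 ∈ ({0} : Set V) := by
      rw [← h1]
      refine ⟨LinearMap.congr_fun F.B.cm.2.1 w2, fun x hx y hy => ?_⟩
      rw [Submodule.mem_bot]
      have h3 := hcon _ (kp_tri h hx hy F.B.cm)
      have h4 : p1 * (x * y * c2 + c2 * y * x) * q2 = p1 * x * y * (c2 * q2) +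
          (p1 * c2) * y * x * q2 := by noncomm_ring
      rw [h4, F.pc, F.B.cq, zero_mul, zero_mul, zero_mul, add_zero] at h3
      exact LinearMap.congr_fun h3 w2
    exact hw2 h2
  · have h2 := h1 (c1 w1) (LinearMap.congr_fun F.A.pc w1)
    exact hw1 ((Submodule.mem_bot K).1 h2)

theorem co_of {x : End K V} (hx : x ∈ Kp G D) :
    Co G D p1 q1 p2 q2 (p1 * x * q2 + p2 * x * q1) := by
  refine ⟨?_, ?_, ?_, ?_⟩
  · have h1 : p2 * x + x * q2 ∈ Kp G D := by
      have h1 := kp_tri h F.B.cm F.B.dm hx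
      rwa [F.B.cd, mul_assoc x, F.B.dc] at h1
    have h2 : p1 * (p2 * x + x * q2) + (p2 * x + x * q2) * q1 ∈ Kp G D := by
      have h2 := kp_tri h F.A.cm F.A.dm h1
      rwa [F.A.cd, mul_assoc (p2 * x + x * q2), F.A.dc] at h2
    have h3 : p1 * (p2 * x + x * q2) + (p2 * x + x * q2) * q1 =
        (p1 * p2) * x + p1 * x * q2 + p2 * x * q1 + x * (q2 * q1) := by noncomm_ring
    rw [h3, F.p1p2, F.q2q1, zero_mul, mul_zero, zero_add, add_zero] at h2
    exact h2
  · have e1 : p1 * (p1 * x * q2 + p2 * x * q1) = (p1 * p1) * x * q2 + (p1 * p2) * x * q1 := by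
      noncomm_ring
    have e2 : (p1 * x * q2 + p2 * x * q1) * q2 = p1 * x * (q2 * q2) + p2 * x * (q1 * q2) := by
      noncomm_ring
    rw [e1, e2, F.A.pp, F.p1p2, F.B.qq, F.q1q2]
    simp
  · have e1 : p2 * (p1 * x * q2 + p2 * x * q1) = (p2 * p1) * x * q2 + (p2 * p2) * x * q1 := by
      noncomm_ring
    have e2 : (p1 * x * q2 + p2 * x * q1) * q1 = p1 * x * (q2 * q1) + p2 * x * (q1 * q1) := by
      noncomm_ring
    rw [e1, e2, F.B.pp, F.p2p1, F.A.qq, F.q2q1]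
    simp
  · have e1 : p1 * (p1 * x * q2 + p2 * x * q1) = (p1 * p1) * x * q2 + (p1 * p2) * x * q1 := by
      noncomm_ring
    have e2 : p2 * (p1 * x * q2 + p2 * x * q1) = (p2 * p1) * x * q2 + (p2 * p2) * x * q1 := by
      noncomm_ring
    rw [e1, e2, F.A.pp, F.p1p2, F.B.pp, F.p2p1]
    simp

theorem co_tri {y : End K V} (hy : y ∈ Kp G (-D)) :
    Co G D p1 q1 p2 q2 (c1 * y * c2 + c2 * y * c1) := by
  refine ⟨kp_tri h F.A.cm hy F.B.cm, ?_, ?_, ?_⟩
  · have e1 : p1 * (c1 * y * c2 + c2 * y * c1) = (p1 * c1) * y * c2 + (p1 * c2) * y * c1 := by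
      noncomm_ring
    have e2 : (c1 * y * c2 + c2 * y * c1) * q2 = c1 * y * (c2 * q2) + c2 * y * (c1 * q2) := by
      noncomm_ring
    rw [e1, e2, F.A.pc, F.pc, F.B.cq, F.c1q2]
    simp
  · have e1 : p2 * (c1 * y * c2 + c2 * y * c1) = (p2 * c1) * y * c2 + (p2 * c2) * y * c1 := by
      noncomm_ring
    have e2 : (c1 * y * c2 + c2 * y * c1) * q1 = c1 * y * (c2 * q1) + c2 * y * (c1 * q1) := by
      noncomm_ring
    rw [e1, e2, F.p2c1, F.B.pc, F.cq, F.A.cq]
    simp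
  · have e1 : p1 * (c1 * y * c2 + c2 * y * c1) = (p1 * c1) * y * c2 + (p1 * c2) * y * c1 := by
      noncomm_ring
    have e2 : p2 * (c1 * y * c2 + c2 * y * c1) = (p2 * c1) * y * c2 + (p2 * c2) * y * c1 := by
      noncomm_ring
    rw [e1, e2, F.A.pc, F.pc, F.p2c1, F.B.pc]
    simp

/-- The form on the mixed elements. -/
theorem form {x z : End K V} (hx : Co G D p1 q1 p2 q2 x) (hz : Co G D p1 q1 p2 q2 z) :
    ∃ s : K, x * d2 * z + z * d2 * x = s • c1 := by
  have key : ∀ {x z : End K V}, Co G D p1 q1 p2 q2 x → Co G D p1 q1 p2 q2 z →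
      p1 * (x * d2 * z) * q1 = x * d2 * z := by
    intro x z hx hz
    calc p1 * (x * d2 * z) * q1 = (p1 * x) * d2 * (z * q1) := by noncomm_ring
    _ = (x * q2) * d2 * (p2 * z) := by rw [hx.2.1, hz.2.2.1]
    _ = x * ((q2 * d2) * p2) * z := by noncomm_ring
    _ = x * d2 * z := by rw [F.B.qd, F.B.dp]
  obtain ⟨s, hs⟩ := F.A.mx _ (kp_tri h hx.1 F.B.dm hz.1).1
  refine ⟨s, ?_⟩
  rw [mul_add, add_mul, key hx hz, key hz hx] at hs
  exact hs

/-- There is a connecting element. -/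
theorem exists_fra [IsAlgClosed K] (ht : TrSt st) (hD : D ∈ G) (hD2 : D * D = 1)
    (hirr : Irr G D) : ∃ a, Fra G st D c1 d1 p1 q1 c2 d2 p2 q2 a := by
  obtain ⟨x0, hx0, hx0n⟩ := F.connected h hirr
  obtain ⟨x, hxd⟩ : ∃ x, x = p1 * x0 * q2 + p2 * x0 * q1 := ⟨_, rfl⟩
  have hx : Co G D p1 q1 p2 q2 x := by rw [hxd]; exact F.co_of h hx0
  have hxn : x ≠ 0 := by
    intro h0
    apply hx0n
    have h1 : p1 * x = p1 * x0 * q2 := by
      have e1 : p1 * (p1 * x0 * q2 + p2 * x0 * q1) = (p1 * p1) * x0 * q2 +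
          (p1 * p2) * x0 * q1 := by noncomm_ring
      rw [hxd, e1, F.A.pp, F.p1p2]
      simp
    rw [← h1, h0, mul_zero]
  obtain ⟨y, hy, hxyx, -⟩ := kp_partner h hD hD2 hx.1
  obtain ⟨z, hzd⟩ : ∃ z, z = c1 * y * c2 + c2 * y * c1 := ⟨_, rfl⟩
  have hz : Co G D p1 q1 p2 q2 z := by rw [hzd]; exact F.co_tri h hy
  obtain ⟨s, hs⟩ := F.form h hx hz
  -- the scalar is not zero
  have hp1 : p1 ≠ 0 := by
    intro h0
    apply F.A.ne
    rw [← F.A.pc, h0, zero_mul]
  have hs0 : s ≠ 0 := by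
    rintro rfl
    rw [zero_smul] at hs
    have e1 : trace K V (z * d2 * x * d1) = trace K V (x * d2 * z * d1) := by
      have t1 := ht (z * d2 * x * d1)
      rw [h.st_mul, h.st_mul, h.st_mul, h.skew z hz.1.1, h.skew x hx.1.1,
        h.skew d1 F.A.dm.1, h.skew d2 F.B.dm.1] at t1
      rw [← t1]
      have t2 : -d1 * (-x * (-d2 * -z)) = d1 * (x * d2 * z) := by noncomm_ring
      rw [t2, LinearMap.trace_mul_comm]
    have e2 : trace K V (x * d2 * z * d1) = 0 := by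
      have t1 : trace K V ((x * d2 * z + z * d2 * x) * d1) = 0 := by rw [hs, zero_mul, map_zero]
      rw [add_mul, map_add, e1] at t1
      have t2 : (2 : K) * trace K V (x * d2 * z * d1) = 0 := by linear_combination t1
      exact (mul_eq_zero.1 t2).resolve_left two_ne_zero
    have e3 : x * d2 * z * d1 = p1 * x * y * p1 := by
      calc x * d2 * z * d1 = x * d2 * c1 * y * (c2 * d1) + x * (d2 * c2) * y * (c1 * d1) := by
            rw [hzd]; noncomm_ring
      _ = (x * q2) * y * p1 := by rw [F.c2d1, F.B.dc, F.A.cd]; simp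
      _ = p1 * x * y * p1 := by rw [← hx.2.1]
    have e4 : trace K V (p1 * x * y) = 0 := by
      rw [e3, LinearMap.trace_mul_comm] at e2
      have : p1 * (p1 * x * y) = p1 * x * y := by
        rw [← mul_assoc, ← mul_assoc, F.A.pp]
      rwa [this] at e2
    have e5 : trace K V (p2 * x * y) = 0 := by
      rw [hx.2.2.1, ← F.A.trace_symm h ht hx.1.1 hy.1]
      exact e4
    apply trace_pair_ne hxyx hxn
    have e6 : x * y = p1 * x * y + p2 * x * y := by
      rw [← add_mul, hx.2.2.2]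
    rw [e6, map_add, e4, e5, add_zero]
  -- an element with nonzero square
  have hadd : ∀ {u v : End K V}, Co G D p1 q1 p2 q2 u → Co G D p1 q1 p2 q2 v →
      Co G D p1 q1 p2 q2 (u + v) := by
    intro u v hu hv
    refine ⟨Submodule.add_mem _ hu.1 hv.1, by rw [mul_add, add_mul, hu.2.1, hv.2.1], by
      rw [mul_add, add_mul, hu.2.2.1, hv.2.2.1], ?_⟩
    rw [mul_add, mul_add, add_add_add_comm, hu.2.2.2, hv.2.2.2]
  have hsq : ∀ {u : End K V}, Co G D p1 q1 p2 q2 u → ∃ k : K, u * d2 * u = k • c1 := by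
    intro u hu
    obtain ⟨k, hk⟩ := F.form h hu hu
    refine ⟨2⁻¹ * k, ?_⟩
    rw [mul_smul, ← hk, ← two_smul K, smul_smul, inv_mul_cancel₀ two_ne_zero, one_smul]
  obtain ⟨a0, ha0, k, hk, hk0⟩ : ∃ a0, Co G D p1 q1 p2 q2 a0 ∧ ∃ k : K,
      a0 * d2 * a0 = k • c1 ∧ k ≠ 0 := by
    obtain ⟨k1, hk1⟩ := hsq hx
    obtain ⟨k2, hk2⟩ := hsq hz
    by_cases h1 : k1 = 0
    · by_cases h2 : k2 = 0
      · refine ⟨x + z, hadd hx hz, s, ?_, hs0⟩
        have e1 : (x + z) * d2 * (x + z) = x * d2 * x + z * d2 * z + (x * d2 * z + z * d2 * x) := by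
          noncomm_ring
        rw [e1, hk1, hk2, h1, h2, hs, zero_smul, zero_add, zero_add]
      · exact ⟨z, hz, k2, hk2, h2⟩
    · exact ⟨x, hx, k1, hk1, h1⟩
  obtain ⟨t, ht2⟩ := IsAlgClosed.exists_pow_nat_eq (k⁻¹) (n := 2) (by norm_num)
  have htk : t * t * k = 1 := by
    rw [← sq, ht2, inv_mul_cancel₀ hk0]
  have ha : Co G D p1 q1 p2 q2 (t • a0) := by
    refine ⟨Submodule.smul_mem _ _ ha0.1, by rw [mul_smul_comm, smul_mul_assoc, ha0.2.1], by
      rw [mul_smul_comm, smul_mul_assoc, ha0.2.2.1], ?_⟩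
    rw [mul_smul_comm, mul_smul_comm, ← smul_add, ha0.2.2.2]
  have hada : (t • a0) * d2 * (t • a0) = c1 := by
    rw [smul_mul_assoc, smul_mul_assoc, mul_smul_comm, hk, smul_smul, smul_smul, htk, one_smul]
  obtain ⟨a, had⟩ : ∃ a, a = t • a0 := ⟨_, rfl⟩
  rw [← had] at ha hada
  refine ⟨a, F, ha, hada, ?_⟩
  -- the second identity
  have e1 : p2 * (a * d1 * a) * q2 = a * d1 * a := by
    calc p2 * (a * d1 * a) * q2 = (p2 * a) * d1 * (a * q2) := by noncomm_ring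
    _ = (a * q1) * d1 * (p1 * a) := by rw [ha.2.2.1, ← ha.2.1]
    _ = a * ((q1 * d1) * p1) * a := by noncomm_ring
    _ = a * d1 * a := by rw [F.A.qd, F.A.dp]
  have hG : a * d1 * a ∈ G := h.quad ha.1.1 (kp_sq ha.1) F.A.dm.1
  obtain ⟨τ, hτ⟩ := F.B.mx _ hG
  rw [e1] at hτ
  have e2 : p1 * a = τ • (p1 * a) := by
    calc p1 * a = c1 * d1 * a := by rw [F.A.cd]
    _ = (a * d2 * a) * d1 * a := by rw [hada]
    _ = a * d2 * (a * d1 * a) := by noncomm_ring
    _ = τ • (a * (d2 * c2)) := by rw [hτ, mul_smul_comm, mul_assoc]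
    _ = τ • (p1 * a) := by rw [F.B.dc, ha.2.1]
  have e3 : p1 * a ≠ 0 := by
    intro h0
    apply F.A.ne
    rw [← F.A.pc, ← hada, ← mul_assoc, ← mul_assoc, h0, zero_mul, zero_mul]
  have e4 : τ = 1 := by
    have e5 : (τ - 1) • (p1 * a) = 0 := by rw [sub_smul, one_smul, ← e2, sub_self]
    exact sub_eq_zero.1 ((smul_eq_zero.1 e5).resolve_right e3)
  rw [hτ, e4, one_smul]

end Two

end Pool.Agent.Y91.JP
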