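import Mathlib
import Pool.Agent.Y91.JP.Two

/-!
# Minimal elements have rank one
-/

set_option linter.unusedSectionVars false

namespace Pool.Agent.Y91.JP

open Module LinearMap Pool.Agent.W548.Odd

variable {K : Type*} [Field K] [CharZero K] {V : Type*} [AddCommGroup V] [Module K V]
  [FiniteDimensional K V]

/-- Compatibility of the anti-involution with an alternating form. -/
structure AltF (st : End K V →ₗ[K] End K V) (ω : V →ₗ[K] V →ₗ[K] K) : Prop where
  adj : ∀ (x : End K V) v w, ω (x v) w = ω v (st x w)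
  anti : ∀ v w, ω v w = -ω w v
  nd : ∀ w, (∀ v, ω v w = 0) → w = 0

variable {G I : Submodule K (End K V)} {st : End K V →ₗ[K] End K V} (h : Setup G st)

namespace Two

variable {D c1 d1 p1 q1 c2 d2 p2 q2 r t : End K V} (F : Two G st D c1 d1 p1 q1 c2 d2 p2 q2)
  (hr : r = 1 - q1 - q2) (ht : t = 1 - p1 - p2)

include F

section r

include hr

theorem rq1 : r * q1 = 0 := by
  rw [hr, sub_mul, sub_mul, one_mul, F.A.qq, F.q2q1, sub_self, sub_zero]
theorem q1r : q1 * r = 0 := by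
  rw [hr, mul_sub, mul_sub, mul_one, F.A.qq, F.q1q2, sub_self, sub_zero]
theorem rq2 : r * q2 = 0 := by
  rw [hr, sub_mul, sub_mul, one_mul, F.B.qq, F.q1q2, sub_zero, sub_self]
theorem q2r : q2 * r = 0 := by
  rw [hr, mul_sub, mul_sub, mul_one, F.B.qq, F.q2q1, sub_zero, sub_self]
theorem rr : r * r = r := by
  nth_rewrite 2 [hr]
  rw [mul_sub, mul_sub, mul_one, F.rq1 hr, F.rq2 hr, sub_zero, sub_zero]
theorem rd1 : r * d1 = 0 := by
  rw [hr, sub_mul, sub_mul, one_mul, F.A.qd, F.q2d1, sub_self, sub_zero]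
theorem rd2 : r * d2 = 0 := by
  rw [hr, sub_mul, sub_mul, one_mul, F.qd, F.B.qd, sub_zero, sub_self]

end r

section t

include ht

theorem tp1 : t * p1 = 0 := by
  rw [ht, sub_mul, sub_mul, one_mul, F.A.pp, F.p2p1, sub_self, sub_zero]
theorem p1t : p1 * t = 0 := by
  rw [ht, mul_sub, mul_sub, mul_one, F.A.pp, F.p1p2, sub_self, sub_zero]
theorem tt : t * t = t := by
  have h2 : t * p2 = 0 := by
    rw [ht, sub_mul, sub_mul, one_mul, F.B.pp, F.p1p2, sub_zero, sub_self]
  nth_rewrite 2 [ht]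
  rw [mul_sub, mul_sub, mul_one, F.tp1 ht, h2, sub_zero, sub_zero]
theorem d1t : d1 * t = 0 := by
  rw [ht, mul_sub, mul_sub, mul_one, F.A.dp, F.d1p2, sub_self, sub_zero]
theorem d2t : d2 * t = 0 := by
  rw [ht, mul_sub, mul_sub, mul_one, F.dp, F.B.dp, sub_zero, sub_self]

end t

include h

theorem co_of' {y : End K V} (hy : y ∈ Kp G (-D)) : q1 * y * p2 + q2 * y * p1 ∈ Kp G (-D) := by
  have h1 : q2 * y + y * p2 ∈ Kp G (-D) := by
    have h1 := kp_tri' h F.B.dm F.B.cm hy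
    rwa [F.B.dc, mul_assoc y, F.B.cd] at h1
  have h2 : q1 * (q2 * y + y * p2) + (q2 * y + y * p2) * p1 ∈ Kp G (-D) := by
    have h2 := kp_tri' h F.A.dm F.A.cm h1
    rwa [F.A.dc, mul_assoc (q2 * y + y * p2), F.A.cd] at h2
  have h3 : q1 * (q2 * y + y * p2) + (q2 * y + y * p2) * p1 =
      (q1 * q2) * y + q1 * y * p2 + q2 * y * p1 + y * (p2 * p1) := by noncomm_ring
  rw [h3, F.q1q2, F.p2p1, zero_mul, mul_zero, zero_add, add_zero] at h2
  exact h2

include hr ht

theorem inf_mem {x : End K V} (hx : x ∈ Kp G D) : p1 * x * r + t * x * q1 ∈ Kp G D := by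
  have h1 : p1 * x + x * q1 ∈ Kp G D := by
    have h1 := kp_tri h F.A.cm F.A.dm hx
    rwa [F.A.cd, mul_assoc x, F.A.dc] at h1
  obtain ⟨s, hs⟩ := F.A.mx x hx.1
  have e1 : p1 * x * r + t * x * q1 = p1 * x + x * q1 - (p1 * x * q2 + p2 * x * q1) -
      (2 : K) • (p1 * x * q1) := by
    rw [hr, ht, two_smul]
    noncomm_ring
  rw [e1, hs]
  exact Submodule.sub_mem _ (Submodule.sub_mem _ h1 (F.co_of h hx).1)
    (Submodule.smul_mem _ _ (Submodule.smul_mem _ _ F.A.cm))

theorem inf_mem' {y : End K V} (hy : y ∈ Kp G (-D)) : q1 * y * t + r * y * p1 ∈ Kp G (-D) := by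
  have h1 : q1 * y + y * p1 ∈ Kp G (-D) := by
    have h1 := kp_tri' h F.A.dm F.A.cm hy
    rwa [F.A.dc, mul_assoc y, F.A.cd] at h1
  obtain ⟨s, hs⟩ := F.A.my y hy.1
  have e1 : q1 * y * t + r * y * p1 = q1 * y + y * p1 - (q1 * y * p2 + q2 * y * p1) -
      (2 : K) • (q1 * y * p1) := by
    rw [hr, ht, two_smul]
    noncomm_ring
  rw [e1, hs]
  exact Submodule.sub_mem _ (Submodule.sub_mem _ h1 (F.co_of' h hy))
    (Submodule.smul_mem _ _ (Submodule.smul_mem _ _ F.A.dm))

end Two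

namespace Fra

variable {D c1 d1 p1 q1 c2 d2 p2 q2 r t a : End K V}
  (F : Fra G st D c1 d1 p1 q1 c2 d2 p2 q2 a)
  (hr : r = 1 - q1 - q2) (ht : t = 1 - p1 - p2)

include F

theorem ar (hr : r = 1 - q1 - q2) : a * r = 0 := by
  rw [hr, mul_sub, mul_sub, mul_one, ← F.co.2.1, ← F.co.2.2.1]
  nth_rewrite 1 [← F.co.2.2.2]
  abel

theorem a_d1 : p1 * a * d1 = 0 := by
  rw [F.co.2.1, mul_assoc, F.T.q2d1, mul_zero]

theorem ad1ad2 : a * d1 * a * d2 = p2 := by rw [F.ada', F.T.B.cd]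

theorem ad2ad1 : a * d2 * a * d1 = p1 := by rw [F.ada, F.T.A.cd]

theorem p1ad2 : p1 * a * d2 = a * d2 := by rw [F.co.2.1, mul_assoc, F.T.B.qd]

include h hr ht

/-- There are paths through the rest of the space. -/
theorem exists_path (hD : D ∈ G) (hD2 : D * D = 1) (hirr : Irr G D) (htr : TrSt st)
    (hrk : 4 * rk c1 < finrank K V) :
    ∃ x ∈ Kp G D, ∃ y ∈ Kp G (-D), p1 * x * r * y * p1 ≠ 0 := by
  by_contra hcon
  push Not at hcon
  have hst1 : st 1 = 1 := st_one h hD hD2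
  have X1 : ∀ x ∈ Kp G D, p1 * x * r = 0 := by
    intro x hx
    obtain ⟨u, hu⟩ : ∃ u, u = p1 * x * r + t * x * q1 := ⟨_, rfl⟩
    have huK : u ∈ Kp G D := by rw [hu]; exact F.T.inf_mem h hr ht hx
    obtain ⟨y, hy, h1, -⟩ := kp_partner h hD hD2 huK
    have e1 : p1 * u = p1 * x * r := by
      have : p1 * (p1 * x * r + t * x * q1) = (p1 * p1) * x * r + (p1 * t) * x * q1 := by
        noncomm_ring
      rw [hu, this, F.T.A.pp, F.T.p1t ht]
      simp
    have e2 : u * r = p1 * x * r := by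
      have : (p1 * x * r + t * x * q1) * r = p1 * x * (r * r) + t * x * (q1 * r) := by
        noncomm_ring
      rw [hu, this, F.T.rr hr, F.T.q1r hr]
      simp
    calc p1 * x * r = p1 * x * (r * r) := by rw [F.T.rr hr]
    _ = (p1 * x * r) * r := by noncomm_ring
    _ = p1 * (u * y * u) * r := by rw [← e1, h1]
    _ = (p1 * u) * y * (u * r) := by noncomm_ring
    _ = (p1 * x * r * y * p1) * x * r := by rw [e1, e2]; noncomm_ring
    _ = 0 := by rw [hcon x hx y hy, zero_mul, zero_mul]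
  have X2 : ∀ y ∈ Kp G (-D), r * y * p1 = 0 := by
    intro y hy
    obtain ⟨w, hw⟩ : ∃ w, w = q1 * y * t + r * y * p1 := ⟨_, rfl⟩
    have hwK : w ∈ Kp G (-D) := by rw [hw]; exact F.T.inf_mem' h hr ht hy
    obtain ⟨x, hx, h1, -⟩ := kn_partner h hD hD2 hwK
    have e1 : r * w = r * y * p1 := by
      have : r * (q1 * y * t + r * y * p1) = (r * q1) * y * t + (r * r) * y * p1 := by
        noncomm_ring
      rw [hw, this, F.T.rr hr, F.T.rq1 hr]
      simp
    have e2 : w * p1 = r * y * p1 := by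
      have : (q1 * y * t + r * y * p1) * p1 = q1 * y * (t * p1) + r * y * (p1 * p1) := by
        noncomm_ring
      rw [hw, this, F.T.A.pp, F.T.tp1 ht]
      simp
    calc r * y * p1 = r * y * (p1 * p1) := by rw [F.T.A.pp]
    _ = (r * y * p1) * p1 := by noncomm_ring
    _ = r * (w * x * w) * p1 := by rw [← e1, h1]
    _ = (r * w) * x * (w * p1) := by noncomm_ring
    _ = r * y * (p1 * x * r) * y * p1 := by rw [e1, e2]; noncomm_ring
    _ = 0 := by rw [X1 x hx]; simp
  have X3 : ∀ y ∈ Kp G (-D), q1 * y * t = 0 := by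
    intro y hy
    have hst : st t = r := by
      rw [ht, map_sub, map_sub, hst1, F.T.A.sp, F.T.B.sp, hr]
    have e1 : st (q1 * y * t) = -(r * y * p1) := by
      rw [h.st_mul, h.st_mul, h.skew y hy.1, F.T.A.sq, hst]
      noncomm_ring
    have e2 := h.st_rk (q1 * y * t)
    rw [e1, X2 y hy, neg_zero, rk_zero] at e2
    exact rk_eq_zero e2.symm
  have X4 : ∀ y ∈ Kp G (-D), q2 * y * t = 0 := by
    intro y hy
    have e1 := X3 _ (kp_tri' h F.T.A.dm F.co.1 hy)
    have e2 : q1 * (d1 * a * y + y * a * d1) * t = (q1 * d1) * a * y * t +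
        q1 * y * a * (d1 * t) := by noncomm_ring
    rw [e2, F.T.A.qd, F.T.d1t ht, mul_zero, add_zero] at e1
    calc q2 * y * t = d2 * (a * d1 * a) * y * t := by rw [F.ada', F.T.B.dc]
    _ = d2 * a * (d1 * a * y * t) := by noncomm_ring
    _ = 0 := by rw [e1, mul_zero]
  -- the trivial subspace
  have hW : ({v | D v = v ∧ ∀ x ∈ Kp G D, ∀ y ∈ Kp G (-D), p1 (x (y v)) ∈ (⊥ : Submodule K V)} :
      Set V) = {0} := by
    rcases F.T.A.irr_one h hirr (U := ⊥) (fun x _ y _ v hv => by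
      rw [(Submodule.mem_bot K).1 hv, map_zero, map_zero, map_zero]
      exact Submodule.zero_mem _) with h1 | h1
    · exact h1
    · exfalso
      apply F.T.A.ne
      refine LinearMap.ext fun w => ?_
      exact (Submodule.mem_bot K).1 (h1 (c1 w) (LinearMap.congr_fun F.T.A.pc w))
  have hDp1 : D * p1 = p1 := by rw [← F.T.A.cd, ← mul_assoc, F.T.A.cm.2.1]
  have hDp2 : D * p2 = p2 := by rw [← F.T.B.cd, ← mul_assoc, F.T.B.cm.2.1]
  have hp1D : p1 * D = p1 := by rw [← F.T.A.cd, mul_assoc, (mem_Kn.1 F.T.A.dm).2.2]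
  have hp2D : p2 * D = p2 := by rw [← F.T.B.cd, mul_assoc, (mem_Kn.1 F.T.B.dm).2.2]
  have htv : ∀ v, D v = v → t v = 0 := by
    intro v hv
    have h1 : t v ∈ ({0} : Set V) := by
      rw [← hW]
      refine ⟨?_, fun x hx y hy => ?_⟩
      · have e1 : D * t = D - p1 - p2 := by
          rw [ht, mul_sub, mul_sub, mul_one, hDp1, hDp2]
        have e2 : (D * t) v = (D - p1 - p2) v := by rw [e1]
        have e3 : (D - p1 - p2) v = D v - p1 v - p2 v := rfl
        have e4 : t v = v - p1 v - p2 v := by rw [ht]; rfl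
        rw [e3, hv, ← e4] at e2
        exact e2
      · rw [Submodule.mem_bot]
        have e1 : p1 * x * y * t = 0 := by
          have e2 : (1 : End K V) = q1 + q2 + r := by rw [hr]; abel
          calc p1 * x * y * t = p1 * x * 1 * y * t := by rw [mul_one]
          _ = p1 * x * (q1 * y * t) + p1 * x * (q2 * y * t) + (p1 * x * r) * y * t := by
            rw [e2]; noncomm_ring
          _ = 0 := by rw [X3 y hy, X4 y hy, X1 x hx]; simp
        exact LinearMap.congr_fun e1 v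
    exact h1
  have e1 : t * (1 + D) = 0 := by
    refine LinearMap.ext fun v => ?_
    refine htv _ ?_
    have h3 : D * (1 + D) = 1 + D := by rw [mul_add, mul_one, hD2, add_comm]
    exact LinearMap.congr_fun h3 v
  have e2 : 1 + D = (2 : K) • p1 + (2 : K) • p2 := by
    have e3 : (1 - p1 - p2) * (1 + D) = 0 := by rw [← ht]; exact e1
    have e4 : (1 - p1 - p2) * (1 + D) = 1 + D - (p1 + p1 * D) - (p2 + p2 * D) := by
      noncomm_ring
    rw [e4, hp1D, hp2D, ← two_smul K p1, ← two_smul K p2, sub_sub, sub_eq_zero] at e3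
    exact e3
  have e3 := congrArg (trace K V) e2
  rw [map_add, map_add, LinearMap.trace_one, trace_inv h htr hD, map_smul, map_smul,
    trace_idem F.T.A.pp, trace_idem F.T.B.pp, add_zero, smul_eq_mul, smul_eq_mul] at e3
  have e4 : finrank K V = 2 * rk p1 + 2 * rk p2 := by exact_mod_cast e3
  have e5 : rk p1 ≤ rk c1 := by rw [← F.T.A.cd]; exact rk_mul_le_left _ _
  have e6 : rk p2 ≤ rk c1 := by
    have f1 : rk p2 ≤ rk c2 := by rw [← F.T.B.cd]; exact rk_mul_le_left _ _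
    have f2 : rk c2 ≤ rk d1 := by
      rw [← F.ada']
      exact (rk_mul_le_left _ _).trans (rk_mul_le_right _ _)
    have f3 : rk d1 ≤ rk c1 := by
      conv_lhs => rw [← F.T.A.dp, ← F.T.A.cd]
      exact (rk_mul_le_right _ _).trans (rk_mul_le_left _ _)
    omega
  omega

omit h hr ht in
/-- The span of the paths. -/
def NN (G : Submodule K (End K V)) (D p1 r : End K V) : Submodule K (End K V) :=
  Submodule.span K {n | ∃ x ∈ Kp G D, ∃ y ∈ Kp G (-D), n = p1 * x * r * y * p1}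

theorem left_mul {x : End K V} (hx : x ∈ Kp G D) :
    ∀ n ∈ NN G D p1 r, p1 * x * d2 * a * d1 * n ∈ NN G D p1 r := by
  intro n hn
  induction hn using Submodule.span_induction with
  | mem n hn =>
    obtain ⟨x0, hx0, y0, hy0, rfl⟩ := hn
    obtain ⟨u, hu⟩ : ∃ u, u = p1 * x0 * r + t * x0 * q1 := ⟨_, rfl⟩
    have huK : u ∈ Kp G D := by rw [hu]; exact F.T.inf_mem h hr ht hx0
    have e1 : p1 * u = p1 * x0 * r := by
      have : p1 * (p1 * x0 * r + t * x0 * q1) = (p1 * p1) * x0 * r + (p1 * t) * x0 * q1 := by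
        noncomm_ring
      rw [hu, this, F.T.A.pp, F.T.p1t ht]
      simp
    have hw := kp_tri h F.co.1 F.T.A.dm huK
    have hz := kp_tri h hx F.T.B.dm hw
    refine Submodule.subset_span ⟨_, hz, y0, hy0, ?_⟩
    have e3 : p1 * u * d1 = 0 := by rw [e1, mul_assoc, F.T.rd1 hr, mul_zero]
    have e4 : p1 * (x * d2 * (a * d1 * u + u * d1 * a) + (a * d1 * u + u * d1 * a) * d2 * x) * r =
        p1 * x * d2 * a * d1 * u * r + p1 * x * d2 * u * d1 * (a * r) +
          (p1 * a * d1) * u * d2 * x * r + (p1 * u * d1) * a * d2 * x * r := by noncomm_ring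
    rw [e4, F.ar hr, e3, F.a_d1]
    have e5 : d1 * u * r = d1 * p1 * x0 * r := by
      calc d1 * u * r = (d1 * p1) * u * r := by rw [F.T.A.dp]
      _ = d1 * (p1 * u) * r := by noncomm_ring
      _ = d1 * p1 * x0 * (r * r) := by rw [e1]; noncomm_ring
      _ = _ := by rw [F.T.rr hr]
    have e6 : p1 * x * d2 * a * d1 * u * r = p1 * x * d2 * a * (d1 * u * r) := by noncomm_ring
    rw [e6, e5]
    simp only [mul_zero, zero_mul, add_zero]
    noncomm_ring
  | zero => rw [mul_zero]; exact Submodule.zero_mem _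
  | add x y _ _ hx hy => rw [mul_add]; exact Submodule.add_mem _ hx hy
  | smul c x _ hx => rw [mul_smul_comm]; exact Submodule.smul_mem _ _ hx

theorem right_mul {x : End K V} (hx : x ∈ Kp G D) :
    ∀ n ∈ NN G D p1 r, n * (p1 * x * d2 * a * d1) ∈ NN G D p1 r := by
  intro n hn
  induction hn using Submodule.span_induction with
  | mem n hn =>
    obtain ⟨x0, hx0, y0, hy0, rfl⟩ := hn
    obtain ⟨w, hw⟩ : ∃ w, w = q1 * y0 * t + r * y0 * p1 := ⟨_, rfl⟩
    have hwK : w ∈ Kp G (-D) := by rw [hw]; exact F.T.inf_mem' h hr ht hy0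
    have e1 : r * w = r * y0 * p1 := by
      have : r * (q1 * y0 * t + r * y0 * p1) = (r * q1) * y0 * t + (r * r) * y0 * p1 := by
        noncomm_ring
      rw [hw, this, F.T.rr hr, F.T.rq1 hr]
      simp
    have hz := kp_tri' h hwK hx F.T.B.dm
    have hz2 := kp_tri' h hz F.co.1 F.T.A.dm
    refine Submodule.subset_span ⟨x0, hx0, _, hz2, ?_⟩
    have e4 : p1 * x0 * r * ((w * x * d2 + d2 * x * w) * a * d1 +
        d1 * a * (w * x * d2 + d2 * x * w)) * p1 =
        p1 * x0 * (r * w) * x * d2 * a * (d1 * p1) + p1 * x0 * (r * d2) * x * w * a * d1 * p1 +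
          p1 * x0 * (r * d1) * a * (w * x * d2 + d2 * x * w) * p1 := by noncomm_ring
    rw [e4, F.T.rd2 hr, F.T.rd1 hr, e1, F.T.A.dp]
    have e5 : p1 * x0 * r * y0 * p1 * (p1 * x * d2 * a * d1) =
        p1 * x0 * r * y0 * (p1 * p1) * x * d2 * a * d1 := by noncomm_ring
    rw [e5, F.T.A.pp]
    simp only [mul_zero, zero_mul, add_zero]
    noncomm_ring
  | zero => rw [zero_mul]; exact Submodule.zero_mem _
  | add x y _ _ hx hy => rw [add_mul]; exact Submodule.add_mem _ hx hy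
  | smul c x _ hx => rw [smul_mul_assoc]; exact Submodule.smul_mem _ _ hx

/-- The paths are of the special form. -/
theorem path_form : ∀ n ∈ NN G D p1 r, ∃ x ∈ Kp G D, n = p1 * x * d2 * a * d1 := by
  intro n hn
  induction hn using Submodule.span_induction with
  | mem n hn =>
    obtain ⟨x0, hx0, y0, hy0, rfl⟩ := hn
    obtain ⟨u, hu⟩ : ∃ u, u = p1 * x0 * r + t * x0 * q1 := ⟨_, rfl⟩
    have huK : u ∈ Kp G D := by rw [hu]; exact F.T.inf_mem h hr ht hx0
    have e1 : p1 * u = p1 * x0 * r := by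
      have : p1 * (p1 * x0 * r + t * x0 * q1) = (p1 * p1) * x0 * r + (p1 * t) * x0 * q1 := by
        noncomm_ring
      rw [hu, this, F.T.A.pp, F.T.p1t ht]
      simp
    have e1' : u * d2 = 0 := by
      have : (p1 * x0 * r + t * x0 * q1) * d2 = p1 * x0 * (r * d2) + t * x0 * (q1 * d2) := by
        noncomm_ring
      rw [hu, this, F.T.rd2 hr, F.T.qd]
      simp
    obtain ⟨w, hw⟩ : ∃ w, w = q1 * y0 * t + r * y0 * p1 := ⟨_, rfl⟩
    have hwK : w ∈ Kp G (-D) := by rw [hw]; exact F.T.inf_mem' h hr ht hy0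
    have e2 : w * p1 = r * y0 * p1 := by
      have : (q1 * y0 * t + r * y0 * p1) * p1 = q1 * y0 * (t * p1) + r * y0 * (p1 * p1) := by
        noncomm_ring
      rw [hw, this, F.T.A.pp, F.T.tp1 ht]
      simp
    refine ⟨_, kp_tri h huK hwK F.co.1, ?_⟩
    have e4 : p1 * (u * w * a + a * w * u) * d2 * a * d1 =
        p1 * u * w * (a * d2 * a * d1) + p1 * a * w * (u * d2) * a * d1 := by noncomm_ring
    rw [e4, F.ad2ad1, e1']
    have e5 : p1 * u * w * p1 = (p1 * u) * (w * p1) := by noncomm_ring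
    rw [e5, e1, e2]
    have e6 : p1 * x0 * r * (r * y0 * p1) = p1 * x0 * (r * r) * y0 * p1 := by noncomm_ring
    rw [e6, F.T.rr hr]
    simp
  | zero => exact ⟨0, Submodule.zero_mem _, by simp⟩
  | add x y _ _ hx hy =>
    obtain ⟨u, hu, rfl⟩ := hx
    obtain ⟨v, hv, rfl⟩ := hy
    exact ⟨u + v, Submodule.add_mem _ hu hv, by noncomm_ring⟩
  | smul c x _ hx =>
    obtain ⟨u, hu, rfl⟩ := hx
    exact ⟨c • u, Submodule.smul_mem _ _ hu, by
      simp only [mul_smul_comm, smul_mul_assoc]⟩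

omit hr ht in
/-- The transpose. -/
theorem transp {x : End K V} (hx : x ∈ Kp G D) :
    ∃ s : K, p1 * x * d2 * a * d1 + p1 * a * d2 * x * d1 = s • p1 := by
  obtain ⟨s, hs⟩ := F.T.A.mx _ (kp_tri h hx F.T.B.dm F.co.1).1
  refine ⟨s, ?_⟩
  calc p1 * x * d2 * a * d1 + p1 * a * d2 * x * d1 =
      p1 * (x * d2 * a + a * d2 * x) * d1 := by noncomm_ring
  _ = p1 * (x * d2 * a + a * d2 * x) * (q1 * d1) := by rw [F.T.A.qd]
  _ = (p1 * (x * d2 * a + a * d2 * x) * q1) * d1 := by noncomm_ring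
  _ = s • p1 := by rw [hs, smul_mul_assoc, F.T.A.cd]

/-- Decomposition of the operators on the range of `p1`. -/
theorem op_form {x y : End K V} (hx : x ∈ Kp G D) (hy : y ∈ Kp G (-D)) :
    ∃ s s' : K, ∃ z ∈ Kp G D, ∃ n ∈ NN G D p1 r, p1 * x * y * p1 = s • p1 +
      (p1 * x * d2 * a * d1) * (s' • p1 - p1 * z * d2 * a * d1) + n := by
  obtain ⟨s1, hs1⟩ := F.T.A.mx x hx.1
  obtain ⟨s2, hs2⟩ := F.T.A.my y hy.1
  have hz := kp_tri h F.T.A.cm hy F.T.B.cm
  obtain ⟨s', hs'⟩ := F.transp h hz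
  refine ⟨s1 * s2, s', _, hz, _, Submodule.subset_span ⟨x, hx, y, hy, rfl⟩, ?_⟩
  have e0 : s' • p1 - p1 * (c1 * y * c2 + c2 * y * c1) * d2 * a * d1 =
      p1 * a * d2 * (c1 * y * c2 + c2 * y * c1) * d1 := by
    rw [← hs']
    abel
  have e1 : (p1 * x * d2 * a * d1) * (p1 * a * d2 * (c1 * y * c2 + c2 * y * c1) * d1) =
      p1 * x * q2 * y * p1 := by
    calc (p1 * x * d2 * a * d1) * (p1 * a * d2 * (c1 * y * c2 + c2 * y * c1) * d1) =
        p1 * x * d2 * a * (d1 * p1) * a * (d2 * c1) * y * c2 * d1 +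
        p1 * x * d2 * a * (d1 * p1) * a * d2 * c2 * y * (c1 * d1) := by noncomm_ring
    _ = p1 * x * d2 * (a * d1 * a * d2) * c2 * y * p1 := by
      rw [F.T.A.dp, F.T.d2c1, F.T.A.cd]
      simp only [mul_zero, zero_mul, zero_add]
      noncomm_ring
    _ = p1 * x * (d2 * p2) * c2 * y * p1 := by rw [F.ad1ad2]; noncomm_ring
    _ = p1 * x * (d2 * c2) * y * p1 := by rw [F.T.B.dp]; noncomm_ring
    _ = _ := by rw [F.T.B.dc]
  have e2 : p1 * x * q1 * y * p1 = (s1 * s2) • p1 := by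
    calc p1 * x * q1 * y * p1 = p1 * x * (q1 * q1) * y * p1 := by rw [F.T.A.qq]
    _ = (p1 * x * q1) * (q1 * y * p1) := by noncomm_ring
    _ = (s1 * s2) • p1 := by rw [hs1, hs2, smul_mul_smul_comm, F.T.A.cd]
  have e3 : (1 : End K V) = q1 + q2 + r := by rw [hr]; abel
  rw [e0, e1, ← e2]
  calc p1 * x * y * p1 = p1 * x * 1 * y * p1 := by rw [mul_one]
  _ = _ := by rw [e3]; noncomm_ring

/-- The span of the paths is stable under the operators. -/
theorem op_left {x y : End K V} (hx : x ∈ Kp G D) (hy : y ∈ Kp G (-D)) :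
    ∀ n ∈ NN G D p1 r, p1 * x * y * p1 * n ∈ NN G D p1 r := by
  intro n hn
  obtain ⟨s, s', z, hz, n', hn', e⟩ := F.op_form h hr ht hx hy
  obtain ⟨x', hx', hn'x⟩ := F.path_form h hr ht n' hn'
  obtain ⟨x'', hx'', hnx⟩ := F.path_form h hr ht n hn
  have hpn : p1 * n = n := by
    rw [hnx]
    calc p1 * (p1 * x'' * d2 * a * d1) = (p1 * p1) * x'' * d2 * a * d1 := by noncomm_ring
    _ = _ := by rw [F.T.A.pp]
  have e1 : p1 * x * y * p1 * n = s • n + (p1 * x * d2 * a * d1) *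
      (s' • n - (p1 * z * d2 * a * d1) * n) + (p1 * x' * d2 * a * d1) * n := by
    rw [e, ← hn'x]
    calc (s • p1 + (p1 * x * d2 * a * d1) * (s' • p1 - p1 * z * d2 * a * d1) + n') * n =
        s • (p1 * n) + (p1 * x * d2 * a * d1) * (s' • (p1 * n) - (p1 * z * d2 * a * d1) * n) +
          n' * n := by
          simp only [add_mul, sub_mul, mul_assoc, smul_mul_assoc]
    _ = _ := by rw [hpn]
  rw [e1]
  refine Submodule.add_mem _ (Submodule.add_mem _ (Submodule.smul_mem _ _ hn)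
    (F.left_mul h hr ht hx _ (Submodule.sub_mem _ (Submodule.smul_mem _ _ hn)
      (F.left_mul h hr ht hz n hn)))) (F.left_mul h hr ht hx' n hn)

theorem op_right {x y : End K V} (hx : x ∈ Kp G D) (hy : y ∈ Kp G (-D)) :
    ∀ n ∈ NN G D p1 r, n * (p1 * x * y * p1) ∈ NN G D p1 r := by
  intro n hn
  obtain ⟨s, s', z, hz, n', hn', e⟩ := F.op_form h hr ht hx hy
  obtain ⟨x', hx', hn'x⟩ := F.path_form h hr ht n' hn'
  have hnp : n * p1 = n := by
    obtain ⟨x'', hx'', hnx⟩ := F.path_form h hr ht n hn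
    rw [hnx, mul_assoc _ d1 p1, F.T.A.dp]
  have hXp : ∀ w : End K V, w * d1 * p1 = w * d1 := fun w => by rw [mul_assoc, F.T.A.dp]
  have e1 : n * (p1 * x * y * p1) = s • n + (s' • (n * (p1 * x * d2 * a * d1)) -
      (n * (p1 * x * d2 * a * d1)) * (p1 * z * d2 * a * d1)) + n * (p1 * x' * d2 * a * d1) := by
    rw [e, ← hn'x]
    calc n * (s • p1 + (p1 * x * d2 * a * d1) * (s' • p1 - p1 * z * d2 * a * d1) + n') =
        s • (n * p1) + (s' • (n * (p1 * x * d2 * a * d1 * p1)) -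
          (n * (p1 * x * d2 * a * d1)) * (p1 * z * d2 * a * d1)) + n * n' := by
          simp only [mul_add, mul_sub, mul_assoc, mul_smul_comm]
    _ = _ := by rw [hnp, hXp]
  rw [e1]
  have h1 := F.right_mul h hr ht hx n hn
  exact Submodule.add_mem _ (Submodule.add_mem _ (Submodule.smul_mem _ _ hn)
    (Submodule.sub_mem _ (Submodule.smul_mem _ _ h1) (F.right_mul h hr ht hz _ h1)))
    (F.right_mul h hr ht hx' n hn)

/-- **Minimal elements have rank one.** -/
theorem rk_one [IsAlgClosed K] {ω : V →ₗ[K] V →ₗ[K] K} (hω : AltF st ω) (hD : D ∈ G)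
    (hD2 : D * D = 1) (hirr : Irr G D) (htr : TrSt st) (hrk : 4 * rk c1 < finrank K V) :
    rk c1 = 1 := by
  by_contra hne
  have hpos := rk_pos_of_ne F.T.A.ne
  have h2 : 2 ≤ rk c1 := by omega
  obtain ⟨x0, hx0, y0, hy0, hxy⟩ := F.exists_path h hr ht hD hD2 hirr htr hrk
  have hn0 : p1 * x0 * r * y0 * p1 ∈ NN G D p1 r := Submodule.subset_span ⟨x0, hx0, y0, hy0, rfl⟩
  have hsym : ∀ v w, ω v (d1 w) = ω w (d1 v) := by
    intro v w
    rw [hω.anti, hω.adj, h.skew d1 F.T.A.dm.1, LinearMap.neg_apply, map_neg, neg_neg]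
  have hpx : ∀ x ∈ LinearMap.range c1, p1 x = x := by
    rintro _ ⟨w, rfl⟩
    exact LinearMap.congr_fun F.T.A.pc w
  -- an isotropic vector
  obtain ⟨v, hv, hv0, hvv⟩ : ∃ v ∈ LinearMap.range c1, v ≠ 0 ∧ ω v (d1 v) = 0 := by
    have hnb : LinearMap.range c1 ≠ ⊥ := fun h0 => F.T.A.ne (LinearMap.range_eq_bot.1 h0)
    obtain ⟨v1, hv1, hv10⟩ := Submodule.exists_mem_ne_zero_of_ne_bot hnb
    by_cases hiso : ω v1 (d1 v1) = 0
    · exact ⟨v1, hv1, hv10, hiso⟩
    obtain ⟨v2, hv2, hv21⟩ : ∃ v2 ∈ LinearMap.range c1, v2 ∉ Submodule.span K {v1} := by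
      by_contra hc
      push Not at hc
      have h3 : LinearMap.range c1 ≤ Submodule.span K {v1} := hc
      have h4 := Submodule.finrank_mono h3
      rw [finrank_span_singleton hv10] at h4
      unfold rk at h2
      omega
    obtain ⟨δ, hδ⟩ := IsAlgClosed.exists_pow_nat_eq
      ((ω v1 (d1 v2)) ^ 2 - ω v1 (d1 v1) * ω v2 (d1 v2)) (n := 2) (by norm_num)
    obtain ⟨τ, hτ⟩ : ∃ τ, τ = (-ω v1 (d1 v2) + δ) * (ω v1 (d1 v1))⁻¹ := ⟨_, rfl⟩
    refine ⟨v2 + τ • v1, Submodule.add_mem _ hv2 (Submodule.smul_mem _ _ hv1), ?_, ?_⟩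
    · intro h0
      apply hv21
      rw [eq_neg_of_add_eq_zero_left h0]
      exact Submodule.neg_mem _ (Submodule.smul_mem _ _ (Submodule.mem_span_singleton_self v1))
    · simp only [map_add, map_smul, LinearMap.add_apply, LinearMap.smul_apply, smul_eq_mul]
      rw [hsym v2 v1, hτ]
      field_simp
      linear_combination hδ
  have hpv := hpx v hv
  -- the stable subspaces
  let U : Submodule K V := (NN G D p1 r).map (LinearMap.applyₗ v : End K V →ₗ[K] V)
  have hUmem : ∀ w, w ∈ U ↔ ∃ n ∈ NN G D p1 r, n v = w := fun w => Iff.rfl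
  let U0 : Submodule K V :=
    { carrier := {w | p1 w = w ∧ ∀ n ∈ NN G D p1 r, n w = 0}
      zero_mem' := ⟨map_zero _, fun n _ => map_zero n⟩
      add_mem' := fun {a b} ha hb => ⟨by rw [map_add, ha.1, hb.1], fun n hn => by
        rw [map_add, ha.2 n hn, hb.2 n hn, add_zero]⟩
      smul_mem' := fun t a ha => ⟨by rw [map_smul, ha.1], fun n hn => by
        rw [map_smul, ha.2 n hn, smul_zero]⟩ }
  -- general principle
  have prin : ∀ U : Submodule K V, (∀ w ∈ U, p1 w = w) →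
      (∀ x ∈ Kp G D, ∀ y ∈ Kp G (-D), ∀ v ∈ U, p1 (x (y v)) ∈ U) →
      U = ⊥ ∨ ∀ v, p1 v = v → v ∈ U := by
    intro U hUp hU
    rcases F.T.A.irr_one h hirr hU with h1 | h1
    · left
      rw [Submodule.eq_bot_iff]
      intro w hw
      have h3 : w ∈ ({0} : Set V) := by
        rw [← h1]
        refine ⟨?_, fun x hx y hy => hU x hx y hy w hw⟩
        rw [← hUp w hw]
        have : D * p1 = p1 := by rw [← F.T.A.cd, ← mul_assoc, F.T.A.cm.2.1]
        exact LinearMap.congr_fun this w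
      exact h3
    · right
      exact h1
  have hU0 : U0 = ⊥ := by
    rcases prin U0 (fun w hw => hw.1) (by
      rintro x hx y hy w ⟨hw1, hw2⟩
      refine ⟨LinearMap.congr_fun F.T.A.pp (x (y w)), fun n hn => ?_⟩
      have h3 := hw2 _ (F.op_right h hr ht hx hy n hn)
      have h4 : (n * (p1 * x * y * p1)) w = n (p1 (x (y (p1 w)))) := rfl
      rw [h4, hw1] at h3
      exact h3) with h1 | h1
    · exact h1
    · exfalso
      apply hxy
      refine LinearMap.ext fun w => ?_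
      have h3 := (h1 (p1 w) (LinearMap.congr_fun F.T.A.pp w)).2 _ hn0
      have h4 : (p1 * x0 * r * y0 * p1) (p1 w) = (p1 * x0 * r * y0 * (p1 * p1)) w := rfl
      rw [h4, F.T.A.pp] at h3
      exact h3
  have hUne : U ≠ ⊥ := by
    intro h0
    have h3 : v ∈ U0 := by
      refine ⟨hpv, fun n hn => ?_⟩
      have h4 : n v ∈ U := (hUmem _).2 ⟨n, hn, rfl⟩
      rw [h0] at h4
      exact h4
    rw [hU0] at h3
    exact hv0 h3
  have hUall : ∀ w, p1 w = w → w ∈ U := by
    rcases prin U (by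
      rintro w ⟨n, hn, rfl⟩
      obtain ⟨x'', hx'', hnx⟩ := F.path_form h hr ht n hn
      have h3 : p1 * n = n := by
        rw [hnx]
        calc p1 * (p1 * x'' * d2 * a * d1) = (p1 * p1) * x'' * d2 * a * d1 := by noncomm_ring
        _ = _ := by rw [F.T.A.pp]
      exact LinearMap.congr_fun h3 v) (by
      rintro x hx y hy w ⟨n, hn, rfl⟩
      refine ⟨_, F.op_left h hr ht hx hy n hn, ?_⟩
      obtain ⟨x'', hx'', hnx⟩ := F.path_form h hr ht n hn
      have h3 : p1 * n = n := by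
        rw [hnx]
        calc p1 * (p1 * x'' * d2 * a * d1) = (p1 * p1) * x'' * d2 * a * d1 := by noncomm_ring
        _ = _ := by rw [F.T.A.pp]
      change p1 (x (y (p1 (n v)))) = p1 (x (y (n v)))
      have h4 : p1 (n v) = n v := LinearMap.congr_fun h3 v
      rw [h4]) with h1 | h1
    · exact absurd h1 hUne
    · exact h1
  -- the contradiction
  have hb0 : ∀ w, p1 w = w → ω w (d1 v) = 0 := by
    intro w hw
    obtain ⟨n, hn, rfl⟩ := (hUmem w).1 (hUall w hw)
    obtain ⟨x, hx, hnx⟩ := F.path_form h hr ht n hn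
    obtain ⟨s, hs⟩ := F.transp h hx
    have e1 : ω (n v) (d1 v) = ω v (d1 ((p1 * a * d2 * x * d1) v)) := by
      rw [hω.adj]
      have e2 : st n * d1 = d1 * (p1 * a * d2 * x * d1) := by
        rw [hnx, h.st_mul, h.st_mul, h.st_mul, h.st_mul, h.skew d1 F.T.A.dm.1,
          h.skew d2 F.T.B.dm.1, h.skew a F.co.1.1, h.skew x hx.1, F.T.A.sp]
        calc -d1 * (-a * (-d2 * (-x * q1))) * d1 = d1 * a * d2 * x * (q1 * d1) := by
              noncomm_ring
        _ = (d1 * p1) * a * d2 * x * d1 := by rw [F.T.A.qd, F.T.A.dp]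
        _ = d1 * (p1 * a * d2 * x * d1) := by noncomm_ring
      have e3 : (st n * d1) v = (d1 * (p1 * a * d2 * x * d1)) v := by rw [e2]
      have e4 : (st n) (d1 v) = d1 ((p1 * a * d2 * x * d1) v) := e3
      rw [e4]
    have e2 : ω (n v) (d1 v) = ω v (d1 (n v)) := hsym _ _
    have e3 : n v + (p1 * a * d2 * x * d1) v = s • v := by
      have e4 : (n + p1 * a * d2 * x * d1) v = (s • p1) v := by rw [hnx, hs]
      have e5 : (s • p1) v = s • p1 v := rfl
      rw [e5, hpv] at e4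
      exact e4
    have e4 : (2 : K) * ω (n v) (d1 v) = 0 := by
      have e5 : ω v (d1 (n v + (p1 * a * d2 * x * d1) v)) = 0 := by
        rw [e3, map_smul, map_smul, hvv, smul_zero]
      rw [map_add, map_add, ← e1, ← e2] at e5
      linear_combination e5
    exact (mul_eq_zero.1 e4).resolve_left two_ne_zero
  have hd1v : d1 v = 0 := by
    refine hω.nd _ fun w => ?_
    have e1 : q1 (d1 v) = d1 v := LinearMap.congr_fun F.T.A.qd v
    rw [← e1, ← F.T.A.sp, ← hω.adj]
    exact hb0 _ (LinearMap.congr_fun F.T.A.pp w)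
  apply hv0
  rw [← hpv, ← F.T.A.cd]
  change c1 (d1 v) = 0
  rw [hd1v, map_zero]

end Fra

include h in
/-- **Minimal elements have rank one if the rank is small.** -/
theorem MP.rk_one [IsAlgClosed K] {D c d p q : End K V} (F : MP G st D c d p q)
    {ω : V →ₗ[K] V →ₗ[K] K} (hω : AltF st ω) (hD : D ∈ G) (hD2 : D * D = 1) (hirr : Irr G D)
    (htr : TrSt st) (hrk : 4 * rk c < finrank K V) : rk c = 1 := by
  obtain ⟨c2, d2, p2, q2, T⟩ := F.exists_two h hD hD2
    (F.exists_orth h htr hD hD2 hirr hrk.le)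
  obtain ⟨a, FF⟩ := T.exists_fra h htr hD hD2 hirr
  exact FF.rk_one h rfl rfl hω hD hD2 hirr htr hrk

end Pool.Agent.Y91.JP
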