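import Mathlib
import Pool.Agent.Y91.JP.One

/-!
# Steps of the proof of the small rank theorem
-/

set_option linter.unusedSectionVars false

namespace Pool.Agent.Y91.JP

open Module LinearMap Pool.Agent.W548.Odd

variable {K : Type*} [Field K] [CharZero K] {V : Type*} [AddCommGroup V] [Module K V]
  [FiniteDimensional K V]

variable {G I : Submodule K (End K V)} {st : End K V →ₗ[K] End K V} (h : Setup G st)

include h in
theorem exists_small_min [IsAlgClosed K] {E N : End K V} (hE : E ∈ G) (hE2 : E * E = 1)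
    (hN : N ∈ G) (hEN : E * N ≠ N * E) : ∃ D, (D = E ∨ D = -E) ∧ D ∈ G ∧ D * D = 1 ∧
      ∃ e ∈ Kp G D, e ≠ 0 ∧ rk e ≤ rk N ∧ (∀ y ∈ G, ∃ s : K, e * y * e = s • e) ∧
        ∃ f ∈ Kp G (-D), e * f * e = e ∧ f * e * f = f := by
  obtain ⟨D, hD, u, hu, hu0, hur⟩ : ∃ D, (D = E ∨ D = -E) ∧ ∃ u ∈ Kp G D, u ≠ 0 ∧
      rk u ≤ rk N := by
    have hrkle : ∀ a b : End K V, rk (a * N * b) ≤ rk N := fun a b =>
      (rk_mul_le_left _ _).trans (rk_mul_le_right _ _)
    by_cases h1 : (1 + E) * N * (1 - E) = 0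
    · by_cases h2 : (1 - E) * N * (1 + E) = 0
      · exfalso
        apply hEN
        have e3 : (2 : K) • (E * N - N * E) = 0 := by
          have : (2 : K) • (E * N - N * E) =
              (1 + E) * N * (1 - E) - (1 - E) * N * (1 + E) := by
            rw [two_smul]
            noncomm_ring
          rw [this, h1, h2, sub_zero]
        exact sub_eq_zero.1 ((smul_eq_zero.1 e3).resolve_left two_ne_zero)
      · exact ⟨-E, Or.inr rfl, _, mem_Kn.2 ⟨h.idl.dn hE hE2 hN, dn_left hE2 _, dn_right hE2 _⟩,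
          h2, hrkle _ _⟩
    · exact ⟨E, Or.inl rfl, _, ⟨h.idl.up hE hE2 hN, up_left hE2 _, up_right hE2 _⟩, h1,
        hrkle _ _⟩
  have hDG : D ∈ G := by
    rcases hD with rfl | rfl
    · exact hE
    · exact G.neg_mem hE
  have hD2 : D * D = 1 := by
    rcases hD with rfl | rfl
    · exact hE2
    · rw [neg_mul_neg, hE2]
  obtain ⟨e, he, he0, her, hmin⟩ := exists_min h hDG hD2 (S := Kp G D) le_rfl (by
    intro e he y hy
    refine ⟨h.quad he.1 (kp_sq he) hy, ?_, ?_⟩
    · rw [← mul_assoc, ← mul_assoc, he.2.1]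
    · rw [mul_assoc, he.2.2, mul_neg]) hu hu0
  obtain ⟨f, hf, hefe, hfef⟩ := kp_partner h hDG hD2 he
  exact ⟨D, hD, hDG, hD2, e, he, he0, her.trans hur, hmin, f, hf, hefe, hfef⟩

theorem idl_of_pos {T e : End K V} (hI : IsIdl G I) (hT : T ∈ I) (he : e ∈ G) (h1 : T * e = e)
    (h2 : e * T = -e) : e ∈ I := by
  have h3 := hI.br' hT he
  rw [h1, h2, sub_neg_eq_add, ← two_smul K] at h3
  exact (Submodule.smul_mem_iff _ (two_ne_zero (α := K))).1 h3

theorem idl_of_neg {T e : End K V} (hI : IsIdl G I) (hT : T ∈ I) (he : e ∈ G) (h1 : T * e = -e)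
    (h2 : e * T = e) : e ∈ I := by
  have h3 := hI.br' hT he
  rw [h1, h2, ← neg_add', ← two_smul K] at h3
  have h4 := Submodule.neg_mem _ h3
  rw [neg_neg] at h4
  exact (Submodule.smul_mem_iff _ (two_ne_zero (α := K))).1 h4

include h in
/-- The divisibility. -/
theorem rk_dvd [IsAlgClosed K] (hs : Scal G) {D e f e' f' : End K V} (hD : D ∈ G)
    (hD2 : D * D = 1) (he : e ∈ Kp G D) (hf : f ∈ Kp G (-D)) (hefe : e * f * e = e)
    (he' : e' ∈ cen G (gn G D)) (hf' : f' ∈ cen G (gn G D)) (hefe' : e' * f' * e' = e') :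
    finrank K V ∣ rk e * rk e' := by
  have hf2 := mem_Kn.1 hf
  have heI : e ∈ gn G D := idl_of_pos (gn_idl h hD) mem_gn he.1 he.2.1 he.2.2
  have hfI : f ∈ gn G D := idl_of_neg (gn_idl h hD) mem_gn hf2.1 hf2.2.1 hf2.2.2
  obtain ⟨p', hp'⟩ : ∃ p', p' = e' * f' := ⟨_, rfl⟩
  have hcomm : ∀ z ∈ gn G D, p' * z = z * p' := by
    intro z hz
    rw [hp', mul_assoc, hf'.2 z hz, ← mul_assoc, he'.2 z hz, mul_assoc]
  have key := trace_prod h hs hD hD2 hcomm heI hfI
  have hpp' : p' * p' = p' := by rw [hp', ← mul_assoc, hefe']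
  have hpe : p' * (e * f) = e * f * p' := by
    rw [← mul_assoc, hcomm e heI, mul_assoc, hcomm f hfI, ← mul_assoc]
  have hidem : e * f * p' * (e * f * p') = e * f * p' := by
    calc e * f * p' * (e * f * p') = e * f * (p' * (e * f)) * p' := by noncomm_ring
    _ = (e * f * e) * f * (p' * p') := by rw [hpe]; noncomm_ring
    _ = e * f * p' := by rw [hefe, hpp']
  have hef : e * f * (e * f) = e * f := by rw [← mul_assoc, hefe]
  rw [trace_idem hidem, trace_idem hef, trace_idem hpp'] at key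
  have key' : rk (e * f * p') * finrank K V = rk (e * f) * rk p' := by exact_mod_cast key
  have r1 : rk (e * f) = rk e := by
    apply le_antisymm (rk_mul_le_left _ _)
    conv_lhs => rw [← hefe]
    exact rk_mul_le_left _ _
  have r2 : rk p' = rk e' := by
    rw [hp']
    apply le_antisymm (rk_mul_le_left _ _)
    conv_lhs => rw [← hefe']
    exact rk_mul_le_left _ _
  rw [r1, r2] at key'
  exact ⟨rk (e * f * p'), by rw [← key', mul_comm]⟩

include h in
theorem simple_case [IsAlgClosed K] (hs : Scal G) {ω : V →ₗ[K] V →ₗ[K] K} (hω : AltF st ω)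
    (htr : TrSt st) {D e f : End K V} (hD : D ∈ G)
    (hD2 : D * D = 1) (hgn : G ≤ gn G D) (he : e ∈ Kp G D) (hf : f ∈ Kp G (-D))
    (hefe : e * f * e = e) (hfef : f * e * f = f) (he0 : e ≠ 0)
    (hmin : ∀ y ∈ G, ∃ s : K, e * y * e = s • e) (hrk : 4 * rk e < finrank K V) : rk e = 1 :=
  (MP.mk' h he hf hefe hfef he0 hmin).rk_one h hω hD hD2
    (fun _ hW1 hW => irr_plus h hs hD hD2 hgn he he0 hW1 hW) htr hrk

end Pool.Agent.Y91.JP
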