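import Mathlib
import Pool.Agent.Y91.JP.Abs

/-!
# Restriction of a Lie algebra to a summand
-/

set_option linter.unusedSectionVars false

namespace Pool.Agent.Y91.JP

open Module LinearMap Pool.Agent.W548.Odd

variable {K : Type*} [Field K] [CharZero K] {V : Type*} [AddCommGroup V] [Module K V]
  [FiniteDimensional K V]

theorem comm_br {R : Type*} [Ring R] {Y A B : R} (h1 : Y * A = A * Y) (h2 : Y * B = B * Y) :
    Y * (A * B - B * A) = (A * B - B * A) * Y := by
  calc Y * (A * B - B * A) = (Y * A) * B - (Y * B) * A := by noncomm_ring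
  _ = (A * Y) * B - (B * Y) * A := by rw [h1, h2]
  _ = A * (Y * B) - B * (Y * A) := by noncomm_ring
  _ = A * (B * Y) - B * (A * Y) := by rw [h1, h2]
  _ = (A * B - B * A) * Y := by noncomm_ring

/-- The compression of an operator to the subspace `M`. -/
def rs (M : Submodule K V) (p : V →ₗ[K] M) : End K V →ₗ[K] End K M where
  toFun X := p ∘ₗ X ∘ₗ M.subtype
  map_add' X Y := by
    rw [LinearMap.add_comp, LinearMap.comp_add]
  map_smul' c X := by
    rw [LinearMap.smul_comp, LinearMap.comp_smul, RingHom.id_apply]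

/-- The extension by zero of an operator on the subspace `M`. -/
def ex (M : Submodule K V) (p : V →ₗ[K] M) : End K M →ₗ[K] End K V where
  toFun a := M.subtype ∘ₗ a ∘ₗ p
  map_add' X Y := by
    rw [LinearMap.add_comp, LinearMap.comp_add]
  map_smul' c X := by
    rw [LinearMap.smul_comp, LinearMap.comp_smul, RingHom.id_apply]

variable {M : Submodule K V} {p : V →ₗ[K] M}

theorem rs_apply (X : End K V) (x : M) : rs M p X x = p (X x) := rfl

theorem ex_apply (a : End K M) (v : V) : ex M p a v = (a (p v) : V) := rfl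

/-- The projector. -/
def pr (M : Submodule K V) (p : V →ₗ[K] M) : End K V := M.subtype ∘ₗ p

theorem pr_apply (v : V) : pr M p v = (p v : V) := rfl

section basic

variable (hp : ∀ x : M, p x = x)
include hp

theorem pr_of_mem {v : V} (hv : v ∈ M) : pr M p v = v := by
  rw [pr_apply]
  exact congrArg Subtype.val (hp ⟨v, hv⟩)

theorem pr_sq : pr M p * pr M p = pr M p := by
  refine LinearMap.ext fun v => ?_
  exact pr_of_mem hp (p v).2

theorem rs_mul {X Y : End K V} (hY : pr M p * Y = Y * pr M p) :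
    rs M p (X * Y) = rs M p X * rs M p Y := by
  refine LinearMap.ext fun x => ?_
  rw [Module.End.mul_apply, rs_apply, rs_apply, rs_apply, Module.End.mul_apply]
  have h1 : pr M p (Y x) = Y x := by
    have h2 := LinearMap.congr_fun hY (x : V)
    rw [Module.End.mul_apply, Module.End.mul_apply, pr_of_mem hp x.2] at h2
    exact h2
  rw [pr_apply] at h1
  rw [h1]

theorem rs_ex (a : End K M) : rs M p (ex M p a) = a := by
  refine LinearMap.ext fun x => ?_
  rw [rs_apply, ex_apply, hp, hp]

theorem rs_one : rs M p 1 = 1 := by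
  refine LinearMap.ext fun x => ?_
  rw [rs_apply, Module.End.one_apply, hp]
  rfl

theorem ex_rs (X : End K V) : ex M p (rs M p X) = pr M p * X * pr M p := rfl

theorem ex_mul (a b : End K M) : ex M p (a * b) = ex M p a * ex M p b := by
  refine LinearMap.ext fun v => ?_
  rw [Module.End.mul_apply, ex_apply, ex_apply, ex_apply, hp]
  rfl

theorem pr_ex (a : End K M) : pr M p * ex M p a = ex M p a := by
  refine LinearMap.ext fun v => ?_
  exact pr_of_mem hp (a (p v)).2

theorem ex_pr (a : End K M) : ex M p a * pr M p = ex M p a := by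
  refine LinearMap.ext fun v => ?_
  rw [Module.End.mul_apply, ex_apply, ex_apply, pr_apply, hp]

theorem rk_ex (a : End K M) : rk (ex M p a) = rk a := by
  unfold rk
  have h1 : LinearMap.range (ex M p a) = (LinearMap.range a).map M.subtype := by
    apply le_antisymm
    · rintro _ ⟨v, rfl⟩
      exact ⟨a (p v), ⟨_, rfl⟩, rfl⟩
    · rintro _ ⟨_, ⟨x, rfl⟩, rfl⟩
      refine ⟨x, ?_⟩
      rw [ex_apply, hp]
      rfl
  rw [h1]
  exact Submodule.finrank_map_subtype_eq M (LinearMap.range a)

theorem trace_ex (a : End K M) : trace K V (ex M p a) = trace K M a := by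
  have h1 : a = (a ∘ₗ p) ∘ₗ M.subtype := by
    refine LinearMap.ext fun x => ?_
    change a x = a (p x)
    rw [hp]
  conv_rhs => rw [h1]
  rw [LinearMap.trace_comp_comm']
  rfl

end basic

/-- A summand of a representation with its form. -/
structure Cor (G : Submodule K (End K V)) (st : End K V →ₗ[K] End K V) (M : Submodule K V)
    (p : V →ₗ[K] M) : Prop where
  hp : ∀ x : M, p x = x
  comm : ∀ y ∈ G, pr M p * y = y * pr M p
  st : st (pr M p) = pr M p

/-- The anti-involution on the summand. -/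
def st' (st : End K V →ₗ[K] End K V) (M : Submodule K V) (p : V →ₗ[K] M) :
    End K M →ₗ[K] End K M := rs M p ∘ₗ st ∘ₗ ex M p

variable {G : Submodule K (End K V)} {st : End K V →ₗ[K] End K V} (h : Setup G st)
  (c : Cor G st M p)

include h c

theorem Cor.ex_st' (a : End K M) : ex M p (st' st M p a) = st (ex M p a) := by
  change ex M p (rs M p (st (ex M p a))) = _
  have h1 : ex M p a = pr M p * ex M p a * pr M p := by rw [pr_ex c.hp, ex_pr c.hp]
  have h2 : st (ex M p a) = pr M p * st (ex M p a) * pr M p := by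
    conv_lhs => rw [h1]
    rw [h.st_mul, h.st_mul, c.st, ← mul_assoc]
  rw [ex_rs c.hp, ← h2]

theorem Cor.rs_mem_mul {y z : End K V} (hz : z ∈ G) :
    rs M p (y * z) = rs M p y * rs M p z := rs_mul c.hp (c.comm z hz)

theorem Cor.skew {y : End K V} (hy : y ∈ G) : st' st M p (rs M p y) = -rs M p y := by
  change rs M p (st (ex M p (rs M p y))) = _
  have h1 : rs M p (pr M p * y * pr M p) = rs M p y := by
    refine LinearMap.ext fun x => ?_
    rw [rs_apply, Module.End.mul_apply, Module.End.mul_apply, pr_of_mem c.hp x.2, pr_apply, c.hp,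
      rs_apply]
  have h2 : st (pr M p * y * pr M p) = -(pr M p * y * pr M p) := by
    rw [h.st_mul, h.st_mul, c.st, h.skew y hy]
    noncomm_ring
  rw [ex_rs c.hp, h2, map_neg, h1]

theorem Cor.rs_br {y z : End K V} (hy : y ∈ G) (hz : z ∈ G) :
    rs M p (y * z - z * y) = rs M p y * rs M p z - rs M p z * rs M p y := by
  rw [map_sub, c.rs_mem_mul h hz, c.rs_mem_mul h hy]

/-- The restricted Lie algebra. -/
theorem Cor.setup (hs : Scal (G.map (rs M p))) : Setup (G.map (rs M p)) (st' st M p) := by
  have hbr : ∀ y ∈ G.map (rs M p), ∀ z ∈ G.map (rs M p), y * z - z * y ∈ G.map (rs M p) := by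
    rintro _ ⟨y, hy, rfl⟩ _ ⟨z, hz, rfl⟩
    exact ⟨_, h.br y hy z hz, c.rs_br h hy hz⟩
  have hsk : ∀ y ∈ G.map (rs M p), st' st M p y = -y := by
    rintro _ ⟨y, hy, rfl⟩
    exact c.skew h hy
  have hgen : ∀ L : Submodule K (End K M), (∀ D ∈ G.map (rs M p), D * D = 1 → D ∈ L) →
      (∀ y ∈ L, ∀ z ∈ L, y * z - z * y ∈ L) → G.map (rs M p) ≤ L := by
    intro L h1 h2
    have h3 : G ≤ G ⊓ L.comap (rs M p) := by
      refine h.gen _ ?_ ?_
      · intro D hD hD2
        refine ⟨hD, h1 _ ⟨D, hD, rfl⟩ ?_⟩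
        rw [← c.rs_mem_mul h hD, hD2, rs_one c.hp]
      · rintro y ⟨hy, hy'⟩ z ⟨hz, hz'⟩
        refine ⟨h.br y hy z hz, ?_⟩
        change rs M p (y * z - z * y) ∈ L
        rw [c.rs_br h hy hz]
        exact h2 _ hy' _ hz'
    rintro _ ⟨y, hy, rfl⟩
    exact (h3 hy).2
  refine ⟨hbr, ?_, ?_, hsk, ?_, hgen, ?_⟩
  · intro a b
    have h1 : ex M p (st' st M p (a * b)) = ex M p (st' st M p b * st' st M p a) := by
      rw [c.ex_st' h, ex_mul c.hp, ex_mul c.hp, h.st_mul, c.ex_st' h, c.ex_st' h]
    have h2 := congrArg (rs M p) h1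
    rwa [rs_ex c.hp, rs_ex c.hp] at h2
  · intro a
    rw [← rk_ex c.hp, c.ex_st' h, h.st_rk, rk_ex c.hp]
  · -- nondegeneracy
    let R : Submodule K (End K V) :=
      { carrier := {y | y ∈ G ∧ ∀ z ∈ G, trace K M (rs M p y * rs M p z) = 0}
        zero_mem' := ⟨G.zero_mem, fun z _ => by rw [map_zero, zero_mul, map_zero]⟩
        add_mem' := fun {a b} ha hb => ⟨G.add_mem ha.1 hb.1, fun z hz => by
          rw [map_add, add_mul, map_add, ha.2 z hz, hb.2 z hz, add_zero]⟩
        smul_mem' := fun t a ha => ⟨G.smul_mem t ha.1, fun z hz => by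
          rw [map_smul, smul_mul_assoc, map_smul, ha.2 z hz, smul_zero]⟩ }
    have hR : IsIdl G R := by
      refine ⟨fun y hy => hy.1, fun y hy z hz => ⟨h.br y hy z hz.1, fun w hw => ?_⟩⟩
      have h1 := hz.2 _ (h.br w hw y hy)
      rw [c.rs_br h hw hy] at h1
      rw [c.rs_br h hy hz.1, sub_mul, map_sub]
      rw [mul_sub, map_sub] at h1
      have e1 : trace K M (rs M p y * rs M p z * rs M p w) =
          trace K M (rs M p z * (rs M p w * rs M p y)) := by
        rw [mul_assoc, LinearMap.trace_mul_comm, mul_assoc]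
      rw [e1, mul_assoc]
      exact h1
    have key : ∀ u ∈ R, u * u = 0 → rs M p u = 0 := by
      intro u hu hu2
      obtain ⟨w, hw, huw⟩ := h.regular hu.1 hu2
      have h1 := hu.2 w hw
      have h2 : rs M p u * rs M p w * (rs M p u) = rs M p u := by
        rw [← c.rs_mem_mul h hw, ← c.rs_mem_mul h hu.1, huw]
      have h3 : rs M p u * rs M p w * (rs M p u * rs M p w) = rs M p u * rs M p w := by
        rw [← mul_assoc, h2]
      rw [trace_idem h3] at h1
      have h4 : rk (rs M p u * rs M p w) = 0 := by exact_mod_cast h1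
      rw [← h2, rk_eq_zero h4, zero_mul]
    intro y' hy' hz'
    obtain ⟨y, hy, rfl⟩ := hy'
    have hyR : y ∈ R := ⟨hy, fun z hz => hz' _ ⟨z, hz, rfl⟩⟩
    have hcomm : ∀ D ∈ G, D * D = 1 → rs M p D * rs M p y = rs M p y * rs M p D := by
      intro D hD hD2
      have h1 := key _ (hR.up hD hD2 hyR)
        (sq_zero_of_up (up_left hD2 y) (up_right hD2 y))
      have h2 := key _ (hR.dn hD hD2 hyR)
        (sq_zero_of_dn (dn_left hD2 y) (dn_right hD2 y))
      have h3 : (2 : K) • (D * y - y * D) =
          (1 + D) * y * (1 - D) - (1 - D) * y * (1 + D) := by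
        rw [two_smul]
        noncomm_ring
      have h4 : rs M p ((2 : K) • (D * y - y * D)) = 0 := by
        rw [h3, map_sub, h1, h2, sub_zero]
      rw [map_smul, c.rs_br h hD hy] at h4
      exact sub_eq_zero.1 ((smul_eq_zero.1 h4).resolve_left two_ne_zero)
    have hcent : ∀ z ∈ G.map (rs M p), rs M p y * z = z * rs M p y := by
      have h5 : G ≤ G ⊓ (LinearMap.ker (LinearMap.mulLeft K (rs M p y) -
          LinearMap.mulRight K (rs M p y))).comap (rs M p) := by
        refine h.gen _ ?_ ?_
        · intro D hD hD2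
          refine ⟨hD, ?_⟩
          change rs M p y * rs M p D - rs M p D * rs M p y = 0
          rw [hcomm D hD hD2, sub_self]
        · rintro a ⟨ha, ha'⟩ b ⟨hb, hb'⟩
          refine ⟨h.br a ha b hb, ?_⟩
          change rs M p y * rs M p a - rs M p a * rs M p y = 0 at ha'
          change rs M p y * rs M p b - rs M p b * rs M p y = 0 at hb'
          change rs M p y * rs M p (a * b - b * a) - rs M p (a * b - b * a) * rs M p y = 0
          rw [sub_eq_zero] at ha' hb' ⊢
          rw [c.rs_br h ha hb]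
          exact comm_br ha' hb'
      rintro _ ⟨z, hz, rfl⟩
      have h6 : rs M p y * rs M p z - rs M p z * rs M p y = 0 := (h5 hz).2
      exact sub_eq_zero.1 h6
    obtain ⟨s, hs'⟩ := hs _ hcent
    have h7 := c.skew h hy
    have h8 : st' st M p 1 = 1 := by
      have h9 : ex M p (1 : End K M) = pr M p := rfl
      change rs M p (st (ex M p 1)) = 1
      rw [h9, c.st]
      refine LinearMap.ext fun x => ?_
      rw [rs_apply, pr_of_mem c.hp x.2, c.hp]
      rfl
    have h10 : st' st M p (rs M p y) = rs M p y := by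
      rw [hs', map_smul, h8]
    rw [h10] at h7
    have h11 : (2 : K) • rs M p y = 0 := by
      rw [two_smul]
      nth_rewrite 1 [h7]
      rw [neg_add_cancel]
    exact (smul_eq_zero.1 h11).resolve_left two_ne_zero
  · intro W hW
    obtain ⟨π, hπ1, hπ2, hπ3⟩ := h.cr (W.map M.subtype) (by
      rintro y hy _ ⟨w, hw, rfl⟩
      refine ⟨rs M p y w, hW _ ⟨y, hy, rfl⟩ w hw, ?_⟩
      have h2 := LinearMap.congr_fun (c.comm y hy) (w : V)
      rw [Module.End.mul_apply, Module.End.mul_apply, pr_of_mem c.hp w.2] at h2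
      exact h2)
    have hπM : ∀ v, π v ∈ M := by
      intro v
      obtain ⟨w, -, hw⟩ := hπ2 v
      rw [← hw]
      exact w.2
    refine ⟨rs M p π, ?_, ?_, ?_⟩
    · rintro _ ⟨y, hy, rfl⟩
      rw [← c.rs_mem_mul h hy, hπ1 y hy]
      refine LinearMap.ext fun x => ?_
      rw [rs_apply, Module.End.mul_apply, Module.End.mul_apply, rs_apply, rs_apply,
        show ((p (π x) : M) : V) = π x from pr_of_mem c.hp (hπM _)]
    · intro w
      obtain ⟨w', hw', hw2⟩ := hπ2 (w : V)
      have h2 : rs M p π w = w' := by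
        rw [rs_apply, ← hw2]
        exact c.hp w'
      rw [h2]
      exact hw'
    · intro w hw
      rw [rs_apply, show π (w : V) = w from hπ3 _ ⟨w, hw, rfl⟩]
      exact c.hp w

omit h in
/-- The form on the summand. -/
theorem Cor.altF (h : Setup G st) {ω : V →ₗ[K] V →ₗ[K] K} (hω : AltF st ω) :
    AltF (st' st M p) (ω.domRestrict₁₂ M M) := by
  obtain ⟨h1, h2, h3⟩ := hω
  have hpr : ∀ x y, ω (pr M p x) y = ω x (pr M p y) := by
    intro x y
    rw [h1, c.st]
  refine ⟨?_, ?_, ?_⟩
  · intro a v w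
    have e1 : ((a v : M) : V) = ex M p a v := by rw [ex_apply, c.hp]
    have e2 : ((st' st M p a w : M) : V) = st (ex M p a) w := by
      rw [← c.ex_st' h, ex_apply, c.hp]
    change ω (a v : V) (w : V) = ω (v : V) ((st' st M p a w : M) : V)
    rw [e1, e2, h1]
  · intro v w
    exact h2 _ _
  · intro w hw
    apply Subtype.ext
    refine h3 _ fun v => ?_
    have h4 := hw (p v)
    change ω (pr M p v) (w : V) = 0 at h4
    rw [hpr, pr_of_mem c.hp w.2] at h4
    exact h4

theorem Cor.trSt (htr : TrSt st) : TrSt (st' st M p) := by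
  intro a
  rw [← trace_ex c.hp, c.ex_st' h, htr, trace_ex c.hp]

end Pool.Agent.Y91.JP
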