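import Mathlib
import Pool.Agent.Y91.JP.Res
import Pool.Agent.W437.HP.Link

/-!
# Square zero elements of small rank that commute with no generator
-/

set_option linter.unusedSectionVars false

namespace Pool.Agent.Y91.JP

open Module LinearMap Pool.Agent.W548.Odd

variable {K : Type*} [Field K] [CharZero K] {V : Type*} [AddCommGroup V] [Module K V]
  [FiniteDimensional K V]

theorem comm_of_parts {E x : End K V} (h1 : (1 + E) * x * (1 - E) = 0)
    (h2 : (1 - E) * x * (1 + E) = 0) : E * x = x * E := by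
  have e3 : (2 : K) • (E * x - x * E) = 0 := by
    have : (2 : K) • (E * x - x * E) =
        (1 + E) * x * (1 - E) - (1 - E) * x * (1 + E) := by
      rw [two_smul]
      noncomm_ring
    rw [this, h1, h2, sub_zero]
  exact sub_eq_zero.1 ((smul_eq_zero.1 e3).resolve_left two_ne_zero)

/-- The mixed component of the square of a sum. -/
theorem mixed_zero {s t a b : End K V} (hs : s * s = 1) (ht : t * t = 1) (hst : s * t = t * s)
    (hta : t * a = a * t) (hsb : s * b = b * s) (hab : b * a = a * b)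
    (hN : (a + b) * (a + b) = 0) :
    (1 + t) * b * (1 - t) * ((1 + s) * a * (1 - s)) = 0 := by
  have h0 : (1 + t) * (1 - t) = 0 := by
    have : (1 + t) * (1 - t) = 1 - t * t := by noncomm_ring
    rw [this, ht, sub_self]
  have h0' : (1 + s) * (1 - s) = 0 := by
    have : (1 + s) * (1 - s) = 1 - s * s := by noncomm_ring
    rw [this, hs, sub_self]
  -- commutation rules
  have c1 : (1 - t) * a = a * (1 - t) := by rw [sub_mul, mul_sub, hta, one_mul, mul_one]
  have c2 : (1 - t) * (1 + s) = (1 + s) * (1 - t) := by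
    have : (1 - t) * (1 + s) - (1 + s) * (1 - t) = s * t - t * s := by noncomm_ring
    rw [hst, sub_self] at this
    exact sub_eq_zero.1 this
  have c3 : (1 - t) * (1 - s) = (1 - s) * (1 - t) := by
    have : (1 - t) * (1 - s) - (1 - s) * (1 - t) = t * s - s * t := by noncomm_ring
    rw [hst, sub_self] at this
    exact sub_eq_zero.1 this
  have c4 : b * (1 + s) = (1 + s) * b := by rw [mul_add, add_mul, hsb, one_mul, mul_one]
  have c5 : (1 + t) * (1 + s) = (1 + s) * (1 + t) := by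
    have : (1 + t) * (1 + s) - (1 + s) * (1 + t) = t * s - s * t := by noncomm_ring
    rw [hst, sub_self] at this
    exact sub_eq_zero.1 this
  have c6 : (1 + t) * a = a * (1 + t) := by rw [add_mul, mul_add, hta, one_mul, mul_one]
  have c7 : b * (1 - s) = (1 - s) * b := by rw [mul_sub, sub_mul, hsb, one_mul, mul_one]
  have e1 : (1 + t) * b * (1 - t) * ((1 + s) * a * (1 - s)) =
      (1 + t) * (1 + s) * (a * b) * ((1 - s) * (1 - t)) := by
    calc (1 + t) * b * (1 - t) * ((1 + s) * a * (1 - s)) =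
        (1 + t) * b * ((1 - t) * (1 + s)) * a * (1 - s) := by noncomm_ring
    _ = (1 + t) * (b * (1 + s)) * ((1 - t) * a) * (1 - s) := by rw [c2]; noncomm_ring
    _ = (1 + t) * (1 + s) * (b * a) * ((1 - t) * (1 - s)) := by rw [c4, c1]; noncomm_ring
    _ = _ := by rw [hab, c3]
  have e2 : (1 + t) * (1 + s) * (a * a) * ((1 - s) * (1 - t)) = 0 := by
    calc (1 + t) * (1 + s) * (a * a) * ((1 - s) * (1 - t)) =
        (1 + t) * (1 + s) * a * a * (1 - s) * (1 - t) := by noncomm_ring
    _ = (1 + s) * ((1 + t) * a) * a * (1 - s) * (1 - t) := by rw [c5]; noncomm_ring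
    _ = (1 + s) * (a * (1 + t)) * a * (1 - s) * (1 - t) := by rw [c6]
    _ = (1 + s) * a * ((1 + t) * a) * (1 - s) * (1 - t) := by noncomm_ring
    _ = (1 + s) * a * (a * (1 + t)) * (1 - s) * (1 - t) := by rw [c6]
    _ = (1 + s) * a * a * (1 + t) * ((1 - s) * (1 - t)) := by noncomm_ring
    _ = (1 + s) * a * a * ((1 + t) * (1 - t)) * (1 - s) := by rw [← c3]; noncomm_ring
    _ = 0 := by rw [h0, mul_zero, zero_mul]
  have e3 : (1 + t) * (1 + s) * (b * b) * ((1 - s) * (1 - t)) = 0 := by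
    calc (1 + t) * (1 + s) * (b * b) * ((1 - s) * (1 - t)) =
        (1 + t) * (1 + s) * b * (b * (1 - s)) * (1 - t) := by noncomm_ring
    _ = (1 + t) * (1 + s) * b * ((1 - s) * b) * (1 - t) := by rw [c7]
    _ = (1 + t) * (1 + s) * (b * (1 - s)) * b * (1 - t) := by noncomm_ring
    _ = (1 + t) * (1 + s) * ((1 - s) * b) * b * (1 - t) := by rw [c7]
    _ = (1 + t) * ((1 + s) * (1 - s)) * b * b * (1 - t) := by noncomm_ring
    _ = 0 := by rw [h0', mul_zero, zero_mul, zero_mul, zero_mul]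
  have e4 : (1 + t) * (1 + s) * ((a + b) * (a + b)) * ((1 - s) * (1 - t)) =
      (1 + t) * (1 + s) * (a * a) * ((1 - s) * (1 - t)) +
      (1 + t) * (1 + s) * (b * b) * ((1 - s) * (1 - t)) +
      (2 : K) • ((1 + t) * (1 + s) * (a * b) * ((1 - s) * (1 - t))) := by
    have : (a + b) * (a + b) = a * a + b * b + (2 : K) • (a * b) := by
      have e : (a + b) * (a + b) = a * a + b * b + (a * b + b * a) := by noncomm_ring
      rw [e, hab, two_smul]
    rw [this, mul_add, mul_add, add_mul, add_mul, mul_smul_comm, smul_mul_assoc]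
  rw [hN, mul_zero, zero_mul, e2, e3, zero_add, zero_add] at e4
  rw [e1]
  exact (smul_eq_zero.1 e4.symm).resolve_left two_ne_zero

variable {G : Submodule K (End K V)} {st : End K V →ₗ[K] End K V} (h : Setup G st)
  (hs : Scal G) {DD : Set (End K V)} (hDG : ∀ d ∈ DD, d ∈ G ∧ d * d = 1)
  (hgen : ∀ L : Submodule K (End K V), (∀ d ∈ DD, d ∈ L) →
    (∀ y ∈ L, ∀ z ∈ L, y * z - z * y ∈ L) → G ≤ L)

include h hs hDG hgen in
theorem quad_idl {N : End K V} (hN : N ∈ G) (hN2 : N * N = 0) (hcomm : ∀ d ∈ DD, d * N ≠ N * d)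
    {d0 : End K V} (hd0 : d0 ∈ DD) : G ≤ gn G d0 := by
  obtain ⟨hd0G, hd02⟩ := hDG d0 hd0
  have hI : IsIdl G (gn G d0) := gn_idl h hd0G
  refine hgen _ ?_ fun y hy z hz => hI.br y (hI.le hy) z hz
  intro d hd
  obtain ⟨hdG, hd2⟩ := hDG d hd
  rcases invol_dich h hs hI hdG hd2 with h1 | h1
  · exact h1
  exfalso
  obtain ⟨a, ha, b, hb, hab⟩ := idl_decomp h hs hd0G hd02 hI hN
  have hdd : d * d0 = d0 * d := h1.2 d0 mem_gn
  have hda : d * a = a * d := h1.2 a ha
  have hbd0 : b * d0 = d0 * b := hb.2 d0 mem_gn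
  have hba : b * a = a * b := hb.2 a ha
  have hN2' : (a + b) * (a + b) = 0 := by rw [← hab]; exact hN2
  have key : ∀ s t : End K V, (s = d0 ∨ s = -d0) → (t = d ∨ t = -d) →
      (1 + s) * a * (1 - s) ≠ 0 → (1 + t) * b * (1 - t) = 0 := by
    intro s t hs' ht' hne
    have s1 : s * s = 1 := by
      rcases hs' with rfl | rfl
      · exact hd02
      · rw [neg_mul_neg, hd02]
    have t1 : t * t = 1 := by
      rcases ht' with rfl | rfl
      · exact hd2
      · rw [neg_mul_neg, hd2]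
    have st1 : s * t = t * s := by
      rcases hs' with rfl | rfl <;> rcases ht' with rfl | rfl
      · exact hdd.symm
      · rw [mul_neg, neg_mul, hdd]
      · rw [mul_neg, neg_mul, hdd]
      · rw [neg_mul_neg, neg_mul_neg, hdd]
    have ta : t * a = a * t := by
      rcases ht' with rfl | rfl
      · exact hda
      · rw [neg_mul, mul_neg, hda]
    have sb : s * b = b * s := by
      rcases hs' with rfl | rfl
      · exact hbd0.symm
      · rw [neg_mul, mul_neg, hbd0]
    have hsz : ∀ z ∈ cen G (gn G d0), z * s = s * z := by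
      intro z hz
      rcases hs' with rfl | rfl
      · exact hz.2 _ mem_gn
      · rw [mul_neg, neg_mul, hz.2 _ mem_gn]
    have htz : ∀ z ∈ gn G d0, z * t = t * z := by
      intro z hz
      rcases ht' with rfl | rfl
      · exact (h1.2 z hz).symm
      · rw [mul_neg, neg_mul, h1.2 z hz]
    refine prod_zero h hs hd0G hd02 hI (u := (1 + s) * a * (1 - s)) ?_ ?_
      (mixed_zero s1 t1 st1 ta sb hba hN2') hne
    · intro z hz
      have e1 : z * (1 + s) = (1 + s) * z := by rw [mul_add, add_mul, hsz z hz, mul_one, one_mul]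
      have e2 : z * (1 - s) = (1 - s) * z := by rw [mul_sub, sub_mul, hsz z hz, mul_one, one_mul]
      rw [← mul_assoc, ← mul_assoc, e1, mul_assoc (1 + s), hz.2 a ha, mul_assoc, mul_assoc,
        mul_assoc, mul_assoc, e2]
    · intro z hz
      have e1 : z * (1 + t) = (1 + t) * z := by rw [mul_add, add_mul, htz z hz, mul_one, one_mul]
      have e2 : z * (1 - t) = (1 - t) * z := by rw [mul_sub, sub_mul, htz z hz, mul_one, one_mul]
      rw [← mul_assoc, ← mul_assoc, e1, mul_assoc (1 + t), ← hb.2 z hz, mul_assoc, mul_assoc,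
        mul_assoc, mul_assoc, e2]
  -- the component in the ideal does not commute with `d0`
  obtain ⟨s, hs', hne⟩ : ∃ s, (s = d0 ∨ s = -d0) ∧ (1 + s) * a * (1 - s) ≠ 0 := by
    by_contra hcon
    push Not at hcon
    have k1 := hcon d0 (Or.inl rfl)
    have k2 := hcon (-d0) (Or.inr rfl)
    rw [sub_neg_eq_add, ← sub_eq_add_neg] at k2
    have k3 : d0 * a = a * d0 := comm_of_parts k1 k2
    apply hcomm d0 hd0
    rw [hab, mul_add, add_mul, k3, hbd0]
  have k1 := key s d hs' (Or.inl rfl) hne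
  have k2 := key s (-d) hs' (Or.inr rfl) hne
  rw [sub_neg_eq_add, ← sub_eq_add_neg] at k2
  have k3 : d * b = b * d := comm_of_parts k1 k2
  apply hcomm d hd
  rw [hab, mul_add, add_mul, k3, hda]

include h hs hDG hgen in
/-- **Square zero elements of small rank.** -/
theorem small_quad [IsAlgClosed K] {ω : V →ₗ[K] V →ₗ[K] K} (hω : AltF st ω) (htr : TrSt st)
    {N : End K V} (hN : N ∈ G) (hN2 : N * N = 0) (hcomm : ∀ d ∈ DD, d * N ≠ N * d)
    {d0 : End K V} (hd0 : d0 ∈ DD) (h4 : 4 * rk N < finrank K V) :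
    ∃ e ∈ G, ∃ f ∈ G, rk e = 1 ∧ rk f = 1 ∧ e * f * e = e := by
  obtain ⟨hd0G, hd02⟩ := hDG d0 hd0
  obtain ⟨D, hD, hDG', hD2, e, he, he0, her, hmin, f, hf, hefe, hfef⟩ :=
    exists_small_min h hd0G hd02 hN (hcomm d0 hd0)
  have h1 := quad_idl h hs hDG hgen hN hN2 hcomm hd0
  have h2 : G ≤ gn G D := by
    refine h1.trans (gn_le (gn_idl h hDG') ?_)
    rcases hD with rfl | rfl
    · exact mem_gn
    · have h3 := Submodule.neg_mem _ (mem_gn (G := G) (e := -d0))
      rwa [neg_neg] at h3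
  have h3 := simple_case h hs hω htr hDG' hD2 h2 he hf hefe hfef he0 hmin (by omega)
  refine ⟨e, he.1, f, hf.1, h3, ?_, hefe⟩
  have h4 : rk f ≤ 1 := by
    rw [← h3]
    conv_lhs => rw [← hfef]
    exact (rk_mul_le_left _ _).trans (rk_mul_le_right _ _)
  have h5 : rk f ≠ 0 := by
    intro h0
    apply he0
    rw [← hefe, rk_eq_zero h0, mul_zero, zero_mul]
  omega

/-! ### The full symplectic Lie algebra -/

section full

open Pool.Agent.W437.HP

variable {S : Type*} [AddCommGroup S] [Module ℂ S] [FiniteDimensional ℂ S]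
  {w : S →ₗ[ℂ] S →ₗ[ℂ] ℂ}

theorem exists_vec (hw : ∀ x, w x x = 0) (hn : ∀ x, (∀ y, w x y = 0) → x = 0) {X : End ℂ S}
    (hX : IsSp w X) (hr : rk X = 1) : ∃ (u : S) (c : ℂ), u ≠ 0 ∧ c ≠ 0 ∧ X = c • EE w u u := by
  obtain ⟨⟨u, hu⟩, hu0, hspan⟩ := finrank_eq_one_iff'.1 hr
  have hu0' : u ≠ 0 := fun h0 => hu0 (Subtype.ext h0)
  have h1 : ∀ x, ∃ t : ℂ, X x = t • u := by
    intro x
    obtain ⟨t, ht⟩ := hspan ⟨X x, ⟨x, rfl⟩⟩
    exact ⟨t, (congrArg Subtype.val ht).symm⟩
  choose φ hφ using h1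
  obtain ⟨y, hy⟩ := exists_pair hn hu0'
  have h2 : ∀ x, φ x = φ y * w u x := by
    intro x
    have h3 := hX x y
    rw [hφ x, hφ y, map_smul, LinearMap.smul_apply, map_smul, smul_eq_mul, smul_eq_mul, hy,
      mul_one, w_anti hw x u, mul_neg, neg_neg] at h3
    exact h3
  have hc : φ y ≠ 0 := by
    intro h0
    have h4 : X = 0 := by
      refine LinearMap.ext fun x => ?_
      rw [hφ, h2, h0, zero_mul, zero_smul]
      rfl
    rw [h4, rk_zero] at hr
    exact zero_ne_one hr
  refine ⟨u, φ y / 2, hu0', div_ne_zero hc two_ne_zero, ?_⟩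
  refine LinearMap.ext fun x => ?_
  rw [hφ, h2, LinearMap.smul_apply, EE_apply, ← add_smul, smul_smul]
  congr 1
  ring

theorem full_of_pair (hw : ∀ x, w x x = 0) (hn : ∀ x, (∀ y, w x y = 0) → x = 0)
    {G : Submodule ℂ (End ℂ S)} (hbr : ∀ y ∈ G, ∀ z ∈ G, y * z - z * y ∈ G)
    (hsp : ∀ X ∈ G, IsSp w X)
    (hirr : ∀ M : Submodule ℂ S, (∀ y ∈ G, ∀ x ∈ M, y x ∈ M) → M ≠ ⊥ → M = ⊤) {e f : End ℂ S}
    (he : e ∈ G) (hf : f ∈ G) (he1 : rk e = 1) (hf1 : rk f = 1) (hefe : e * f * e = e) (x y : S) :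
    EE w x y ∈ G := by
  obtain ⟨u, c, hu0, hc, heu⟩ := exists_vec hw hn (hsp e he) he1
  obtain ⟨v, c', hv0, hc', hfv⟩ := exists_vec hw hn (hsp f hf) hf1
  have huG : EE w u u ∈ G := (Submodule.smul_mem_iff _ hc).1 (heu ▸ he)
  have hvG : EE w v v ∈ G := (Submodule.smul_mem_iff _ hc').1 (hfv ▸ hf)
  have huv : w u v ≠ 0 := by
    intro h0
    have h1 : e * f = 0 := by
      refine LinearMap.ext fun x => ?_
      rw [heu, hfv, Module.End.mul_apply, LinearMap.smul_apply, LinearMap.smul_apply, map_smul,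
        EE_apply w v v x, map_add, map_smul, EE_apply w u u v, h0]
      simp
    rw [h1, zero_mul] at hefe
    rw [← hefe, rk_zero] at he1
    exact zero_ne_one he1
  have hvu : w v u ≠ 0 := by
    rw [w_anti hw v u]
    exact neg_ne_zero.2 huv
  let M : S → Submodule ℂ S := fun a =>
    { carrier := {x | EE w a x ∈ G}
      zero_mem' := by
        change EE w a 0 ∈ G
        rw [EE_zero_right]
        exact G.zero_mem
      add_mem' := fun {x y} hx hy => by
        change EE w a (x + y) ∈ G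
        rw [EE_add_right]
        exact G.add_mem hx hy
      smul_mem' := fun t x hx => by
        change EE w a (t • x) ∈ G
        rw [EE_smul_right]
        exact G.smul_mem t hx }
  have hM : ∀ a x, x ∈ M a ↔ EE w a x ∈ G := fun a x => Iff.rfl
  have m1 : ∀ a, EE w a a ∈ G → ∀ X ∈ G, X a ∈ M a := by
    intro a ha X hX
    have h1 := hbr X hX _ ha
    rw [EE_bracket (hsp X hX), EE_comm w (X a), ← two_smul ℂ] at h1
    exact (hM a _).2 ((Submodule.smul_mem_iff G (two_ne_zero (α := ℂ))).1 h1)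
  have m2 : ∀ a b, EE w a a ∈ G → EE w b b ∈ G → w a b ≠ 0 → a ∈ M b := by
    intro a b ha hb hab
    have h1 := m1 b hb _ ha
    rw [EE_apply, ← two_smul ℂ, smul_smul] at h1
    exact (Submodule.smul_mem_iff _ (mul_ne_zero two_ne_zero hab)).1 h1
  have m3 : ∀ a b, EE w a a ∈ G → EE w b b ∈ G → w a b ≠ 0 → w b a ≠ 0 → M a ≤ M b := by
    intro a b ha hb hab hba x hx
    have h1 := hbr _ hb _ hx
    rw [EE_bracket (hsp _ hb), EE_apply, EE_apply, ← two_smul ℂ, ← two_smul ℂ, smul_smul,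
      smul_smul, EE_smul_left, EE_smul_right] at h1
    have h2 : EE w a b ∈ G := m2 b a hb ha hba
    have h3 := (Submodule.add_mem_iff_left _ (Submodule.smul_mem _ _ h2)).1 h1
    exact (hM b _).2 ((Submodule.smul_mem_iff G (mul_ne_zero two_ne_zero hba)).1 h3)
  have huv' : ∀ x, x ∈ M u → x ∈ M v := fun x hx => m3 u v huG hvG huv hvu hx
  have m4 : ∀ a ∈ M u, ∀ b ∈ M u, EE w a b ∈ G := by
    intro a ha b hb
    have h1 := hbr _ ((hM u a).1 ha) _ ((hM v b).1 (huv' b hb))
    rw [EE_bracket (hsp _ ha), EE_apply, EE_apply, EE_add_left, EE_add_right, EE_smul_left,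
      EE_smul_left, EE_smul_right, EE_smul_right] at h1
    have k1 : EE w u b ∈ G := hb
    have k2 : EE w v u ∈ G := m2 u v huG hvG huv
    have k3 : EE w v a ∈ G := huv' a ha
    have h2 := (Submodule.add_mem_iff_left _ (Submodule.add_mem _ (Submodule.smul_mem _ (w a b) k2)
      (Submodule.smul_mem _ (w u b) k3))).1 h1
    have h3 := (Submodule.add_mem_iff_right _ (Submodule.smul_mem _ (w a v) k1)).1 h2
    exact (Submodule.smul_mem_iff _ huv).1 h3
  have m5 : M u = ⊤ := by
    refine hirr _ ?_ ?_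
    · intro X hX x hx
      have h1 := hbr X hX _ ((hM u x).1 hx)
      rw [EE_bracket (hsp X hX)] at h1
      exact (Submodule.add_mem_iff_right _ (m4 _ (m1 u huG X hX) _ hx)).1 h1
    · intro h0
      have h1 : u ∈ M u := huG
      rw [h0, Submodule.mem_bot] at h1
      exact hu0 h1
  exact m4 x (by rw [m5]; trivial) y (by rw [m5]; trivial)

end full

end Pool.Agent.Y91.JP
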