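import Mathlib
import Pool.Agent.Y91.JP.Quad

/-!
# Irreducible summands on which the form is not zero
-/

set_option linter.unusedSectionVars false

namespace Pool.Agent.Y91.JP

open Module LinearMap Pool.Agent.W548.Odd

variable {K : Type*} [Field K] [CharZero K] {V : Type*} [AddCommGroup V] [Module K V]
  [FiniteDimensional K V]

/-- The commutant. -/
def Cmt (G : Submodule K (End K V)) : Submodule K (End K V) where
  carrier := {c | ∀ y ∈ G, c * y = y * c}
  zero_mem' := fun y _ => by rw [zero_mul, mul_zero]
  add_mem' := fun {a b} ha hb y hy => by rw [add_mul, mul_add, ha y hy, hb y hy]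
  smul_mem' := fun t a ha y hy => by rw [smul_mul_assoc, mul_smul_comm, ha y hy]

theorem Cmt.mul {G : Submodule K (End K V)} {a b : End K V} (ha : a ∈ Cmt G) (hb : b ∈ Cmt G) :
    a * b ∈ Cmt G := fun y hy => by
  rw [mul_assoc, hb y hy, ← mul_assoc, ha y hy, mul_assoc]

theorem Cmt.one {G : Submodule K (End K V)} : (1 : End K V) ∈ Cmt G := fun y _ => by
  rw [one_mul, mul_one]

/-- An irreducible stable subspace. -/
structure IrrS (G : Submodule K (End K V)) (M : Submodule K V) : Prop where
  st : ∀ y ∈ G, ∀ x ∈ M, y x ∈ M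
  ne : M ≠ ⊥
  min : ∀ W : Submodule K V, (∀ y ∈ G, ∀ x ∈ W, y x ∈ W) → W ≤ M → W = ⊥ ∨ W = M

variable {G : Submodule K (End K V)} {st : End K V →ₗ[K] End K V} (h : Setup G st)

theorem range_stable {c : End K V} (hc : c ∈ Cmt G) : ∀ y ∈ G, ∀ x ∈ LinearMap.range c,
    y x ∈ LinearMap.range c := by
  rintro y hy _ ⟨x, rfl⟩
  exact ⟨y x, LinearMap.congr_fun (hc y hy) x⟩

theorem IrrS.map {M : Submodule K V} (hM : IrrS G M) {c : End K V} (hc : c ∈ Cmt G) :
    M.map c = ⊥ ∨ IrrS G (M.map c) := by
  by_cases h0 : M.map c = ⊥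
  · exact Or.inl h0
  refine Or.inr ⟨?_, h0, ?_⟩
  · rintro y hy _ ⟨x, hx, rfl⟩
    exact ⟨y x, hM.st y hy x hx, LinearMap.congr_fun (hc y hy) x⟩
  · intro W hW hWM
    rcases hM.min (M ⊓ W.comap c) (by
      rintro y hy x ⟨hx, hx'⟩
      refine ⟨hM.st y hy x hx, ?_⟩
      change c (y x) ∈ W
      have h1 : c (y x) = y (c x) := LinearMap.congr_fun (hc y hy) x
      rw [h1]
      exact hW y hy _ hx') inf_le_left with h1 | h1
    · left
      rw [Submodule.eq_bot_iff]
      intro x hx
      obtain ⟨z, hz, rfl⟩ := hWM hx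
      have h2 : z ∈ M ⊓ W.comap c := ⟨hz, hx⟩
      rw [h1, Submodule.mem_bot] at h2
      rw [h2, map_zero]
    · right
      refine le_antisymm hWM ?_
      rintro _ ⟨z, hz, rfl⟩
      have h2 : z ∈ M ⊓ W.comap c := by
        rw [h1]
        exact hz
      exact h2.2

include h in
/-- Decomposition of an idempotent of the commutant. -/
theorem exists_decomp : ∀ (n : ℕ) (q : End K V), q ∈ Cmt G → q * q = q → rk q = n →
    ∃ (k : ℕ) (π : Fin k → End K V), (∀ i, π i ∈ Cmt G) ∧ (∀ i, π i * π i = π i) ∧
      (∀ i j, i ≠ j → π i * π j = 0) ∧ ∑ i, π i = q ∧ (∀ i, IrrS G (LinearMap.range (π i))) ∧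
      (∀ i, q * π i = π i) ∧ ∀ i, π i * q = π i := by
  intro n
  induction n using Nat.strong_induction_on with
  | _ n ih =>
    intro q hq hqq hn
    by_cases h0 : q = 0
    · refine ⟨0, fun i => i.elim0, fun i => i.elim0, fun i => i.elim0, fun i => i.elim0, ?_,
        fun i => i.elim0, fun i => i.elim0, fun i => i.elim0⟩
      rw [h0]
      rfl
    have hne : LinearMap.range q ≠ ⊥ := fun h1 => h0 (LinearMap.range_eq_bot.1 h1)
    by_cases hirr : IrrS G (LinearMap.range q)
    · refine ⟨1, fun _ => q, fun _ => hq, fun _ => hqq, fun i j hij => ?_, ?_, fun _ => hirr,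
        fun _ => hqq, fun _ => hqq⟩
      · exact absurd (Subsingleton.elim i j) hij
      · rw [Fin.sum_univ_one]
    · obtain ⟨W, hWs, hWle, hW0, hW1⟩ : ∃ W : Submodule K V, (∀ y ∈ G, ∀ x ∈ W, y x ∈ W) ∧
          W ≤ LinearMap.range q ∧ W ≠ ⊥ ∧ W ≠ LinearMap.range q := by
        by_contra hcon
        push Not at hcon
        apply hirr
        refine ⟨range_stable hq, hne, fun W hWs hWle => ?_⟩
        by_cases h1 : W = ⊥
        · exact Or.inl h1
        · exact Or.inr (hcon W hWs hWle h1)
      obtain ⟨π, hπ1, hπ2, hπ3⟩ := h.cr W hWs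
      have hππ : π * π = π := LinearMap.ext fun v => hπ3 _ (hπ2 v)
      have hqfix : ∀ v ∈ LinearMap.range q, q v = v := by
        rintro _ ⟨v, rfl⟩
        exact LinearMap.congr_fun hqq v
      have hqπ : q * π = π := LinearMap.ext fun v => hqfix _ (hWle (hπ2 v))
      have hπC : π ∈ Cmt G := hπ1
      obtain ⟨a, ha⟩ : ∃ a, a = π * q := ⟨_, rfl⟩
      obtain ⟨b, hb⟩ : ∃ b, b = q - a := ⟨_, rfl⟩
      have haC : a ∈ Cmt G := by rw [ha]; exact Cmt.mul hπC hq
      have hbC : b ∈ Cmt G := by rw [hb]; exact Submodule.sub_mem _ hq haC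
      have haa : a * a = a := by
        rw [ha]
        calc π * q * (π * q) = π * (q * π) * q := by noncomm_ring
        _ = π * q := by rw [hqπ, hππ]
      have hqa : q * a = a := by rw [ha, ← mul_assoc, hqπ]
      have haq : a * q = a := by rw [ha, mul_assoc, hqq]
      have hab : a * b = 0 := by rw [hb, mul_sub, haq, haa, sub_self]
      have hba : b * a = 0 := by rw [hb, sub_mul, hqa, haa, sub_self]
      have hbb : b * b = b := by
        have : b * b = b * q - b * a := by
          conv_lhs => rw [hb]
          rw [hb, mul_sub]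
        rw [this, hba, sub_zero, hb, sub_mul, hqq, haq]
      have hqb : q * b = b := by rw [hb, mul_sub, hqq, hqa]
      have hbq : b * q = b := by rw [hb, sub_mul, hqq, haq]
      have hab' : a + b = q := by rw [hb, add_sub_cancel]
      have hane : a ≠ 0 := by
        intro h1
        apply hW0
        rw [Submodule.eq_bot_iff]
        intro w hw
        have h2 : a w = w := by
          rw [ha, Module.End.mul_apply, hqfix _ (hWle hw)]
          exact hπ3 w hw
        rw [← h2, h1]
        rfl
      have hbne : b ≠ 0 := by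
        intro h1
        apply hW1
        refine le_antisymm hWle ?_
        rintro _ ⟨v, rfl⟩
        have h2 : q = a := by rw [← hab', h1, add_zero]
        rw [h2, ha]
        exact hπ2 _
      have hrk : rk q = rk a + rk b := rk_add (P := a) hab' haa hab ⟨a, hqa.symm⟩ ⟨b, hqb.symm⟩
      have hra : rk a < n := by
        have : rk b ≠ 0 := fun h1 => hbne (rk_eq_zero h1)
        omega
      have hrb : rk b < n := by
        have : rk a ≠ 0 := fun h1 => hane (rk_eq_zero h1)
        omega
      obtain ⟨k1, π1, c1, c2, c3, c4, c5, c6, c7⟩ := ih _ hra a haC haa rfl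
      obtain ⟨k2, π2, d1, d2, d3, d4, d5, d6, d7⟩ := ih _ hrb b hbC hbb rfl
      have cross1 : ∀ i j, π1 i * π2 j = 0 := by
        intro i j
        rw [← c7 i, ← d6 j]
        calc π1 i * a * (b * π2 j) = π1 i * (a * b) * π2 j := by noncomm_ring
        _ = 0 := by rw [hab, mul_zero, zero_mul]
      have cross2 : ∀ i j, π2 i * π1 j = 0 := by
        intro i j
        rw [← d7 i, ← c6 j]
        calc π2 i * b * (a * π1 j) = π2 i * (b * a) * π1 j := by noncomm_ring
        _ = 0 := by rw [hba, mul_zero, zero_mul]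
      refine ⟨k1 + k2, Fin.append π1 π2, ?_, ?_, ?_, ?_, ?_, ?_, ?_⟩
      · intro i
        refine Fin.addCases (fun i => ?_) (fun i => ?_) i
        · rw [Fin.append_left]; exact c1 i
        · rw [Fin.append_right]; exact d1 i
      · intro i
        refine Fin.addCases (fun i => ?_) (fun i => ?_) i
        · rw [Fin.append_left]; exact c2 i
        · rw [Fin.append_right]; exact d2 i
      · intro i j
        refine Fin.addCases (fun i => ?_) (fun i => ?_) i <;>
          refine Fin.addCases (fun j => ?_) (fun j => ?_) j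
        · intro hij
          rw [Fin.append_left, Fin.append_left]
          exact c3 i j fun h => hij (congrArg _ h)
        · intro _
          rw [Fin.append_left, Fin.append_right]
          exact cross1 i j
        · intro _
          rw [Fin.append_left, Fin.append_right]
          exact cross2 i j
        · intro hij
          rw [Fin.append_right, Fin.append_right]
          exact d3 i j fun h => hij (congrArg _ h)
      · rw [Fin.sum_univ_add]
        simp only [Fin.append_left, Fin.append_right]
        rw [c4, d4, hab']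
      · intro i
        refine Fin.addCases (fun i => ?_) (fun i => ?_) i
        · rw [Fin.append_left]; exact c5 i
        · rw [Fin.append_right]; exact d5 i
      · intro i
        refine Fin.addCases (fun i => ?_) (fun i => ?_) i
        · rw [Fin.append_left, ← c6 i, ← mul_assoc, hqa]
        · rw [Fin.append_right, ← d6 i, ← mul_assoc, hqb]
      · intro i
        refine Fin.addCases (fun i => ?_) (fun i => ?_) i
        · rw [Fin.append_left, ← c7 i, mul_assoc, haq]
        · rw [Fin.append_right, ← d7 i, mul_assoc, hbq]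

/-! ### Symmetric and skew elements of the commutant -/

theorem st_st {ω : V →ₗ[K] V →ₗ[K] K} (hω : AltF st ω) (x : End K V) : st (st x) = x := by
  obtain ⟨h1, h2, h3⟩ := hω
  refine LinearMap.ext fun w => ?_
  rw [← sub_eq_zero]
  refine h3 _ fun v => ?_
  rw [map_sub, sub_eq_zero, ← h1, h2, ← h1, h2, neg_neg]

include h in
theorem st_cmt {c : End K V} (hc : c ∈ Cmt G) : st c ∈ Cmt G := by
  intro y hy
  have h1 := congrArg st (hc y hy)
  rw [h.st_mul, h.st_mul, h.skew y hy, neg_mul, mul_neg, neg_inj] at h1
  exact h1.symm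

/-- The symmetric elements of the commutant. -/
def SymC (G : Submodule K (End K V)) (st : End K V →ₗ[K] End K V) : Submodule K (End K V) where
  carrier := {c | c ∈ Cmt G ∧ st c = c}
  zero_mem' := ⟨Submodule.zero_mem _, map_zero _⟩
  add_mem' := fun {a b} ha hb => ⟨Submodule.add_mem _ ha.1 hb.1, by rw [map_add, ha.2, hb.2]⟩
  smul_mem' := fun t a ha => ⟨Submodule.smul_mem _ t ha.1, by rw [map_smul, ha.2]⟩

/-- The skew elements of the commutant. -/
def SkewC (G : Submodule K (End K V)) (st : End K V →ₗ[K] End K V) : Submodule K (End K V) where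
  carrier := {c | c ∈ Cmt G ∧ st c = -c}
  zero_mem' := ⟨Submodule.zero_mem _, by rw [map_zero, neg_zero]⟩
  add_mem' := fun {a b} ha hb => ⟨Submodule.add_mem _ ha.1 hb.1, by
    rw [map_add, ha.2, hb.2, neg_add]⟩
  smul_mem' := fun t a ha => ⟨Submodule.smul_mem _ t ha.1, by rw [map_smul, ha.2, smul_neg]⟩

section iso

variable {ω : V →ₗ[K] V →ₗ[K] K} (hω : AltF st ω)
  (hiso : ∀ M, IrrS G M → ∀ x ∈ M, ∀ y ∈ M, ω x y = 0)

include h hω hiso

theorem diag_zero {π c : End K V} (hπ : π ∈ Cmt G) (hππ : π * π = π)
    (hM : IrrS G (LinearMap.range π)) (hc : c ∈ Cmt G) (hsc : st c = c) : st π * c * π = 0 := by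
  obtain ⟨h1, h2, h3⟩ := id hω
  obtain ⟨d, hd⟩ : ∃ d, d = st π * c * π := ⟨_, rfl⟩
  have hdC : d ∈ Cmt G := by
    rw [hd]
    exact Cmt.mul (Cmt.mul (st_cmt h hπ) hc) hπ
  have hstd : st d = d := by
    rw [hd, h.st_mul, h.st_mul, hsc, st_st hω, mul_assoc]
  have img : ∀ f ∈ Cmt G, ∀ x ∈ LinearMap.range π, ∀ y ∈ LinearMap.range π,
      ω (f x) (f y) = 0 := by
    intro f hf x hx y hy
    rcases hM.map hf with h0 | h0
    · have h4 : f x ∈ (LinearMap.range π).map f := ⟨x, hx, rfl⟩
      rw [h0, Submodule.mem_bot] at h4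
      rw [h4, map_zero, LinearMap.zero_apply]
    · exact hiso _ h0 _ ⟨x, hx, rfl⟩ _ ⟨y, hy, rfl⟩
  have key : ∀ x ∈ LinearMap.range π, ∀ y ∈ LinearMap.range π, ω (d x) y = 0 := by
    intro x hx y hy
    have e1 := img (1 + d) (Submodule.add_mem _ Cmt.one hdC) x hx y hy
    have e2 := img 1 Cmt.one x hx y hy
    have e3 := img d hdC x hx y hy
    have e6 : ∀ z : V, (1 + d : End K V) z = (1 : End K V) z + d z := fun z => rfl
    rw [e6, e6, map_add, map_add, LinearMap.add_apply, LinearMap.add_apply, e2, e3] at e1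
    have e4 : ω ((1 : End K V) x) (d y) = ω (d x) y := by
      rw [h1 d x y, hstd]
      rfl
    rw [e4] at e1
    have e5 : ω (d x) ((1 : End K V) y) = ω (d x) y := rfl
    rw [e5, zero_add, add_zero, ← two_mul] at e1
    exact (mul_eq_zero.1 e1).resolve_left two_ne_zero
  rw [← hd]
  refine LinearMap.ext fun v => ?_
  rw [LinearMap.zero_apply]
  have h4 : ∀ w, ω (d v) w = 0 := by
    intro w
    have e1 : d * π = d := by rw [hd, mul_assoc, hππ]
    have e2 : st π * d = d := by
      have : st (π * π) = st π * st π := h.st_mul _ _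
      rw [hππ] at this
      rw [hd, ← mul_assoc, ← mul_assoc, ← this]
    have e3 : d v = st π (d (π v)) := by
      conv_lhs => rw [← e2, ← e1]
      rfl
    rw [e3, h1, st_st hω]
    exact key _ ⟨v, rfl⟩ _ ⟨w, rfl⟩
  refine h3 _ fun w => ?_
  rw [h2, h4, neg_zero]

theorem sym_le_skew {D : End K V} (hD : D ∈ G) (hD2 : D * D = 1) :
    finrank K (SymC G st) ≤ finrank K (SkewC G st) := by
  classical
  obtain ⟨k, π, p1, p2, p3, p4, p5, -, -⟩ := exists_decomp h _ (1 : End K V) Cmt.one (one_mul 1) rfl
  have hst1 : st 1 = 1 := st_one h hD hD2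
  have hsum : ∑ j, st (π j) = 1 := by rw [← map_sum, p4, hst1]
  have q2 : ∀ i, st (π i) * st (π i) = st (π i) := fun i => by rw [← h.st_mul, p2]
  have q3 : ∀ i j, i ≠ j → st (π i) * st (π j) = 0 := fun i j hij => by
    rw [← h.st_mul, p3 j i (Ne.symm hij), map_zero]
  -- the map
  let T : End K V →ₗ[K] End K V :=
    ∑ i, ∑ j, if i < j then
      (LinearMap.mulLeft K (st (π j)) ∘ₗ LinearMap.mulRight K (π i) -
        LinearMap.mulLeft K (st (π i)) ∘ₗ LinearMap.mulRight K (π j)) else 0
  have hT : ∀ c, T c = ∑ i, ∑ j, if i < j then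
      (st (π j) * (c * π i) - st (π i) * (c * π j)) else 0 := by
    intro c
    simp only [T, LinearMap.sum_apply]
    refine Finset.sum_congr rfl fun i _ => Finset.sum_congr rfl fun j _ => ?_
    split_ifs <;> rfl
  have hblock : ∀ c a b, a < b → st (π b) * T c * π a = st (π b) * c * π a := by
    intro c a b hab
    rw [hT, Finset.mul_sum, Finset.sum_mul, Finset.sum_eq_single a, Finset.mul_sum,
      Finset.sum_mul, Finset.sum_eq_single b]
    · rw [if_pos hab]
      calc st (π b) * (st (π b) * (c * π a) - st (π a) * (c * π b)) * π a =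
          st (π b) * st (π b) * c * (π a * π a) - st (π b) * st (π a) * c * (π b * π a) := by
            noncomm_ring
      _ = _ := by rw [q2, p2, q3 b a (ne_of_gt hab), zero_mul, zero_mul, sub_zero]
    · intro j _ hj
      split_ifs with hij
      · calc st (π b) * (st (π j) * (c * π a) - st (π a) * (c * π j)) * π a =
            st (π b) * st (π j) * c * (π a * π a) - st (π b) * st (π a) * c * (π j * π a) := by
              noncomm_ring
        _ = _ := by
          rw [q3 b j (Ne.symm hj), q3 b a (ne_of_gt hab), zero_mul, zero_mul, zero_mul, sub_zero]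
      · rw [mul_zero, zero_mul]
    · intro hb
      exact absurd (Finset.mem_univ b) hb
    · intro i _ hi
      rw [Finset.mul_sum, Finset.sum_mul]
      refine Finset.sum_eq_zero fun j _ => ?_
      split_ifs with hij
      · calc st (π b) * (st (π j) * (c * π i) - st (π i) * (c * π j)) * π a =
            st (π b) * st (π j) * c * (π i * π a) - st (π b) * st (π i) * c * (π j * π a) := by
              noncomm_ring
        _ = 0 := by
          rw [p3 i a hi, mul_zero, zero_sub]
          by_cases hja : j = a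
          · subst hja
            have hib : b ≠ i := by
              rintro rfl
              exact lt_asymm hij hab
            rw [q3 b i hib, zero_mul, zero_mul, neg_zero]
          · rw [p3 j a hja, mul_zero, neg_zero]
      · rw [mul_zero, zero_mul]
    · intro ha
      exact absurd (Finset.mem_univ a) ha
  have hTs : ∀ c ∈ SymC G st, T c ∈ SkewC G st := by
    rintro c ⟨hc, hsc⟩
    refine ⟨?_, ?_⟩
    · rw [hT]
      refine Submodule.sum_mem _ fun i _ => Submodule.sum_mem _ fun j _ => ?_
      split_ifs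
      · exact Submodule.sub_mem _ (Cmt.mul (st_cmt h (p1 j)) (Cmt.mul hc (p1 i)))
          (Cmt.mul (st_cmt h (p1 i)) (Cmt.mul hc (p1 j)))
      · exact Submodule.zero_mem _
    · rw [hT, map_sum, ← Finset.sum_neg_distrib]
      refine Finset.sum_congr rfl fun i _ => ?_
      rw [map_sum, ← Finset.sum_neg_distrib]
      refine Finset.sum_congr rfl fun j _ => ?_
      split_ifs
      · rw [map_sub, h.st_mul, h.st_mul, h.st_mul, h.st_mul, hsc, st_st hω, st_st hω, neg_sub,
          mul_assoc, mul_assoc]
      · rw [map_zero, neg_zero]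
  have hinj : ∀ c ∈ SymC G st, T c = 0 → c = 0 := by
    rintro c ⟨hc, hsc⟩ h0
    have b1 : ∀ a b, a < b → st (π b) * c * π a = 0 := by
      intro a b hab
      rw [← hblock c a b hab, h0, mul_zero, zero_mul]
    have b2 : ∀ a b, a < b → st (π a) * c * π b = 0 := by
      intro a b hab
      have h4 := congrArg st (b1 a b hab)
      rw [h.st_mul, h.st_mul, st_st hω, hsc, map_zero, ← mul_assoc] at h4
      exact h4
    have b3 : ∀ a b, st (π b) * c * π a = 0 := by
      intro a b
      rcases lt_trichotomy a b with hab | hab | hab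
      · exact b1 a b hab
      · subst hab
        exact diag_zero h hω hiso (p1 a) (p2 a) (p5 a) hc hsc
      · exact b2 b a hab
    calc c = (∑ j, st (π j)) * c * ∑ i, π i := by rw [hsum, p4, one_mul, mul_one]
    _ = ∑ i, ∑ j, st (π j) * c * π i := by
      rw [Finset.mul_sum]
      refine Finset.sum_congr rfl fun i _ => ?_
      rw [Finset.sum_mul, Finset.sum_mul]
    _ = 0 := Finset.sum_eq_zero fun i _ => Finset.sum_eq_zero fun j _ => b3 i j
  let T' : SymC G st →ₗ[K] SkewC G st := T.restrict hTs
  have hT' : Function.Injective T' := by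
    rw [injective_iff_map_eq_zero]
    rintro ⟨c, hc⟩ h0
    have h1 : T c = 0 := congrArg Subtype.val h0
    exact Subtype.ext (hinj c hc h1)
  exact LinearMap.finrank_le_finrank_of_injective hT'

end iso

end Pool.Agent.Y91.JP
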