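import Mathlib
import Pool.Agent.Y91.JP.Abs

/-!
# Elements that are not primitive: halving the rank
-/

set_option linter.unusedSectionVars false

namespace Pool.Agent.Y91.JP

open Module LinearMap Pool.Agent.W548.Odd Polynomial

variable {K : Type*} [Field K] [CharZero K] {V : Type*} [AddCommGroup V] [Module K V]
  [FiniteDimensional K V]

/-- If `A` kills the range of `b` and the range of `b` is contained in the range of `x` then the
ranks of `A x` and `b` add up to at most the rank of `x`. -/
theorem rk_add_le {A x b : End K V} (hb : LinearMap.range b ≤ LinearMap.range x)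
    (hAb : A * b = 0) : rk (A * x) + rk b ≤ rk x := by
  unfold rk
  have h1 := finrank_range_add_finrank_ker (A.domRestrict (LinearMap.range x))
  have h2 : LinearMap.range (A.domRestrict (LinearMap.range x)) = LinearMap.range (A * x) := by
    ext v
    constructor
    · rintro ⟨⟨_, w, rfl⟩, rfl⟩
      exact ⟨w, rfl⟩
    · rintro ⟨w, rfl⟩
      exact ⟨⟨x w, w, rfl⟩, rfl⟩
  have h3 : finrank K (LinearMap.range b) ≤
      finrank K (LinearMap.ker (A.domRestrict (LinearMap.range x))) := by
    have h4 : ∀ v : LinearMap.range b, Submodule.inclusion hb v ∈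
        LinearMap.ker (A.domRestrict (LinearMap.range x)) := by
      rintro ⟨_, w, rfl⟩
      rw [LinearMap.mem_ker]
      exact LinearMap.congr_fun hAb w
    refine LinearMap.finrank_le_finrank_of_injective
      (f := (Submodule.inclusion hb).codRestrict _ h4) ?_
    intro a c hac
    exact Submodule.inclusion_injective hb (congrArg Subtype.val hac)
  rw [h2] at h1
  omega

variable {G I : Submodule K (End K V)} {st : End K V →ₗ[K] End K V} (h : Setup G st)

include h in
/-- **Halving**: an element of the positive part which is not primitive gives a nonzero element of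
at most half the rank. -/
theorem halving [IsAlgClosed K] {D x : End K V} (hD : D ∈ G) (hD2 : D * D = 1)
    (hx : x ∈ Kp G D) (hn : ¬ ∀ y ∈ G, ∃ s : K, x * y * x = s • x) :
    ∃ x' ∈ Kp G D, x' ≠ 0 ∧ 2 * rk x' ≤ rk x := by
  classical
  push Not at hn
  obtain ⟨a, ha, hns⟩ := hn
  obtain ⟨y, hy, hxyx, hyxy⟩ := kp_partner h hD hD2 hx
  obtain ⟨z, hzd⟩ : ∃ z, z = x * a * x := ⟨_, rfl⟩
  have hz : z ∈ Kp G D := by
    rw [hzd]
    refine ⟨h.quad hx.1 (kp_sq hx) ha, ?_, ?_⟩
    · rw [← mul_assoc, ← mul_assoc, hx.2.1]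
    · rw [mul_assoc, hx.2.2, mul_neg]
  obtain ⟨T, hT⟩ : ∃ T, T = z * y := ⟨_, rfl⟩
  have hTx : T * x = z := by
    calc T * x = x * a * (x * y * x) := by rw [hT, hzd]; noncomm_ring
    _ = z := by rw [hxyx, hzd]
  have hxyz : x * y * z = z := by
    calc x * y * z = (x * y * x) * a * x := by rw [hzd]; noncomm_ring
    _ = z := by rw [hxyx, hzd]
  have hpow : ∀ k : ℕ, T ^ k * x ∈ Kp G D := by
    intro k
    induction k with
    | zero => rwa [pow_zero, one_mul]
    | succ k ih =>
      have t := kp_tri h hz hy ih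
      have e1 : z * y * (T ^ k * x) = T ^ (k + 1) * x := by
        rw [← hT, ← mul_assoc, ← pow_succ']
      have e2 : T ^ k * x * y * z = T ^ (k + 1) * x := by
        rw [mul_assoc (T ^ k) x y, mul_assoc (T ^ k) (x * y) z, hxyz, ← hTx, ← mul_assoc,
          ← pow_succ]
      rw [e1, e2, ← two_smul K] at t
      exact (Submodule.smul_mem_iff _ (two_ne_zero (α := K))).1 t
  have hpol : ∀ q : K[X], aeval T q * x ∈ Kp G D := by
    intro q
    rw [aeval_eq_sum_range, Finset.sum_mul]
    refine Submodule.sum_mem _ fun i _ => ?_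
    rw [smul_mul_assoc]
    exact Submodule.smul_mem _ _ (hpow i)
  have hx0 : x ≠ 0 := by
    intro h0
    apply hns 0
    rw [h0]
    simp
  let P : ℕ → Prop := fun n => ∃ q : K[X], aeval T q * x ≠ 0 ∧ rk (aeval T q * x) = n
  have hP : ∃ n, P n := ⟨rk x, 1, by rwa [map_one, one_mul], by rw [map_one, one_mul]⟩
  obtain ⟨q0, hA0, hAr⟩ := Nat.find_spec hP
  have hmin : ∀ q : K[X], aeval T q * x ≠ 0 → rk (aeval T q0 * x) ≤ rk (aeval T q * x) := by
    intro q hq
    rw [hAr]
    exact Nat.find_min' hP ⟨q, hq, rfl⟩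
  obtain ⟨A, hA⟩ : ∃ A, A = aeval T q0 := ⟨_, rfl⟩
  rw [← hA] at hA0 hmin
  have hAT : A * T = T * A := by
    have h1 : A * T = aeval T (q0 * X) := by rw [map_mul, aeval_X, hA]
    have h2 : T * A = aeval T (X * q0) := by rw [map_mul, aeval_X, hA]
    rw [h1, h2, mul_comm]
  have hne : LinearMap.range (A * x) ≠ ⊥ := fun h0 => hA0 (LinearMap.range_eq_bot.1 h0)
  obtain ⟨v, ⟨v', hv'⟩, hv0, μ, hμ⟩ := exists_eigenvector_mem T (LinearMap.range (A * x)) hne (by
    rintro _ ⟨w, rfl⟩
    refine ⟨a (x w), ?_⟩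
    have e1 : T * (A * x) = A * x * (a * x) := by
      rw [← mul_assoc, ← hAT, mul_assoc, hTx, hzd]
      noncomm_ring
    exact (LinearMap.congr_fun e1 w).symm)
  obtain ⟨B, hB⟩ : ∃ B, B = aeval T (X - C μ) := ⟨_, rfl⟩
  have hBT : B = T - μ • 1 := by
    rw [hB, map_sub, aeval_X, aeval_C, Algebra.algebraMap_eq_smul_one]
  have hAB : A * B = B * A := by
    rw [hBT, mul_sub, sub_mul, hAT, mul_smul_comm, smul_mul_assoc, mul_one, one_mul]
  have hBA : B * (A * x) = 0 := by
    by_contra hcon
    have h1 : B * (A * x) = aeval T ((X - C μ) * q0) * x := by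
      rw [map_mul, ← hB, ← hA, mul_assoc]
    have h2 := hmin ((X - C μ) * q0) (by rwa [← h1])
    rw [← h1] at h2
    have h3 : rk (B * (A * x)) < rk (A * x) := by
      refine rk_lt_of_kernel (v := v') ?_ ?_ ?_
      · intro w hw
        change B ((A * x) w) = 0
        rw [hw, map_zero]
      · rw [hv']
        exact hv0
      · change B ((A * x) v') = 0
        rw [hv', hBT, LinearMap.sub_apply, hμ, LinearMap.smul_apply, Module.End.one_apply,
          sub_self]
    omega
  have hBx0 : B * x ≠ 0 := by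
    intro h0
    apply hns μ
    rw [hBT, sub_mul, hTx, smul_mul_assoc, one_mul, sub_eq_zero] at h0
    rw [← hzd, h0]
  have h1 := rk_add_le (A := A) (x := x) (b := B * x) (by
    rintro _ ⟨w, rfl⟩
    refine ⟨a (x w) - μ • w, ?_⟩
    have e1 : B * x = x * (a * x) - μ • x := by
      rw [hBT, sub_mul, hTx, smul_mul_assoc, one_mul, hzd]
      noncomm_ring
    rw [e1, map_sub, map_smul]
    rfl) (by rw [← mul_assoc, hAB, mul_assoc, hBA])
  have h2 := hmin (X - C μ) (by rwa [← hB])
  rw [← hB] at h2
  refine ⟨A * x, ?_, hA0, by omega⟩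
  rw [hA]
  exact hpol q0

end Pool.Agent.Y91.JP
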