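import Mathlib
import Pool.Agent.Y91.JP.Half

/-!
# Primitive elements of the positive part have equal ranks
-/

set_option linter.unusedSectionVars false

namespace Pool.Agent.Y91.JP

open Module LinearMap Pool.Agent.W548.Odd

variable {K : Type*} [Field K] [CharZero K] {V : Type*} [AddCommGroup V] [Module K V]
  [FiniteDimensional K V]

variable {G I : Submodule K (End K V)} {st : End K V →ₗ[K] End K V} (h : Setup G st)

include h in
theorem kp_nondeg {D x : End K V} (hD : D ∈ G) (hD2 : D * D = 1) (hx : x ∈ Kp G D)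
    (h0 : ∀ y ∈ Kp G (-D), trace K V (x * y) = 0) : x = 0 := by
  by_contra hne
  obtain ⟨y, hy, h1, -⟩ := kp_partner h hD hD2 hx
  exact trace_pair_ne h1 hne (h0 y hy)

include h in
/-- The trace of a product of four elements. -/
theorem trace_four (ht : TrSt st) {a b c d : End K V} (ha : a ∈ G) (hb : b ∈ G) (hc : c ∈ G)
    (hd : d ∈ G) : trace K V (a * b * c * d) = trace K V (d * c * b * a) := by
  have h1 := ht (a * b * c * d)
  rw [h.st_mul, h.st_mul, h.st_mul, h.skew a ha, h.skew b hb, h.skew c hc, h.skew d hd] at h1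
  rw [← h1]
  congr 1
  noncomm_ring

namespace MP

variable {D c d p q : End K V} (F : MP G st D c d p q)

include h F

/-- A primitive element is linked to all elements. -/
theorem link (ht : TrSt st) (hD : D ∈ G) (hD2 : D * D = 1) (hirr : Irr G D) {x : End K V}
    (hx : x ∈ Kp G D) (hx0 : x ≠ 0) : ∃ z ∈ Kp G (-D), trace K V (x * z * c * z) ≠ 0 := by
  by_contra hcon
  push Not at hcon
  have hsym : ∀ z ∈ Kp G (-D), ∀ z' ∈ Kp G (-D),
      trace K V (x * z' * c * z) = trace K V (x * z * c * z') := by
    intro z hz z' hz'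
    rw [trace_four h ht hx.1 hz'.1 F.cm.1 hz.1]
    rw [LinearMap.trace_mul_comm K (z * c * z') x]
    congr 1
  have hpol : ∀ z ∈ Kp G (-D), ∀ z' ∈ Kp G (-D), trace K V (x * z * c * z') = 0 := by
    intro z hz z' hz'
    have h1 := hcon (z + z') (Submodule.add_mem _ hz hz')
    have e1 : x * (z + z') * c * (z + z') = x * z * c * z + x * z' * c * z' +
        (x * z * c * z' + x * z' * c * z) := by noncomm_ring
    rw [e1, map_add, map_add, map_add, hcon z hz, hcon z' hz', hsym z hz z' hz'] at h1
    have h2 : (2 : K) * trace K V (x * z * c * z') = 0 := by linear_combination h1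
    exact (mul_eq_zero.1 h2).resolve_left two_ne_zero
  have hw : ∀ z ∈ Kp G (-D), c * z * x + x * z * c = 0 := by
    intro z hz
    refine kp_nondeg h hD hD2 (kp_tri h F.cm hz hx) fun z' hz' => ?_
    have e1 : trace K V (c * z * x * z') = trace K V (x * z * c * z') := by
      rw [trace_four h ht F.cm.1 hz.1 hx.1 hz'.1, mul_assoc, mul_assoc,
        LinearMap.trace_mul_comm K z' (x * (z * c))]
      congr 1
    rw [add_mul, map_add, e1, hpol z hz z' hz', add_zero]
  have hpx' : p * x = -(x * q) := by
    have h1 := hw d F.dm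
    rw [F.cd, mul_assoc x d c, F.dc] at h1
    exact eq_neg_of_add_eq_zero_left h1
  have hpx : p * x = 0 := by
    have h1 : p * x = -(p * x * q) := by
      calc p * x = p * (p * x) := by rw [← mul_assoc, F.pp]
      _ = -(p * x * q) := by rw [hpx', mul_neg, ← mul_assoc]
                             congr 1
                             rw [hpx']
    have h2 : p * x * q = -(p * x) * -1 * q := by noncomm_ring
    have h3 : p * x * q = -(x * q) := by rw [hpx', neg_mul, mul_assoc, F.qq]
    rw [h3, neg_neg] at h1
    have h4 : (2 : K) • (p * x) = 0 := by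
      rw [two_smul]
      nth_rewrite 1 [h1]
      rw [hpx', add_neg_cancel]
    exact (smul_eq_zero.1 h4).resolve_left two_ne_zero
  have hzero : ∀ z ∈ Kp G (-D), c * z * x = 0 := by
    intro z hz
    have h1 : c * z * x = -(x * z * c) := eq_neg_of_add_eq_zero_left (hw z hz)
    calc c * z * x = p * (c * z * x) := by rw [← mul_assoc, ← mul_assoc, F.pc]
    _ = -((p * x) * z * c) := by rw [h1]; noncomm_ring
    _ = 0 := by rw [hpx]; simp
  have hdx : d * x = 0 := by rw [← F.dp, mul_assoc, hpx, mul_zero]
  rcases F.irr_one h hirr (U := ⊥) (fun x _ y _ v hv => by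
    rw [(Submodule.mem_bot K).1 hv, map_zero, map_zero, map_zero]
    exact Submodule.zero_mem _) with h1 | h1
  · apply hx0
    refine LinearMap.ext fun w => ?_
    have h2 : x w ∈ ({0} : Set V) := by
      rw [← h1]
      refine ⟨LinearMap.congr_fun hx.2.1 w, fun a ha b hb => ?_⟩
      rw [Submodule.mem_bot]
      have h3 := hzero _ (kp_tri' h F.dm ha hb)
      have h4 : c * (d * a * b + b * a * d) * x = (c * d) * a * b * x +
          c * b * a * (d * x) := by noncomm_ring
      rw [h4, hdx, mul_zero, add_zero, F.cd] at h3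
      exact LinearMap.congr_fun h3 w
    exact h2
  · apply F.ne
    refine LinearMap.ext fun w => ?_
    have h2 := h1 (c w) (LinearMap.congr_fun F.pc w)
    exact (Submodule.mem_bot K).1 h2

/-- The rank of a primitive element is at most the rank of another primitive element. -/
theorem prim_rk (ht : TrSt st) (hD : D ∈ G) (hD2 : D * D = 1) (hirr : Irr G D)
    {c' d' p' q' : End K V} (F' : MP G st D c' d' p' q') : rk c' ≤ rk c := by
  obtain ⟨z, hz, hz0⟩ := F.link h ht hD hD2 hirr F'.cm F'.ne
  obtain ⟨e, he⟩ : ∃ e, e = z * c * z := ⟨_, rfl⟩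
  have heG : e ∈ G := by
    rw [he]
    exact h.quad hz.1 (kp_sq hz) F.cm.1
  obtain ⟨s, hs⟩ := F'.min e heG
  have h1 : trace K V (c' * e) ≠ 0 := by
    have e1 : c' * e = c' * z * c * z := by rw [he]; noncomm_ring
    rwa [e1]
  have hs0 : s ≠ 0 := by
    rintro rfl
    apply h1
    have e1 : trace K V (c' * e * c' * d') = trace K V (c' * e) := by
      calc trace K V (c' * e * c' * d') = trace K V ((c' * e) * p') := by rw [mul_assoc, F'.cd]
      _ = trace K V (p' * (c' * e)) := LinearMap.trace_mul_comm K _ _
      _ = trace K V (c' * e) := by rw [← mul_assoc, F'.pc]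
    rw [← e1, hs, zero_smul, zero_mul, map_zero]
  have h2 : c' = s⁻¹ • (c' * e * c') := by
    rw [hs, smul_smul, inv_mul_cancel₀ hs0, one_smul]
  calc rk c' = rk (c' * e * c') := by
        conv_lhs => rw [h2]
        exact rk_smul (inv_ne_zero hs0) _
  _ ≤ rk (c' * e) := rk_mul_le_left _ _
  _ ≤ rk e := rk_mul_le_right _ _
  _ ≤ rk (z * c) := by rw [he]; exact rk_mul_le_left _ _
  _ ≤ rk c := rk_mul_le_right _ _

end MP

end Pool.Agent.Y91.JP
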