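import Mathlib
import Pool.Agent.Y91.JP.Prim

/-!
# The Casimir equality and the possible ranks
-/

set_option linter.unusedSectionVars false

namespace Pool.Agent.Y91.JP

open Module LinearMap Pool.Agent.W548.Odd

variable {K : Type*} [Field K] [CharZero K] {V : Type*} [AddCommGroup V] [Module K V]
  [FiniteDimensional K V]

variable {G I : Submodule K (End K V)} {st : End K V →ₗ[K] End K V} (h : Setup G st)

include h in
/-- **The Casimir equality**: if no element is orthogonal to the pair then the rank is determined by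
the dimensions. -/
theorem MP.cas_eq [IsAlgClosed K] {D c d p q : End K V} (F : MP G st D c d p q)
    (ht : TrSt st) (hD : D ∈ G) (hD2 : D * D = 1) (hirr : Irr G D)
    (hcon : ∀ x ∈ Kp G D, x - p * x - x * q + p * x * q = 0) :
    ∃ n : ℕ, 4 * n * rk c = (n + 1) * finrank K V := by
  classical
  obtain ⟨n, hn⟩ : ∃ n, n = finrank K (Kp G D) := ⟨_, rfl⟩
  let b : Basis (Fin (finrank K (Kp G D))) K (Kp G D) := Module.finBasis K (Kp G D)
  choose b' hb' hbb' using fun i => exists_dual h hD hD2 (b.coord i)
  -- expansions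
  have ex1 : ∀ x : Kp G D, (x : End K V) = ∑ j, trace K V ((x : End K V) * b' j) •
      (b j : End K V) := by
    intro x
    have e1 : x = ∑ j, trace K V ((x : End K V) * b' j) • b j := by
      conv_lhs => rw [← b.sum_repr x]
      refine Finset.sum_congr rfl fun j _ => ?_
      rw [hbb' j x]
      rfl
    conv_lhs => rw [e1]
    rw [Submodule.coe_sum]
    rfl
  have ex2 : ∀ y ∈ Kp G (-D), y = ∑ i, trace K V ((b i : End K V) * y) • b' i := by
    intro y hy
    rw [← sub_eq_zero]
    refine kn_nondeg h hD hD2 (Submodule.sub_mem _ hy (Submodule.sum_mem _ fun i _ =>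
      Submodule.smul_mem _ _ (hb' i))) fun x hx => ?_
    rw [mul_sub, map_sub, Finset.mul_sum, map_sum]
    have e1 : trace K V (x * y) = ∑ j, trace K V (x * b' j) * trace K V ((b j : End K V) * y) := by
      have e2 := ex1 ⟨x, hx⟩
      simp only at e2
      conv_lhs => rw [e2]
      rw [Finset.sum_mul, map_sum]
      refine Finset.sum_congr rfl fun j _ => ?_
      rw [smul_mul_assoc, map_smul, smul_eq_mul]
    rw [e1, sub_eq_zero]
    refine Finset.sum_congr rfl fun j _ => ?_
    rw [mul_smul_comm, map_smul, smul_eq_mul]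
    ring
  have trR : ∀ R : Kp G D →ₗ[K] Kp G D, ∑ i, trace K V (((R (b i) : Kp G D) : End K V) * b' i) =
      trace K (Kp G D) R := by
    intro R
    rw [LinearMap.trace_eq_matrix_trace K b R, Matrix.trace]
    refine Finset.sum_congr rfl fun i _ => ?_
    rw [hbb' i, Matrix.diag_apply, LinearMap.toMatrix_apply]
    rfl
  -- the Casimir operator
  obtain ⟨C, hC⟩ : ∃ C : End K V, C = ∑ i, (b i : End K V) * b' i := ⟨_, rfl⟩
  have hDC : D * C = C := by
    rw [hC, Finset.mul_sum]
    refine Finset.sum_congr rfl fun i _ => ?_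
    rw [← mul_assoc, (b i).2.2.1]
  have hCD : C * D = C := by
    rw [hC, Finset.sum_mul]
    refine Finset.sum_congr rfl fun i _ => ?_
    rw [mul_assoc, (mem_Kn.1 (hb' i)).2.2]
  have hcomm : ∀ u ∈ Kp G D, ∀ v ∈ Kp G (-D), u * v * C = C * (u * v) := by
    intro u hu v hv
    have k1 : ∑ i, (u * v * (b i : End K V) + (b i : End K V) * v * u) * b' i =
        ∑ j, (b j : End K V) * (b' j * u * v + v * u * b' j) := by
      have t1 : ∀ i, u * v * (b i : End K V) + (b i : End K V) * v * u =
          ∑ j, trace K V ((u * v * (b i : End K V) + (b i : End K V) * v * u) * b' j) •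
            (b j : End K V) := fun i => ex1 ⟨_, kp_tri h hu hv (b i).2⟩
      have t2 : ∀ j, b' j * u * v + v * u * b' j =
          ∑ i, trace K V ((b i : End K V) * (b' j * u * v + v * u * b' j)) • b' i := fun j =>
        ex2 _ (kp_tri' h (hb' j) hu hv)
      have t3 : ∀ i j, trace K V ((u * v * (b i : End K V) + (b i : End K V) * v * u) * b' j) =
          trace K V ((b i : End K V) * (b' j * u * v + v * u * b' j)) := by
        intro i j
        have s1 : u * v * (b i : End K V) * b' j = (u * v) * ((b i : End K V) * b' j) := by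
          noncomm_ring
        have s2 : (b i : End K V) * (b' j * u * v) = ((b i : End K V) * b' j) * (u * v) := by
          noncomm_ring
        have s3 : (b i : End K V) * v * u * b' j = (b i : End K V) * (v * u * b' j) := by
          noncomm_ring
        rw [add_mul, mul_add, map_add, map_add, s1, s2, s3, LinearMap.trace_mul_comm]
      calc ∑ i, (u * v * (b i : End K V) + (b i : End K V) * v * u) * b' i =
          ∑ i, ∑ j, (trace K V ((u * v * (b i : End K V) + (b i : End K V) * v * u) * b' j) •
            (b j : End K V)) * b' i := by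
            refine Finset.sum_congr rfl fun i _ => ?_
            conv_lhs => rw [t1 i]
            rw [Finset.sum_mul]
      _ = ∑ j, ∑ i, (trace K V ((u * v * (b i : End K V) + (b i : End K V) * v * u) * b' j) •
            (b j : End K V)) * b' i := Finset.sum_comm
      _ = ∑ j, (b j : End K V) * (b' j * u * v + v * u * b' j) := by
            refine Finset.sum_congr rfl fun j _ => ?_
            conv_rhs => rw [t2 j]
            rw [Finset.mul_sum]
            refine Finset.sum_congr rfl fun i _ => ?_
            rw [t3, smul_mul_assoc, mul_smul_comm]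
    have k2 : u * v * C = ∑ i, (u * v * (b i : End K V) + (b i : End K V) * v * u) * b' i -
        ∑ i, (b i : End K V) * (v * u) * b' i := by
      rw [hC, Finset.mul_sum, ← Finset.sum_sub_distrib]
      refine Finset.sum_congr rfl fun i _ => ?_
      noncomm_ring
    have k3 : C * (u * v) = ∑ j, (b j : End K V) * (b' j * u * v + v * u * b' j) -
        ∑ i, (b i : End K V) * (v * u) * b' i := by
      rw [hC, Finset.sum_mul, ← Finset.sum_sub_distrib]
      refine Finset.sum_congr rfl fun i _ => ?_
      noncomm_ring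
    rw [k2, k3, k1]
  -- it is a scalar on the positive part
  let M : Submodule K V := LinearMap.ker (D - 1)
  have hM : ∀ v, v ∈ M ↔ D v = v := by
    intro v
    rw [LinearMap.mem_ker, LinearMap.sub_apply, sub_eq_zero]
    rfl
  obtain ⟨w0, hw0⟩ : ∃ w, c w ≠ 0 := by
    by_contra hc
    push Not at hc
    exact F.ne (LinearMap.ext hc)
  have hMne : M ≠ ⊥ := by
    intro h0
    have h1 : c w0 ∈ M := (hM _).2 (LinearMap.congr_fun F.cm.2.1 w0)
    rw [h0] at h1
    exact hw0 h1
  obtain ⟨v0, hv0M, hv0, l, hl⟩ := exists_eigenvector_mem C M hMne fun x hx =>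
    (hM _).2 (LinearMap.congr_fun hDC x)
  let W : Submodule K V := M ⊓ LinearMap.ker (C - l • 1)
  have hW : ∀ v, v ∈ W ↔ D v = v ∧ C v = l • v := by
    intro v
    change v ∈ M ∧ v ∈ LinearMap.ker (C - l • (1 : End K V)) ↔ _
    rw [hM, LinearMap.mem_ker, LinearMap.sub_apply, sub_eq_zero]
    rfl
  have hall : ∀ v, D v = v → C v = l • v := by
    have hst : ∀ x ∈ Kp G D, ∀ y ∈ Kp G (-D), ∀ w ∈ W, x (y w) ∈ W := by
      intro x hx y hy w hw
      refine (hW _).2 ⟨LinearMap.congr_fun hx.2.1 (y w), ?_⟩
      have h1 : C (x (y w)) = x (y (C w)) := (LinearMap.congr_fun (hcomm x hx y hy) w).symm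
      rw [h1, ((hW w).1 hw).2, map_smul, map_smul]
    rcases hirr W (fun w hw => ((hW w).1 hw).1) hst with h1 | h1
    · exfalso
      have h2 : v0 ∈ W := (hW _).2 ⟨(hM _).1 hv0M, hl⟩
      rw [h1] at h2
      exact hv0 h2
    · exact fun v hv => ((hW v).1 (h1 v hv)).2
  have hCl : C = (l * 2⁻¹) • (1 + D) := by
    refine LinearMap.ext fun v => ?_
    have h1 : (1 + D) * D = 1 + D := by rw [add_mul, one_mul, hD2, add_comm]
    have h2 : D ((1 + D) v) = (1 + D) v := by
      have h3 : D * (1 + D) = 1 + D := by rw [mul_add, mul_one, hD2, add_comm]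
      exact LinearMap.congr_fun h3 v
    have h3 := hall _ h2
    have h4 : C ((1 + D) v) = (2 : K) • C v := by
      have h5 : C * (1 + D) = (2 : K) • C := by rw [mul_add, mul_one, hCD, two_smul]
      exact LinearMap.congr_fun h5 v
    rw [h4] at h3
    rw [LinearMap.smul_apply, mul_comm, mul_smul, ← h3, smul_smul,
      inv_mul_cancel₀ two_ne_zero, one_smul]
  have hDp : D * p = p := by rw [← F.cd, ← mul_assoc, F.cm.2.1]
  have hCp : C * p = l • p := by
    rw [hCl, smul_mul_assoc, add_mul, one_mul, hDp, ← two_smul K p, smul_smul, mul_assoc,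
      inv_mul_cancel₀ two_ne_zero, mul_one]
  have hmp : trace K V p = (rk c : K) := by
    rw [trace_idem F.pp]
    congr 1
    apply le_antisymm
    · rw [← F.cd]
      exact rk_mul_le_left _ _
    · conv_lhs => rw [← F.pc]
      exact rk_mul_le_left _ _
  -- the traces
  have tr1 : (finrank K (Kp G D) : K) = l * 2⁻¹ * (finrank K V : K) := by
    have h1 := trR LinearMap.id
    rw [LinearMap.trace_id] at h1
    have h2 : ∑ i, trace K V ((((LinearMap.id : Kp G D →ₗ[K] Kp G D) (b i) : Kp G D) :
        End K V) * b' i) = trace K V C := by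
      rw [hC, map_sum]
      rfl
    rw [h2, hCl, map_smul, map_add, LinearMap.trace_one, trace_inv h ht hD, add_zero,
      smul_eq_mul] at h1
    exact h1.symm
  have hL : trace K (Kp G D) (Lop h F.cm F.dm) = 2 * (l * (rk c : K)) := by
    rw [← trR, ← hmp, ← smul_eq_mul l, ← map_smul, ← hCp, LinearMap.trace_mul_comm, hC,
      Finset.mul_sum, map_sum, Finset.mul_sum]
    refine Finset.sum_congr rfl fun i _ => ?_
    change trace K V ((c * d * (b i : End K V) + (b i : End K V) * d * c) * b' i) = _
    have e1 : (b i : End K V) * d * c = (b i : End K V) * q := by rw [mul_assoc, F.dc]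
    rw [F.cd, e1, add_mul, map_add, ← F.trace_symm h ht (b i).2.1 (mem_Kn.1 (hb' i)).1,
      ← two_mul, mul_assoc p]
  -- the rank one operator
  have hm0 : (rk c : K) ≠ 0 := by exact_mod_cast (rk_pos_of_ne F.ne).ne'
  let φ : Kp G D →ₗ[K] K := (rk c : K)⁻¹ • ((trace K V).comp ((LinearMap.mulRight K d).comp
    (Kp G D).subtype))
  have hφ : ∀ x : Kp G D, φ x = (rk c : K)⁻¹ * trace K V ((x : End K V) * d) := fun _ => rfl
  have hLid : Lop h F.cm F.dm = LinearMap.id + φ.smulRight (⟨c, F.cm⟩ : Kp G D) := by
    refine LinearMap.ext fun x => Subtype.ext ?_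
    change c * d * (x : End K V) + (x : End K V) * d * c =
      (x : End K V) + φ x • c
    have e1 : (x : End K V) * d * c = (x : End K V) * q := by rw [mul_assoc, F.dc]
    have e2 := hcon x x.2
    have e3 : p * (x : End K V) + (x : End K V) * q = (x : End K V) + p * (x : End K V) * q := by
      rw [← sub_eq_zero, ← neg_eq_zero, ← e2]
      abel
    rw [F.cd, e1, e3]
    congr 1
    obtain ⟨s, hs⟩ := F.mx x x.2.1
    rw [hs]
    congr 1
    rw [hφ]
    have e4 : trace K V ((x : End K V) * d) = s * (rk c : K) := by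
      have e5 : trace K V (p * (x : End K V) * q * d) = s * (rk c : K) := by
        rw [hs, smul_mul_assoc, map_smul, F.cd, hmp, smul_eq_mul]
      rw [← e5, mul_assoc (p * (x : End K V)) q d, F.qd, mul_assoc, LinearMap.trace_mul_comm K p,
        mul_assoc, F.dp]
    rw [e4, mul_comm s, ← mul_assoc, inv_mul_cancel₀ hm0, one_mul]
  have htrL : trace K (Kp G D) (Lop h F.cm F.dm) = (finrank K (Kp G D) : K) + 1 := by
    rw [hLid, map_add, LinearMap.trace_id, LinearMap.trace_smulRight, hφ]
    change _ + (rk c : K)⁻¹ * trace K V (c * d) = _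
    rw [F.cd, hmp, inv_mul_cancel₀ hm0]
  rw [hL, ← hn] at htrL
  rw [← hn] at tr1
  have key : (4 * n * rk c : K) = (n + 1) * (finrank K V : K) := by
    have h2 : (2 : K) * 2⁻¹ = 1 := mul_inv_cancel₀ two_ne_zero
    linear_combination (4 * (rk c : K)) * tr1 + (finrank K V : K) * htrL -
      (- 2 * l * (rk c : K) * (finrank K V : K)) * h2 * 1 - 4 * l * (rk c : K) * (finrank K V : K) * h2
  exact ⟨n, by exact_mod_cast key⟩

theorem two_rk_le {D x : End K V} (hx : x ∈ Kp G D) : 2 * rk x ≤ finrank K V := by
  have h1 := finrank_range_add_finrank_ker x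
  have h2 : finrank K (LinearMap.range x) ≤ finrank K (LinearMap.ker x) := by
    refine Submodule.finrank_mono ?_
    rintro _ ⟨w, rfl⟩
    rw [LinearMap.mem_ker]
    exact LinearMap.congr_fun (kp_sq hx) w
  unfold rk
  omega

include h in
/-- The primitive element exists. -/
theorem exists_prim [IsAlgClosed K] {D u : End K V} (hD : D ∈ G) (hD2 : D * D = 1)
    (hu : u ∈ Kp G D) (hu0 : u ≠ 0) : ∃ c d, MP G st D c d (c * d) (d * c) ∧ rk c ≤ rk u := by
  obtain ⟨e, he, he0, her, hmin⟩ := exists_min h hD hD2 (S := Kp G D) le_rfl (by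
    intro e he y hy
    refine ⟨h.quad he.1 (kp_sq he) hy, ?_, ?_⟩
    · rw [← mul_assoc, ← mul_assoc, he.2.1]
    · rw [mul_assoc, he.2.2, mul_neg]) hu hu0
  obtain ⟨f, hf, hefe, hfef⟩ := kp_partner h hD hD2 he
  exact ⟨e, f, MP.mk' h he hf hefe hfef he0 hmin, her⟩

include h in
/-- **The possible ranks**: the positive part contains an element of rank one, if it contains an
element whose rank is neither a fourth nor a half of the dimension, and which is smaller than a
fourth of the dimension, or does not satisfy a divisibility, or is not the only rank. -/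
theorem rank_one_of_ranks [IsAlgClosed K] (hs : Scal G) {ω : V →ₗ[K] V →ₗ[K] K}
    (hω : AltF st ω) (htr : TrSt st) {D u : End K V} (hD : D ∈ G) (hD2 : D * D = 1)
    (hgn : G ≤ gn G D) (hu : u ∈ Kp G D) (hu0 : u ≠ 0) (h1 : 4 * rk u ≠ finrank K V)
    (h2 : 2 * rk u ≠ finrank K V)
    (h3 : 4 * rk u < finrank K V ∨ ¬ (4 * rk u - finrank K V) ∣ finrank K V ∨
      ∃ x ∈ Kp G D, x ≠ 0 ∧ rk x ≠ rk u) :
    ∃ e ∈ G, ∃ f ∈ G, rk e = 1 ∧ rk f = 1 ∧ e * f * e = e := by
  have hirr : Irr G D := fun _ hW1 hW => irr_plus h hs hD hD2 hgn hu hu0 hW1 hW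
  obtain ⟨c, d, F, hcu⟩ := exists_prim h hD hD2 hu hu0
  by_cases h4 : 4 * rk c < finrank K V
  · have h5 := F.rk_one h hω hD hD2 hirr htr h4
    refine ⟨c, F.cm.1, d, F.dm.1, h5, ?_, F.pc⟩
    have h6 : rk d ≤ 1 := by
      rw [← h5]
      conv_lhs => rw [← F.dp]
      exact (rk_mul_le_right _ _).trans (rk_mul_le_left _ _)
    have h7 : rk d ≠ 0 := by
      intro h0
      apply F.ne
      rw [← F.pc, rk_eq_zero h0, mul_zero, zero_mul]
    omega
  exfalso
  -- all elements have rank at least the rank of `c`, and twice of it if they are not primitive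
  have hmin : ∀ x ∈ Kp G D, x ≠ 0 → rk c ≤ rk x := by
    intro x hx hx0
    obtain ⟨c', d', F', hc'⟩ := exists_prim h hD hD2 hx hx0
    exact (F'.prim_rk h htr hD hD2 hirr F).trans hc'
  have hdich : ∀ x ∈ Kp G D, x ≠ 0 → rk x = rk c ∨ 2 * rk c ≤ rk x := by
    intro x hx hx0
    by_cases hp : ∀ y ∈ G, ∃ s : K, x * y * x = s • x
    · left
      obtain ⟨y, hy, hxyx, hyxy⟩ := kp_partner h hD hD2 hx
      exact le_antisymm (F.prim_rk h htr hD hD2 hirr (MP.mk' h hx hy hxyx hyxy hx0 hp))
        (hmin x hx hx0)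
    · right
      obtain ⟨x', hx', hx'0, h5⟩ := halving h hD hD2 hx hp
      have h6 := hmin x' hx' hx'0
      omega
  have hu2 := two_rk_le hu
  have hur : rk u = rk c := by
    rcases hdich u hu hu0 with h5 | h5
    · exact h5
    · omega
  rcases h3 with h3 | h3 | ⟨x, hx, hx0, hxr⟩
  · omega
  · by_cases ho : ∃ x ∈ Kp G D, x - c * d * x - x * (d * c) + c * d * x * (d * c) ≠ 0
    · obtain ⟨c2, d2, p2, q2, T⟩ := F.exists_two h hD hD2 ho
      have h5 : rk (c + c2) = rk c + rk c2 := by
        refine rk_add (P := c * d) rfl F.pc T.pc ⟨d * c, ?_⟩ ⟨1 - d * c, ?_⟩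
        · rw [add_mul, F.cq, T.cq, add_zero]
        · rw [mul_sub, mul_one, add_mul, F.cq, T.cq, add_zero]
          abel
      have h6 := two_rk_le (Submodule.add_mem _ F.cm T.B.cm)
      have h7 := hmin c2 T.B.cm T.B.ne
      rw [h5] at h6
      omega
    · push Not at ho
      obtain ⟨n, hn⟩ := F.cas_eq h htr hD hD2 hirr ho
      apply h3
      rw [hur]
      refine ⟨n, ?_⟩
      have h5 : (4 * rk c - finrank K V) * n = 4 * n * rk c - n * finrank K V := by
        rw [Nat.sub_mul]
        congr 1 <;> ring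
      rw [h5, hn]
      have h6 : (n + 1) * finrank K V = n * finrank K V + finrank K V := by ring
      omega
  · have h5 := two_rk_le hx
    rcases hdich x hx hx0 with h6 | h6
    · omega
    · omega

end Pool.Agent.Y91.JP
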