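import Mathlib
import Pool.Agent.Y91.JP.Cas

/-!
# Square zero elements: partners, halving, primitive elements
-/

set_option linter.unusedSectionVars false

namespace Pool.Agent.Y91.JP

open Module LinearMap Pool.Agent.W548.Odd Polynomial

variable {K : Type*} [Field K] [CharZero K] {V : Type*} [AddCommGroup V] [Module K V]
  [FiniteDimensional K V]

variable {G I : Submodule K (End K V)} {st : End K V →ₗ[K] End K V} (h : Setup G st)

theorem comm_of_parts' {E x : End K V} (h1 : (1 + E) * x * (1 - E) = 0)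
    (h2 : (1 - E) * x * (1 + E) = 0) : E * x = x * E := by
  have e3 : (2 : K) • (E * x - x * E) = 0 := by
    have : (2 : K) • (E * x - x * E) =
        (1 + E) * x * (1 - E) - (1 - E) * x * (1 + E) := by
      rw [two_smul]
      noncomm_ring
    rw [this, h1, h2, sub_zero]
  exact sub_eq_zero.1 ((smul_eq_zero.1 e3).resolve_left two_ne_zero)

include h in
/-- Every square zero element has a partner. -/
theorem sq_partner {x : End K V} (hx : x ∈ G) (hx2 : x * x = 0) : ∃ f ∈ G, x * f * x = x := by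
  -- the map `y ↦ x y x`
  let q : End K V →ₗ[K] End K V := (LinearMap.mulRight K x).comp (LinearMap.mulLeft K x)
  have hq : ∀ y, q y = x * y * x := fun _ => rfl
  by_contra hcon
  push Not at hcon
  have hnm : x ∉ G.map q := by
    rintro ⟨f, hf, hfx⟩
    exact hcon f hf (by rw [← hq, hfx])
  obtain ⟨φ, hφx, hφ⟩ := Submodule.exists_le_ker_of_notMem hnm
  obtain ⟨a, ha, haz⟩ := exists_repr h.nondeg φ
  have hxax : x * a * x = 0 := by
    refine h.nondeg _ (h.quad hx hx2 ha) fun z hz => ?_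
    have h1 : φ (x * z * x) = 0 := by
      have h2 : x * z * x ∈ G.map q := ⟨z, hz, hq z⟩
      exact hφ h2
    have h2 := haz (x * z * x) (h.quad hx hx2 hz)
    rw [h1] at h2
    have h3 : trace K V (x * a * x * z) = trace K V (a * (x * z * x)) := by
      rw [mul_assoc, mul_assoc, LinearMap.trace_mul_comm]
      congr 1
    rw [h3, ← h2]
  apply hφx
  rw [haz x hx]
  have h4 : (a * x) * (a * x) = 0 := by
    calc (a * x) * (a * x) = a * (x * a * x) := by noncomm_ring
    _ = 0 := by rw [hxax, mul_zero]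
  exact (LinearMap.isNilpotent_trace_of_isNilpotent ⟨2, by rw [sq, h4]⟩).eq_zero

include h in
/-- The polarized quadratic operator. -/
theorem quad_polar {x1 x2 y : End K V} (h1 : x1 ∈ G) (h2 : x2 ∈ G) (h11 : x1 * x1 = 0)
    (h22 : x2 * x2 = 0) (h12 : x1 * x2 = 0) (h21 : x2 * x1 = 0) (hy : y ∈ G) :
    x1 * y * x2 + x2 * y * x1 ∈ G := by
  have e1 : (x1 + x2) * (x1 + x2) = 0 := by
    rw [mul_add, add_mul, add_mul, h11, h22, h12, h21]
    simp
  have e2 := h.quad (G.add_mem h1 h2) e1 hy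
  have e3 : x1 * y * x2 + x2 * y * x1 = (x1 + x2) * y * (x1 + x2) - x1 * y * x1 -
      x2 * y * x2 := by noncomm_ring
  rw [e3]
  exact G.sub_mem (G.sub_mem e2 (h.quad h1 h11 hy)) (h.quad h2 h22 hy)

include h in
/-- **Halving for square zero elements.** -/
theorem halving_sq [IsAlgClosed K] {x : End K V} (hx : x ∈ G) (hx2 : x * x = 0)
    (hn : ¬ ∀ y ∈ G, ∃ s : K, x * y * x = s • x) :
    ∃ x' ∈ G, x' * x' = 0 ∧ x' ≠ 0 ∧ 2 * rk x' ≤ rk x := by
  classical
  push Not at hn
  obtain ⟨a, ha, hns⟩ := hn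
  obtain ⟨y, hy, hxyx⟩ := sq_partner h hx hx2
  obtain ⟨z, hzd⟩ : ∃ z, z = x * a * x := ⟨_, rfl⟩
  have hz : z ∈ G := by
    rw [hzd]
    exact h.quad hx hx2 ha
  obtain ⟨T, hT⟩ : ∃ T, T = z * y := ⟨_, rfl⟩
  have hTx : T * x = z := by
    calc T * x = x * a * (x * y * x) := by rw [hT, hzd]; noncomm_ring
    _ = z := by rw [hxyx, hzd]
  have hxyz : x * y * z = z := by
    calc x * y * z = (x * y * x) * a * x := by rw [hzd]; noncomm_ring
    _ = z := by rw [hxyx, hzd]
  have hform : ∀ k : ℕ, ∃ b, T ^ k * x = x * b ∧ T ^ k * x = b * x ∨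
      ∃ b, T ^ k * x = x * b * x := by
    intro k
    induction k with
    | zero => exact ⟨1, Or.inl ⟨by simp, by simp⟩⟩
    | succ k ih =>
      refine ⟨0, Or.inr ?_⟩
      obtain ⟨b, ⟨h1, h2⟩ | ⟨b, h1⟩⟩ := ih
      · refine ⟨a * (x * y * b), ?_⟩
        rw [pow_succ', mul_assoc, h2, hT, hzd]
        noncomm_ring
      · refine ⟨a * x * y * x * b, ?_⟩
        rw [pow_succ', mul_assoc, h1, hT, hzd]
        noncomm_ring
  have hxT : ∀ k : ℕ, x * (T ^ k * x) = 0 := by
    intro k
    obtain ⟨b, ⟨h1, -⟩ | ⟨b, h1⟩⟩ := hform k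
    · rw [h1, ← mul_assoc, hx2, zero_mul]
    · rw [h1, ← mul_assoc, ← mul_assoc, hx2, zero_mul, zero_mul]
  have hTkx : ∀ k : ℕ, T ^ k * x * x = 0 := fun k => by rw [mul_assoc, hx2, mul_zero]
  have hpow : ∀ k : ℕ, T ^ k * x ∈ G := by
    intro k
    induction k with
    | zero => rwa [pow_zero, one_mul]
    | succ k ih =>
      have q1 : z * (T ^ k * x) = 0 := by
        have e1 : z * (T ^ k * x) = x * a * (x * (T ^ k * x)) := by rw [hzd]; noncomm_ring
        rw [e1, hxT, mul_zero]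
      have q2 : T ^ k * x * z = 0 := by
        have e1 : T ^ k * x * z = (T ^ k * x * x) * a * x := by rw [hzd]; noncomm_ring
        rw [e1, hTkx, zero_mul, zero_mul]
      have q3 : z * z = 0 := by
        have e1 : z * z = x * a * (x * x) * a * x := by rw [hzd]; noncomm_ring
        rw [e1, hx2]
        simp
      have q4 : T ^ k * x * (T ^ k * x) = 0 := by
        rw [mul_assoc, hxT, mul_zero]
      have t := quad_polar h hz ih q3 q4 q1 q2 hy
      have e1 : z * y * (T ^ k * x) = T ^ (k + 1) * x := by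
        rw [← hT, ← mul_assoc, ← pow_succ']
      have e2 : T ^ k * x * y * z = T ^ (k + 1) * x := by
        rw [mul_assoc (T ^ k) x y, mul_assoc (T ^ k) (x * y) z, hxyz, ← hTx, ← mul_assoc,
          ← pow_succ]
      rw [e1, e2, ← two_smul K] at t
      exact (Submodule.smul_mem_iff _ (two_ne_zero (α := K))).1 t
  have hpol : ∀ q : K[X], aeval T q * x ∈ G := by
    intro q
    rw [aeval_eq_sum_range, Finset.sum_mul]
    refine Submodule.sum_mem _ fun i _ => ?_
    rw [smul_mul_assoc]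
    exact Submodule.smul_mem _ _ (hpow i)
  have hxpol : ∀ q : K[X], x * (aeval T q * x) = 0 := by
    intro q
    rw [aeval_eq_sum_range, Finset.sum_mul, Finset.mul_sum]
    refine Finset.sum_eq_zero fun i _ => ?_
    rw [smul_mul_assoc, mul_smul_comm, hxT, smul_zero]
  have hx0 : x ≠ 0 := by
    intro h0
    apply hns 0
    rw [h0]
    simp
  let P : ℕ → Prop := fun n => ∃ q : K[X], aeval T q * x ≠ 0 ∧ rk (aeval T q * x) = n
  have hP : ∃ n, P n := ⟨rk x, 1, by rwa [map_one, one_mul], by rw [map_one, one_mul]⟩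
  obtain ⟨q0, hA0, hAr⟩ := Nat.find_spec hP
  have hmin : ∀ q : K[X], aeval T q * x ≠ 0 → rk (aeval T q0 * x) ≤ rk (aeval T q * x) := by
    intro q hq
    rw [hAr]
    exact Nat.find_min' hP ⟨q, hq, rfl⟩
  obtain ⟨A, hA⟩ : ∃ A, A = aeval T q0 := ⟨_, rfl⟩
  rw [← hA] at hA0 hmin
  have hAT : A * T = T * A := by
    have h1 : A * T = aeval T (q0 * X) := by rw [map_mul, aeval_X, hA]
    have h2 : T * A = aeval T (X * q0) := by rw [map_mul, aeval_X, hA]
    rw [h1, h2, mul_comm]
  have hne : LinearMap.range (A * x) ≠ ⊥ := fun h0 => hA0 (LinearMap.range_eq_bot.1 h0)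
  obtain ⟨v, ⟨v', hv'⟩, hv0, μ, hμ⟩ := exists_eigenvector_mem T (LinearMap.range (A * x)) hne (by
    rintro _ ⟨w, rfl⟩
    refine ⟨a (x w), ?_⟩
    have e1 : T * (A * x) = A * x * (a * x) := by
      rw [← mul_assoc, ← hAT, mul_assoc, hTx, hzd]
      noncomm_ring
    exact (LinearMap.congr_fun e1 w).symm)
  obtain ⟨B, hB⟩ : ∃ B, B = aeval T (X - C μ) := ⟨_, rfl⟩
  have hBT : B = T - μ • 1 := by
    rw [hB, map_sub, aeval_X, aeval_C, Algebra.algebraMap_eq_smul_one]
  have hAB : A * B = B * A := by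
    rw [hBT, mul_sub, sub_mul, hAT, mul_smul_comm, smul_mul_assoc, mul_one, one_mul]
  have hBA : B * (A * x) = 0 := by
    by_contra hcon
    have h1 : B * (A * x) = aeval T ((X - C μ) * q0) * x := by
      rw [map_mul, ← hB, ← hA, mul_assoc]
    have h2 := hmin ((X - C μ) * q0) (by rwa [← h1])
    rw [← h1] at h2
    have h3 : rk (B * (A * x)) < rk (A * x) := by
      refine rk_lt_of_kernel (v := v') ?_ ?_ ?_
      · intro w hw
        change B ((A * x) w) = 0
        rw [hw, map_zero]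
      · rw [hv']
        exact hv0
      · change B ((A * x) v') = 0
        rw [hv', hBT, LinearMap.sub_apply, hμ, LinearMap.smul_apply, Module.End.one_apply,
          sub_self]
    omega
  have hBx0 : B * x ≠ 0 := by
    intro h0
    apply hns μ
    rw [hBT, sub_mul, hTx, smul_mul_assoc, one_mul, sub_eq_zero] at h0
    rw [← hzd, h0]
  have h1 := rk_add_le (A := A) (x := x) (b := B * x) (by
    rintro _ ⟨w, rfl⟩
    refine ⟨a (x w) - μ • w, ?_⟩
    have e1 : B * x = x * (a * x) - μ • x := by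
      rw [hBT, sub_mul, hTx, smul_mul_assoc, one_mul, hzd]
      noncomm_ring
    rw [e1, map_sub, map_smul]
    rfl) (by rw [← mul_assoc, hAB, mul_assoc, hBA])
  have h2 := hmin (X - C μ) (by rwa [← hB])
  rw [← hB] at h2
  refine ⟨A * x, ?_, ?_, hA0, by omega⟩
  · rw [hA]
    exact hpol q0
  · have e1 := hxpol q0
    rw [← hA] at e1
    rw [mul_assoc, e1, mul_zero]

include h in
/-- There are primitive elements of at most the rank of a given square zero element. -/
theorem exists_prim_sq [IsAlgClosed K] : ∀ (n : ℕ) {x : End K V}, x ∈ G → x * x = 0 → x ≠ 0 →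
    rk x = n → ∃ e ∈ G, e * e = 0 ∧ e ≠ 0 ∧ rk e ≤ rk x ∧ ∀ y ∈ G, ∃ s : K, e * y * e = s • e := by
  intro n
  induction n using Nat.strong_induction_on with
  | _ n ih =>
    intro x hx hx2 hx0 hn
    by_cases hp : ∀ y ∈ G, ∃ s : K, x * y * x = s • x
    · exact ⟨x, hx, hx2, hx0, le_rfl, hp⟩
    · obtain ⟨x', hx', hx'2, hx'0, h1⟩ := halving_sq h hx hx2 hp
      have h2 := rk_pos_of_ne hx'0
      obtain ⟨e, he, he2, he0, h3, h4⟩ := ih (rk x') (by omega) hx' hx'2 hx'0 rfl
      exact ⟨e, he, he2, he0, by omega, h4⟩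

/-- The conjugates of an element. -/
inductive Cj (G : Submodule K (End K V)) (c : End K V) : End K V → Prop
  | base : Cj G c c
  | step {x y : End K V} : Cj G c x → y ∈ G → y * y = 0 → Cj G c ((1 + y) * x * (1 - y))

theorem conj_inv {y : End K V} (hy : y * y = 0) : (1 - y) * (1 + y) = 1 := by
  have : (1 - y) * (1 + y) = 1 - y * y := by noncomm_ring
  rw [this, hy, sub_zero]

theorem conj_inv' {y : End K V} (hy : y * y = 0) : (1 + y) * (1 - y) = 1 := by
  have : (1 + y) * (1 - y) = 1 - y * y := by noncomm_ring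
  rw [this, hy, sub_zero]

include h in
theorem Cj.mem {c : End K V} (hc : c ∈ G) {x : End K V} (hx : Cj G c x) : x ∈ G := by
  induction hx with
  | base => exact hc
  | @step x y _ hy hy2 ih =>
    have e1 : (1 + y) * x * (1 - y) = x + (y * x - x * y) - y * x * y := by noncomm_ring
    rw [e1]
    exact G.sub_mem (G.add_mem ih (h.br y hy x ih)) (h.quad hy hy2 ih)

theorem Cj.rk_le {c : End K V} {x : End K V} (hx : Cj G c x) : rk x ≤ rk c := by
  induction hx with
  | base => exact le_rfl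
  | @step x y _ hy hy2 ih =>
    exact ((rk_mul_le_left _ _).trans (rk_mul_le_right _ _)).trans ih

/-- The Lie algebra is generated by the positive and the negative part. -/
theorem gen_of_gn (h : Setup G st) (hs : Scal G) {D : End K V} (hD : D ∈ G) (hD2 : D * D = 1)
    (hgn : G ≤ gn G D) (hne : D ≠ 0) {L : Submodule K (End K V)} (hL1 : Kp G D ≤ L)
    (hL2 : Kp G (-D) ≤ L) (hL3 : ∀ y ∈ L, ∀ z ∈ L, y * z - z * y ∈ L) : G ≤ L := by
  have hJ := kz_idl h hD hD2
  have hJL : Kp G D ⊔ Kp G (-D) ⊔ Kz G D ≤ L := by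
    refine sup_le (sup_le hL1 hL2) ?_
    unfold Kz
    rw [Submodule.span_le]
    rintro _ ⟨x, hx, y, hy, rfl⟩
    exact hL3 x (hL1 hx) y (hL2 hy)
  rcases gn_min h hs hD hD2 hJ (hJ.le.trans hgn) with h1 | h1
  · -- the positive and negative part are zero: the involution is central
    exfalso
    apply hne
    refine central_zero h hs hD hD2 hD fun z hz => ?_
    refine comm_of_parts' ?_ ?_
    · refine h1 _ (le_sup_left (a := Kp G D ⊔ Kp G (-D)) (le_sup_left (a := Kp G D) ?_))
      exact ⟨h.idl.up hD hD2 hz, up_left hD2 z, up_right hD2 z⟩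
    · refine h1 _ (le_sup_left (a := Kp G D ⊔ Kp G (-D)) (le_sup_right (a := Kp G D) ?_))
      exact mem_Kn.2 ⟨h.idl.dn hD hD2 hz, dn_left hD2 z, dn_right hD2 z⟩
  · exact hgn.trans (h1.trans hJL)

end Pool.Agent.Y91.JP
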