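import Mathlib
import Pool.Agent.Y91.JP.Sq

/-!
# The ranks of square zero elements
-/

set_option linter.unusedSectionVars false

namespace Pool.Agent.Y91.JP

open Module LinearMap Pool.Agent.W548.Odd

variable {K : Type*} [Field K] [CharZero K] {V : Type*} [AddCommGroup V] [Module K V]
  [FiniteDimensional K V]

variable {G I : Submodule K (End K V)} {st : End K V →ₗ[K] End K V} (h : Setup G st)

include h in
/-- All primitive elements have the same rank. -/
theorem prim_rk_sq (hs : Scal G) {D : End K V} (hD : D ∈ G) (hD2 : D * D = 1)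
    (hgn : G ≤ gn G D) (hne : D ≠ 0) {e c : End K V} (he : e ∈ G) (he2 : e * e = 0)
    (he0 : e ≠ 0) (hmin : ∀ y ∈ G, ∃ s : K, e * y * e = s • e) (hc : c ∈ G) (hc0 : c ≠ 0) :
    rk e ≤ rk c := by
  let S : Submodule K (End K V) :=
    { carrier := {x | x ∈ G ∧ ∀ c', Cj G c c' → trace K V (x * c') = 0}
      zero_mem' := ⟨G.zero_mem, fun c' _ => by rw [zero_mul, map_zero]⟩
      add_mem' := fun {a b} ha hb => ⟨G.add_mem ha.1 hb.1, fun c' hc' => by
        rw [add_mul, map_add, ha.2 c' hc', hb.2 c' hc', add_zero]⟩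
      smul_mem' := fun t a ha => ⟨G.smul_mem t ha.1, fun c' hc' => by
        rw [smul_mul_assoc, map_smul, ha.2 c' hc', smul_zero]⟩ }
  have hsq : ∀ y ∈ G, y * y = 0 → ∀ x ∈ S, y * x - x * y ∈ S := by
    rintro y hy hy2 x ⟨hx, hxc⟩
    refine ⟨h.br y hy x hx, fun c' hc' => ?_⟩
    have k1 := hxc _ (Cj.step hc' hy hy2)
    have k2 := hxc _ (Cj.step hc' (G.neg_mem hy) (by rw [neg_mul_neg, hy2]))
    have k3 := hxc _ hc'
    have e1 : trace K V (x * ((1 + y) * c' * (1 - y))) - trace K V (x * ((1 + -y) * c' * (1 - -y)))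
        = 2 * (trace K V (x * (y * c')) - trace K V (x * (c' * y))) := by
      have e2 : x * ((1 + y) * c' * (1 - y)) - x * ((1 + -y) * c' * (1 - -y)) =
          (2 : K) • (x * (y * c') - x * (c' * y)) := by
        rw [two_smul]
        noncomm_ring
      rw [← map_sub, e2, map_smul, map_sub, smul_eq_mul]
    rw [k1, k2, sub_zero] at e1
    have e3 : trace K V (x * (y * c')) - trace K V (x * (c' * y)) = 0 :=
      (mul_eq_zero.1 e1.symm).resolve_left two_ne_zero
    have e4 : trace K V (x * (c' * y)) = trace K V (y * x * c') := by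
      rw [← mul_assoc, LinearMap.trace_mul_comm, ← mul_assoc]
    rw [sub_mul, map_sub, ← e4, mul_assoc x y c', ← neg_sub, e3, neg_zero]
  let L : Submodule K (End K V) :=
    { carrier := {y | y ∈ G ∧ ∀ x ∈ S, y * x - x * y ∈ S}
      zero_mem' := ⟨G.zero_mem, fun x _ => by rw [zero_mul, mul_zero, sub_zero]; exact S.zero_mem⟩
      add_mem' := fun {a b} ha hb => ⟨G.add_mem ha.1 hb.1, fun x hx => by
        have e1 : (a + b) * x - x * (a + b) = (a * x - x * a) + (b * x - x * b) := by
          noncomm_ring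
        rw [e1]
        exact S.add_mem (ha.2 x hx) (hb.2 x hx)⟩
      smul_mem' := fun t a ha => ⟨G.smul_mem t ha.1, fun x hx => by
        rw [smul_mul_assoc, mul_smul_comm, ← smul_sub]
        exact S.smul_mem t (ha.2 x hx)⟩ }
  have hGL : G ≤ L := by
    refine gen_of_gn h hs hD hD2 hgn hne (L := L) ?_ ?_ ?_
    · exact fun y hy => ⟨hy.1, hsq y hy.1 (kp_sq hy)⟩
    · exact fun y hy => ⟨hy.1, hsq y hy.1 (kp_sq hy)⟩
    · rintro y ⟨hy, hy'⟩ z ⟨hz, hz'⟩
      refine ⟨h.br y hy z hz, fun x hx => ?_⟩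
      have e1 : (y * z - z * y) * x - x * (y * z - z * y) =
          (y * (z * x - x * z) - (z * x - x * z) * y) -
          (z * (y * x - x * y) - (y * x - x * y) * z) := by noncomm_ring
      rw [e1]
      exact S.sub_mem (hy' _ (hz' x hx)) (hz' _ (hy' x hx))
  have hSI : IsIdl G S := ⟨fun x hx => hx.1, fun y hy x hx => (hGL hy).2 x hx⟩
  have heS : e ∉ S := by
    intro heS
    rcases gn_min h hs hD hD2 hSI (hSI.le.trans hgn) with h1 | h1
    · exact he0 (h1 e heS)
    · apply hc0
      refine h.nondeg c hc fun z hz => ?_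
      rw [LinearMap.trace_mul_comm]
      exact (h1 (hgn hz)).2 c Cj.base
  obtain ⟨c', hc', hc'0⟩ : ∃ c', Cj G c c' ∧ trace K V (e * c') ≠ 0 := by
    by_contra hcon
    push Not at hcon
    exact heS ⟨he, hcon⟩
  obtain ⟨f, hf, hefe⟩ := sq_partner h he he2
  obtain ⟨s, hs'⟩ := hmin c' (hc'.mem h hc)
  have hs0 : s ≠ 0 := by
    rintro rfl
    apply hc'0
    have e1 : trace K V (e * c') = trace K V (e * c' * e * f) := by
      calc trace K V (e * c') = trace K V (e * f * e * c') := by rw [hefe]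
      _ = trace K V ((e * f) * (e * c')) := by congr 1
      _ = trace K V ((e * c') * (e * f)) := LinearMap.trace_mul_comm K _ _
      _ = _ := by congr 1
    rw [e1, hs', zero_smul, zero_mul, map_zero]
  have h2 : e = s⁻¹ • (e * c' * e) := by
    rw [hs', smul_smul, inv_mul_cancel₀ hs0, one_smul]
  calc rk e = rk (e * c' * e) := by
        conv_lhs => rw [h2]
        exact rk_smul (inv_ne_zero hs0) _
  _ ≤ rk (e * c') := rk_mul_le_left _ _
  _ ≤ rk c' := rk_mul_le_right _ _
  _ ≤ rk c := hc'.rk_le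

theorem two_rk_le_sq {x : End K V} (hx : x * x = 0) : 2 * rk x ≤ finrank K V := by
  have h1 := finrank_range_add_finrank_ker x
  have h2 : finrank K (LinearMap.range x) ≤ finrank K (LinearMap.ker x) := by
    refine Submodule.finrank_mono ?_
    rintro _ ⟨w, rfl⟩
    rw [LinearMap.mem_ker]
    exact LinearMap.congr_fun hx w
  unfold rk
  omega

include h in
theorem exists_kp_ne (hs : Scal G) {D : End K V} (hD : D ∈ G) (hD2 : D * D = 1) (hne : D ≠ 0) :
    ∃ u ∈ Kp G D, u ≠ 0 := by
  by_contra hcon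
  push Not at hcon
  have hcon' : ∀ u ∈ Kp G (-D), u = 0 := by
    intro u hu
    obtain ⟨y, hy, h1, -⟩ := kn_partner h hD hD2 hu
    rw [← h1, hcon y hy, mul_zero, zero_mul]
  apply hne
  refine central_zero h hs hD hD2 hD fun z hz => ?_
  exact comm_of_parts' (hcon _ ⟨h.idl.up hD hD2 hz, up_left hD2 z, up_right hD2 z⟩)
    (hcon' _ (mem_Kn.2 ⟨h.idl.dn hD hD2 hz, dn_left hD2 z, dn_right hD2 z⟩))

end Pool.Agent.Y91.JP
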