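import Mathlib
import Pool.Agent.Y91.JP.Sq2

/-!
# The exceptional case: all square zero elements are primitive
-/

set_option linter.unusedSectionVars false

namespace Pool.Agent.Y91.JP

open Module LinearMap Pool.Agent.W548.Odd

variable {K : Type*} [Field K] [CharZero K] {V : Type*} [AddCommGroup V] [Module K V]
  [FiniteDimensional K V]

/-- Dual bases of a rank one Jordan pair, with the Casimir operators. -/
structure Fr (n : ℕ) (x y : ℕ → End K V) (P : End K V) (l l' : K) : Prop where
  r1 : ∀ i < n, ∀ j < n, ∀ k < n, x i * y j * x k + x k * y j * x i =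
    (if i = j then x k else 0) + (if k = j then x i else 0)
  r2 : ∀ i < n, ∀ j < n, ∀ k < n, y i * x j * y k + y k * x j * y i =
    (if i = j then y k else 0) + (if k = j then y i else 0)
  Px : ∀ i < n, P * x i = x i
  yP : ∀ i < n, y i * P = y i
  xP : ∀ i < n, x i * P = 0
  Py : ∀ i < n, P * y i = 0
  PP : P * P = P
  cas : ∑ i ∈ Finset.range n, x i * y i = l • P
  cas' : ∑ i ∈ Finset.range n, y i * x i = l' • (1 - P)

namespace Fr

variable {n : ℕ} {x y : ℕ → End K V} {P : End K V} {l l' : K} (F : Fr n x y P l l')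

include F

theorem half {a b : End K V} (h : a + a = b + b) : a = b := by
  have h1 : (2 : K) • (a - b) = 0 := by
    rw [two_smul]
    have : a - b + (a - b) = (a + a) - (b + b) := by abel
    rw [this, h, sub_self]
  exact sub_eq_zero.1 ((smul_eq_zero.1 h1).resolve_left two_ne_zero)

theorem xyx {i : ℕ} (hi : i < n) : x i * y i * x i = x i := by
  have h1 := F.r1 i hi i hi i hi
  rw [if_pos rfl] at h1
  exact F.half h1

theorem yxy {i : ℕ} (hi : i < n) : y i * x i * y i = y i := by
  have h1 := F.r2 i hi i hi i hi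
  rw [if_pos rfl] at h1
  exact F.half h1

theorem xyx0 {i j : ℕ} (hi : i < n) (hj : j < n) (hij : i ≠ j) : x i * y j * x i = 0 := by
  have h1 := F.r1 i hi j hj i hi
  rw [if_neg hij, add_zero] at h1
  refine F.half (h1.trans ?_)
  rw [add_zero]

theorem yxy0 {i j : ℕ} (hi : i < n) (hj : j < n) (hij : i ≠ j) : y i * x j * y i = 0 := by
  have h1 := F.r2 i hi j hj i hi
  rw [if_neg hij, add_zero] at h1
  refine F.half (h1.trans ?_)
  rw [add_zero]

theorem r1' {i k : ℕ} (hi : i < n) (hk : k < n) (hik : i ≠ k) :
    x i * y i * x k = x k - x k * y i * x i := by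
  have h1 := F.r1 i hi i hi k hk
  rw [if_pos rfl, if_neg (Ne.symm hik), add_zero] at h1
  exact eq_sub_of_add_eq h1

theorem r2' {i k : ℕ} (hi : i < n) (hk : k < n) (hik : i ≠ k) :
    y i * x i * y k = y k - y k * x i * y i := by
  have h1 := F.r2 i hi i hi k hk
  rw [if_pos rfl, if_neg (Ne.symm hik), add_zero] at h1
  exact eq_sub_of_add_eq h1

/-- The idempotents commute with the other products. -/
theorem pcomm {i j k : ℕ} (hi : i < n) (hj : j < n) (hk : k < n) (hki : k ≠ i) (hkj : k ≠ j) :
    x k * y k * (x i * y j) = x i * y j * (x k * y k) := by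
  have h1 := F.r1' hk hi hki
  have h2 := F.r2' hk hj hkj
  calc x k * y k * (x i * y j) = (x k * y k * x i) * y j := by noncomm_ring
  _ = x i * y j - x i * (y k * x k * y j) := by rw [h1]; noncomm_ring
  _ = x i * y j * (x k * y k) := by rw [h2]; noncomm_ring

theorem pp {i j : ℕ} (hi : i < n) (hj : j < n) :
    x i * y i * (x j * y j) = x j * y j * (x i * y i) := by
  by_cases hij : i = j
  · rw [hij]
  · exact F.pcomm hj hj hi hij hij

theorem idem {i : ℕ} (hi : i < n) : x i * y i * (x i * y i) = x i * y i := by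
  rw [← mul_assoc, F.xyx hi]

theorem swap {i j : ℕ} (hi : i < n) (hj : j < n) (hij : i ≠ j) :
    x j * y i * (x i * y j) = x j * y j - x i * y i * (x j * y j) := by
  have h1 := F.r1' hi hj hij
  have h2 : x j * y i * x i = x j - x i * y i * x j := by
    rw [h1]
    abel
  calc x j * y i * (x i * y j) = (x j * y i * x i) * y j := by noncomm_ring
  _ = _ := by rw [h2]; noncomm_ring

theorem lsum (hn : 0 < n) (hx : x 0 ≠ 0) : l + l' = (n : K) + 1 := by
  have h1 : ∑ i ∈ Finset.range n, (x i * y i * x 0 + x 0 * y i * x i) =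
      ((n : K) + 1) • x 0 := by
    have h2 : ∀ i ∈ Finset.range n, x i * y i * x 0 + x 0 * y i * x i =
        x 0 + if i = 0 then x 0 else 0 := by
      intro i hi
      rw [F.r1 i (Finset.mem_range.1 hi) i (Finset.mem_range.1 hi) 0 hn, if_pos rfl]
      by_cases h0 : i = 0
      · rw [h0]
      · rw [if_neg h0, if_neg (Ne.symm h0)]
    rw [Finset.sum_congr rfl h2, Finset.sum_add_distrib, Finset.sum_const, Finset.card_range,
      Finset.sum_ite_eq' (Finset.range n) 0 fun _ => x 0, if_pos (Finset.mem_range.2 hn),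
      add_smul, one_smul, Nat.cast_smul_eq_nsmul]
  have h2 : ∑ i ∈ Finset.range n, (x i * y i * x 0 + x 0 * y i * x i) = (l + l') • x 0 := by
    have h3 : ∑ i ∈ Finset.range n, (x i * y i * x 0 + x 0 * y i * x i) =
        (∑ i ∈ Finset.range n, x i * y i) * x 0 + x 0 * ∑ i ∈ Finset.range n, y i * x i := by
      rw [Finset.sum_mul, Finset.mul_sum, ← Finset.sum_add_distrib]
      refine Finset.sum_congr rfl fun i _ => ?_
      rw [mul_assoc (x 0)]
    rw [h3, F.cas, F.cas', smul_mul_assoc, mul_smul_comm, F.Px 0 hn, mul_sub, mul_one, F.xP 0 hn,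
      sub_zero, add_smul]
  rw [h1] at h2
  have h3 : ((n : K) + 1 - (l + l')) • x 0 = 0 := by rw [sub_smul, h2, sub_self]
  exact (sub_eq_zero.1 ((smul_eq_zero.1 h3).resolve_right hx)).symm

end Fr

/-- The products of the idempotents. -/
def EE' (x y : ℕ → End K V) (P : End K V) : ℕ → End K V
  | 0 => P
  | j + 1 => EE' x y P j * (x j * y j)

namespace Fr

variable {n : ℕ} {x y : ℕ → End K V} {P : End K V} {l l' : K} (F : Fr n x y P l l')

include F

theorem E_P {j : ℕ} (hj : j ≤ n) : EE' x y P j * P = EE' x y P j := by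
  cases j with
  | zero => exact F.PP
  | succ j =>
    change EE' x y P j * (x j * y j) * P = EE' x y P j * (x j * y j)
    rw [mul_assoc, mul_assoc (x j), F.yP j (by omega)]

/-- The products commute with the operators of larger index. -/
theorem E_comm {j : ℕ} (hj : j ≤ n) {i k : ℕ} (hi : i < n) (hk : k < n) (hji : j ≤ i)
    (hjk : j ≤ k) : EE' x y P j * (x i * y k) = x i * y k * EE' x y P j := by
  induction j with
  | zero =>
    change P * (x i * y k) = x i * y k * P
    rw [← mul_assoc, F.Px i hi, mul_assoc, F.yP k hk]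
  | succ j ih =>
    change EE' x y P j * (x j * y j) * (x i * y k) = x i * y k * (EE' x y P j * (x j * y j))
    rw [mul_assoc, F.pcomm hi hk (by omega) (by omega) (by omega), ← mul_assoc,
      ih (by omega) (by omega) (by omega), mul_assoc]

/-- The products commute with the idempotents. -/
theorem E_p {j : ℕ} (hj : j ≤ n) {i : ℕ} (hi : i < n) :
    EE' x y P j * (x i * y i) = x i * y i * EE' x y P j := by
  induction j with
  | zero =>
    change P * (x i * y i) = x i * y i * P
    rw [← mul_assoc, F.Px i hi, mul_assoc, F.yP i hi]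
  | succ j ih =>
    change EE' x y P j * (x j * y j) * (x i * y i) = x i * y i * (EE' x y P j * (x j * y j))
    rw [mul_assoc, F.pp (by omega) hi, ← mul_assoc, ih (by omega), mul_assoc]

theorem E_abs {j : ℕ} (hj : j ≤ n) {i : ℕ} (hi : i < j) :
    EE' x y P j * (x i * y i) = EE' x y P j := by
  induction j with
  | zero => omega
  | succ j ih =>
    change EE' x y P j * (x j * y j) * (x i * y i) = EE' x y P j * (x j * y j)
    by_cases hij : i = j
    · rw [hij, mul_assoc, F.idem (by omega)]
    · rw [mul_assoc, F.pp (by omega) (by omega), ← mul_assoc, ih (by omega) (by omega)]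

theorem E_idem {j : ℕ} (hj : j ≤ n) : EE' x y P j * EE' x y P j = EE' x y P j := by
  induction j with
  | zero => exact F.PP
  | succ j ih =>
    change EE' x y P j * (x j * y j) * (EE' x y P j * (x j * y j)) = EE' x y P j * (x j * y j)
    calc EE' x y P j * (x j * y j) * (EE' x y P j * (x j * y j)) =
        EE' x y P j * ((x j * y j) * EE' x y P j) * (x j * y j) := by noncomm_ring
    _ = (EE' x y P j * EE' x y P j) * ((x j * y j) * (x j * y j)) := by
        rw [← F.E_p (by omega) (by omega)]; noncomm_ring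
    _ = _ := by rw [ih (by omega), F.idem (by omega)]

/-- The traces of the products do not depend on the last index. -/
theorem tr_eq {j i : ℕ} (hj : j < n) (hi : i < n) (hji : j ≤ i) :
    trace K V (EE' x y P j * (x i * y i)) = trace K V (EE' x y P (j + 1)) := by
  change _ = trace K V (EE' x y P j * (x j * y j))
  by_cases hij : i = j
  · rw [hij]
  have h1 : trace K V (EE' x y P j * (x i * y j * (x j * y i))) =
      trace K V (EE' x y P j * (x j * y i * (x i * y j))) := by
    rw [← mul_assoc, F.E_comm hj.le hi hj hji le_rfl, mul_assoc, LinearMap.trace_mul_comm,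
      mul_assoc]
  rw [F.swap hj hi (Ne.symm hij), F.swap hi hj hij, mul_sub, mul_sub, map_sub, map_sub,
    F.pp hj hi] at h1
  linear_combination h1

/-- The recursion for the ranks. -/
theorem recur {j : ℕ} (hj : j < n) : ((n : K) - j) * (rk (EE' x y P (j + 1)) : K) =
    (l - j) * (rk (EE' x y P j) : K) := by
  rw [← trace_idem (F.E_idem hj.le), ← trace_idem (F.E_idem (j := j + 1) (by omega))]
  have h1 : trace K V (EE' x y P j * ∑ i ∈ Finset.range n, x i * y i) =
      l * trace K V (EE' x y P j) := by
    rw [F.cas, mul_smul_comm, F.E_P hj.le, map_smul, smul_eq_mul]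
  rw [Finset.mul_sum, map_sum, ← Finset.sum_range_add_sum_Ico _ hj.le] at h1
  have h2 : ∑ i ∈ Finset.range j, trace K V (EE' x y P j * (x i * y i)) =
      j * trace K V (EE' x y P j) := by
    rw [Finset.sum_congr rfl fun i hi => by
      rw [F.E_abs hj.le (Finset.mem_range.1 hi)], Finset.sum_const, Finset.card_range,
      nsmul_eq_mul]
  have h3 : ∑ i ∈ Finset.Ico j n, trace K V (EE' x y P j * (x i * y i)) =
      ((n : K) - j) * trace K V (EE' x y P (j + 1)) := by
    rw [Finset.sum_congr rfl fun i hi => by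
      rw [F.tr_eq hj (Finset.mem_Ico.1 hi).2 (Finset.mem_Ico.1 hi).1], Finset.sum_const,
      Nat.card_Ico, nsmul_eq_mul, Nat.cast_sub hj.le]
  rw [h2, h3] at h1
  linear_combination h1

theorem recur_n : (l - n) * (rk (EE' x y P n) : K) = 0 := by
  rw [← trace_idem (F.E_idem le_rfl)]
  have h1 : trace K V (EE' x y P n * ∑ i ∈ Finset.range n, x i * y i) =
      l * trace K V (EE' x y P n) := by
    rw [F.cas, mul_smul_comm, F.E_P le_rfl, map_smul, smul_eq_mul]
  rw [Finset.mul_sum, map_sum] at h1
  have h2 : ∑ i ∈ Finset.range n, trace K V (EE' x y P n * (x i * y i)) =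
      n * trace K V (EE' x y P n) := by
    rw [Finset.sum_congr rfl fun i hi => by
      rw [F.E_abs le_rfl (Finset.mem_range.1 hi)], Finset.sum_const, Finset.card_range,
      nsmul_eq_mul]
  rw [h2] at h1
  linear_combination -h1

/-- The Casimir scalar is an integer. -/
theorem exists_nat (hP : P ≠ 0) : ∃ a : ℕ, a ≤ n ∧ l = a ∧ rk (EE' x y P a) ≠ 0 ∧
    ∀ j, a < j → j ≤ n → rk (EE' x y P j) = 0 := by
  classical
  by_cases h0 : ∃ j, j ≤ n ∧ rk (EE' x y P j) = 0
  · obtain ⟨j, ⟨hj, hj0⟩, hmin⟩ : ∃ j, (j ≤ n ∧ rk (EE' x y P j) = 0) ∧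
        ∀ i < j, ¬ (i ≤ n ∧ rk (EE' x y P i) = 0) :=
      ⟨Nat.find h0, Nat.find_spec h0, fun i hi => Nat.find_min h0 hi⟩
    obtain ⟨a, rfl⟩ : ∃ a, j = a + 1 := by
      cases j with
      | zero => exact absurd (rk_eq_zero hj0) hP
      | succ a => exact ⟨a, rfl⟩
    have h1 := F.recur (j := a) (by omega)
    have h2 : rk (EE' x y P a) ≠ 0 := fun h3 => hmin a (by omega) ⟨by omega, h3⟩
    rw [hj0, Nat.cast_zero, mul_zero] at h1
    have h3 : l = a := by
      have h4 := (mul_eq_zero.1 h1.symm).resolve_right (by exact_mod_cast h2)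
      exact sub_eq_zero.1 h4
    refine ⟨a, by omega, h3, h2, fun i hi hin => ?_⟩
    induction i, hi using Nat.le_induction with
    | base => exact hj0
    | succ i hi ih =>
      have h5 := F.recur (j := i) (by omega)
      rw [ih (by omega), Nat.cast_zero, mul_zero] at h5
      have h6 : (n : K) - i ≠ 0 := by
        rw [sub_ne_zero]
        exact_mod_cast (show n ≠ i by omega)
      exact_mod_cast (mul_eq_zero.1 h5).resolve_left h6
  · push Not at h0
    refine ⟨n, le_rfl, ?_, h0 n le_rfl, fun j hj hjn => by omega⟩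
    exact sub_eq_zero.1 ((mul_eq_zero.1 F.recur_n).resolve_right (by exact_mod_cast h0 n le_rfl))

/-- The ranks are given by binomial coefficients. -/
theorem rank_choose {a : ℕ} (ha : a ≤ n) (hl : l = a) :
    rk P = n.choose a * rk (EE' x y P a) := by
  have h1 : ∀ j ≤ a, rk P * a.descFactorial j = rk (EE' x y P j) * n.descFactorial j := by
    intro j hj
    induction j with
    | zero => rfl
    | succ j ih =>
      have h2 := F.recur (j := j) (by omega)
      rw [hl, ← Nat.cast_sub (show j ≤ n by omega), ← Nat.cast_sub (show j ≤ a by omega)] at h2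
      have h3 : (n - j) * rk (EE' x y P (j + 1)) = (a - j) * rk (EE' x y P j) := by
        exact_mod_cast h2
      rw [Nat.descFactorial_succ, Nat.descFactorial_succ]
      calc rk P * ((a - j) * a.descFactorial j) = (a - j) * (rk P * a.descFactorial j) := by ring
      _ = ((a - j) * rk (EE' x y P j)) * n.descFactorial j := by rw [ih (by omega)]; ring
      _ = rk (EE' x y P (j + 1)) * ((n - j) * n.descFactorial j) := by rw [← h3]; ring
  have h2 := h1 a le_rfl
  rw [Nat.descFactorial_self, Nat.descFactorial_eq_factorial_mul_choose] at h2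
  have h3 : a.factorial * rk P = a.factorial * (n.choose a * rk (EE' x y P a)) := by
    rw [mul_comm, h2]
    ring
  exact Nat.eq_of_mul_eq_mul_left (Nat.factorial_pos a) h3

end Fr

end Pool.Agent.Y91.JP
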