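import Mathlib
import Pool.Agent.Y91.JP.Ext

/-!
# The exceptional case: the multiplicity is one and the parity
-/

set_option linter.unusedSectionVars false

namespace Pool.Agent.Y91.JP

open Module LinearMap Pool.Agent.W548.Odd

variable {K : Type*} [Field K] [CharZero K] {V : Type*} [AddCommGroup V] [Module K V]
  [FiniteDimensional K V]

/-- The alternating products. -/
def TT (x y : ℕ → End K V) (a : ℕ) : ℕ → End K V
  | 0 => y 0
  | k + 1 => TT x y a k * (x (a + k) * y (k + 1))

/-- The reversed alternating products. -/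
def TS (x y : ℕ → End K V) (a : ℕ) : ℕ → End K V
  | 0 => y 0
  | k + 1 => y (k + 1) * x (a + k) * TS x y a k

namespace Fr

variable {n : ℕ} {x y : ℕ → End K V} {P : End K V} {l l' : K} (F : Fr n x y P l l')

include F

/-- The commutators. -/
theorem br {i j k m : ℕ} (hi : i < n) (hj : j < n) (hk : k < n) (hm : m < n) :
    x i * y j * (x k * y m) = x k * y m * (x i * y j) + (if k = j then x i * y m else 0) -
      (if i = m then x k * y j else 0) := by
  have h1 := F.r1 i hi j hj k hk
  have h2 := F.r2 j hj i hi m hm
  have e1 : x i * y j * x k = (if i = j then x k else 0) + (if k = j then x i else 0) -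
      x k * y j * x i := eq_sub_of_add_eq h1
  have e2 : y j * x i * y m = (if j = i then y m else 0) + (if m = i then y j else 0) -
      y m * x i * y j := eq_sub_of_add_eq h2
  calc x i * y j * (x k * y m) = (x i * y j * x k) * y m := by noncomm_ring
  _ = (if i = j then x k else 0) * y m + (if k = j then x i else 0) * y m -
        x k * (y j * x i * y m) := by rw [e1]; noncomm_ring
  _ = (if i = j then x k else 0) * y m + (if k = j then x i else 0) * y m -
        (x k * (if j = i then y m else 0) + x k * (if m = i then y j else 0) -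
          x k * y m * (x i * y j)) := by rw [e2]; noncomm_ring
  _ = _ := by
    simp only [ite_mul, mul_ite, zero_mul, mul_zero, eq_comm (a := j) (b := i),
      eq_comm (a := m) (b := i)]
    abel

theorem E_zero {a : ℕ} (hE : ∀ j, a < j → j ≤ n → rk (EE' x y P j) = 0) {j : ℕ} (hj : a ≤ j)
    (hjn : j < n) : EE' x y P a * (x j * y j) = 0 := by
  have h1 := F.tr_eq (j := a) (by omega) hjn hj
  rw [rk_eq_zero (hE (a + 1) (by omega) (by omega)), map_zero] at h1
  have h2 : EE' x y P a * (x j * y j) * (EE' x y P a * (x j * y j)) =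
      EE' x y P a * (x j * y j) := by
    calc EE' x y P a * (x j * y j) * (EE' x y P a * (x j * y j)) =
        EE' x y P a * ((x j * y j) * EE' x y P a) * (x j * y j) := by noncomm_ring
    _ = (EE' x y P a * EE' x y P a) * ((x j * y j) * (x j * y j)) := by
        rw [← F.E_p (by omega) hjn]; noncomm_ring
    _ = _ := by rw [F.E_idem (by omega), F.idem hjn]
  rw [trace_idem h2] at h1
  exact rk_eq_zero (by exact_mod_cast h1)

/-- **The multiplicity is one.** -/
theorem rank_E_one (hirr : ∀ W : Submodule K V, (∀ w ∈ W, P w = w) →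
      (∀ i < n, ∀ j < n, ∀ w ∈ W, x i (y j w) ∈ W) → W = ⊥ ∨ ∀ v, P v = v → v ∈ W)
    {a : ℕ} (ha : a ≤ n) (hE : ∀ j, a < j → j ≤ n → rk (EE' x y P j) = 0) {w : V}
    (hw : EE' x y P a w = w) (hw0 : w ≠ 0) (v : V) :
    EE' x y P a v ∈ Submodule.span K {w} := by
  have hPE : P * EE' x y P a = EE' x y P a := by
    have key : ∀ j ≤ n, P * EE' x y P j = EE' x y P j := by
      intro j hj
      induction j with
      | zero => exact F.PP
      | succ j ih =>
        change P * (EE' x y P j * (x j * y j)) = _
        rw [← mul_assoc, ih (by omega)]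
        rfl
    exact key a ha
  have hpE : ∀ j < n, x j * y j * EE' x y P a = EE' x y P a * (x j * y j) := fun j hj =>
    (F.E_p ha hj).symm
  let C : Set (Submodule K V) := {M | w ∈ M ∧ ∀ i, a ≤ i → i < n → ∀ j < a, ∀ v ∈ M,
    x i (y j v) ∈ M}
  have hCM : ∀ M ∈ C, sInf C ≤ M := fun M hM => sInf_le hM
  have hwM : w ∈ sInf C := by
    rw [Submodule.mem_sInf]
    exact fun M hM => hM.1
  have hcl : ∀ i, a ≤ i → i < n → ∀ j < a, ∀ v ∈ sInf C, x i (y j v) ∈ sInf C := by
    intro i hi hin j hj v hv
    rw [Submodule.mem_sInf]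
    intro M hM
    exact hM.2 i hi hin j hj v (hCM M hM hv)
  have hwk : ∀ k < n, ∀ m < n, x k (y m w) ∈ sInf C := by
    intro k hk m hm
    by_cases hma : a ≤ m
    · have e1 : x k * y m * EE' x y P a = 0 := by
        calc x k * y m * EE' x y P a = x k * (y m * x m * y m) * EE' x y P a := by rw [F.yxy hm]
        _ = x k * y m * (x m * y m * EE' x y P a) := by noncomm_ring
        _ = 0 := by rw [hpE m hm, F.E_zero hE hma hm, mul_zero]
      have e2 : x k (y m w) = 0 := by
        rw [← hw]
        exact LinearMap.congr_fun e1 w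
      rw [e2]
      exact Submodule.zero_mem _
    · by_cases hka : a ≤ k
      · exact hcl k hka hk m (by omega) w hwM
      · by_cases hkm : k = m
        · have e1 : x k * y k * EE' x y P a = EE' x y P a := by
            rw [hpE k hk, F.E_abs ha (by omega)]
          have e2 : x k (y k w) = w := by
            conv_lhs => rw [← hw]
            conv_rhs => rw [← hw]
            exact LinearMap.congr_fun e1 w
          rw [← hkm, e2]
          exact hwM
        · have e1 : x k * y m * EE' x y P a = 0 := by
            calc x k * y m * EE' x y P a = x k * y m * (x k * y k * EE' x y P a) := by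
                  rw [hpE k hk, F.E_abs ha (by omega)]
            _ = (x k * y m * x k) * (y k * EE' x y P a) := by noncomm_ring
            _ = 0 := by rw [F.xyx0 hk hm hkm, zero_mul]
          have e2 : x k (y m w) = 0 := by
            rw [← hw]
            exact LinearMap.congr_fun e1 w
          rw [e2]
          exact Submodule.zero_mem _
  -- the positive part
  have hPM : ∀ v ∈ sInf C, P v = v := by
    have h1 : LinearMap.ker (P - 1) ∈ C := by
      refine ⟨?_, fun i hi hin j hj v _ => ?_⟩
      · rw [LinearMap.mem_ker, LinearMap.sub_apply, sub_eq_zero]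
        conv_lhs => rw [← hw]
        conv_rhs => rw [← hw]
        exact LinearMap.congr_fun hPE w
      · rw [LinearMap.mem_ker, LinearMap.sub_apply, sub_eq_zero]
        exact LinearMap.congr_fun (F.Px i hin) (y j v)
    intro v hv
    have h2 := hCM _ h1 hv
    rw [LinearMap.mem_ker, LinearMap.sub_apply, sub_eq_zero] at h2
    exact h2
  have hEM : ∀ v ∈ sInf C, EE' x y P a v ∈ Submodule.span K {w} := by
    have h1 : (Submodule.span K {w}).comap (EE' x y P a) ∈ C := by
      refine ⟨?_, fun i hi hin j hj v _ => ?_⟩
      · rw [Submodule.mem_comap, hw]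
        exact Submodule.mem_span_singleton_self w
      · have e1 : EE' x y P a * (x i * y j) = 0 := by
          calc EE' x y P a * (x i * y j) = EE' x y P a * (x j * y j) * (x i * y j) := by
                rw [F.E_abs ha hj]
          _ = EE' x y P a * x j * (y j * x i * y j) := by noncomm_ring
          _ = 0 := by rw [F.yxy0 (by omega) hin (by omega), mul_zero]
        have e2 : EE' x y P a (x i (y j v)) = 0 := LinearMap.congr_fun e1 v
        rw [Submodule.mem_comap, e2]
        exact Submodule.zero_mem _
    exact fun v hv => hCM _ h1 hv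
  have hst : ∀ v ∈ sInf C, ∀ k < n, ∀ m < n, x k (y m v) ∈ sInf C := by
    let M' : Submodule K V :=
      { carrier := {v | v ∈ sInf C ∧ ∀ k < n, ∀ m < n, x k (y m v) ∈ sInf C}
        zero_mem' := ⟨Submodule.zero_mem _, fun k _ m _ => by
          rw [map_zero, map_zero]
          exact Submodule.zero_mem _⟩
        add_mem' := fun {u v} hu hv => ⟨Submodule.add_mem _ hu.1 hv.1, fun k hk m hm => by
          rw [map_add, map_add]
          exact Submodule.add_mem _ (hu.2 k hk m hm) (hv.2 k hk m hm)⟩
        smul_mem' := fun t v hv => ⟨Submodule.smul_mem _ t hv.1, fun k hk m hm => by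
          rw [map_smul, map_smul]
          exact Submodule.smul_mem _ t (hv.2 k hk m hm)⟩ }
    have h1 : M' ∈ C := by
      refine ⟨⟨hwM, hwk⟩, ?_⟩
      rintro i hi hin j hj v ⟨hv, hv'⟩
      refine ⟨hcl i hi hin j hj v hv, fun k hk m hm => ?_⟩
      have h2 := LinearMap.congr_fun (F.br hk hm hin (show j < n by omega)) v
      have h3 : (if i = m then x k * y j else 0) v ∈ sInf C := by
        split_ifs with h4
        · exact hv' k hk j (by omega)
        · exact Submodule.zero_mem _
      have h4 : (if k = j then x i * y m else 0) v ∈ sInf C := by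
        split_ifs with h4
        · exact hv' i hin m hm
        · exact Submodule.zero_mem _
      have h5 : (x i * y j * (x k * y m)) v ∈ sInf C :=
        hcl i hi hin j hj _ (hv' k hk m hm)
      have h6 : x k (y m (x i (y j v))) = (x k * y m * (x i * y j)) v := rfl
      rw [h6, h2]
      exact Submodule.sub_mem _ (Submodule.add_mem _ h5 h3) h4
    exact fun v hv => (hCM _ h1 hv).2
  rcases hirr (sInf C) hPM (fun k hk m hm v hv => hst v hv k hk m hm) with h1 | h1
  · rw [h1] at hwM
    exact absurd ((Submodule.mem_bot K).1 hwM) hw0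
  · have h2 : EE' x y P a v ∈ sInf C := h1 _ (LinearMap.congr_fun hPE v)
    have h3 := hEM _ h2
    rwa [show EE' x y P a (EE' x y P a v) = EE' x y P a v from
      LinearMap.congr_fun (F.E_idem ha) v] at h3

/-- The reversal of a factor. -/
theorem TT_comm {a s : ℕ} (hn : n + 1 = 2 * a) (hs : s < a) {k : ℕ} (hks : k < s) {t : ℕ}
    (ht : a + k ≤ t) (htn : t < n) :
    y s * x t * TT x y a k = -(TT x y a k * (x t * y s)) := by
  induction k with
  | zero =>
    change y s * x t * y 0 = -(y 0 * (x t * y s))
    have h1 := F.r2 s (by omega) t htn 0 (by omega)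
    rw [if_neg (by omega), if_neg (by omega), add_zero] at h1
    rw [← mul_assoc (y 0)]
    exact eq_neg_of_add_eq_zero_left h1
  | succ k ih =>
    change y s * x t * (TT x y a k * (x (a + k) * y (k + 1))) =
      -(TT x y a k * (x (a + k) * y (k + 1)) * (x t * y s))
    have h1 := F.br (i := a + k) (j := k + 1) (k := t) (m := s) (by omega) (by omega) htn
      (by omega)
    rw [if_neg (by omega), if_neg (by omega), add_zero, sub_zero] at h1
    rw [← mul_assoc, ih (by omega) (by omega), mul_assoc (TT x y a k), h1]
    noncomm_ring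

theorem TS_eq {a : ℕ} (hn : n + 1 = 2 * a) {k : ℕ} (hk : k < a) :
    TS x y a k = (-1 : K) ^ k • TT x y a k := by
  induction k with
  | zero =>
    rw [pow_zero, one_smul]
    rfl
  | succ k ih =>
    change y (k + 1) * x (a + k) * TS x y a k = _ • (TT x y a k * (x (a + k) * y (k + 1)))
    rw [ih (by omega), mul_smul_comm, F.TT_comm hn (by omega) (by omega) le_rfl (by omega),
      smul_neg, ← neg_smul, pow_succ, mul_neg_one]

theorem TT_skew {ω : V →ₗ[K] V →ₗ[K] K} (hx : ∀ i < n, ∀ u v, ω (x i u) v = -ω u (x i v))
    (hy : ∀ i < n, ∀ u v, ω (y i u) v = -ω u (y i v)) {a : ℕ} (hn : n + 1 = 2 * a) {k : ℕ}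
    (hk : k < a) (u v : V) : ω (TT x y a k u) v = -ω u (TS x y a k v) := by
  induction k generalizing u v with
  | zero => exact hy 0 (by omega) u v
  | succ k ih =>
    change ω (TT x y a k (x (a + k) (y (k + 1) u))) v =
      -ω u (y (k + 1) (x (a + k) (TS x y a k v)))
    rw [ih (by omega), hx _ (by omega), hy _ (by omega), neg_neg]

/-- The alternating products are injective. -/
theorem TT_ne {a : ℕ} (hn : n + 1 = 2 * a) {k : ℕ} (hk : k < a) {v : V}
    (h1 : ∀ i ≤ k, x i (y i v) = v) (h2 : ∀ j, a ≤ j → j < a + k → x j (y j v) = 0)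
    (hv : v ≠ 0) : TT x y a k v ≠ 0 := by
  induction k generalizing v with
  | zero =>
    intro h0
    apply hv
    have h3 : y 0 v = 0 := h0
    rw [← h1 0 le_rfl, h3, map_zero]
  | succ k ih =>
    change TT x y a k (x (a + k) (y (k + 1) v)) ≠ 0
    refine ih (by omega) (fun i hi => ?_) (fun j hj hjk => ?_) ?_
    · have e1 := F.pcomm (i := a + k) (j := k + 1) (k := i) (by omega) (by omega) (by omega)
        (by omega) (by omega)
      have e2 := LinearMap.congr_fun e1 v
      change x i (y i (x (a + k) (y (k + 1) v))) = x (a + k) (y (k + 1) (x i (y i v))) at e2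
      rw [e2, h1 i (by omega)]
    · have e1 := F.pcomm (i := a + k) (j := k + 1) (k := j) (by omega) (by omega) (by omega)
        (by omega) (by omega)
      have e2 := LinearMap.congr_fun e1 v
      change x j (y j (x (a + k) (y (k + 1) v))) = x (a + k) (y (k + 1) (x j (y j v))) at e2
      rw [e2, h2 j hj (by omega), map_zero, map_zero]
    · intro h0
      apply hv
      have e1 := F.swap (i := a + k) (j := k + 1) (by omega) (by omega) (by omega)
      have e2 := LinearMap.congr_fun e1 v
      change x (k + 1) (y (a + k) (x (a + k) (y (k + 1) v))) =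
        x (k + 1) (y (k + 1) v) - x (a + k) (y (a + k) (x (k + 1) (y (k + 1) v))) at e2
      rw [h0, map_zero, map_zero, h1 (k + 1) le_rfl, h2 (a + k) (by omega) (by omega),
        sub_zero] at e2
      exact e2.symm

theorem q_TT {a s : ℕ} (hn : n + 1 = 2 * a) (hs : s < a) {k : ℕ} (hks : k < s) :
    y s * x s * TT x y a k = TT x y a k - TT x y a k * (x s * y s) := by
  induction k with
  | zero =>
    change y s * x s * y 0 = y 0 - y 0 * (x s * y s)
    rw [F.r2' (by omega) (by omega) (by omega), mul_assoc]
  | succ k ih =>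
    change y s * x s * (TT x y a k * (x (a + k) * y (k + 1))) =
      TT x y a k * (x (a + k) * y (k + 1)) - TT x y a k * (x (a + k) * y (k + 1)) * (x s * y s)
    have h1 := F.pcomm (i := a + k) (j := k + 1) (k := s) (by omega) (by omega) (by omega)
        (by omega) (by omega)
    rw [← mul_assoc, ih (by omega), sub_mul, mul_assoc (TT x y a k) (x s * y s), h1]
    noncomm_ring

theorem q_TT' {a s : ℕ} (hn : n + 1 = 2 * a) {k : ℕ} (hk : k < a) (hsk : s ≤ k) :
    y s * x s * TT x y a k = TT x y a k := by
  induction k with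
  | zero =>
    obtain rfl : s = 0 := by omega
    exact F.yxy (by omega)
  | succ k ih =>
    change y s * x s * (TT x y a k * (x (a + k) * y (k + 1))) =
      TT x y a k * (x (a + k) * y (k + 1))
    rcases Nat.lt_or_ge s (k + 1) with h1 | h1
    · rw [← mul_assoc, ih (by omega) (by omega)]
    · obtain rfl : s = k + 1 := by omega
      have h2 : x (k + 1) * y (k + 1) * (x (a + k) * y (k + 1)) = 0 := by
        calc x (k + 1) * y (k + 1) * (x (a + k) * y (k + 1)) =
            x (k + 1) * (y (k + 1) * x (a + k) * y (k + 1)) := by noncomm_ring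
        _ = 0 := by rw [F.yxy0 (by omega) (by omega) (by omega), mul_zero]
      rw [← mul_assoc, F.q_TT hn hk (by omega), sub_mul, mul_assoc (TT x y a k) (x (k + 1) * _),
        h2, mul_zero, sub_zero]

/-- **The parity.** -/
theorem odd_of {ω : V →ₗ[K] V →ₗ[K] K} (hanti : ∀ u v, ω u v = -ω v u)
    (hnd : ∀ w, (∀ v, ω v w = 0) → w = 0) (hx : ∀ i < n, ∀ u v, ω (x i u) v = -ω u (x i v))
    (hy : ∀ i < n, ∀ u v, ω (y i u) v = -ω u (y i v)) (hP : ∀ u v, ω (P u) v = ω u (v - P v))
    {a : ℕ} (hn : n + 1 = 2 * a) (hE : ∀ j, a < j → j ≤ n → rk (EE' x y P j) = 0) {w : V}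
    (hw : EE' x y P a w = w) (hw0 : w ≠ 0)
    (hone : ∀ v, EE' x y P a v ∈ Submodule.span K {w}) : Odd a := by
  rw [← Nat.not_even_iff_odd]
  intro hev
  obtain ⟨k, rfl⟩ : ∃ k, a = k + 1 := ⟨a - 1, by omega⟩
  have hk : Odd k := by
    rw [Nat.even_add_one, Nat.not_even_iff_odd] at hev
    exact hev
  have hT : ω w (TT x y (k + 1) k w) = 0 := by
    have h1 := F.TT_skew hx hy hn (show k < k + 1 by omega) w w
    rw [F.TS_eq hn (show k < k + 1 by omega), hk.neg_one_pow, LinearMap.smul_apply, map_smul,
      smul_eq_mul, neg_one_mul, neg_neg, hanti] at h1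
    have h2 : (2 : K) * ω w (TT x y (k + 1) k w) = 0 := by linear_combination -h1
    exact (mul_eq_zero.1 h2).resolve_left two_ne_zero
  have hPT : ∀ j ≤ k, P * TT x y (k + 1) j = 0 := by
    intro j hj
    induction j with
    | zero => exact F.Py 0 (by omega)
    | succ j ih =>
      change P * (TT x y (k + 1) j * _) = 0
      rw [← mul_assoc, ih (by omega), zero_mul]
  have hadj : ∀ j ≤ k + 1, ∀ u, ω (EE' x y P j u) (TT x y (k + 1) k w) =
      ω u (TT x y (k + 1) k w) := by
    intro j hj
    induction j with
    | zero =>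
      intro u
      change ω (P u) _ = _
      have h1 : P (TT x y (k + 1) k w) = 0 := LinearMap.congr_fun (hPT k le_rfl) w
      rw [hP, h1, sub_zero]
    | succ j ih =>
      intro u
      change ω (EE' x y P j (x j (y j u))) _ = _
      rw [ih (by omega), hx j (by omega), hy j (by omega), neg_neg]
      congr 1
      exact LinearMap.congr_fun (F.q_TT' hn (show k < k + 1 by omega) (show j ≤ k by omega)) w
  have hzero : TT x y (k + 1) k w = 0 := by
    refine hnd _ fun v => ?_
    rw [← hadj (k + 1) le_rfl v]
    obtain ⟨c, hc⟩ := Submodule.mem_span_singleton.1 (hone v)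
    rw [← hc, map_smul, LinearMap.smul_apply, hT, smul_zero]
  refine F.TT_ne hn (show k < k + 1 by omega) (v := w) (fun i hi => ?_) (fun j hj hjk => ?_) hw0
    hzero
  · have h1 : x i * y i * EE' x y P (k + 1) = EE' x y P (k + 1) := by
      rw [← F.E_p (by omega) (by omega), F.E_abs (by omega) (by omega)]
    conv_lhs => rw [← hw]
    conv_rhs => rw [← hw]
    exact LinearMap.congr_fun h1 w
  · have h1 : x j * y j * EE' x y P (k + 1) = 0 := by
      rw [← F.E_p (by omega) (by omega), F.E_zero hE (by omega) (by omega)]
    rw [← hw]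
    exact LinearMap.congr_fun h1 w

end Fr

end Pool.Agent.Y91.JP
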