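import Mathlib
import Pool.Agent.Y91.JP.Ext2

/-!
# The exceptional case: the ranks are central binomial coefficients
-/

set_option linter.unusedSectionVars false

namespace Pool.Agent.Y91.JP

open Module LinearMap Pool.Agent.W548.Odd

variable {K : Type*} [Field K] [CharZero K] {V : Type*} [AddCommGroup V] [Module K V]
  [FiniteDimensional K V]

variable {G I : Submodule K (End K V)} {st : End K V →ₗ[K] End K V} (h : Setup G st)

/-- The scalar of a primitive element. -/
theorem prim_scalar {m : ℕ} (hm : m ≠ 0) {z w : End K V} (hr : z ≠ 0 → rk z = m)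
    (hp : ∃ f, z * f * z = z) (hs : ∃ s : K, z * w * z = s • z) :
    z * w * z = ((m : K)⁻¹ * trace K V (z * w)) • z := by
  obtain ⟨s, hs⟩ := hs
  by_cases hz : z = 0
  · rw [hz]
    simp
  obtain ⟨f, hf⟩ := hp
  have h1 : trace K V (z * w) = s * m := by
    calc trace K V (z * w) = trace K V (z * f * z * w) := by rw [hf]
    _ = trace K V ((z * f) * (z * w)) := by congr 1
    _ = trace K V ((z * w) * (z * f)) := LinearMap.trace_mul_comm K _ _
    _ = trace K V (z * w * z * f) := by congr 1
    _ = s * trace K V (z * f) := by rw [hs, smul_mul_assoc, map_smul, smul_eq_mul]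
    _ = s * m := by
      have h2 : z * f * (z * f) = z * f := by rw [← mul_assoc, hf]
      rw [trace_idem h2, ← hr hz]
      congr 2
      apply le_antisymm (rk_mul_le_left _ _)
      conv_lhs => rw [← hf]
      exact rk_mul_le_left _ _
  have hm' : (m : K) ≠ 0 := by exact_mod_cast hm
  rw [hs, h1, mul_comm s, ← mul_assoc, inv_mul_cancel₀ hm', one_mul]

/-- The polarization. -/
theorem prim_polar {m : ℕ} {z z' w : End K V}
    (h1 : z * w * z = ((m : K)⁻¹ * trace K V (z * w)) • z)
    (h2 : z' * w * z' = ((m : K)⁻¹ * trace K V (z' * w)) • z')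
    (h3 : (z + z') * w * (z + z') = ((m : K)⁻¹ * trace K V ((z + z') * w)) • (z + z')) :
    z * w * z' + z' * w * z = ((m : K)⁻¹ * trace K V (z * w)) • z' +
      ((m : K)⁻¹ * trace K V (z' * w)) • z := by
  have e1 : z * w * z' + z' * w * z = (z + z') * w * (z + z') - z * w * z - z' * w * z' := by
    noncomm_ring
  rw [e1, h1, h2, h3, add_mul, map_add, mul_add, smul_add, add_smul, add_smul]
  abel

/-- The span of products of two spans. -/
theorem span_prod {W : Submodule K V} {n : ℕ} {x y : ℕ → End K V}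
    (hW : ∀ i < n, ∀ j < n, ∀ w ∈ W, x i (y j w) ∈ W) {z z' : End K V}
    (hz : z ∈ Submodule.span K (Set.range fun i : Fin n => x i))
    (hz' : z' ∈ Submodule.span K (Set.range fun i : Fin n => y i)) {w : V} (hw : w ∈ W) :
    z (z' w) ∈ W := by
  induction hz using Submodule.span_induction with
  | mem a ha =>
    obtain ⟨i, rfl⟩ := ha
    induction hz' using Submodule.span_induction with
    | mem b hb =>
      obtain ⟨j, rfl⟩ := hb
      exact hW i i.2 j j.2 w hw
    | zero =>
      rw [LinearMap.zero_apply, map_zero]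
      exact W.zero_mem
    | add b b' _ _ h3 h4 =>
      rw [LinearMap.add_apply, map_add]
      exact W.add_mem h3 h4
    | smul c b _ h3 =>
      rw [LinearMap.smul_apply, map_smul]
      exact W.smul_mem c h3
  | zero => exact W.zero_mem
  | add a a' _ _ h3 h4 => exact W.add_mem h3 h4
  | smul c a _ h3 => exact W.smul_mem c h3

/-- The Casimir operator is a scalar on the positive part. -/
theorem cas_scalar [IsAlgClosed K] {D : End K V} {n : ℕ} {x y : ℕ → End K V} (hD2 : D * D = 1)
    (hx : ∀ i < n, D * x i = x i) (hy : ∀ i < n, y i * D = y i)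
    (r1 : ∀ i < n, ∀ j < n, ∀ k < n, x i * y j * x k + x k * y j * x i =
      (if i = j then x k else 0) + (if k = j then x i else 0))
    (r2 : ∀ i < n, ∀ j < n, ∀ k < n, y i * x j * y k + y k * x j * y i =
      (if i = j then y k else 0) + (if k = j then y i else 0))
    (hirr : ∀ W : Submodule K V, (∀ w ∈ W, D w = w) →
      (∀ i < n, ∀ j < n, ∀ w ∈ W, x i (y j w) ∈ W) → W = ⊥ ∨ ∀ v, D v = v → v ∈ W)
    {w0 : V} (hw0 : w0 ≠ 0) (hDw : D w0 = w0) :
    ∃ l : K, ∑ i ∈ Finset.range n, x i * y i = l • ((2 : K)⁻¹ • (1 + D)) := by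
  obtain ⟨C, hC⟩ : ∃ C : End K V, C = ∑ i ∈ Finset.range n, x i * y i := ⟨_, rfl⟩
  have hDC : D * C = C := by
    rw [hC, Finset.mul_sum]
    refine Finset.sum_congr rfl fun i hi => ?_
    rw [← mul_assoc, hx i (Finset.mem_range.1 hi)]
  have hCD : C * D = C := by
    rw [hC, Finset.sum_mul]
    refine Finset.sum_congr rfl fun i hi => ?_
    rw [mul_assoc, hy i (Finset.mem_range.1 hi)]
  have hcomm : ∀ k < n, ∀ l < n, C * (x k * y l) = x k * y l * C := by
    intro k hk l hl
    have s1 : C * (x k * y l) = (n : K) • (x k * y l) + x k * y l -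
        x k * ∑ i ∈ Finset.range n, y i * x i * y l := by
      have e1 : ∀ i ∈ Finset.range n, x i * y i * (x k * y l) =
          x k * y l + (if k = i then x i * y l else 0) - x k * (y i * x i * y l) := by
        intro i hi
        have e2 := r1 i (Finset.mem_range.1 hi) i (Finset.mem_range.1 hi) k hk
        rw [if_pos rfl] at e2
        have e3 : x i * y i * x k = x k + (if k = i then x i else 0) - x k * y i * x i :=
          eq_sub_of_add_eq e2
        calc x i * y i * (x k * y l) = (x i * y i * x k) * y l := by noncomm_ring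
        _ = _ := by
          rw [e3, sub_mul, add_mul, ite_mul, zero_mul]
          congr 1
      rw [hC, Finset.sum_mul, Finset.sum_congr rfl e1, Finset.sum_sub_distrib,
        Finset.sum_add_distrib, Finset.sum_const, Finset.card_range, Finset.sum_ite_eq,
        if_pos (Finset.mem_range.2 hk), Finset.mul_sum, Nat.cast_smul_eq_nsmul]
    have s2 : ∑ i ∈ Finset.range n, y i * x i * y l = (n : K) • y l + y l - y l * C := by
      have e1 : ∀ i ∈ Finset.range n, y i * x i * y l =
          y l + (if l = i then y i else 0) - y l * (x i * y i) := by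
        intro i hi
        have e2 := r2 i (Finset.mem_range.1 hi) i (Finset.mem_range.1 hi) l hl
        rw [if_pos rfl] at e2
        rw [← mul_assoc]
        exact eq_sub_of_add_eq e2
      rw [Finset.sum_congr rfl e1, Finset.sum_sub_distrib, Finset.sum_add_distrib,
        Finset.sum_const, Finset.card_range, Finset.sum_ite_eq, if_pos (Finset.mem_range.2 hl),
        ← Finset.mul_sum, ← hC, Nat.cast_smul_eq_nsmul]
    rw [s1, s2, mul_sub, mul_add, mul_smul_comm, ← mul_assoc]
    abel
  let M : Submodule K V := LinearMap.ker (D - 1)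
  have hM : ∀ v, v ∈ M ↔ D v = v := by
    intro v
    rw [LinearMap.mem_ker, LinearMap.sub_apply, sub_eq_zero]
    rfl
  have hMne : M ≠ ⊥ := by
    intro h0
    have h1 : w0 ∈ M := (hM _).2 hDw
    rw [h0] at h1
    exact hw0 h1
  obtain ⟨v0, hv0M, hv0, l, hl⟩ := exists_eigenvector_mem C M hMne fun x hx =>
    (hM _).2 (LinearMap.congr_fun hDC x)
  let W : Submodule K V := M ⊓ LinearMap.ker (C - l • 1)
  have hW : ∀ v, v ∈ W ↔ D v = v ∧ C v = l • v := by
    intro v
    change v ∈ M ∧ v ∈ LinearMap.ker (C - l • (1 : End K V)) ↔ _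
    rw [hM, LinearMap.mem_ker, LinearMap.sub_apply, sub_eq_zero]
    rfl
  have hall : ∀ v, D v = v → C v = l • v := by
    rcases hirr W (fun w hw => ((hW w).1 hw).1) (fun i hi j hj w hw => by
      refine (hW _).2 ⟨LinearMap.congr_fun (hx i hi) (y j w), ?_⟩
      have h1 : C (x i (y j w)) = x i (y j (C w)) := LinearMap.congr_fun (hcomm i hi j hj) w
      rw [h1, ((hW w).1 hw).2, map_smul, map_smul]) with h1 | h1
    · exfalso
      have h2 : v0 ∈ W := (hW _).2 ⟨(hM _).1 hv0M, hl⟩
      rw [h1] at h2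
      exact hv0 h2
    · exact fun v hv => ((hW v).1 (h1 v hv)).2
  refine ⟨l, ?_⟩
  rw [← hC]
  refine LinearMap.ext fun v => ?_
  have h2 : D ((1 + D) v) = (1 + D) v := by
    have h3 : D * (1 + D) = 1 + D := by rw [mul_add, mul_one, hD2, add_comm]
    exact LinearMap.congr_fun h3 v
  have h3 := hall _ h2
  have h4 : C ((1 + D) v) = (2 : K) • C v := by
    have h5 : C * (1 + D) = (2 : K) • C := by rw [mul_add, mul_one, hCD, two_smul]
    exact LinearMap.congr_fun h5 v
  rw [h4] at h3
  rw [LinearMap.smul_apply, LinearMap.smul_apply, smul_comm, ← h3, smul_smul,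
    inv_mul_cancel₀ two_ne_zero, one_smul]

include h in
/-- **The exceptional case**: all elements are primitive of the same rank. -/
theorem exc [IsAlgClosed K] {ω : V →ₗ[K] V →ₗ[K] K} (hω : AltF st ω) (htr : TrSt st)
    {D : End K V} (hD : D ∈ G) (hD2 : D * D = 1) (hirr : Irr G D) (hirrn : Irr G (-D))
    {u : End K V} (hu : u ∈ Kp G D) (hu0 : u ≠ 0) {m : ℕ} (hm : m ≠ 0)
    (hall : ∀ z ∈ G, z * z = 0 → z ≠ 0 → rk z = m ∧ ∀ y ∈ G, ∃ s : K, z * y * z = s • z) :
    ∃ k : ℕ, Even k ∧ finrank K V = (k + 1).centralBinom ∧ m = k.centralBinom := by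
  classical
  obtain ⟨n, hn⟩ : ∃ n, n = finrank K (Kp G D) := ⟨_, rfl⟩
  have hm' : (m : K) ≠ 0 := by exact_mod_cast hm
  have hDn : -D ∈ G := G.neg_mem hD
  have hDn2 : -D * -D = 1 := by rw [neg_mul_neg, hD2]
  let b : Basis (Fin n) K (Kp G D) := (Module.finBasis K (Kp G D)).reindex (finCongr hn.symm)
  choose b' hb' hbb' using fun i => exists_dual h hD hD2 (b.coord i)
  have hpos : 0 < n := by
    rw [hn]
    refine Module.finrank_pos_iff_exists_ne_zero.2 ⟨⟨u, hu⟩, fun h0 => hu0 ?_⟩
    exact congrArg Subtype.val h0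
  let x : ℕ → End K V := fun i => if hi : i < n then (b ⟨i, hi⟩ : End K V) else 0
  let y : ℕ → End K V := fun i => if hi : i < n then (m : K) • b' ⟨i, hi⟩ else 0
  have hx : ∀ i, x i ∈ Kp G D := by
    intro i
    change (if hi : i < n then (b ⟨i, hi⟩ : End K V) else 0) ∈ _
    split_ifs with hi
    · exact (b ⟨i, hi⟩).2
    · exact Submodule.zero_mem _
  have hy : ∀ i, y i ∈ Kp G (-D) := by
    intro i
    change (if hi : i < n then (m : K) • b' ⟨i, hi⟩ else 0) ∈ _
    split_ifs with hi
    · exact Submodule.smul_mem _ _ (hb' _)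
    · exact Submodule.zero_mem _
  have hxy : ∀ i < n, ∀ j < n, (m : K)⁻¹ * trace K V (x i * y j) = if i = j then 1 else 0 := by
    intro i hi j hj
    have e1 : x i = (b ⟨i, hi⟩ : End K V) := dif_pos hi
    have e2 : y j = (m : K) • b' ⟨j, hj⟩ := dif_pos hj
    rw [e1, e2, mul_smul_comm, map_smul, smul_eq_mul, ← mul_assoc, inv_mul_cancel₀ hm', one_mul,
      hbb', Basis.coord_apply, Basis.repr_self, Finsupp.single_apply]
    congr 1
    rw [eq_iff_iff]
    exact Fin.mk.injEq .. ▸ Iff.rfl
  have hyx : ∀ i < n, ∀ j < n, (m : K)⁻¹ * trace K V (y i * x j) = if i = j then 1 else 0 := by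
    intro i hi j hj
    rw [LinearMap.trace_mul_comm, hxy j hj i hi]
    simp only [eq_comm]
  have hxs : ∀ z ∈ Kp G D, ∀ w ∈ G, z * w * z = ((m : K)⁻¹ * trace K V (z * w)) • z := by
    intro z hz w hw
    refine prim_scalar hm (fun h0 => (hall z hz.1 (kp_sq hz) h0).1) ?_ ?_
    · obtain ⟨f, -, hf, -⟩ := kp_partner h hD hD2 hz
      exact ⟨f, hf⟩
    · by_cases h0 : z = 0
      · exact ⟨0, by rw [h0]; simp⟩
      · exact (hall z hz.1 (kp_sq hz) h0).2 w hw
  have hys : ∀ z ∈ Kp G (-D), ∀ w ∈ G, z * w * z = ((m : K)⁻¹ * trace K V (z * w)) • z := by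
    intro z hz w hw
    refine prim_scalar hm (fun h0 => (hall z hz.1 (kp_sq hz) h0).1) ?_ ?_
    · obtain ⟨f, -, hf, -⟩ := kn_partner h hD hD2 hz
      exact ⟨f, hf⟩
    · by_cases h0 : z = 0
      · exact ⟨0, by rw [h0]; simp⟩
      · exact (hall z hz.1 (kp_sq hz) h0).2 w hw
  have hr1 : ∀ i < n, ∀ j < n, ∀ k < n, x i * y j * x k + x k * y j * x i =
      (if i = j then x k else 0) + (if k = j then x i else 0) := by
    intro i hi j hj k hk
    rw [prim_polar (hxs _ (hx i) _ (hy j).1) (hxs _ (hx k) _ (hy j).1)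
      (hxs _ (Submodule.add_mem _ (hx i) (hx k)) _ (hy j).1), hxy i hi j hj, hxy k hk j hj]
    simp only [ite_smul, one_smul, zero_smul]
  have hr2 : ∀ i < n, ∀ j < n, ∀ k < n, y i * x j * y k + y k * x j * y i =
      (if i = j then y k else 0) + (if k = j then y i else 0) := by
    intro i hi j hj k hk
    rw [prim_polar (hys _ (hy i) _ (hx j).1) (hys _ (hy k) _ (hx j).1)
      (hys _ (Submodule.add_mem _ (hy i) (hy k)) _ (hx j).1), hyx i hi j hj, hyx k hk j hj]
    simp only [ite_smul, one_smul, zero_smul]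
  have hspan : ∀ z ∈ Kp G D, z ∈ Submodule.span K (Set.range fun i : Fin n => x i) := by
    intro z hz
    have e1 : (⟨z, hz⟩ : Kp G D) = ∑ i, b.repr ⟨z, hz⟩ i • b i := (b.sum_repr _).symm
    have e2 : z = ∑ i, b.repr ⟨z, hz⟩ i • (b i : End K V) := by
      have e3 := congrArg Subtype.val e1
      rw [Submodule.coe_sum] at e3
      exact e3
    rw [e2]
    refine Submodule.sum_mem _ fun i _ => Submodule.smul_mem _ _ (Submodule.subset_span ⟨i, ?_⟩)
    exact dif_pos i.2
  have hspan' : ∀ z ∈ Kp G (-D), z ∈ Submodule.span K (Set.range fun i : Fin n => y i) := by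
    intro z hz
    have e1 : z = ∑ i : Fin n, ((m : K)⁻¹ * trace K V (x i * z)) • y i := by
      rw [← sub_eq_zero]
      refine kn_nondeg h hD hD2 (Submodule.sub_mem _ hz (Submodule.sum_mem _ fun i _ =>
        Submodule.smul_mem _ _ (hy i))) fun w hw => ?_
      have hw' := hspan w hw
      clear hw
      induction hw' using Submodule.span_induction with
      | mem w hw =>
        obtain ⟨j, rfl⟩ := hw
        dsimp only
        rw [mul_sub, map_sub, Finset.mul_sum, map_sum, Finset.sum_eq_single j]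
        · rw [mul_smul_comm, map_smul, smul_eq_mul]
          have e2 := hxy j j.2 j j.2
          rw [if_pos rfl] at e2
          linear_combination -(trace K V (x j * z)) * e2
        · intro i _ hij
          rw [mul_smul_comm, map_smul, smul_eq_mul]
          have e2 := hxy j j.2 i i.2
          rw [if_neg (fun e => hij (Fin.ext e.symm))] at e2
          have e3 : trace K V (x j * y i) = 0 :=
            (mul_eq_zero.1 e2).resolve_left (inv_ne_zero hm')
          rw [e3, mul_zero]
        · intro hj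
          exact absurd (Finset.mem_univ _) hj
      | zero => rw [zero_mul, map_zero]
      | add w w' _ _ h1 h2 => rw [add_mul, map_add, h1, h2, add_zero]
      | smul c w _ h1 => rw [smul_mul_assoc, map_smul, h1, smul_zero]
    rw [e1]
    exact Submodule.sum_mem _ fun i _ => Submodule.smul_mem _ _ (Submodule.subset_span ⟨i, rfl⟩)
  have hirr' : ∀ W : Submodule K V, (∀ w ∈ W, D w = w) →
      (∀ i < n, ∀ j < n, ∀ w ∈ W, x i (y j w) ∈ W) → W = ⊥ ∨ ∀ v, D v = v → v ∈ W := by
    intro W hW1 hW
    exact hirr W hW1 fun z hz z' hz' w hw => span_prod hW (hspan z hz) (hspan' z' hz') hw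
  have hirrn' : ∀ W : Submodule K V, (∀ w ∈ W, (-D) w = w) →
      (∀ i < n, ∀ j < n, ∀ w ∈ W, y i (x j w) ∈ W) → W = ⊥ ∨ ∀ v, (-D) v = v → v ∈ W := by
    intro W hW1 hW
    refine hirrn W hW1 fun z hz z' hz' w hw => span_prod hW (hspan' z hz) (hspan z' ?_) hw
    rwa [neg_neg_D] at hz'
  -- nonzero vectors
  obtain ⟨v1, hv1⟩ : ∃ v, u v ≠ 0 := by
    by_contra hc
    push Not at hc
    exact hu0 (LinearMap.ext hc)
  obtain ⟨u', hu', huu', -⟩ := kp_partner h hD hD2 hu
  have hu'0 : u' ≠ 0 := by
    rintro rfl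
    apply hu0
    rw [← huu', mul_zero, zero_mul]
  obtain ⟨v2, hv2⟩ : ∃ v, u' v ≠ 0 := by
    by_contra hc
    push Not at hc
    exact hu'0 (LinearMap.ext hc)
  have hxD : ∀ i, x i * D = -x i := fun i => (hx i).2.2
  have hDx : ∀ i, D * x i = x i := fun i => (hx i).2.1
  have hDy : ∀ i, D * y i = -y i := fun i => (mem_Kn.1 (hy i)).2.1
  have hyD : ∀ i, y i * D = y i := fun i => (mem_Kn.1 (hy i)).2.2
  obtain ⟨l, hl⟩ := cas_scalar hD2 (fun i _ => hDx i) (fun i _ => hyD i) hr1 hr2 hirr' hv1
    (LinearMap.congr_fun hu.2.1 v1)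
  obtain ⟨l', hl'⟩ := cas_scalar hDn2 (x := y) (y := x) (fun i _ => by rw [neg_mul, hDy, neg_neg])
    (fun i _ => by rw [mul_neg, hxD, neg_neg]) hr2 hr1 hirrn' hv2
    (LinearMap.congr_fun hu'.2.1 v2)
  obtain ⟨P, hP⟩ : ∃ P : End K V, P = (2 : K)⁻¹ • (1 + D) := ⟨_, rfl⟩
  have hP2 : P + P = 1 + D := by
    rw [← two_smul K, hP, smul_smul, mul_inv_cancel₀ two_ne_zero, one_smul]
  have h1P : 1 - P = (2 : K)⁻¹ • (1 + -D) := by
    have e1 : (1 - P) + (1 - P) = 1 + -D := by
      calc (1 - P) + (1 - P) = 1 + 1 - (P + P) := by abel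
      _ = 1 + -D := by rw [hP2]; abel
    rw [← e1, ← two_smul K, smul_smul, inv_mul_cancel₀ two_ne_zero, one_smul]
  have F : Fr n x y P l l' := by
    refine ⟨hr1, hr2, fun i _ => ?_, fun i _ => ?_, fun i _ => ?_, fun i _ => ?_, ?_, ?_, ?_⟩
    · rw [hP, smul_mul_assoc, add_mul, one_mul, hDx, ← two_smul K, smul_smul,
        inv_mul_cancel₀ two_ne_zero, one_smul]
    · rw [hP, mul_smul_comm, mul_add, mul_one, hyD, ← two_smul K, smul_smul,
        inv_mul_cancel₀ two_ne_zero, one_smul]
    · rw [hP, mul_smul_comm, mul_add, mul_one, hxD, add_neg_cancel, smul_zero]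
    · rw [hP, smul_mul_assoc, add_mul, one_mul, hDy, add_neg_cancel, smul_zero]
    · have e1 : (1 + D) * (1 + D) = (2 : K) • (1 + D) := by
        rw [mul_add, add_mul, add_mul, one_mul, one_mul, mul_one, hD2, two_smul]
        abel
      rw [hP, smul_mul_smul_comm, e1, smul_smul]
      congr 1
      rw [mul_assoc, inv_mul_cancel₀ two_ne_zero, mul_one]
    · rw [hl, hP]
    · rw [hl', h1P]
  have hx0 : x 0 ≠ 0 := by
    have e1 : x 0 = (b ⟨0, hpos⟩ : End K V) := dif_pos hpos
    rw [e1]
    intro h0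
    exact b.ne_zero ⟨0, hpos⟩ (Subtype.ext h0)
  have hsum := F.lsum hpos hx0
  have htD : trace K V D = 0 := trace_inv h htr hD
  have hdne : finrank K V ≠ 0 := by
    intro h0
    have h1 : Subsingleton V := Module.finrank_zero_iff.1 h0
    exact hv1 (Subsingleton.elim _ _)
  have hdne' : (finrank K V : K) ≠ 0 := by exact_mod_cast hdne
  have htP : trace K V P = 2⁻¹ * (finrank K V : K) := by
    rw [hP, map_smul, map_add, LinearMap.trace_one, htD, add_zero, smul_eq_mul]
  have ht1P : trace K V (1 - P) = 2⁻¹ * (finrank K V : K) := by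
    rw [map_sub, htP, LinearMap.trace_one]
    have : (2 : K) * 2⁻¹ = 1 := mul_inv_cancel₀ two_ne_zero
    linear_combination -(finrank K V : K) * this
  have htr1 : trace K V (∑ i ∈ Finset.range n, x i * y i) = n * m := by
    have e0 : ∀ i ∈ Finset.range n, trace K V (x i * y i) = m := by
      intro i hi
      have e1 := hxy i (Finset.mem_range.1 hi) i (Finset.mem_range.1 hi)
      rw [if_pos rfl] at e1
      calc trace K V (x i * y i) = m * ((m : K)⁻¹ * trace K V (x i * y i)) := by
            rw [← mul_assoc, mul_inv_cancel₀ hm', one_mul]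
      _ = m := by rw [e1, mul_one]
    rw [map_sum, Finset.sum_congr rfl e0, Finset.sum_const, Finset.card_range, nsmul_eq_mul]
  have htr2 : trace K V (∑ i ∈ Finset.range n, x i * y i) =
      trace K V (∑ i ∈ Finset.range n, y i * x i) := by
    rw [map_sum, map_sum]
    exact Finset.sum_congr rfl fun i _ => LinearMap.trace_mul_comm K _ _
  have hll : l = l' := by
    rw [F.cas, F.cas', map_smul, map_smul, htP, ht1P, smul_eq_mul, smul_eq_mul] at htr2
    exact mul_right_cancel₀ (mul_ne_zero (inv_ne_zero two_ne_zero) hdne') htr2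
  rw [← hll] at hsum
  have hPne : P ≠ 0 := by
    intro h0
    rw [h0, map_zero] at htP
    exact mul_ne_zero (inv_ne_zero two_ne_zero) hdne' htP.symm
  obtain ⟨a, han, hla, hEa, hEz⟩ := F.exists_nat hPne
  have hn2 : n + 1 = 2 * a := by
    rw [hla] at hsum
    have h1 : ((n + 1 : ℕ) : K) = ((2 * a : ℕ) : K) := by
      push_cast
      linear_combination -hsum
    exact_mod_cast h1
  obtain ⟨v3, hv3⟩ : ∃ v, EE' x y P a v ≠ 0 := by
    by_contra hc
    push Not at hc
    apply hEa
    rw [show EE' x y P a = 0 from LinearMap.ext hc, rk_zero]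
  obtain ⟨w, hw⟩ : ∃ w, w = EE' x y P a v3 := ⟨_, rfl⟩
  have hw0 : w ≠ 0 := by rwa [hw]
  have hEw : EE' x y P a w = w := by
    rw [hw]
    exact LinearMap.congr_fun (F.E_idem han) v3
  have hPD : ∀ v, P v = v ↔ D v = v := by
    intro v
    have e1 : P v + P v = v + D v := LinearMap.congr_fun hP2 v
    constructor
    · intro h1
      rw [h1] at e1
      exact (add_left_cancel e1).symm
    · intro h1
      rw [h1, ← two_smul K, ← two_smul K] at e1
      have h2 : (2 : K) • (P v - v) = 0 := by rw [smul_sub, e1, sub_self]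
      exact sub_eq_zero.1 ((smul_eq_zero.1 h2).resolve_left two_ne_zero)
  have hone := F.rank_E_one (fun W hW1 hW => by
    rcases hirr' W (fun w hw => (hPD w).1 (hW1 w hw)) hW with h1 | h1
    · exact Or.inl h1
    · exact Or.inr fun v hv => h1 v ((hPD v).1 hv)) han hEz hEw hw0
  have hrkE : rk (EE' x y P a) = 1 := by
    have h1 : rk (EE' x y P a) ≤ 1 := by
      unfold rk
      calc finrank K (LinearMap.range (EE' x y P a)) ≤ finrank K (Submodule.span K {w}) := by
            refine Submodule.finrank_mono ?_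
            rintro _ ⟨v, rfl⟩
            exact hone v
      _ ≤ 1 := (finrank_span_singleton hw0).le
    omega
  have hanti : ∀ u v, ω u v = -ω v u := hω.anti
  have hxs' : ∀ z ∈ G, ∀ u v, ω (z u) v = -ω u (z v) := by
    intro z hz u v
    rw [hω.adj, h.skew z hz, LinearMap.neg_apply, map_neg]
  have hodd : Odd a := by
    refine F.odd_of hanti hω.nd (fun i _ => hxs' _ (hx i).1) (fun i _ => hxs' _ (hy i).1)
      (fun u v => ?_) hn2 hEz hEw hw0 hone
    have e1 := hxs' D hD u v
    have e2 : P u = (2 : K)⁻¹ • (u + D u) := by rw [hP]; rfl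
    have e3 : P v = (2 : K)⁻¹ • (v + D v) := by rw [hP]; rfl
    rw [e2, e3, map_smul, map_add, LinearMap.smul_apply, LinearMap.add_apply, e1, map_sub,
      map_smul, map_add, smul_eq_mul, smul_eq_mul]
    have : (2 : K) * 2⁻¹ = 1 := mul_inv_cancel₀ two_ne_zero
    linear_combination (ω u v) * this
  have hrkP : 2 * rk P = finrank K V := by
    have h1 : (2 : K) * (rk P : K) = (finrank K V : K) := by
      rw [← trace_idem F.PP, htP, ← mul_assoc, mul_inv_cancel₀ two_ne_zero, one_mul]
    exact_mod_cast h1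
  have hch := F.rank_choose han hla
  rw [hrkE, mul_one] at hch
  have hnm : 2 * (n * m) = a * finrank K V := by
    rw [htr1, F.cas', ← hll, hla, map_smul, ht1P, smul_eq_mul] at htr2
    have h1 : (2 : K) * (n * m) = a * (finrank K V : K) := by
      rw [htr2]
      have : (2 : K) * 2⁻¹ = 1 := mul_inv_cancel₀ two_ne_zero
      linear_combination (a : K) * (finrank K V : K) * this
    exact_mod_cast h1
  obtain ⟨k, rfl⟩ : ∃ k, a = k + 1 := ⟨a - 1, by omega⟩
  obtain rfl : n = 2 * k + 1 := by omega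
  have hfin : finrank K V = (k + 1).centralBinom := by
    have e1 : (2 * k + 1 + 1).choose (k + 1) = (2 * k + 1).choose k + (2 * k + 1).choose (k + 1) :=
      Nat.choose_succ_succ' _ _
    rw [← hrkP, hch, Nat.centralBinom, show 2 * (k + 1) = 2 * k + 1 + 1 by ring, e1,
      Nat.choose_symm_half]
    ring
  refine ⟨k, by rwa [Nat.odd_add_one, Nat.not_odd_iff_even] at hodd, hfin, ?_⟩
  rw [hfin, Nat.succ_mul_centralBinom_succ, ← mul_assoc] at hnm
  exact Nat.eq_of_mul_eq_mul_left (by positivity) hnm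

end Pool.Agent.Y91.JP
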