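import Mathlib
import Pool.Agent.Y91.JP.Ext3

/-!
# The ranks of square zero elements: the sharp form
-/

set_option linter.unusedSectionVars false

namespace Pool.Agent.Y91.JP

open Module LinearMap Pool.Agent.W548.Odd

variable {K : Type*} [Field K] [CharZero K] {V : Type*} [AddCommGroup V] [Module K V]
  [FiniteDimensional K V]

variable {G I : Submodule K (End K V)} {st : End K V →ₗ[K] End K V} (h : Setup G st)

include h in
theorem gn_neg {D : End K V} (hD : D ∈ G) : gn G D ≤ gn G (-D) := by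
  refine gn_le (gn_idl h (G.neg_mem hD)) ?_
  have h1 := (gn G (-D)).neg_mem mem_gn
  rwa [neg_neg] at h1

include h in
/-- **The possible ranks of square zero elements**: the Lie algebra contains an element of rank one,
if it contains a square zero element whose rank is neither a fourth nor a half of the dimension,
unless the pair consisting of the dimension and the rank is exceptional and there are no other
ranks. -/
theorem rank_one_sharp [IsAlgClosed K] (hs : Scal G) {ω : V →ₗ[K] V →ₗ[K] K}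
    (hω : AltF st ω) (htr : TrSt st) {D N : End K V} (hD : D ∈ G) (hD2 : D * D = 1)
    (hgn : G ≤ gn G D) (hN : N ∈ G) (hN2 : N * N = 0) (hN0 : N ≠ 0)
    (h1 : 4 * rk N ≠ finrank K V) (h2 : 2 * rk N ≠ finrank K V)
    (h3 : (∀ j, 1 ≤ j → finrank K V = (2 * j + 1).centralBinom → rk N ≠ (2 * j).centralBinom) ∨
      ∃ x ∈ G, x * x = 0 ∧ x ≠ 0 ∧ rk x ≠ rk N) :
    ∃ e ∈ G, ∃ f ∈ G, rk e = 1 ∧ rk f = 1 ∧ e * f * e = e := by
  have hne : D ≠ 0 := by
    rintro rfl
    apply hN0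
    rw [← one_mul N, ← hD2, zero_mul, zero_mul]
  obtain ⟨u, hu, hu0⟩ := exists_kp_ne h hs hD hD2 hne
  have hirr : Irr G D := fun _ hW1 hW => irr_plus h hs hD hD2 hgn hu hu0 hW1 hW
  have hDn : -D ∈ G := G.neg_mem hD
  have hDn2 : -D * -D = 1 := by rw [neg_mul_neg, hD2]
  obtain ⟨u', hu', hu'0⟩ := exists_kp_ne h hs hDn hDn2 (neg_ne_zero.2 hne)
  have hirrn : Irr G (-D) := fun _ hW1 hW =>
    irr_plus h hs hDn hDn2 (hgn.trans (gn_neg h hD)) hu' hu'0 hW1 hW
  obtain ⟨c, d, F, -⟩ := exists_prim h hD hD2 hu hu0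
  by_cases h4 : 4 * rk c < finrank K V
  · have h5 := F.rk_one h hω hD hD2 hirr htr h4
    refine ⟨c, F.cm.1, d, F.dm.1, h5, ?_, F.pc⟩
    have h6 : rk d ≤ 1 := by
      rw [← h5]
      conv_lhs => rw [← F.dp]
      exact (rk_mul_le_right _ _).trans (rk_mul_le_left _ _)
    have h7 : rk d ≠ 0 := by
      intro h0
      apply F.ne
      rw [← F.pc, rk_eq_zero h0, mul_zero, zero_mul]
    omega
  exfalso
  have hmin : ∀ x ∈ G, x ≠ 0 → rk c ≤ rk x := fun x hx hx0 =>
    prim_rk_sq h hs hD hD2 hgn hne F.cm.1 (kp_sq F.cm) F.ne F.min hx hx0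
  have hdich : ∀ x ∈ G, x * x = 0 → x ≠ 0 →
      (rk x = rk c ∧ ∀ y ∈ G, ∃ s : K, x * y * x = s • x) ∨ 2 * rk c ≤ rk x := by
    intro x hx hx2 hx0
    by_cases hp : ∀ y ∈ G, ∃ s : K, x * y * x = s • x
    · left
      exact ⟨le_antisymm (prim_rk_sq h hs hD hD2 hgn hne hx hx2 hx0 hp F.cm.1 F.ne)
        (hmin x hx hx0), hp⟩
    · right
      obtain ⟨x', hx', -, hx'0, h5⟩ := halving_sq h hx hx2 hp
      have h6 := hmin x' hx' hx'0
      omega
  have hu2 := two_rk_le_sq hN2
  have hur : rk N = rk c := by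
    rcases hdich N hN hN2 hN0 with h5 | h5
    · exact h5.1
    · omega
  have hall : ∀ z ∈ G, z * z = 0 → z ≠ 0 →
      rk z = rk c ∧ ∀ y ∈ G, ∃ s : K, z * y * z = s • z := by
    intro z hz hz2 hz0
    rcases hdich z hz hz2 hz0 with h5 | h5
    · exact h5
    · have h6 := two_rk_le_sq hz2
      omega
  rcases h3 with h3 | ⟨x, hx, hx2, hx0, hxr⟩
  · obtain ⟨k, hk, hk1, hk2⟩ := exc h hω htr hD hD2 hirr hirrn hu hu0
      (rk_pos_of_ne F.ne).ne' hall
    obtain ⟨j, rfl⟩ := hk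
    rcases Nat.eq_zero_or_pos j with rfl | hj
    · apply h2
      rw [hur, hk2, hk1]
      rfl
    · refine h3 j hj ?_ ?_
      · rw [hk1, two_mul]
      · rw [hur, hk2, two_mul]
  · exact hxr ((hall x hx hx2 hx0).1.trans hur.symm)

end Pool.Agent.Y91.JP
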