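import Mathlib
import Pool.Agent.Y91.JP.Abs
import Pool.Agent.W548.Odd.Comm
import Pool.Agent.TH125.RankMap

/-!
# Lie algebras of matrices generated by conjugate involutions: elements of small rank
-/

set_option linter.unusedSectionVars false

namespace Pool.Agent.Y91.JP

open Matrix Module Pool.Agent.W548.Odd

variable {B : Type*} [Fintype B] [DecidableEq B]

/-- The operators in `D` cannot be distributed on two subspaces. -/
def Conn (D : Set (Matrix B B ℂ)) : Prop :=
  ∀ P Q : Submodule ℂ (Matrix B B ℂ), (∀ d ∈ D, d ∈ P ∨ d ∈ Q) →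
    (∀ d ∈ D, ¬ (d ∈ P ∧ d ∈ Q)) → (∀ d ∈ D, d ∈ P) ∨ ∀ d ∈ D, d ∈ Q

variable {D : Set (Matrix B B ℂ)} {Om S Si : Matrix B B ℂ}

theorem trace_ph (A : Matrix B B ℂ) : LinearMap.trace ℂ (B → ℂ) (ph B A) = A.trace :=
  Matrix.trace_toLin'_eq _

theorem trSt (hOm2 : Om * Om = -1) : TrSt (stE Om) := by
  intro x
  obtain ⟨A, rfl⟩ := (ph B).surjective x
  rw [stE_ph, trace_ph, trace_ph, Matrix.trace_neg, Matrix.trace_mul_comm, ← mul_assoc, hOm2,
    neg_one_mul, Matrix.trace_neg, neg_neg, Matrix.trace_transpose]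

/-- The alternating form. -/
noncomputable def om (Om : Matrix B B ℂ) : (B → ℂ) →ₗ[ℂ] (B → ℂ) →ₗ[ℂ] ℂ :=
  LinearMap.mk₂ ℂ (fun v w => v ⬝ᵥ (Om *ᵥ w)) (fun v v' w => add_dotProduct _ _ _)
    (fun c v w => smul_dotProduct _ _ _) (fun v w w' => by rw [mulVec_add, dotProduct_add])
    (fun c v w => by rw [mulVec_smul, dotProduct_smul])

theorem om_apply (Om : Matrix B B ℂ) (v w : B → ℂ) : om Om v w = v ⬝ᵥ (Om *ᵥ w) := rfl

theorem altF (hOmT : Omᵀ = -Om) (hOm2 : Om * Om = -1) : AltF (stE Om) (om Om) := by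
  refine ⟨?_, ?_, ?_⟩
  · intro x v w
    obtain ⟨A, rfl⟩ := (ph B).surjective x
    rw [stE_ph, om_apply, om_apply, ph_apply, ph_apply, mulVec_mulVec]
    have h1 : Om * -(Om * Aᵀ * Om) = Aᵀ * Om := by
      rw [mul_neg, ← mul_assoc, ← mul_assoc, hOm2]
      noncomm_ring
    rw [h1, ← mulVec_mulVec, dotProduct_mulVec v, vecMul_transpose]
  · intro v w
    rw [om_apply, om_apply, dotProduct_mulVec v, ← mulVec_transpose, hOmT, neg_mulVec,
      neg_dotProduct, dotProduct_comm]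
  · intro w hw
    have h1 : Om *ᵥ w = 0 := by
      funext i
      have h2 := hw (Pi.single i 1)
      rw [om_apply, single_one_dotProduct] at h2
      exact h2
    have h2 : Om *ᵥ (Om *ᵥ w) = -w := by rw [mulVec_mulVec, hOm2, neg_mulVec, one_mulVec]
    rw [h1, mulVec_zero] at h2
    exact neg_eq_zero.1 h2.symm

/-- The matrices whose conjugates give operators in `I`. -/
def tw (I : Submodule ℂ (End ℂ (B → ℂ))) (τ : ℂ ≃+* ℂ) : Submodule ℂ (Matrix B B ℂ) where
  carrier := {X | ph B (X.map τ) ∈ I}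
  zero_mem' := by
    change ph B ((0 : Matrix B B ℂ).map τ) ∈ I
    rw [Matrix.map_zero _ (map_zero τ), map_zero]
    exact I.zero_mem
  add_mem' := by
    intro a b ha hb
    change ph B ((a + b).map τ) ∈ I
    rw [Matrix.map_add _ (map_add τ), map_add]
    exact I.add_mem ha hb
  smul_mem' := by
    intro c a ha
    change ph B ((c • a).map τ) ∈ I
    have h1 : (c • a).map τ = τ c • a.map τ := by
      ext i j
      simp
    rw [h1, map_smul]
    exact I.smul_mem _ ha

theorem scal_of (hs : ∀ c, InCm D c → ∃ s : ℂ, c = s • (1 : Matrix B B ℂ)) :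
    Scal (GG (LA D)) := by
  intro c hc
  obtain ⟨A, rfl⟩ := (ph B).surjective c
  have h1 : InCm D A := by
    intro X hX
    have h2 := hc _ (mem_GG.2 hX)
    rw [← map_mul, ← map_mul] at h2
    exact (ph B).injective h2
  obtain ⟨s, hs'⟩ := hs A h1
  exact ⟨s, by rw [hs', map_smul, map_one]⟩

/-- **Elements of small rank**: if the commutant of the Lie algebra consists of scalars and the Lie
algebra contains a nonzero element of small rank then it contains an element of rank one. -/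
theorem exists_rank_one_of_small (H : Herm D Om S Si)
    (hs : ∀ c, InCm D c → ∃ s : ℂ, c = s • (1 : Matrix B B ℂ)) (hconn : Conn D)
    {N : Matrix B B ℂ} (hN : N ∈ LA D) (hN0 : N ≠ 0) (h4 : 4 * N.rank < Fintype.card B)
    (hdiv : ∀ m, 0 < m → m ≤ N.rank → ¬ Fintype.card B ∣ m ^ 2) : ∃ e ∈ LA D, e.rank = 1 := by
  classical
  obtain ⟨G, hG⟩ : ∃ G, G = GG (LA D) := ⟨_, rfl⟩
  have h := H.setup
  have hsc := scal_of hs
  rw [← hG] at h hsc
  have hmem : ∀ {A : Matrix B B ℂ}, ph B A ∈ G ↔ A ∈ LA D := by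
    intro A
    rw [hG]
    exact mem_GG
  have hsq : ∀ d ∈ D, ∀ σ : ℂ ≃+* ℂ, d.map σ * d.map σ = 1 := by
    intro d hd σ
    have e1 : (d * d).map (σ : ℂ →+* ℂ) = d.map (σ : ℂ →+* ℂ) * d.map (σ : ℂ →+* ℂ) :=
      Matrix.map_mul
    rw [H.DD d hd] at e1
    have e2 : (1 : Matrix B B ℂ).map (σ : ℂ →+* ℂ) = 1 := Matrix.map_one _ (map_zero _) (map_one _)
    rw [e2] at e1
    exact e1.symm
  have hmemσ : ∀ d ∈ D, ∀ σ : ℂ ≃+* ℂ, d.map σ ∈ LA D := fun d hd σ =>
    LA_aut (σ : ℂ →+* ℂ) (LA_self hd)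
  -- a generator that does not commute with `N`
  obtain ⟨d, hd, σ, hdN⟩ : ∃ d ∈ D, ∃ σ : ℂ ≃+* ℂ, d.map σ * N ≠ N * d.map σ := by
    by_contra hcon
    push Not at hcon
    let L : Submodule ℂ (Matrix B B ℂ) :=
      { carrier := {y | y * N = N * y}
        zero_mem' := by
          change 0 * N = N * 0
          rw [mul_zero, zero_mul]
        add_mem' := fun {a b} ha hb => by
          change (a + b) * N = N * (a + b)
          rw [mul_add, add_mul, show a * N = N * a from ha, show b * N = N * b from hb]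
        smul_mem' := fun c a ha => by
          change (c • a) * N = N * (c • a)
          rw [mul_smul_comm, smul_mul_assoc, show a * N = N * a from ha] }
    have hL : LA D ≤ L := by
      refine LA_le_of_conj (fun d hd σ => hcon d hd σ) ?_
      intro y hy z hz
      have e1 : y * N = N * y := hy
      have e2 : z * N = N * z := hz
      change (y * z - z * y) * N = N * (y * z - z * y)
      calc (y * z - z * y) * N = y * (z * N) - z * (y * N) := by noncomm_ring
      _ = y * (N * z) - z * (N * y) := by rw [e1, e2]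
      _ = (y * N) * z - (z * N) * y := by noncomm_ring
      _ = (N * y) * z - (N * z) * y := by rw [e1, e2]
      _ = N * (y * z - z * y) := by noncomm_ring
    obtain ⟨s, hs'⟩ := hs N fun X hX => (hL hX).symm
    by_cases hs0 : s = 0
    · apply hN0
      rw [hs', hs0, zero_smul]
    · have e1 : N.rank = Fintype.card B := by
        rw [hs', ← rk_ph, map_smul, rk_smul hs0, rk_ph, Matrix.rank_one]
      omega
  have hEG : ph B (d.map σ) ∈ G := hmem.2 (hmemσ d hd σ)
  have hE2 : ph B (d.map σ) * ph B (d.map σ) = 1 := by rw [← map_mul, hsq d hd σ, map_one]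
  have hEN : ph B (d.map σ) * ph B N ≠ ph B N * ph B (d.map σ) := by
    intro h0
    apply hdN
    rw [← map_mul, ← map_mul] at h0
    exact (ph B).injective h0
  obtain ⟨D', hD', hD'G, hD'2, e, he, he0, her, hmin, f, hf, hefe, hfef⟩ :=
    exists_small_min h hEG hE2 (hmem.2 hN) hEN
  rw [rk_ph] at her
  have hfr : finrank ℂ (B → ℂ) = Fintype.card B := finrank_fintype_fun_eq_card ℂ
  obtain ⟨e0, he0L, he0e⟩ := exists_GG (hG ▸ he.1)
  obtain ⟨f0, hf0L, hf0f⟩ := exists_GG (hG ▸ hf.1)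
  by_cases hgn : G ≤ gn G D'
  · -- the simple case
    have h1 := simple_case h hsc (altF H.OmT H.Om2) (trSt H.Om2) hD'G hD'2 hgn he hf hefe hfef
      he0 hmin (by
        rw [hfr]
        omega)
    exact ⟨e0, he0L, by rw [← rk_ph, ← he0e, h1]⟩
  · -- the other case
    exfalso
    obtain ⟨I, hI'⟩ : ∃ I, I = gn G D' := ⟨_, rfl⟩
    have hI : IsIdl G I := by rw [hI']; exact gn_idl h hD'G
    have hC : IsIdl G (cen G I) := cen_idl h hI
    have hdich : ∀ d ∈ D, ∀ τ : ℂ ≃+* ℂ, ph B (d.map τ) ∈ I ∨ ph B (d.map τ) ∈ cen G I :=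
      fun d hd τ => invol_dich h hsc hI (hmem.2 (hmemσ d hd τ)) (by
        rw [← map_mul, hsq d hd τ, map_one])
    have hBne : Nonempty B := by
      rw [← Fintype.card_pos_iff]
      omega
    have hnot : ∀ d ∈ D, ∀ τ : ℂ ≃+* ℂ, ¬ (ph B (d.map τ) ∈ I ∧ ph B (d.map τ) ∈ cen G I) := by
      rintro d hd τ ⟨h1, h2⟩
      have h3 : ph B (d.map τ) = 0 := by
        refine zero_of_comm h hsc hD'G hD'2 hI h2.1 h2.2 fun z hz => ?_
        exact (hz.2 _ h1).symm
      have h3' : d.map τ = 0 := (ph B).injective (by rw [h3, map_zero])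
      have h5 : (1 : Matrix B B ℂ) = 0 := by
        rw [← hsq d hd τ, h3', mul_zero]
      exact one_ne_zero h5
    obtain ⟨d1, hd1, τ, hτ⟩ : ∃ d ∈ D, ∃ τ : ℂ ≃+* ℂ, ph B (d.map τ) ∉ I := by
      by_contra hcon
      push Not at hcon
      apply hgn
      have h1 : LA D ≤ I.comap (ph B).toLinearMap := by
        refine LA_le_of_conj (fun d hd τ => hcon d hd τ) ?_
        intro y hy z hz
        change ph B (y * z - z * y) ∈ I
        rw [map_sub, map_mul, map_mul]
        exact hI.br _ (hI.le hy) _ hz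
      rw [← hI']
      intro y hy
      obtain ⟨A, hA, rfl⟩ := exists_GG (hG ▸ hy)
      exact h1 hA
    have hall : ∀ d ∈ D, ph B (d.map τ) ∈ cen G I := by
      rcases hconn (tw I τ) (tw (cen G I) τ) (fun d hd => hdich d hd τ)
        (fun d hd => hnot d hd τ) with h1 | h1
      · exact absurd (h1 d1 hd1) hτ
      · exact h1
    -- the conjugate pair
    obtain ⟨ρ, hρ⟩ : ∃ ρ : ℂ ≃+* ℂ, ρ = σ.symm.trans τ := ⟨_, rfl⟩
    have hρσ : (d.map σ).map ρ = d.map τ := by
      ext i j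
      simp [hρ]
    have mneg : ∀ X : Matrix B B ℂ, (-X).map ρ = -X.map ρ := by
      intro X
      ext i j
      simp
    have hmap : ∀ X Y : Matrix B B ℂ, (X * Y).map ρ = X.map ρ * Y.map ρ := fun X Y =>
      Matrix.map_mul (f := (ρ : ℂ →+* ℂ))
    obtain ⟨M, hM, hMρ⟩ : ∃ M : Matrix B B ℂ, D' = ph B M ∧ ph B (M.map ρ) ∈ cen G I := by
      rcases hD' with h1 | h1
      · exact ⟨d.map σ, h1, by rw [hρσ]; exact hall d hd⟩
      · refine ⟨-(d.map σ), by rw [h1, map_neg], ?_⟩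
        rw [mneg, hρσ, map_neg]
        exact Submodule.neg_mem _ (hall d hd)
    have inj : ∀ {X Y : Matrix B B ℂ}, ph B X = ph B Y → X = Y := fun h => (ph B).injective h
    have E1 : M * e0 = e0 := inj (by rw [map_mul, ← hM, ← he0e]; exact he.2.1)
    have E2 : e0 * M = -e0 := inj (by
      rw [map_mul, map_neg, ← hM, ← he0e]; exact he.2.2)
    have hf' := mem_Kn.1 hf
    have E3 : M * f0 = -f0 := inj (by
      rw [map_mul, map_neg, ← hM, ← hf0f]; exact hf'.2.1)
    have E4 : f0 * M = f0 := inj (by rw [map_mul, ← hM, ← hf0f]; exact hf'.2.2)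
    have E5 : e0 * f0 * e0 = e0 := inj (by rw [map_mul, map_mul, ← he0e, ← hf0f, hefe])
    obtain ⟨e1, he1⟩ : ∃ e1, e1 = e0.map ρ := ⟨_, rfl⟩
    obtain ⟨f1, hf1⟩ : ∃ f1, f1 = f0.map ρ := ⟨_, rfl⟩
    obtain ⟨M1, hM1⟩ : ∃ M1, M1 = M.map ρ := ⟨_, rfl⟩
    have E1' : M1 * e1 = e1 := by rw [he1, hM1, ← hmap, E1]
    have E2' : e1 * M1 = -e1 := by rw [he1, hM1, ← hmap, E2, mneg]
    have E3' : M1 * f1 = -f1 := by rw [hf1, hM1, ← hmap, E3, mneg]
    have E4' : f1 * M1 = f1 := by rw [hf1, hM1, ← hmap, E4]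
    have E5' : e1 * f1 * e1 = e1 := by rw [he1, hf1, ← hmap, ← hmap, E5]
    have he1L : e1 ∈ LA D := by rw [he1]; exact LA_aut (ρ : ℂ →+* ℂ) he0L
    have hf1L : f1 ∈ LA D := by rw [hf1]; exact LA_aut (ρ : ℂ →+* ℂ) hf0L
    rw [← hM1] at hMρ
    have he1C : ph B e1 ∈ cen G I := idl_of_pos hC hMρ (hmem.2 he1L)
      (by rw [← map_mul, E1']) (by rw [← map_mul, E2', map_neg])
    have hf1C : ph B f1 ∈ cen G I := idl_of_neg hC hMρ (hmem.2 hf1L)
      (by rw [← map_mul, E3', map_neg]) (by rw [← map_mul, E4'])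
    rw [hI'] at he1C hf1C
    have key := rk_dvd h hsc hD'G hD'2 he hf hefe he1C hf1C (by
      rw [← map_mul, ← map_mul, E5'])
    have r2 : rk (ph B e1) = rk e := by
      rw [rk_ph, he1, he0e, rk_ph]
      exact Pool.Agent.TH125.rank_map_hom (ρ : ℂ →+* ℂ) e0
    rw [r2, hfr, ← sq] at key
    exact hdiv (rk e) (rk_pos_of_ne he0) her key

end Pool.Agent.Y91.JP
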