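import Mathlib
import Pool.Agent.Y91.JP.Iso

/-!
# The Lie algebra acts on the non-isotropic irreducible summands as the symplectic Lie algebra
-/

set_option linter.unusedSectionVars false

namespace Pool.Agent.Y91.JP

open Module LinearMap Pool.Agent.W548.Odd

section gen

variable {K : Type*} [Field K] [CharZero K] {V : Type*} [AddCommGroup V] [Module K V]
  [FiniteDimensional K V]

variable {G : Submodule K (End K V)} {st : End K V →ₗ[K] End K V} (h : Setup G st)
  {ω : V →ₗ[K] V →ₗ[K] K} (hω : AltF st ω) {M : Submodule K V}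

include h hω

/-- The orthogonal projector. -/
theorem exists_cor (hM : IrrS G M) (hni : ∃ x ∈ M, ∃ y ∈ M, ω x y ≠ 0) :
    ∃ p, Cor G st M p := by
  obtain ⟨h1, h2, h3⟩ := id hω
  have hyw : ∀ y ∈ G, ∀ v w, ω (y v) w = -ω v (y w) := by
    intro y hy v w
    rw [h1, h.skew y hy]
    exact map_neg _ _
  -- the radical
  let R : Submodule K V :=
    { carrier := {x | x ∈ M ∧ ∀ y ∈ M, ω x y = 0}
      zero_mem' := ⟨M.zero_mem, fun y _ => by rw [map_zero, LinearMap.zero_apply]⟩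
      add_mem' := fun {a b} ha hb => ⟨M.add_mem ha.1 hb.1, fun y hy => by
        rw [map_add, LinearMap.add_apply, ha.2 y hy, hb.2 y hy, add_zero]⟩
      smul_mem' := fun t a ha => ⟨M.smul_mem t ha.1, fun y hy => by
        rw [map_smul, LinearMap.smul_apply, ha.2 y hy, smul_zero]⟩ }
  have hR : R = ⊥ := by
    rcases hM.min R (by
      rintro y hy x ⟨hx, hx'⟩
      refine ⟨hM.st y hy x hx, fun z hz => ?_⟩
      rw [hyw y hy, hx' _ (hM.st y hy z hz), neg_zero]) (fun x hx => hx.1) with h4 | h4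
    · exact h4
    · exfalso
      obtain ⟨x, hx, y, hy, hxy⟩ := hni
      rw [← h4] at hx
      exact hxy (hx.2 y hy)
  have hnd : ∀ x : M, (∀ y : M, ω x y = 0) → x = 0 := by
    intro x hx
    have h4 : (x : V) ∈ R := ⟨x.2, fun y hy => hx ⟨y, hy⟩⟩
    rw [hR, Submodule.mem_bot] at h4
    exact Subtype.ext h4
  let φ : M →ₗ[K] Dual K M := ω.domRestrict₁₂ M M
  have hφ : Function.Injective φ := by
    rw [injective_iff_map_eq_zero]
    intro x hx
    exact hnd x fun y => LinearMap.congr_fun hx y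
  have hfin : finrank K M = finrank K (Dual K M) := (Subspace.dual_finrank_eq (K := K) (V := M)).symm
  let Φ : M ≃ₗ[K] Dual K M := LinearEquiv.ofInjectiveOfFinrankEq φ hφ hfin
  have hΦ : ∀ x : M, Φ x = φ x := fun x => rfl
  let ψ : V →ₗ[K] Dual K M := ω.compl₂ M.subtype
  have hψ : ∀ v (y : M), ψ v y = ω v y := fun v y => rfl
  let p : V →ₗ[K] M := Φ.symm.toLinearMap ∘ₗ ψ
  have hp : ∀ v (y : M), ω (p v) y = ω v y := by
    intro v y
    have h4 : Φ (p v) = ψ v := Φ.apply_symm_apply _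
    exact LinearMap.congr_fun h4 y
  have hpu : ∀ (v : V) (m : M), (∀ y : M, ω m y = ω v y) → p v = m := by
    intro v m hm
    have h4 : p v - m = 0 := hnd _ fun y => by
      have : ((p v - m : M) : V) = (p v : V) - m := rfl
      rw [this, map_sub, LinearMap.sub_apply, hp, hm, sub_self]
    exact sub_eq_zero.1 h4
  have hpM : ∀ x : M, p x = x := fun x => hpu _ _ fun y => rfl
  refine ⟨p, hpM, ?_, ?_⟩
  · intro y hy
    refine LinearMap.ext fun v => ?_
    change ((p (y v) : M) : V) = y (p v)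
    have h4 : p (y v) = ⟨y (p v), hM.st y hy _ (p v).2⟩ := by
      refine hpu _ _ fun z => ?_
      change ω (y (p v)) z = ω (y v) z
      rw [hyw y hy, hyw y hy]
      have h5 := hp v ⟨y z, hM.st y hy _ z.2⟩
      rw [neg_inj]
      exact h5
    rw [h4]
  · refine LinearMap.ext fun w => ?_
    rw [← sub_eq_zero]
    refine h3 _ fun v => ?_
    rw [map_sub, ← h1, sub_eq_zero]
    change ω (p v : V) w = ω v (p w)
    have e1 : ω (p v : V) w = ω (p v : V) (p w) := by
      rw [h2, ← hp w (p v), h2, neg_neg]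
    rw [e1, hp]

omit h hω in
theorem map_stable {p : V →ₗ[K] M} (c : Cor G st M p) {W : Submodule K M}
    (hW : ∀ y ∈ G.map (rs M p), ∀ x ∈ W, y x ∈ W) :
    ∀ y ∈ G, ∀ x ∈ W.map M.subtype, y x ∈ W.map M.subtype := by
  rintro y hy _ ⟨x, hx, rfl⟩
  refine ⟨rs M p y x, hW _ ⟨y, hy, rfl⟩ x hx, ?_⟩
  have h1 := LinearMap.congr_fun (c.comm y hy) (x : V)
  rw [Module.End.mul_apply, Module.End.mul_apply, pr_of_mem c.hp x.2] at h1
  exact h1

omit h hω in
theorem irr_res {p : V →ₗ[K] M} (c : Cor G st M p) (hM : IrrS G M) {W : Submodule K M}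
    (hW : ∀ y ∈ G.map (rs M p), ∀ x ∈ W, y x ∈ W) (h0 : W ≠ ⊥) : W = ⊤ := by
  rcases hM.min _ (map_stable c hW) (Submodule.map_subtype_le M W) with h1 | h1
  · exfalso
    apply h0
    rw [Submodule.eq_bot_iff]
    intro x hx
    have h2 : (x : V) ∈ W.map M.subtype := ⟨x, hx, rfl⟩
    rw [h1, Submodule.mem_bot] at h2
    exact Subtype.ext h2
  · rw [Submodule.eq_top_iff']
    intro x
    have h2 : (x : V) ∈ W.map M.subtype := by
      rw [h1]
      exact x.2
    obtain ⟨y, hy, hyx⟩ := h2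
    have h3 : y = x := Subtype.ext hyx
    rw [← h3]
    exact hy

omit h hω in
theorem scal_irr [IsAlgClosed K] {p : V →ₗ[K] M} (c : Cor G st M p) (hM : IrrS G M) :
    Scal (G.map (rs M p)) := by
  intro f hf
  have hnt : Nontrivial M := Submodule.nontrivial_iff_ne_bot.2 hM.ne
  obtain ⟨s, hs⟩ := Module.End.exists_eigenvalue f
  refine ⟨s, ?_⟩
  have h1 : Module.End.eigenspace f s = ⊤ := by
    refine irr_res c hM ?_ hs
    intro y hy x hx
    rw [Module.End.mem_eigenspace_iff] at hx ⊢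
    have h2 := LinearMap.congr_fun (hf y hy) x
    rw [Module.End.mul_apply, Module.End.mul_apply, hx, map_smul] at h2
    exact h2
  refine LinearMap.ext fun x => ?_
  have h2 : x ∈ Module.End.eigenspace f s := by
    rw [h1]
    trivial
  exact Module.End.mem_eigenspace_iff.1 h2

end gen

open Pool.Agent.W437.HP in
/-- **The action on a summand is the symplectic Lie algebra.** -/
theorem piece_full {V : Type*} [AddCommGroup V] [Module ℂ V] [FiniteDimensional ℂ V]
    {G : Submodule ℂ (End ℂ V)} {st : End ℂ V →ₗ[ℂ] End ℂ V} (h : Setup G st)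
    {ω : V →ₗ[ℂ] V →ₗ[ℂ] ℂ} (hω : AltF st ω) (htr : TrSt st) {M : Submodule ℂ V}
    {p : V →ₗ[ℂ] M} (c : Cor G st M p) (hM : IrrS G M) {DD : Set (End ℂ V)}
    (hDG : ∀ d ∈ DD, d ∈ G ∧ d * d = 1)
    (hgen : ∀ L : Submodule ℂ (End ℂ V), (∀ d ∈ DD, d ∈ L) →
      (∀ y ∈ L, ∀ z ∈ L, y * z - z * y ∈ L) → G ≤ L)
    {N : End ℂ V} (hN : N ∈ G) (hN2 : N * N = 0)
    (hcomm : ∀ d ∈ DD, ¬ ∀ x ∈ M, d (N x) = N (d x)) {d0 : End ℂ V} (hd0 : d0 ∈ DD)
    (h4 : 4 * finrank ℂ (M.map N) < finrank ℂ M) (x y : M) :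
    EE (ω.domRestrict₁₂ M M) x y ∈ G.map (rs M p) := by
  have hs := scal_irr c hM
  have h' := c.setup h hs
  have hω' := c.altF h hω
  have hst : ∀ z ∈ G, ∀ x : M, ((rs M p z x : M) : V) = z x := by
    intro z hz x
    have h1 := LinearMap.congr_fun (c.comm z hz) (x : V)
    rw [Module.End.mul_apply, Module.End.mul_apply, pr_of_mem c.hp x.2] at h1
    exact h1
  have hrk : rk (rs M p N) = finrank ℂ (M.map N) := by
    have h5 : (LinearMap.range (rs M p N)).map M.subtype = M.map N := by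
      apply le_antisymm
      · rintro _ ⟨_, ⟨z, rfl⟩, rfl⟩
        exact ⟨z, z.2, (hst N hN z).symm⟩
      · rintro _ ⟨z, hz, rfl⟩
        exact ⟨rs M p N ⟨z, hz⟩, ⟨_, rfl⟩, hst N hN ⟨z, hz⟩⟩
    unfold rk
    rw [← Submodule.finrank_map_subtype_eq M (LinearMap.range (rs M p N)), h5]
  obtain ⟨e, he, f, hf, he1, hf1, hefe⟩ := small_quad h' hs (DD := (rs M p) '' DD)
    (by
      rintro _ ⟨d, hd, rfl⟩
      refine ⟨⟨d, (hDG d hd).1, rfl⟩, ?_⟩
      rw [← c.rs_mem_mul h (hDG d hd).1, (hDG d hd).2, rs_one c.hp])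
    (by
      intro L h1 h2
      have h3 : G ≤ G ⊓ L.comap (rs M p) := by
        refine hgen _ ?_ ?_
        · intro d hd
          exact ⟨(hDG d hd).1, h1 _ ⟨d, hd, rfl⟩⟩
        · rintro y ⟨hy, hy'⟩ z ⟨hz, hz'⟩
          refine ⟨h.br y hy z hz, ?_⟩
          change rs M p (y * z - z * y) ∈ L
          rw [c.rs_br h hy hz]
          exact h2 _ hy' _ hz'
      rintro _ ⟨y, hy, rfl⟩
      exact (h3 hy).2) hω' (c.trSt h htr) (N := rs M p N) ⟨N, hN, rfl⟩
    (by rw [← c.rs_mem_mul h hN, hN2, map_zero])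
    (by
      rintro _ ⟨d, hd, rfl⟩ h5
      apply hcomm d hd
      intro z hz
      have h6 := congrArg Subtype.val (LinearMap.congr_fun h5 ⟨z, hz⟩)
      rw [Module.End.mul_apply, Module.End.mul_apply, hst d (hDG d hd).1, hst N hN, hst N hN,
        hst d (hDG d hd).1] at h6
      exact h6)
    ⟨d0, hd0, rfl⟩ (by rw [hrk]; exact h4)
  refine full_of_pair ?_ ?_ h'.br ?_ (fun W hW h0 => irr_res c hM hW h0) he hf he1 hf1 hefe x y
  · intro z
    have h1 := hω'.anti z z
    have h2 : (2 : ℂ) * (ω.domRestrict₁₂ M M) z z = 0 := by linear_combination h1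
    exact (mul_eq_zero.1 h2).resolve_left two_ne_zero
  · intro z hz
    refine hω'.nd z fun v => ?_
    rw [hω'.anti, hz, neg_zero]
  · intro X hX v w
    rw [hω'.adj, h'.skew X hX]
    exact map_neg _ _

end Pool.Agent.Y91.JP
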