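import Mathlib
import Pool.Agent.Y91.JP.Piece
import Pool.Agent.Y91.JP.Cas

/-!
# The Lie algebra acts on the non-isotropic irreducible summands as the symplectic Lie algebra:
# larger ranks
-/

set_option linter.unusedSectionVars false

namespace Pool.Agent.Y91.JP

open Module LinearMap Pool.Agent.W548.Odd

section gen

variable {K : Type*} [Field K] [CharZero K] {V : Type*} [AddCommGroup V] [Module K V]
  [FiniteDimensional K V]

variable {G : Submodule K (End K V)} {st : End K V →ₗ[K] End K V} (h : Setup G st)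

include h in
/-- The mixed component has the same rank, if no vector of the range is an eigenvector. -/
theorem rk_updown {D N : End K V} (hD : D ∈ G) (hD2 : D * D = 1) (hN : N ∈ G)
    (hneg : ∀ w, D (N w) = -(N w) → N w = 0) : rk ((1 + D) * N * (1 - D)) = rk N := by
  have k1 : ∀ w, ((1 + D) * N) w = 0 → N w = 0 := by
    intro w hw
    apply hneg
    have h1 : N w + D (N w) = 0 := hw
    exact eq_neg_of_add_eq_zero_right h1
  have r1 : rk ((1 + D) * N) = rk N := by
    have h1 := finrank_range_add_finrank_ker ((1 + D) * N)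
    have h2 := finrank_range_add_finrank_ker N
    have h3 : LinearMap.ker ((1 + D) * N) = LinearMap.ker N := by
      ext w
      rw [LinearMap.mem_ker, LinearMap.mem_ker]
      refine ⟨k1 w, fun hw => ?_⟩
      change (1 + D) (N w) = 0
      rw [hw, map_zero]
    rw [h3] at h1
    unfold rk
    omega
  have r2 : rk (N * (1 - D)) = rk N := by
    rw [← h.st_rk (N * (1 - D)), h.st_mul, h.skew N hN, map_sub, st_one h hD hD2, h.skew D hD,
      sub_neg_eq_add, mul_neg, rk_neg, r1]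
  have r3 : rk ((1 + D) * N * (1 - D)) = rk (N * (1 - D)) := by
    have h1 := finrank_range_add_finrank_ker ((1 + D) * N * (1 - D))
    have h2 := finrank_range_add_finrank_ker (N * (1 - D))
    have h3 : LinearMap.ker ((1 + D) * N * (1 - D)) = LinearMap.ker (N * (1 - D)) := by
      ext w
      rw [LinearMap.mem_ker, LinearMap.mem_ker]
      refine ⟨fun hw => k1 _ hw, fun hw => ?_⟩
      have h4 : N ((1 - D) w) = 0 := hw
      change (1 + D) (N ((1 - D) w)) = 0
      rw [h4, map_zero]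
    rw [h3] at h1
    unfold rk
    omega
  rw [r3, r2]

/-- The rank on a summand. -/
theorem rk_piece {M : Submodule K V} {p : V →ₗ[K] M} (c : Cor G st M p) {z : End K V}
    (hz : z ∈ G) : rk (rs M p z) = finrank K (M.map z) := by
  have hst : ∀ x : M, ((rs M p z x : M) : V) = z x := by
    intro x
    have h1 := LinearMap.congr_fun (c.comm z hz) (x : V)
    rw [Module.End.mul_apply, Module.End.mul_apply, pr_of_mem c.hp x.2] at h1
    exact h1
  have h5 : (LinearMap.range (rs M p z)).map M.subtype = M.map z := by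
    apply le_antisymm
    · rintro _ ⟨_, ⟨w, rfl⟩, rfl⟩
      exact ⟨w, w.2, (hst w).symm⟩
    · rintro _ ⟨w, hw, rfl⟩
      exact ⟨rs M p z ⟨w, hw⟩, ⟨_, rfl⟩, hst ⟨w, hw⟩⟩
  unfold rk
  rw [← Submodule.finrank_map_subtype_eq M (LinearMap.range (rs M p z)), h5]

theorem updown_eq {R : Type*} [Ring R] (a b : R) :
    (1 + a) * b * (1 - a) = b + a * b - b * a - a * b * a := by
  noncomm_ring

include h in
theorem rk_updown_piece {M : Submodule K V} {p : V →ₗ[K] M} (c : Cor G st M p)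
    (hs : Scal (G.map (rs M p))) {d b : End K V} (hd : d ∈ G) (hd2 : d * d = 1) (hb : b ∈ G)
    (hneg : ∀ w, d (b w) = -(b w) → b w = 0) (hu : (1 + d) * b * (1 - d) ∈ G) :
    finrank K (M.map ((1 + d) * b * (1 - d))) = finrank K (M.map b) := by
  have h' := c.setup h hs
  have hst : ∀ z ∈ G, ∀ x : M, ((rs M p z x : M) : V) = z x := by
    intro z hz x
    have h1 := LinearMap.congr_fun (c.comm z hz) (x : V)
    rw [Module.End.mul_apply, Module.End.mul_apply, pr_of_mem c.hp x.2] at h1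
    exact h1
  rw [← rk_piece c hu, ← rk_piece c hb]
  have e1 : rs M p ((1 + d) * b * (1 - d)) =
      (1 + rs M p d) * rs M p b * (1 - rs M p d) := by
    rw [updown_eq, updown_eq, map_sub, map_sub, map_add, c.rs_mem_mul h hb,
      c.rs_mem_mul h hd, c.rs_mem_mul h hd, c.rs_mem_mul h hb]
  rw [e1]
  refine rk_updown h' ⟨d, hd, rfl⟩ (by rw [← c.rs_mem_mul h hd, hd2, rs_one c.hp]) ⟨_, hb, rfl⟩ ?_
  intro w hw
  have h5 := congrArg Subtype.val hw
  rw [hst d hd, hst _ hb] at h5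
  apply Subtype.ext
  rw [hst _ hb]
  refine hneg _ (h5.trans ?_)
  rw [← hst b hb]
  rfl

end gen

open Pool.Agent.W437.HP in
/-- **The action on a summand is the symplectic Lie algebra.** -/
theorem piece_full2 {V : Type*} [AddCommGroup V] [Module ℂ V] [FiniteDimensional ℂ V]
    {G : Submodule ℂ (End ℂ V)} {st : End ℂ V →ₗ[ℂ] End ℂ V} (h : Setup G st)
    {ω : V →ₗ[ℂ] V →ₗ[ℂ] ℂ} (hω : AltF st ω) (htr : TrSt st) {M : Submodule ℂ V}
    {p : V →ₗ[ℂ] M} (c : Cor G st M p) (hM : IrrS G M) {DD : Set (End ℂ V)}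
    (hDG : ∀ d ∈ DD, d ∈ G ∧ d * d = 1)
    (hgen : ∀ L : Submodule ℂ (End ℂ V), (∀ d ∈ DD, d ∈ L) →
      (∀ y ∈ L, ∀ z ∈ L, y * z - z * y ∈ L) → G ≤ L)
    {N : End ℂ V} (hN : N ∈ G) (hN2 : N * N = 0)
    (hcomm : ∀ d ∈ DD, ¬ ∀ x ∈ M, d (N x) = N (d x)) {d0 : End ℂ V} (hd0 : d0 ∈ DD)
    {u : End ℂ V} (hu : u ∈ Kp G d0) (hu0 : finrank ℂ (M.map u) ≠ 0)
    (h4 : 4 * finrank ℂ (M.map u) ≠ finrank ℂ M) (h2 : 2 * finrank ℂ (M.map u) ≠ finrank ℂ M)
    (h3 : 4 * finrank ℂ (M.map u) < finrank ℂ M ∨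
      ¬ (4 * finrank ℂ (M.map u) - finrank ℂ M) ∣ finrank ℂ M ∨
      ∃ x ∈ Kp G d0, finrank ℂ (M.map x) ≠ 0 ∧ finrank ℂ (M.map x) ≠ finrank ℂ (M.map u))
    (x y : M) : EE (ω.domRestrict₁₂ M M) x y ∈ G.map (rs M p) := by
  have hs := scal_irr c hM
  have h' := c.setup h hs
  have hω' := c.altF h hω
  have hst : ∀ z ∈ G, ∀ x : M, ((rs M p z x : M) : V) = z x := by
    intro z hz x
    have h1 := LinearMap.congr_fun (c.comm z hz) (x : V)
    rw [Module.End.mul_apply, Module.End.mul_apply, pr_of_mem c.hp x.2] at h1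
    exact h1
  have hDG' : ∀ d ∈ (rs M p) '' DD, d ∈ G.map (rs M p) ∧ d * d = 1 := by
    rintro _ ⟨d, hd, rfl⟩
    refine ⟨⟨d, (hDG d hd).1, rfl⟩, ?_⟩
    rw [← c.rs_mem_mul h (hDG d hd).1, (hDG d hd).2, rs_one c.hp]
  have hgn := quad_idl h' hs (DD := (rs M p) '' DD) hDG'
    (by
      intro L h1 h2
      have h3 : G ≤ G ⊓ L.comap (rs M p) := by
        refine hgen _ ?_ ?_
        · intro d hd
          exact ⟨(hDG d hd).1, h1 _ ⟨d, hd, rfl⟩⟩
        · rintro y ⟨hy, hy'⟩ z ⟨hz, hz'⟩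
          refine ⟨h.br y hy z hz, ?_⟩
          change rs M p (y * z - z * y) ∈ L
          rw [c.rs_br h hy hz]
          exact h2 _ hy' _ hz'
      rintro _ ⟨y, hy, rfl⟩
      exact (h3 hy).2) (N := rs M p N) ⟨N, hN, rfl⟩
    (by rw [← c.rs_mem_mul h hN, hN2, map_zero])
    (by
      rintro _ ⟨d, hd, rfl⟩ h5
      apply hcomm d hd
      intro z hz
      have h6 := congrArg Subtype.val (LinearMap.congr_fun h5 ⟨z, hz⟩)
      rw [Module.End.mul_apply, Module.End.mul_apply, hst d (hDG d hd).1, hst N hN, hst N hN,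
        hst d (hDG d hd).1] at h6
      exact h6)
    ⟨d0, hd0, rfl⟩
  have hkp : ∀ z ∈ Kp G d0, rs M p z ∈ Kp (G.map (rs M p)) (rs M p d0) := by
    rintro z ⟨hz, hz1, hz2⟩
    refine ⟨⟨z, hz, rfl⟩, ?_, ?_⟩
    · rw [← c.rs_mem_mul h hz, hz1]
    · rw [← c.rs_mem_mul h (hDG d0 hd0).1, hz2, map_neg]
  have hrk : ∀ z ∈ Kp G d0, rk (rs M p z) = finrank ℂ (M.map z) := fun z hz =>
    rk_piece c hz.1
  obtain ⟨e, he, f, hf, he1, hf1, hefe⟩ := rank_one_of_ranks h' hs hω' (c.trSt h htr)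
    (D := rs M p d0) (u := rs M p u) (hDG' _ ⟨d0, hd0, rfl⟩).1 (hDG' _ ⟨d0, hd0, rfl⟩).2 hgn
    (hkp u hu) (by
      intro h0
      apply hu0
      rw [← hrk u hu, h0, rk_zero]) (by rw [hrk u hu]; exact h4) (by rw [hrk u hu]; exact h2) (by
      rw [hrk u hu]
      rcases h3 with h3 | h3 | ⟨x, hx, hx0, hxu⟩
      · exact Or.inl h3
      · exact Or.inr (Or.inl h3)
      · refine Or.inr (Or.inr ⟨rs M p x, hkp x hx, ?_, ?_⟩)
        · intro h0
          apply hx0
          rw [← hrk x hx, h0, rk_zero]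
        · rw [hrk x hx]
          exact hxu)
  refine full_of_pair ?_ ?_ h'.br ?_ (fun W hW h0 => irr_res c hM hW h0) he hf he1 hf1 hefe x y
  · intro z
    have h1 := hω'.anti z z
    have h2 : (2 : ℂ) * (ω.domRestrict₁₂ M M) z z = 0 := by linear_combination h1
    exact (mul_eq_zero.1 h2).resolve_left two_ne_zero
  · intro z hz
    refine hω'.nd z fun v => ?_
    rw [hω'.anti, hz, neg_zero]
  · intro X hX v w
    rw [hω'.adj, h'.skew X hX]
    exact map_neg _ _

end Pool.Agent.Y91.JP
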