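import Mathlib
import Pool.Agent.Y91.JP.Quad
import Pool.Agent.Y91.JP.Sharp
import Pool.Agent.Y91.JP.Mat

/-!
# Square zero elements belong to an ideal or to its commutant; Lie algebras of matrices
-/

set_option linter.unusedSectionVars false

namespace Pool.Agent.Y91.JP

open Module LinearMap Pool.Agent.W548.Odd

section gen

variable {K : Type*} [Field K] [CharZero K] {V : Type*} [AddCommGroup V] [Module K V]
  [FiniteDimensional K V]

variable {G I : Submodule K (End K V)} {st : End K V →ₗ[K] End K V} (h : Setup G st)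
  (hs : Scal G)

include h hs in
/-- An element of an ideal which commutes with the involutions of the ideal is zero. -/
theorem idl_zero_of_comm {D₀ : End K V} (hD₀ : D₀ ∈ G) (hD₀2 : D₀ * D₀ = 1) {J J' : Submodule K
    (End K V)} (hJJ : ∀ D ∈ G, D * D = 1 → D ∈ J ∨ D ∈ J') (hcJ : ∀ x ∈ J', ∀ y ∈ J, x * y = y * x)
    (hJG : J ≤ G) {a : End K V} (ha : a ∈ J) (hc : ∀ s ∈ J, s * s = 1 → s * a = a * s) : a = 0 := by
  refine central_zero h hs hD₀ hD₀2 (hJG ha) (comm_of_invol h fun D hD hD2 => ?_)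
  rcases hJJ D hD hD2 with h1 | h1
  · exact hc D h1 hD2
  · exact hcJ D h1 a ha

include h hs in
/-- **The dichotomy for square zero elements.** -/
theorem sq_dich {D₀ : End K V} (hD₀ : D₀ ∈ G) (hD₀2 : D₀ * D₀ = 1) (hI : IsIdl G I)
    {N : End K V} (hN : N ∈ G) (hN2 : N * N = 0) : N ∈ I ∨ N ∈ cen G I := by
  obtain ⟨a, ha, b, hb, hab⟩ := idl_decomp h hs hD₀ hD₀2 hI hN
  have hba : b * a = a * b := hb.2 a ha
  have hN2' : (a + b) * (a + b) = 0 := by rw [← hab]; exact hN2
  by_cases ha0 : a = 0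
  · right
    rw [hab, ha0, zero_add]
    exact hb
  by_cases hb0 : b = 0
  · left
    rw [hab, hb0, add_zero]
    exact ha
  exfalso
  -- involutions that do not commute with the components
  obtain ⟨s, hsI, hs2, hsa⟩ : ∃ s ∈ I, s * s = 1 ∧ s * a ≠ a * s := by
    by_contra hcon
    push Not at hcon
    exact ha0 (idl_zero_of_comm h hs hD₀ hD₀2 (J := I) (J' := cen G I)
      (fun D hD hD2 => invol_dich h hs hI hD hD2) (fun x hx y hy => hx.2 y hy) hI.le ha hcon)
  obtain ⟨t, htI, ht2, htb⟩ : ∃ t ∈ cen G I, t * t = 1 ∧ t * b ≠ b * t := by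
    by_contra hcon
    push Not at hcon
    exact hb0 (idl_zero_of_comm h hs hD₀ hD₀2 (J := cen G I) (J' := I)
      (fun D hD hD2 => (invol_dich h hs hI hD hD2).symm) (fun x hx y hy => (hy.2 x hx).symm)
      (cen_idl h hI).le hb hcon)
  have key : ∀ s' t' : End K V, (s' = s ∨ s' = -s) → (t' = t ∨ t' = -t) →
      (1 + s') * a * (1 - s') ≠ 0 → (1 + t') * b * (1 - t') = 0 := by
    intro s' t' hs' ht' hne
    have s1 : s' * s' = 1 := by
      rcases hs' with rfl | rfl
      · exact hs2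
      · rw [neg_mul_neg, hs2]
    have t1 : t' * t' = 1 := by
      rcases ht' with rfl | rfl
      · exact ht2
      · rw [neg_mul_neg, ht2]
    have s'I : s' ∈ I := by
      rcases hs' with rfl | rfl
      · exact hsI
      · exact I.neg_mem hsI
    have t'I : t' ∈ cen G I := by
      rcases ht' with rfl | rfl
      · exact htI
      · exact Submodule.neg_mem _ htI
    have st1 : s' * t' = t' * s' := (t'I.2 s' s'I).symm
    have ta : t' * a = a * t' := t'I.2 a ha
    have sb : s' * b = b * s' := (hb.2 s' s'I).symm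
    have hsz : ∀ z ∈ cen G I, z * s' = s' * z := fun z hz => hz.2 _ s'I
    have htz : ∀ z ∈ I, z * t' = t' * z := fun z hz => (t'I.2 z hz).symm
    refine prod_zero h hs hD₀ hD₀2 hI (u := (1 + s') * a * (1 - s')) ?_ ?_
      (mixed_zero s1 t1 st1 ta sb hba hN2') hne
    · intro z hz
      have e1 : z * (1 + s') = (1 + s') * z := by rw [mul_add, add_mul, hsz z hz, mul_one, one_mul]
      have e2 : z * (1 - s') = (1 - s') * z := by rw [mul_sub, sub_mul, hsz z hz, mul_one, one_mul]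
      rw [← mul_assoc, ← mul_assoc, e1, mul_assoc (1 + s'), hz.2 a ha, mul_assoc, mul_assoc,
        mul_assoc, mul_assoc, e2]
    · intro z hz
      have e1 : z * (1 + t') = (1 + t') * z := by rw [mul_add, add_mul, htz z hz, mul_one, one_mul]
      have e2 : z * (1 - t') = (1 - t') * z := by rw [mul_sub, sub_mul, htz z hz, mul_one, one_mul]
      rw [← mul_assoc, ← mul_assoc, e1, mul_assoc (1 + t'), ← hb.2 z hz, mul_assoc, mul_assoc,
        mul_assoc, mul_assoc, e2]
  obtain ⟨s', hs', hne⟩ : ∃ s', (s' = s ∨ s' = -s) ∧ (1 + s') * a * (1 - s') ≠ 0 := by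
    by_contra hcon
    push Not at hcon
    have k1 := hcon s (Or.inl rfl)
    have k2 := hcon (-s) (Or.inr rfl)
    rw [sub_neg_eq_add, ← sub_eq_add_neg] at k2
    exact hsa (comm_of_parts k1 k2)
  have k1 := key s' t hs' (Or.inl rfl) hne
  have k2 := key s' (-t) hs' (Or.inr rfl) hne
  rw [sub_neg_eq_add, ← sub_eq_add_neg] at k2
  exact htb (comm_of_parts k1 k2)

include h hs in
/-- The divisibility for square zero elements of an ideal and of its commutant. -/
theorem sq_dvd [IsAlgClosed K] {D x y : End K V} (hD : D ∈ G) (hD2 : D * D = 1)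
    (hx : x ∈ gn G D) (hx2 : x * x = 0) (hy : y ∈ cen G (gn G D)) (hy2 : y * y = 0) :
    finrank K V ∣ rk x * rk y := by
  have hI := gn_idl h hD
  obtain ⟨f, hf, hxf⟩ := sq_partner h (hI.le hx) hx2
  obtain ⟨f1, hf1, f2, hf2, rfl⟩ := idl_decomp h hs hD hD2 hI hf
  have e1 : x * f1 * x = x := by
    have k1 : x * f2 * x = 0 := by
      rw [← hf2.2 x hx, mul_assoc, hx2, mul_zero]
    rw [mul_add, add_mul, k1, add_zero] at hxf
    exact hxf
  obtain ⟨g, hg, hyg⟩ := sq_partner h hy.1 hy2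
  obtain ⟨g1, hg1, g2, hg2, rfl⟩ := idl_decomp h hs hD hD2 hI hg
  have e2 : y * g2 * y = y := by
    have k1 : y * g1 * y = 0 := by
      rw [hy.2 g1 hg1, mul_assoc, hy2, mul_zero]
    rw [mul_add, add_mul, k1, zero_add] at hyg
    exact hyg
  obtain ⟨p', hp'⟩ : ∃ p', p' = y * g2 := ⟨_, rfl⟩
  have hcomm : ∀ z ∈ gn G D, p' * z = z * p' := by
    intro z hz
    rw [hp', mul_assoc, hg2.2 z hz, ← mul_assoc, hy.2 z hz, mul_assoc]
  have key := trace_prod h hs hD hD2 hcomm hx hf1
  have hpp' : p' * p' = p' := by rw [hp', ← mul_assoc, e2]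
  have hpe : p' * (x * f1) = x * f1 * p' := by
    rw [← mul_assoc, hcomm x hx, mul_assoc, hcomm f1 hf1, ← mul_assoc]
  have hidem : x * f1 * p' * (x * f1 * p') = x * f1 * p' := by
    calc x * f1 * p' * (x * f1 * p') = x * f1 * (p' * (x * f1)) * p' := by noncomm_ring
    _ = (x * f1 * x) * f1 * (p' * p') := by rw [hpe]; noncomm_ring
    _ = x * f1 * p' := by rw [e1, hpp']
  have hef : x * f1 * (x * f1) = x * f1 := by rw [← mul_assoc, e1]
  rw [trace_idem hidem, trace_idem hef, trace_idem hpp'] at key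
  have key' : rk (x * f1 * p') * finrank K V = rk (x * f1) * rk p' := by exact_mod_cast key
  have r1 : rk (x * f1) = rk x := by
    apply le_antisymm (rk_mul_le_left _ _)
    conv_lhs => rw [← e1]
    exact rk_mul_le_left _ _
  have r2 : rk p' = rk y := by
    rw [hp']
    apply le_antisymm (rk_mul_le_left _ _)
    conv_lhs => rw [← e2]
    exact rk_mul_le_left _ _
  rw [r1, r2] at key'
  exact ⟨rk (x * f1 * p'), by rw [← key', mul_comm]⟩

end gen

open Matrix

variable {B : Type*} [Fintype B] [DecidableEq B]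

variable {D : Set (Matrix B B ℂ)} {Om S Si : Matrix B B ℂ}

/-- If the commutant of the Lie algebra consists of scalars and the dimension does not divide the
product of the ranks of two square zero elements then every involution `d` generates the Lie
algebra as an ideal. -/
theorem gn_top_of_sq (H : Herm D Om S Si)
    (hs : ∀ c, InCm D c → ∃ s : ℂ, c = s • (1 : Matrix B B ℂ)) (hconn : Conn D)
    {d : Matrix B B ℂ} (hd : d ∈ D) {X Y : Matrix B B ℂ}
    (hX : X ∈ LA D) (hX2 : X * X = 0) (hY : Y ∈ LA D) (hY2 : Y * Y = 0)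
    (hdiv : ¬ Fintype.card B ∣ X.rank * Y.rank) : GG (LA D) ≤ gn (GG (LA D)) (ph B d) := by
  classical
  obtain ⟨G, hG⟩ : ∃ G, G = GG (LA D) := ⟨_, rfl⟩
  have h := H.setup
  have hsc := scal_of hs
  rw [← hG] at h hsc ⊢
  have hmem : ∀ {A : Matrix B B ℂ}, ph B A ∈ G ↔ A ∈ LA D := by
    intro A
    rw [hG]
    exact mem_GG
  have hsq : ∀ d ∈ D, ∀ σ : ℂ ≃+* ℂ, d.map σ * d.map σ = 1 := by
    intro d hd σ
    have e1 : (d * d).map (σ : ℂ →+* ℂ) = d.map (σ : ℂ →+* ℂ) * d.map (σ : ℂ →+* ℂ) :=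
      Matrix.map_mul
    rw [H.DD d hd] at e1
    have e2 : (1 : Matrix B B ℂ).map (σ : ℂ →+* ℂ) = 1 := Matrix.map_one _ (map_zero _) (map_one _)
    rw [e2] at e1
    exact e1.symm
  have hmemσ : ∀ d ∈ D, ∀ σ : ℂ ≃+* ℂ, d.map σ ∈ LA D := fun d hd σ =>
    LA_aut (σ : ℂ →+* ℂ) (LA_self hd)
  have hdG : ph B d ∈ G := hmem.2 (LA_self hd)
  have hd2 : ph B d * ph B d = 1 := by rw [← map_mul, H.DD d hd, map_one]
  have hfr : finrank ℂ (B → ℂ) = Fintype.card B := finrank_fintype_fun_eq_card ℂ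
  obtain ⟨I, hI'⟩ : ∃ I, I = gn G (ph B d) := ⟨_, rfl⟩
  have hI : IsIdl G I := by rw [hI']; exact gn_idl h hdG
  have hC : IsIdl G (cen G I) := cen_idl h hI
  by_contra hgn
  rw [← hI'] at hgn
  have hdich : ∀ d ∈ D, ∀ τ : ℂ ≃+* ℂ, ph B (d.map τ) ∈ I ∨ ph B (d.map τ) ∈ cen G I :=
    fun d hd τ => invol_dich h hsc hI (hmem.2 (hmemσ d hd τ)) (by
      rw [← map_mul, hsq d hd τ, map_one])
  have hX0 : X ≠ 0 := by
    rintro rfl
    apply hdiv
    rw [Matrix.rank_zero, zero_mul]
    exact dvd_zero _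
  have hY0 : Y ≠ 0 := by
    rintro rfl
    apply hdiv
    rw [Matrix.rank_zero, mul_zero]
    exact dvd_zero _
  have hcard : Fintype.card B ≠ 0 := by
    intro h0
    have h1 := Fintype.card_eq_zero_iff.1 h0
    apply hX0
    ext i
    exact h1.elim i
  have hBne : Nonempty B := by
    rw [← Fintype.card_pos_iff]
    omega
  have hnot : ∀ d ∈ D, ∀ τ : ℂ ≃+* ℂ, ¬ (ph B (d.map τ) ∈ I ∧ ph B (d.map τ) ∈ cen G I) := by
    rintro d' hd' τ ⟨h1, h2⟩
    have h3 : ph B (d'.map τ) = 0 := by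
      refine zero_of_comm h hsc hdG hd2 hI h2.1 h2.2 fun z hz => ?_
      exact (hz.2 _ h1).symm
    have h3' : d'.map τ = 0 := (ph B).injective (by rw [h3, map_zero])
    have h5 : (1 : Matrix B B ℂ) = 0 := by
      rw [← hsq d' hd' τ, h3', mul_zero]
    exact one_ne_zero h5
  obtain ⟨d1, hd1, τ, hτ⟩ : ∃ d ∈ D, ∃ τ : ℂ ≃+* ℂ, ph B (d.map τ) ∉ I := by
    by_contra hcon
    push Not at hcon
    apply hgn
    have h1 : LA D ≤ I.comap (ph B).toLinearMap := by
      refine LA_le_of_conj (fun d hd τ => hcon d hd τ) ?_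
      intro y hy z hz
      change ph B (y * z - z * y) ∈ I
      rw [map_sub, map_mul, map_mul]
      exact hI.br _ (hI.le hy) _ hz
    intro y hy
    obtain ⟨A, hA, rfl⟩ := exists_GG (hG ▸ hy)
    exact h1 hA
  have hall : ∀ d ∈ D, ph B (d.map τ) ∈ cen G I := by
    rcases hconn (tw I τ) (tw (cen G I) τ) (fun d hd => hdich d hd τ)
      (fun d hd => hnot d hd τ) with h1 | h1
    · exact absurd (h1 d1 hd1) hτ
    · exact h1
  have hid : ∀ d ∈ D, ph B d ∈ I := by
    rcases hconn (tw I (RingEquiv.refl ℂ)) (tw (cen G I) (RingEquiv.refl ℂ))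
      (fun d hd => hdich d hd (RingEquiv.refl ℂ))
      (fun d hd => hnot d hd (RingEquiv.refl ℂ)) with h1 | h1
    · exact h1
    · exfalso
      refine hnot d hd (RingEquiv.refl ℂ) ⟨?_, h1 d hd⟩
      rw [hI']
      exact mem_gn
  have hmap : ∀ (σ : ℂ ≃+* ℂ) (X Y : Matrix B B ℂ), (X * Y).map σ = X.map σ * Y.map σ :=
    fun σ X Y => Matrix.map_mul (f := (σ : ℂ →+* ℂ))
  have hinj : ∀ (σ : ℂ ≃+* ℂ) {X Y : Matrix B B ℂ}, X.map σ = Y.map σ → X = Y := by
    intro σ X Y hXY
    ext i j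
    exact σ.injective (congrFun (congrFun hXY i) j)
  have hsz : ∀ (σ : ℂ ≃+* ℂ) {A : Matrix B B ℂ}, A * A = 0 → A.map σ * A.map σ = 0 := by
    intro σ A hA
    rw [← hmap, hA]
    exact Matrix.map_zero _ (map_zero σ)
  have hnc : ∀ A ∈ LA D, A * A = 0 → A ≠ 0 → ∃ σ : ℂ ≃+* ℂ, ∃ d' ∈ D,
      d' * A.map σ ≠ A.map σ * d' := by
    intro A hA hA2 hA0
    by_contra hcon
    push Not at hcon
    apply hA0
    let L : Submodule ℂ (Matrix B B ℂ) :=
      { carrier := {y | y * A = A * y}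
        zero_mem' := by
          change 0 * A = A * 0
          rw [mul_zero, zero_mul]
        add_mem' := fun {a b} ha hb => by
          change (a + b) * A = A * (a + b)
          rw [mul_add, add_mul, show a * A = A * a from ha, show b * A = A * b from hb]
        smul_mem' := fun c a ha => by
          change (c • a) * A = A * (c • a)
          rw [mul_smul_comm, smul_mul_assoc, show a * A = A * a from ha] }
    have hL : LA D ≤ L := by
      refine LA_le_of_conj (fun d' hd' σ => ?_) ?_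
      · have h1 := hcon σ.symm d' hd'
        apply hinj σ.symm
        rw [hmap, hmap]
        have h2 : (d'.map σ).map σ.symm = d' := by
          ext i j
          exact σ.symm_apply_apply _
        rw [h2]
        exact h1
      · intro y hy z hz
        have e1 : y * A = A * y := hy
        have e2 : z * A = A * z := hz
        change (y * z - z * y) * A = A * (y * z - z * y)
        calc (y * z - z * y) * A = y * (z * A) - z * (y * A) := by noncomm_ring
        _ = y * (A * z) - z * (A * y) := by rw [e1, e2]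
        _ = (y * A) * z - (z * A) * y := by noncomm_ring
        _ = (A * y) * z - (A * z) * y := by rw [e1, e2]
        _ = A * (y * z - z * y) := by noncomm_ring
    obtain ⟨s, hs'⟩ := hs A fun X hX => (hL hX).symm
    rw [hs'] at hA2 ⊢
    rw [smul_mul_smul_comm, one_mul] at hA2
    have h1 : s * s = 0 := (smul_eq_zero.1 hA2).resolve_right one_ne_zero
    rw [mul_self_eq_zero.1 h1, zero_smul]
  -- an element of the ideal
  obtain ⟨σ, dx, hdx, hσ⟩ := hnc X hX hX2 hX0
  have hXm : ph B (X.map σ) ∈ G := hmem.2 (LA_aut (σ : ℂ →+* ℂ) hX)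
  have hXs : ph B (X.map σ) * ph B (X.map σ) = 0 := by rw [← map_mul, hsz σ hX2, map_zero]
  have hXI : ph B (X.map σ) ∈ I := by
    rcases sq_dich h hsc hdG hd2 hI hXm hXs with h1 | h1
    · exact h1
    · exfalso
      apply hσ
      have h2 := h1.2 _ (hid dx hdx)
      rw [← map_mul, ← map_mul] at h2
      exact ((ph B).injective h2).symm
  -- an element of the commutant
  obtain ⟨σ', dy, hdy, hσ'⟩ := hnc Y hY hY2 hY0
  have hYL : (Y.map σ').map τ ∈ LA D := LA_aut (τ : ℂ →+* ℂ) (LA_aut (σ' : ℂ →+* ℂ) hY)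
  have hYm : ph B ((Y.map σ').map τ) ∈ G := hmem.2 hYL
  have hYs : ph B ((Y.map σ').map τ) * ph B ((Y.map σ').map τ) = 0 := by
    rw [← map_mul, hsz τ (hsz σ' hY2), map_zero]
  have hYC : ph B ((Y.map σ').map τ) ∈ cen G I := by
    rcases sq_dich h hsc hdG hd2 hI hYm hYs with h1 | h1
    · exfalso
      apply hσ'
      have h2 := (hall dy hdy).2 _ h1
      rw [← map_mul, ← map_mul, ← hmap, ← hmap] at h2
      exact hinj τ ((ph B).injective h2)
    · exact h1
  rw [hI'] at hXI hYC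
  have key := sq_dvd h hsc hdG hd2 hXI hXs hYC hYs
  have r1 : rk (ph B (X.map σ)) = X.rank := by
    rw [rk_ph]
    exact Pool.Agent.TH125.rank_map_hom (σ : ℂ →+* ℂ) X
  have r2 : rk (ph B ((Y.map σ').map τ)) = Y.rank := by
    rw [rk_ph]
    refine (Pool.Agent.TH125.rank_map_hom (τ : ℂ →+* ℂ) (Y.map σ')).trans ?_
    exact Pool.Agent.TH125.rank_map_hom (σ' : ℂ →+* ℂ) Y
  rw [r1, r2, hfr] at key
  exact hdiv key

/-- **Square zero elements of larger rank.** -/
theorem exists_rank_one_of_sq (H : Herm D Om S Si)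
    (hs : ∀ c, InCm D c → ∃ s : ℂ, c = s • (1 : Matrix B B ℂ))
    {d : Matrix B B ℂ} (hd : d ∈ D) (hgn : GG (LA D) ≤ gn (GG (LA D)) (ph B d))
    {X : Matrix B B ℂ} (hX : X ∈ LA D) (hX2 : X * X = 0) (hX0 : X ≠ 0)
    (h4 : 4 * X.rank ≠ Fintype.card B) (h2 : 2 * X.rank ≠ Fintype.card B)
    (h3 : (∀ j, 1 ≤ j → Fintype.card B = (2 * j + 1).centralBinom →
      X.rank ≠ (2 * j).centralBinom) ∨ ∃ Y ∈ LA D, Y * Y = 0 ∧ Y ≠ 0 ∧ Y.rank ≠ X.rank) :
    ∃ e ∈ LA D, e.rank = 1 := by
  have h := H.setup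
  have hfr : finrank ℂ (B → ℂ) = Fintype.card B := finrank_fintype_fun_eq_card ℂ
  have hne : ∀ {A : Matrix B B ℂ}, A ≠ 0 → ph B A ≠ 0 := by
    intro A hA h0
    exact hA ((ph B).injective (by rw [h0, map_zero]))
  obtain ⟨e, he, f, hf, he1, -, -⟩ := rank_one_sharp h (scal_of hs) (altF H.OmT H.Om2)
    (trSt H.Om2) (D := ph B d) (N := ph B X) (mem_GG.2 (LA_self hd))
    (by rw [← map_mul, H.DD d hd, map_one]) hgn (mem_GG.2 hX) (by rw [← map_mul, hX2, map_zero])
    (hne hX0) (by rw [rk_ph, hfr]; exact h4) (by rw [rk_ph, hfr]; exact h2) (by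
      rw [rk_ph, hfr]
      rcases h3 with h3 | ⟨Y, hY, hY2, hY0, hYr⟩
      · exact Or.inl h3
      · refine Or.inr ⟨ph B Y, mem_GG.2 hY, by rw [← map_mul, hY2, map_zero], hne hY0, ?_⟩
        rw [rk_ph]
        exact hYr)
  obtain ⟨A, hA, rfl⟩ := exists_GG he
  exact ⟨A, hA, by rw [← rk_ph, he1]⟩

end Pool.Agent.Y91.JP
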