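import Mathlib
import Pool.Agent.Y91.JP.Mat
import Pool.Agent.TH125.SmallDefs

/-!
# Families of abelian varieties with small ranks
-/

set_option linter.unusedSectionVars false

namespace Pool.Agent.Y91.JP

open Matrix Module Filter Topology Pool.Agent.W437.HC Pool.Agent.W437.HD Pool.Agent.H204R3.CM
  Pool.Agent.H194R3.CM Pool.Agent.W548.Odd Pool.Agent.W437.HR Pool.Agent.TH125

variable {g : ℕ}

/-- Continuity of the Hodge operator. -/
theorem continuousOn_DZ {U : Set ℂ} {Z : ℂ → Matrix (Fin g) (Fin g) ℂ}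
    (hol : ∀ i j, ContinuousOn (fun t => Z t i j) U)
    (hY : ∀ t ∈ U, IsUnit (imM (Z t)).det) : ContinuousOn (fun t => DZ (Z t)) U := by
  have h1 : ContinuousOn (fun t => imM (Z t)) U := by
    refine continuousOn_pi.2 fun i => continuousOn_pi.2 fun j => ?_
    exact Complex.continuous_im.comp_continuousOn (hol i j)
  have h2 : ContinuousOn (fun t => reM (Z t)) U := by
    refine continuousOn_pi.2 fun i => continuousOn_pi.2 fun j => ?_
    exact Complex.continuous_re.comp_continuousOn (hol i j)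
  have h3 : ContinuousOn (fun t => (imM (Z t))⁻¹) U := by
    intro t ht
    have h4 : ContinuousAt Inv.inv (imM (Z t)) := by
      apply continuousAt_matrix_inv
      rw [Ring.inverse_eq_inv']
      exact continuousAt_inv₀ (hY t ht).ne_zero
    exact ContinuousAt.comp_continuousWithinAt h4 (h1 t ht)
  have h5 : ContinuousOn (fun t => JR (Z t)) U := by
    have e1 : ContinuousOn (fun t => -(reM (Z t) * (imM (Z t))⁻¹)) U := (h2.mul h3).neg
    have e2 : ContinuousOn (fun t => -imM (Z t) - reM (Z t) * (imM (Z t))⁻¹ * reM (Z t)) U :=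
      h1.neg.sub ((h2.mul h3).mul h2)
    have e3 : ContinuousOn (fun t => (imM (Z t))⁻¹ * reM (Z t)) U := h3.mul h2
    refine continuousOn_pi.2 fun i => continuousOn_pi.2 fun j => ?_
    rcases i with i | i <;> rcases j with j | j
    · exact (continuousOn_pi.1 (continuousOn_pi.1 e1 i) j)
    · exact (continuousOn_pi.1 (continuousOn_pi.1 e2 i) j)
    · exact (continuousOn_pi.1 (continuousOn_pi.1 h3 i) j)
    · exact (continuousOn_pi.1 (continuousOn_pi.1 e3 i) j)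
  have h6 : ContinuousOn (fun t => (JR (Z t)).map (fun x : ℝ => (x : ℂ))) U := by
    refine continuousOn_pi.2 fun i => continuousOn_pi.2 fun j => ?_
    exact Complex.continuous_ofReal.comp_continuousOn
      (continuousOn_pi.1 (continuousOn_pi.1 h5 i) j)
  exact h6.const_smul (-Complex.I)

/-- The Hodge operators of a connected family cannot be distributed on two subspaces. -/
theorem conn_family {U : Set ℂ} (hc : IsPreconnected U) {Z : ℂ → Matrix (Fin g) (Fin g) ℂ}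
    (hol : ∀ i j, ContinuousOn (fun t => Z t i j) U)
    (hY : ∀ t ∈ U, IsUnit (imM (Z t)).det) : Conn (DZ '' (Z '' U)) := by
  intro P Q h1 h2
  have hi : IsPreconnected ((fun t => DZ (Z t)) '' U) :=
    hc.image _ (continuousOn_DZ hol hY)
  rw [← Set.image_image DZ Z U] at hi
  rw [isPreconnected_closed_iff] at hi
  by_contra hcon
  push Not at hcon
  obtain ⟨⟨a, ha, haP⟩, b, hb, hbQ⟩ := hcon
  have hPc : IsClosed (P : Set (Matrix (Fin g ⊕ Fin g) (Fin g ⊕ Fin g) ℂ)) :=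
    Submodule.closed_of_finiteDimensional P
  have hQc : IsClosed (Q : Set (Matrix (Fin g ⊕ Fin g) (Fin g ⊕ Fin g) ℂ)) :=
    Submodule.closed_of_finiteDimensional Q
  obtain ⟨c, hc1, hc2, hc3⟩ := hi P Q hPc hQc h1
    ⟨b, hb, (h1 b hb).resolve_right hbQ⟩ ⟨a, ha, (h1 a ha).resolve_left haP⟩
  exact h2 c hc1 ⟨hc2, hc3⟩

/-- The commutant of a family without endomorphisms. -/
theorem scalar_commutant {U : Set ℂ} {Z : ℂ → Matrix (Fin g) (Fin g) ℂ}
    (hY : ∀ t ∈ U, IsUnit (imM (Z t)).det)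
    (hE : ∀ φ, Small.IsEndomorphism U Z φ → ∃ q : ℚ, φ = q • (1 : Matrix _ _ ℚ)) :
    ∀ c, InCm (DZ '' (Z '' U)) c →
      ∃ s : ℂ, c = s • (1 : Matrix (Fin g ⊕ Fin g) (Fin g ⊕ Fin g) ℂ) := by
  refine Cm_induction ?_ ?_ ?_ ?_
  · intro u hu
    obtain ⟨q, hq⟩ := hE u (by
      intro t ht
      exact ⟨_, Pool.Agent.W437.HQ.endo_of_comm (hY t ht)
        (hu _ (LA_self ⟨Z t, ⟨t, ht, rfl⟩, rfl⟩))⟩)
    refine ⟨(q : ℂ), ?_⟩
    rw [hq]
    ext i j
    by_cases hij : i = j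
    · subst hij
      simp [qm]
    · simp [qm, hij]
  · exact ⟨0, by rw [zero_smul]⟩
  · rintro X Y ⟨s, rfl⟩ ⟨t, rfl⟩
    exact ⟨s + t, by rw [add_smul]⟩
  · rintro c X ⟨s, rfl⟩
    exact ⟨c * s, by rw [mul_smul]⟩

/-- The very general member of a family without endomorphisms is simple. -/
theorem simple_of_end {U : Set ℂ} {Z : ℂ → Matrix (Fin g) (Fin g) ℂ}
    (hW : IsPer (Z '' U))
    (hE : ∀ φ, Small.IsEndomorphism U Z φ → ∃ q : ℚ, φ = q • (1 : Matrix _ _ ℚ))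
    {t : ℂ} (ht : t ∈ U) (hVG : ∀ s ∈ U, DZ (Z s) ∈ lieM (DZ (Z t)) ℂ) :
    IsSimpleAV (Z t) := by
  intro W hWs
  have hY : ∀ t ∈ U, IsUnit (imM (Z t)).det := fun t ht =>
    (hW _ ⟨t, ht, rfl⟩).2.isUnit.map Matrix.detMonoidHom
  obtain ⟨hZt, hpos⟩ := hW _ ⟨t, ht, rfl⟩
  rw [stable_iff (hY t ht)] at hWs
  obtain ⟨M, hM1, hM2, hM3⟩ := exists_projector hZt hpos W hWs
  obtain ⟨q, hq⟩ := hE M (by
    intro s hs
    have h3 := Pool.Agent.W437.HQ.comm_lie hZt hM3 (hVG s hs)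
    exact ⟨_, Pool.Agent.W437.HQ.endo_of_comm (hY s hs) h3⟩)
  by_cases h0 : W = ⊥
  · exact Or.inl h0
  right
  obtain ⟨v, hv, hv0⟩ := Submodule.exists_mem_ne_zero_of_ne_bot h0
  have h1 := hM2 v hv
  rw [hq, smul_mulVec, one_mulVec] at h1
  have h2 : q = 1 := by
    have h3 : (q - 1) • v = 0 := by rw [sub_smul, one_smul, h1, sub_self]
    exact sub_eq_zero.1 ((smul_eq_zero.1 h3).resolve_right hv0)
  rw [Submodule.eq_top_iff']
  intro w
  have h3 := hM1 w
  rw [hq, h2, one_smul, one_mulVec] at h3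
  exact h3

/-- **Small rank theorem** for families: very general members. -/
theorem small_pcs {U : Set ℂ} (hU : IsOpen U) (hc : IsPreconnected U)
    {Z : ℂ → Matrix (Fin g) (Fin g) ℂ} (hol : ∀ i j, DifferentiableOn ℂ (fun t => Z t i j) U)
    (hW : IsPer (Z '' U)) (hne : U.Nonempty)
    (hE : ∀ φ, Small.IsEndomorphism U Z φ → ∃ q : ℚ, φ = q • (1 : Matrix _ _ ℚ)) {r : ℕ}
    (hr : RankIn (Z '' U) r) (hr0 : 0 < r) (hrg : 2 * r < g)
    (hdiv : ∀ m, 0 < m → m ≤ r → ¬ 2 * g ∣ m ^ 2) :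
    ∃ E : Set ℂ, E.Countable ∧ ∀ t ∈ U, t ∉ E → HasPcs (DZ (Z t)) := by
  obtain ⟨s, hs⟩ := hne
  have hY : ∀ t ∈ U, IsUnit (imM (Z t)).det := fun t ht =>
    (hW _ ⟨t, ht, rfl⟩).2.isUnit.map Matrix.detMonoidHom
  obtain ⟨E, hE1, hEt⟩ := exists_exceptional hU hc Z hol hY
  refine ⟨E, hE1, fun t ht htE => ?_⟩
  obtain ⟨hZt, hpos⟩ := hW _ ⟨t, ht, rfl⟩
  have h1 : LA (DZ '' (Z '' U)) ≤ lieM (DZ (Z t)) ℂ := by
    refine LA_le_lieM ?_
    rintro _ ⟨_, ⟨s', hs', rfl⟩, rfl⟩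
    exact hEt t ht htE s' hs'
  have h2 : IsSimpleAV (Z t) := simple_of_end hW hE ht (hEt t ht htE)
  obtain ⟨N, hN, -, hNr⟩ := hr
  obtain ⟨S, Si, H⟩ := hermZ hW ⟨s, hs, rfl⟩
  have hcard : Fintype.card (Fin g ⊕ Fin g) = 2 * g := by
    rw [Fintype.card_sum, Fintype.card_fin]
    omega
  obtain ⟨e, he, he1⟩ := exists_rank_one_of_small H (scalar_commutant hY hE)
    (conn_family hc (fun i j => (hol i j).continuousOn) hY) hN (by
      rintro rfl
      rw [rank_zero] at hNr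
      omega) (by rw [hcard, hNr]; omega) (by rw [hcard, hNr]; exact hdiv)
  obtain ⟨v, hv, h3⟩ := sq_of_rank_one hZt (h1 he) he1
  exact hasPcs_of_top (Om_transpose ℂ) (Om_unit ℂ) (sp_C hZt)
    (UU_eq_top hZt (hY t ht) h2 ⟨v, good_of_sq_gen hZt hpos hv h3⟩)

end Pool.Agent.Y91.JP
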