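import Mathlib
import Pool.Agent.Y91.JP.Piece
import Pool.Agent.Y91.JP.Fam

/-!
# Conjugates of subspaces and decompositions
-/

set_option linter.unusedSectionVars false

namespace Pool.Agent.Y91.JP

open Matrix Module LinearMap Pool.Agent.W548.Odd Pool.Agent.W437.HC Pool.Agent.W437.HD
  Pool.Agent.H204R3.CM Pool.Agent.H194R3.CM

/-! ### Independent subfamilies -/

section indep

variable {ι V : Type*} [DecidableEq ι] [AddCommGroup V] [Module ℂ V] [FiniteDimensional ℂ V]

/-- The subspaces are independent. -/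
def Ind (M : ι → Submodule ℂ V) (s : Finset ι) : Prop :=
  ∀ v : ι → V, (∀ i ∈ s, v i ∈ M i) → ∑ i ∈ s, v i = 0 → ∀ i ∈ s, v i = 0

theorem exists_indep (M : ι → Submodule ℂ V)
    (hd : ∀ (s : Finset ι) (i : ι), M i ≤ ⨆ j ∈ s, M j ∨ M i ⊓ ⨆ j ∈ s, M j = ⊥)
    (htop : ⨆ i, M i = ⊤) : ∃ s : Finset ι, Ind M s ∧ ⨆ i ∈ s, M i = ⊤ := by
  have key : ∀ (n : ℕ) (s : Finset ι), Ind M s →
      finrank ℂ V - finrank ℂ (⨆ i ∈ s, M i : Submodule ℂ V) = n →
      ∃ s : Finset ι, Ind M s ∧ ⨆ i ∈ s, M i = ⊤ := by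
    intro n
    induction n using Nat.strong_induction_on with
    | _ n ih =>
      intro s hs hn
      by_cases htop' : ⨆ i ∈ s, M i = ⊤
      · exact ⟨s, hs, htop'⟩
      obtain ⟨i, hi⟩ : ∃ i, ¬ M i ≤ ⨆ j ∈ s, M j := by
        by_contra hcon
        push Not at hcon
        apply htop'
        rw [eq_top_iff, ← htop]
        exact iSup_le hcon
      have hbot := (hd s i).resolve_left hi
      have his : i ∉ s := by
        intro h
        exact hi (le_iSup₂_of_le i h le_rfl)
      have hlt : (⨆ j ∈ s, M j : Submodule ℂ V) < ⨆ j ∈ insert i s, M j := by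
        refine lt_of_le_of_ne ?_ ?_
        · exact biSup_mono fun j hj => Finset.mem_insert_of_mem hj
        · intro h
          apply hi
          rw [h]
          exact le_iSup₂_of_le i (Finset.mem_insert_self i s) le_rfl
      have hfr := Submodule.finrank_lt_finrank_of_lt hlt
      have hle := Submodule.finrank_le (⨆ j ∈ insert i s, M j : Submodule ℂ V)
      refine ih _ ?_ (insert i s) ?_ rfl
      · omega
      · intro v hv hsum
        rw [Finset.sum_insert his] at hsum
        have hmem : ∑ j ∈ s, v j ∈ ⨆ j ∈ s, M j :=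
          Submodule.sum_mem _ fun j hj =>
            (le_iSup₂_of_le (f := fun j (_ : j ∈ s) => M j) j hj le_rfl)
              (hv j (Finset.mem_insert_of_mem hj))
        have h1 : v i ∈ M i ⊓ ⨆ j ∈ s, M j := by
          refine ⟨hv i (Finset.mem_insert_self i s), ?_⟩
          have h2 : v i = -∑ j ∈ s, v j := eq_neg_of_add_eq_zero_left hsum
          rw [h2]
          exact Submodule.neg_mem _ hmem
        rw [hbot, Submodule.mem_bot] at h1
        rw [h1, zero_add] at hsum
        intro j hj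
        rcases Finset.mem_insert.1 hj with rfl | hj
        · exact h1
        · exact hs v (fun k hk => hv k (Finset.mem_insert_of_mem hk)) hsum j hj
  refine key _ ∅ ?_ rfl
  intro v _ _ i hi
  simp at hi

/-- The sum map. -/
noncomputable def sm (M : ι → Submodule ℂ V) (s : Finset ι) : (∀ i : s, M i) →ₗ[ℂ] V :=
  ∑ i : s, (M i).subtype ∘ₗ LinearMap.proj i

theorem sm_apply (M : ι → Submodule ℂ V) (s : Finset ι) (v : ∀ i : s, M i) :
    sm M s v = ∑ i : s, (v i : V) := by
  unfold sm
  rw [LinearMap.sum_apply]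
  rfl

theorem Ind.inj {M : ι → Submodule ℂ V} {s : Finset ι} (h : Ind M s) :
    Function.Injective (sm M s) := by
  rw [injective_iff_map_eq_zero]
  intro v hv
  rw [sm_apply] at hv
  have h1 := h (fun i => if hi : i ∈ s then (v ⟨i, hi⟩ : V) else 0) (by
    intro i hi
    simp only [dif_pos hi]
    exact (v ⟨i, hi⟩).2) (by
    rw [← hv, ← Finset.sum_coe_sort s]
    refine Finset.sum_congr rfl fun i _ => ?_
    rw [dif_pos i.2])
  funext i
  have h2 := h1 i.1 i.2
  simp only [dif_pos i.2] at h2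
  exact Subtype.ext h2

theorem sm_surj {M : ι → Submodule ℂ V} {s : Finset ι} (htop : ⨆ i ∈ s, M i = ⊤) :
    Function.Surjective (sm M s) := by
  rw [← LinearMap.range_eq_top, eq_top_iff, ← htop]
  refine iSup₂_le fun i hi x hx => ?_
  refine ⟨Pi.single ⟨i, hi⟩ ⟨x, hx⟩, ?_⟩
  rw [sm_apply, Finset.sum_eq_single ⟨i, hi⟩]
  · rw [Pi.single_eq_same]
  · intro j _ hj
    rw [Pi.single_eq_of_ne hj]
    rfl
  · intro h
    exact absurd (Finset.mem_univ _) h

theorem Ind.finrank_eq {M : ι → Submodule ℂ V} {s : Finset ι} (h : Ind M s)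
    (htop : ⨆ i ∈ s, M i = ⊤) : finrank ℂ V = ∑ i : s, finrank ℂ (M i) := by
  rw [← (LinearEquiv.ofBijective (sm M s) ⟨h.inj, sm_surj htop⟩).finrank_eq,
    Module.finrank_pi_fintype]

theorem Ind.rank_le {M : ι → Submodule ℂ V} {s : Finset ι} (h : Ind M s) {N : End ℂ V}
    (hN : ∀ i ∈ s, (M i).map N ≤ M i) :
    ∑ i : s, finrank ℂ ((M i).map N) ≤ finrank ℂ (LinearMap.range N) := by
  have h1 : Ind (fun i => (M i).map N) s := fun v hv => h v fun i hi => hN i hi (hv i hi)
  rw [← Module.finrank_pi_fintype]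
  have h2 : ∀ v : (∀ i : s, (M i).map N), sm (fun i => (M i).map N) s v ∈ LinearMap.range N := by
    intro v
    rw [sm_apply]
    refine Submodule.sum_mem _ fun i _ => ?_
    obtain ⟨x, -, hx⟩ := (v i).2
    exact ⟨x, hx⟩
  refine LinearMap.finrank_le_finrank_of_injective
    (f := (sm (fun i => (M i).map N) s).codRestrict (LinearMap.range N) h2) ?_
  intro a b hab
  exact h1.inj (congrArg Subtype.val hab)

end indep

end Pool.Agent.Y91.JP
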