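import Mathlib
import Pool.Agent.Y91.JP.Gal

/-!
# Rational unipotent operators of small rank on abelian varieties of type I and II
-/

set_option linter.unusedSectionVars false

namespace Pool.Agent.Y91.JP

open Matrix Module LinearMap Pool.Agent.W548.Odd Pool.Agent.W437.HC Pool.Agent.W437.HD
  Pool.Agent.H204R3.CM Pool.Agent.H194R3.CM Pool.Agent.W437.HQ Pool.Agent.W437.HR

variable {g : ℕ}

/-! ### Positivity -/

open ComplexOrder in
theorem pos_zero {Z : Matrix (Fin g) (Fin g) ℂ} (hZ : Zᵀ = Z) (hpos : (imM Z).PosDef)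
    {N : Matrix (Fin g ⊕ Fin g) (Fin g ⊕ Fin g) ℝ} (hN : Nᵀ * Om g ℝ = -(Om g ℝ * N))
    (hN2 : N * N = 0) {u : Fin g ⊕ Fin g → ℂ}
    (h : DZ Z *ᵥ (cm N *ᵥ u) = cm N *ᵥ (DZ Z *ᵥ u)) : cm N *ᵥ u = 0 := by
  obtain ⟨y, hy, hyy⟩ := exists_sqrt (OmJ_posDef hZ hpos)
  rw [star_eq_conjTranspose, conjTranspose_eq_transpose_of_trivial] at hyy
  obtain ⟨yi, hyyi⟩ : ∃ yi, y * yi = 1 := hy.exists_right_inv
  have hyiy : yi * y = 1 := mul_eq_one_comm.1 hyyi
  have hJD : cm (JR Z) = Complex.I • DZ Z := by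
    change _ = Complex.I • ((-Complex.I) • cm (JR Z))
    rw [smul_smul, show Complex.I * -Complex.I = 1 by simp, one_smul]
  have hJ : cm (JR Z) *ᵥ (cm N *ᵥ u) = cm N *ᵥ (cm (JR Z) *ᵥ u) := by
    rw [hJD, smul_mulVec, smul_mulVec, mulVec_smul, h]
  have hNN : cm N * cm N = 0 := by
    rw [← cm_mul, hN2]
    ext i j
    simp [cm]
  -- the vector
  obtain ⟨v, hv⟩ : ∃ v, v = cm y *ᵥ (cm N *ᵥ u) := ⟨_, rfl⟩
  have h1 : (cm N)ᵀ * ((cm y)ᵀ * cm y) * cm N = -(Om g ℂ * cm N * cm (JR Z) * cm N) := by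
    have e1 : (cm y)ᵀ * cm y = Om g ℂ * cm (JR Z) := by
      rw [← cm_Om, ← cm_mul, hyy, cm_mul, cm_transpose]
    have e2 : (cm N)ᵀ * Om g ℂ = -(Om g ℂ * cm N) := by
      rw [← cm_Om, ← cm_transpose, ← cm_mul, hN, cm_neg, cm_mul]
    rw [e1, ← mul_assoc, e2]
    noncomm_ring
  have h2 : (cm N)ᵀ *ᵥ ((cm y)ᵀ *ᵥ v) = 0 := by
    rw [hv, mulVec_mulVec, mulVec_mulVec, mulVec_mulVec,
      show (cm N)ᵀ * (cm y)ᵀ * cm y * cm N = (cm N)ᵀ * ((cm y)ᵀ * cm y) * cm N by noncomm_ring,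
      h1, neg_mulVec, ← mulVec_mulVec, ← mulVec_mulVec, hJ, mulVec_mulVec, mul_assoc, hNN,
      mul_zero, zero_mulVec, neg_zero]
  have h3 : v ⬝ᵥ star v = 0 := by
    have e1 : star v = star (cm y *ᵥ (cm N *ᵥ u)) := by rw [hv]
    have e2 : ∀ (A : Matrix (Fin g ⊕ Fin g) (Fin g ⊕ Fin g) ℝ) (x : Fin g ⊕ Fin g → ℂ),
        star (cm A *ᵥ x) = cm A *ᵥ star x := by
      intro A x
      rw [star_mulVec, cm_conjT, vecMul_transpose]
    rw [e1, e2, e2, dotProduct_mulVec, dotProduct_mulVec, ← mulVec_transpose, ← mulVec_transpose,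
      h2, zero_dotProduct]
  have h4 : v = 0 := dotProduct_self_star_eq_zero.1 h3
  calc cm N *ᵥ u = (cm yi * cm y) *ᵥ (cm N *ᵥ u) := by
        rw [← cm_mul, hyiy, cm_one, one_mulVec]
  _ = cm yi *ᵥ v := by rw [← mulVec_mulVec, ← hv]
  _ = 0 := by rw [h4, mulVec_zero]

/-! ### Conjugate subspaces -/

/-- The conjugate of a subspace. -/
def tws (σ : ℂ ≃+* ℂ) (M : Submodule ℂ (Fin g ⊕ Fin g → ℂ)) :
    Submodule ℂ (Fin g ⊕ Fin g → ℂ) where
  carrier := {x | cj σ.symm x ∈ M}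
  zero_mem' := by
    change cj σ.symm 0 ∈ M
    have h1 : cj (g := g) σ.symm 0 = 0 := by
      funext i
      exact map_zero _
    rw [h1]
    exact M.zero_mem
  add_mem' := by
    intro a b ha hb
    change cj σ.symm (a + b) ∈ M
    rw [cj_add]
    exact M.add_mem ha hb
  smul_mem' := by
    intro c a ha
    change cj σ.symm (c • a) ∈ M
    rw [cj_smul]
    exact M.smul_mem _ ha

theorem cj_cj' (σ : ℂ ≃+* ℂ) (x : Fin g ⊕ Fin g → ℂ) : cj σ (cj σ.symm x) = x := by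
  funext i
  exact σ.apply_symm_apply _

theorem cj_cj (σ : ℂ ≃+* ℂ) (x : Fin g ⊕ Fin g → ℂ) : cj σ.symm (cj σ x) = x := by
  funext i
  exact σ.symm_apply_apply _

theorem mem_tws {σ : ℂ ≃+* ℂ} {M : Submodule ℂ (Fin g ⊕ Fin g → ℂ)} {x : Fin g ⊕ Fin g → ℂ} :
    x ∈ tws σ M ↔ cj σ.symm x ∈ M := Iff.rfl

theorem cj_mem_tws {σ : ℂ ≃+* ℂ} {M : Submodule ℂ (Fin g ⊕ Fin g → ℂ)}
    {x : Fin g ⊕ Fin g → ℂ} : cj σ x ∈ tws σ M ↔ x ∈ M := by
  rw [mem_tws, cj_cj]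

theorem tws_symm (σ : ℂ ≃+* ℂ) (M : Submodule ℂ (Fin g ⊕ Fin g → ℂ)) :
    tws σ.symm (tws σ M) = M := by
  ext x
  rw [mem_tws, mem_tws]
  have h1 : cj σ.symm (cj σ.symm.symm x) = x := cj_cj σ x
  rw [h1]

theorem tws_symm' (σ : ℂ ≃+* ℂ) (M : Submodule ℂ (Fin g ⊕ Fin g → ℂ)) :
    tws σ (tws σ.symm M) = M := by
  ext x
  rw [mem_tws, mem_tws]
  have h1 : cj σ.symm.symm (cj σ.symm x) = x := cj_cj' σ x
  rw [h1]

theorem tws_bot (σ : ℂ ≃+* ℂ) : tws σ (⊥ : Submodule ℂ (Fin g ⊕ Fin g → ℂ)) = ⊥ := by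
  rw [Submodule.eq_bot_iff]
  intro x hx
  rw [mem_tws, Submodule.mem_bot] at hx
  rw [← cj_cj' σ x, hx]
  funext i
  exact map_zero _

theorem tws_mono (σ : ℂ ≃+* ℂ) {M M' : Submodule ℂ (Fin g ⊕ Fin g → ℂ)} (h : M ≤ M') :
    tws σ M ≤ tws σ M' := fun _ hx => h hx

theorem finrank_tws_le (σ : ℂ ≃+* ℂ) (M : Submodule ℂ (Fin g ⊕ Fin g → ℂ)) :
    finrank ℂ M ≤ finrank ℂ (tws σ M) := by
  let b := finBasis ℂ M
  let j : M →+ tws σ M :=
    { toFun := fun x => ⟨cj σ x, cj_mem_tws.2 x.2⟩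
      map_zero' := by
        apply Subtype.ext
        funext i
        exact map_zero σ
      map_add' := fun x y => Subtype.ext (cj_add σ x.1 y.1) }
  have h1 := b.linearIndependent.map_of_injective_injective (R' := ℂ) σ.symm j
    (fun r hr => by
      have := congrArg σ hr
      rwa [RingEquiv.apply_symm_apply, map_zero] at this)
    (fun x hx => by
      apply Subtype.ext
      funext i
      have h2 := congrFun (congrArg Subtype.val hx) i
      have h3 : σ (x.1 i) = 0 := h2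
      exact (map_eq_zero_iff σ σ.injective).1 h3)
    (fun r x => by
      apply Subtype.ext
      have h2 := cj_smul σ (σ.symm r) x.1
      rw [RingEquiv.apply_symm_apply] at h2
      exact h2)
  have h2 := h1.fintype_card_le_finrank
  rwa [Fintype.card_fin] at h2

theorem finrank_tws (σ : ℂ ≃+* ℂ) (M : Submodule ℂ (Fin g ⊕ Fin g → ℂ)) :
    finrank ℂ (tws σ M) = finrank ℂ M := by
  refine le_antisymm ?_ (finrank_tws_le σ M)
  have h1 := finrank_tws_le σ.symm (tws σ M)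
  rwa [tws_symm] at h1

theorem cj_mulVec (σ : ℂ ≃+* ℂ) (X : Matrix (Fin g ⊕ Fin g) (Fin g ⊕ Fin g) ℂ)
    (x : Fin g ⊕ Fin g → ℂ) : cj σ (X *ᵥ x) = X.map σ *ᵥ cj σ x := by
  funext i
  exact RingHom.map_mulVec (σ : ℂ →+* ℂ) X x i

theorem cj_qm (σ : ℂ ≃+* ℂ) (N : Matrix (Fin g ⊕ Fin g) (Fin g ⊕ Fin g) ℚ)
    (x : Fin g ⊕ Fin g → ℂ) : cj σ (qm N *ᵥ x) = qm N *ᵥ cj σ x := by
  rw [cj_mulVec]
  congr 1
  exact qm_aut N (σ : ℂ →+* ℂ)

theorem tws_map (σ : ℂ ≃+* ℂ) (M : Submodule ℂ (Fin g ⊕ Fin g → ℂ))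
    (N : Matrix (Fin g ⊕ Fin g) (Fin g ⊕ Fin g) ℚ) :
    (tws σ M).map (ph _ (qm N)) = tws σ (M.map (ph _ (qm N))) := by
  apply le_antisymm
  · rintro _ ⟨x, hx, rfl⟩
    rw [mem_tws, ph_apply, cj_qm]
    exact ⟨cj σ.symm x, hx, rfl⟩
  · intro x hx
    obtain ⟨y, hy, hyx⟩ := mem_tws.1 hx
    refine ⟨cj σ y, cj_mem_tws.2 hy, ?_⟩
    rw [ph_apply] at hyx ⊢
    rw [← cj_qm, hyx, cj_cj']

/-! ### Dimensions -/

theorem qm_indep {B : Type*} [Fintype B] [DecidableEq B] {n : ℕ} {b : Fin n → Matrix B B ℚ}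
    (hb : LinearIndependent ℚ b) :
    LinearIndependent ℂ (fun i => (qm (b i) : Matrix B B ℂ)) := by
  rw [Fintype.linearIndependent_iff] at hb ⊢
  intro c hc i
  rw [← Module.forall_dual_apply_eq_zero_iff ℚ (c i)]
  intro f
  refine hb (fun i => f (c i)) ?_ i
  ext k l
  have h1 : ∑ i, c i * ((b i k l : ℚ) : ℂ) = 0 := by
    have h2 := congrFun (congrFun hc k) l
    rw [Matrix.sum_apply] at h2
    exact h2
  have h2 := congrArg f h1
  rw [map_sum, map_zero] at h2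
  rw [Matrix.sum_apply]
  change ∑ i, f (c i) * b i k l = 0
  rw [← h2]
  refine Finset.sum_congr rfl fun i _ => ?_
  have h3 : c i * ((b i k l : ℚ) : ℂ) = (b i k l) • c i := by
    rw [Rat.smul_def, mul_comm]
  rw [h3, map_smul, smul_eq_mul, mul_comm]

theorem finrank_qm {B : Type*} [Fintype B] [DecidableEq B] (S : Submodule ℚ (Matrix B B ℚ)) :
    finrank ℂ (Submodule.span ℂ (qm '' (S : Set (Matrix B B ℚ)))) = finrank ℚ S := by
  let b := finBasis ℚ S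
  have h1 : LinearIndependent ℚ (fun i => (b i : Matrix B B ℚ)) :=
    b.linearIndependent.map' S.subtype (Submodule.ker_subtype S)
  have h2 := finrank_span_eq_card (qm_indep h1)
  rw [Fintype.card_fin] at h2
  rw [← h2]
  have h3 : Submodule.span ℂ (qm '' (S : Set (Matrix B B ℚ))) =
      Submodule.span ℂ (Set.range fun i => (qm (b i : Matrix B B ℚ) : Matrix B B ℂ)) := by
    apply le_antisymm
    · rw [Submodule.span_le]
      rintro _ ⟨u, hu, rfl⟩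
      have h4 : (⟨u, hu⟩ : S) = ∑ i, b.repr ⟨u, hu⟩ i • b i := (b.sum_repr _).symm
      have h5 : u = ∑ i, b.repr ⟨u, hu⟩ i • (b i : Matrix B B ℚ) := by
        have h6 := congrArg Subtype.val h4
        rw [AddSubmonoidClass.coe_finsetSum] at h6
        exact h6
      have h7 : (qm u : Matrix B B ℂ) = ∑ i, ((b.repr ⟨u, hu⟩ i : ℚ) : ℂ) •
          qm (b i : Matrix B B ℚ) := by
        conv_lhs => rw [h5]
        ext k l
        rw [Matrix.sum_apply]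
        change (((∑ i, b.repr ⟨u, hu⟩ i • (b i : Matrix B B ℚ)) k l : ℚ) : ℂ) = _
        rw [Matrix.sum_apply]
        push_cast
        refine Finset.sum_congr rfl fun i _ => ?_
        simp [qm]
      rw [h7]
      exact Submodule.sum_mem _ fun i _ => Submodule.smul_mem _ _
        (Submodule.subset_span ⟨i, rfl⟩)
    · rw [Submodule.span_le]
      rintro _ ⟨i, rfl⟩
      exact Submodule.subset_span ⟨_, (b i).2, rfl⟩
  rw [h3]

/-- The rational matrices that commute with the Hodge operators. -/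
def EndQ (W : Set (Matrix (Fin g) (Fin g) ℂ)) :
    Submodule ℚ (Matrix (Fin g ⊕ Fin g) (Fin g ⊕ Fin g) ℚ) where
  carrier := {φ | ∀ Z ∈ W, qm φ * DZ Z = DZ Z * qm φ}
  zero_mem' := fun Z _ => by rw [qm_zero, zero_mul, mul_zero]
  add_mem' := fun {a b} ha hb Z hZ => by
    have h1 : qm (a + b) = (qm a + qm b : Matrix (Fin g ⊕ Fin g) (Fin g ⊕ Fin g) ℂ) := by
      ext i j
      simp [qm]
    rw [h1, add_mul, mul_add, ha Z hZ, hb Z hZ]
  smul_mem' := fun c a ha Z hZ => by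
    have h1 : qm (c • a) = ((c : ℂ) • qm a : Matrix (Fin g ⊕ Fin g) (Fin g ⊕ Fin g) ℂ) := by
      ext i j
      simp [qm]
    rw [h1, smul_mul_assoc, mul_smul_comm, ha Z hZ]

/-- The symmetric ones. -/
def SymQ (W : Set (Matrix (Fin g) (Fin g) ℂ)) :
    Submodule ℚ (Matrix (Fin g ⊕ Fin g) (Fin g ⊕ Fin g) ℚ) where
  carrier := {φ | φ ∈ EndQ W ∧ φᵀ * Om g ℚ = Om g ℚ * φ}
  zero_mem' := ⟨Submodule.zero_mem _, by rw [transpose_zero, zero_mul, mul_zero]⟩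
  add_mem' := fun {a b} ha hb => ⟨Submodule.add_mem _ ha.1 hb.1, by
    rw [transpose_add, add_mul, mul_add, ha.2, hb.2]⟩
  smul_mem' := fun c a ha => ⟨Submodule.smul_mem _ c ha.1, by
    rw [transpose_smul, smul_mul_assoc, mul_smul_comm, ha.2]⟩

variable {W : Set (Matrix (Fin g) (Fin g) ℂ)}

theorem inCm_of_endQ {φ : Matrix (Fin g ⊕ Fin g) (Fin g ⊕ Fin g) ℚ} (hφ : φ ∈ EndQ W) :
    InCm (DZ '' W) (qm φ) := by
  intro X hX
  let L : Submodule ℂ (Matrix (Fin g ⊕ Fin g) (Fin g ⊕ Fin g) ℂ) :=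
    { carrier := {y | qm φ * y = y * qm φ}
      zero_mem' := by
        change qm φ * 0 = 0 * qm φ
        rw [mul_zero, zero_mul]
      add_mem' := fun {a b} ha hb => by
        change qm φ * (a + b) = (a + b) * qm φ
        rw [mul_add, add_mul, show qm φ * a = a * qm φ from ha, show qm φ * b = b * qm φ from hb]
      smul_mem' := fun c a ha => by
        change qm φ * (c • a) = (c • a) * qm φ
        rw [mul_smul_comm, smul_mul_assoc, show qm φ * a = a * qm φ from ha] }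
  have hL : LA (DZ '' W) ≤ L := by
    refine LA_le_of_conj ?_ ?_
    · rintro _ ⟨Z, hZ, rfl⟩ σ
      have h1 := congrArg (fun Y : Matrix _ _ ℂ => Y.map (σ : ℂ →+* ℂ)) (hφ Z hZ)
      simp only [Matrix.map_mul] at h1
      rw [qm_aut] at h1
      exact h1
    · intro y hy z hz
      exact comm_br hy hz
  exact hL hX

theorem cmt_iff {D : Set (Matrix (Fin g ⊕ Fin g) (Fin g ⊕ Fin g) ℂ)}
    {A : Matrix (Fin g ⊕ Fin g) (Fin g ⊕ Fin g) ℂ} :
    ph _ A ∈ Cmt (GG (LA D)) ↔ InCm D A := by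
  constructor
  · intro h X hX
    have h1 := h _ (mem_GG.2 hX)
    rw [← map_mul, ← map_mul] at h1
    exact (ph _).injective h1
  · intro h y hy
    obtain ⟨X, hX, rfl⟩ := exists_GG hy
    rw [← map_mul, ← map_mul, h X hX]

/-- The dimension of the commutant. -/
theorem finrank_cmt_le :
    finrank ℂ (Cmt (GG (LA (DZ '' W)))) ≤ finrank ℚ (EndQ W) := by
  rw [← finrank_qm (EndQ W)]
  let S := Submodule.span ℂ (qm '' (EndQ W : Set (Matrix (Fin g ⊕ Fin g) (Fin g ⊕ Fin g) ℚ)))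
  have h1 : ∀ c, InCm (DZ '' W) c → c ∈ S := by
    refine Cm_induction ?_ (Submodule.zero_mem _) (fun X Y => Submodule.add_mem _)
      fun c X => Submodule.smul_mem _ c
    intro u hu
    refine Submodule.subset_span ⟨u, ?_, rfl⟩
    intro Z hZ
    exact hu _ (LA_self ⟨Z, hZ, rfl⟩)
  have h2 : Cmt (GG (LA (DZ '' W))) ≤ S.map (ph _).toLinearMap := by
    intro c hc
    obtain ⟨A, rfl⟩ := (ph _).surjective c
    exact ⟨A, h1 A (cmt_iff.1 hc), rfl⟩
  refine (Submodule.finrank_mono h2).trans ?_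
  exact Submodule.finrank_map_le _ _

theorem le_finrank_sym : finrank ℚ (SymQ W) ≤
    finrank ℂ (SymC (GG (LA (DZ '' W))) (stE (Om g ℂ))) := by
  rw [← finrank_qm (SymQ W)]
  let S := Submodule.span ℂ (qm '' (SymQ W : Set (Matrix (Fin g ⊕ Fin g) (Fin g ⊕ Fin g) ℚ)))
  have h1 : S.map (ph _).toLinearMap ≤ SymC (GG (LA (DZ '' W))) (stE (Om g ℂ)) := by
    rw [Submodule.map_span, Submodule.span_le]
    rintro _ ⟨_, ⟨φ, hφ, rfl⟩, rfl⟩
    refine ⟨cmt_iff.2 (inCm_of_endQ hφ.1), ?_⟩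
    change stE (Om g ℂ) (ph _ (qm φ)) = ph _ (qm φ)
    rw [stE_ph]
    congr 1
    have h2 := congrArg (fun Y : Matrix _ _ ℚ => (qm Y : Matrix _ _ ℂ)) hφ.2
    simp only [qm_mul] at h2
    rw [← Om_qm] at h2
    have h3 : (qm φ)ᵀ = (qm φᵀ : Matrix (Fin g ⊕ Fin g) (Fin g ⊕ Fin g) ℂ) := rfl
    rw [h3, mul_assoc, h2, ← mul_assoc, Om_sq, neg_one_mul, neg_neg]
  have h2 : finrank ℂ (S.map (ph _).toLinearMap) = finrank ℂ S :=
    LinearEquiv.finrank_map_eq (ph (Fin g ⊕ Fin g)).toLinearEquiv S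
  rw [← h2]
  exact Submodule.finrank_mono h1

theorem sym_skew_le (G : Submodule ℂ (End ℂ (Fin g ⊕ Fin g → ℂ)))
    (st : End ℂ (Fin g ⊕ Fin g → ℂ) →ₗ[ℂ] End ℂ (Fin g ⊕ Fin g → ℂ)) :
    finrank ℂ (SymC G st) + finrank ℂ (SkewC G st) ≤ finrank ℂ (Cmt G) := by
  have h1 := Submodule.finrank_sup_add_finrank_inf_eq (SymC G st) (SkewC G st)
  have h2 : SymC G st ⊓ SkewC G st = ⊥ := by
    rw [Submodule.eq_bot_iff]
    rintro x ⟨h3, h4⟩
    have h5 : x = -x := by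
      rw [← h4.2]
      exact h3.2.symm
    have h6 : (2 : ℂ) • x = 0 := by
      rw [two_smul]
      nth_rewrite 1 [h5]
      rw [neg_add_cancel]
    exact (smul_eq_zero.1 h6).resolve_left two_ne_zero
  rw [h2, finrank_bot, add_zero] at h1
  rw [← h1]
  exact Submodule.finrank_mono (sup_le (fun x hx => hx.1) fun x hx => hx.1)

end Pool.Agent.Y91.JP
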