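import Mathlib
import Pool.Agent.Y91.JP.UniMain

/-!
# Families of abelian varieties with small ranks: the general case
-/

set_option linter.unusedSectionVars false

namespace Pool.Agent.Y91.JP

open Matrix Module Pool.Agent.W437.HC Pool.Agent.W437.HD Pool.Agent.H204R3.CM
  Pool.Agent.H194R3.CM Pool.Agent.W548.Odd Pool.Agent.W437.HR Pool.Agent.TH125

variable {g : ℕ}

/-- The rank of the derivative of a period matrix with respect to a derivation. -/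
theorem rankIn_derivation {W : Set (Matrix (Fin g) (Fin g) ℂ)} {Z : Matrix (Fin g) (Fin g) ℂ}
    (hW : IsPer W) (hZW : Z ∈ W) (δ : Derivation ℚ ℂ ℂ) : RankIn W (Z.map δ).rank := by
  obtain ⟨hZ, hpos⟩ := hW _ hZW
  have hY : IsUnit (imM Z).det := hpos.isUnit.map Matrix.detMonoidHom
  refine ⟨_, deriv_mem_LA hW hZW δ, ?_, ?_⟩
  · have h1 : (TT Z)ᵀ * Om g ℂ * TT Z = 0 := by
      rw [TT_Om hZ, Matrix.mul_assoc, Matrix.sub_mul, Matrix.one_mul, DZ_TT hY, sub_self,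
        Matrix.mul_zero]
    have h2 : TT Z * Z.map δ * (TT Z)ᵀ * Om g ℂ * (TT Z * Z.map δ * (TT Z)ᵀ * Om g ℂ) =
        TT Z * Z.map δ * ((TT Z)ᵀ * Om g ℂ * TT Z) * (Z.map δ * (TT Z)ᵀ * Om g ℂ) := by
      simp only [Matrix.mul_assoc]
    rw [h2, h1, Matrix.mul_zero, Matrix.zero_mul]
  · apply le_antisymm
    · rw [Matrix.mul_assoc, Matrix.mul_assoc]
      refine (rank_mul_le_right _ _).trans ?_
      exact rank_mul_le_left _ _
    · have h2 : TT Z * Z.map δ * (TT Z)ᵀ * Om g ℂ * LM Z = TT Z * ((2 : ℂ) • Z.map δ) := by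
        have h3 : TT Z * Z.map δ * (TT Z)ᵀ * Om g ℂ * LM Z =
            TT Z * Z.map δ * ((TT Z)ᵀ * Om g ℂ * LM Z) := by
          simp only [Matrix.mul_assoc]
        rw [h3, TT_LM hZ hY, Matrix.mul_smul, Matrix.mul_one, Matrix.mul_smul]
      have h4 : (LM Z)ᵀ * Om g ℂ * TT Z = (-2 : ℂ) • 1 := by
        have h5 := congrArg transpose (TT_LM hZ hY)
        rw [transpose_mul, transpose_mul, transpose_transpose, Om_transpose, transpose_smul,
          transpose_one, Matrix.neg_mul, Matrix.mul_neg, ← Matrix.mul_assoc] at h5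
        have h6 : (LM Z)ᵀ * Om g ℂ * TT Z = -((2 : ℂ) • 1) := by rw [← h5, neg_neg]
        rw [h6, neg_smul]
      have h5 : Z.map δ = (-(4 : ℂ)⁻¹) • ((LM Z)ᵀ * Om g ℂ *
          (TT Z * Z.map δ * (TT Z)ᵀ * Om g ℂ * LM Z)) := by
        rw [h2, ← Matrix.mul_assoc, h4, Matrix.smul_mul, Matrix.one_mul, smul_smul, smul_smul]
        norm_num
      nth_rewrite 1 [h5]
      rw [← Matrix.smul_mul]
      refine (rank_mul_le_right _ _).trans ?_
      exact rank_mul_le_left _ _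

/-- The endomorphisms of the family are the rational matrices that commute with the Hodge
operators. -/
theorem endo_iff {U : Set ℂ} {Z : ℂ → Matrix (Fin g) (Fin g) ℂ}
    (hY : ∀ t ∈ U, IsUnit (imM (Z t)).det) (φ : Matrix (Fin g ⊕ Fin g) (Fin g ⊕ Fin g) ℚ) :
    Small.IsEndomorphism U Z φ ↔ φ ∈ EndQ (Z '' U) := by
  constructor
  · rintro h _ ⟨t, ht, rfl⟩
    obtain ⟨M, hM⟩ := h t ht
    exact Pool.Agent.W437.HQ.endo_comm (hY t ht) hM
  · intro h t ht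
    exact ⟨_, Pool.Agent.W437.HQ.endo_of_comm (hY t ht) (h _ ⟨t, ht, rfl⟩)⟩

/-- **Monodromy operators of small rank.** -/
theorem uni_pcs {U : Set ℂ} (hU : IsOpen U) (hc : IsPreconnected U)
    {Z : ℂ → Matrix (Fin g) (Fin g) ℂ} (hol : ∀ i j, DifferentiableOn ℂ (fun t => Z t i j) U)
    (hW : IsPer (Z '' U)) (hs : ∃ s ∈ U, IsSimpleAV (Z s))
    {γ : Matrix (Fin g ⊕ Fin g) (Fin g ⊕ Fin g) ℚ} (hγ : Small.IsMonodromy U Z γ)
    (h2 : (γ - 1) * (γ - 1) = 0) (h1 : γ ≠ 1) (hr : 2 * (γ - 1).rank < g)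
    (hdim : finrank ℚ (Submodule.span ℚ {φ | Small.IsEndomorphism U Z φ}) <
      2 * finrank ℚ (Submodule.span ℚ {φ | Small.IsEndomorphism U Z φ ∧
        φ.transpose * fromBlocks 0 1 (-1) 0 = fromBlocks 0 1 (-1) 0 * φ})) :
    ∃ E : Set ℂ, E.Countable ∧ ∀ t ∈ U, t ∉ E → HasPcs (DZ (Z t)) := by
  obtain ⟨s, hs, hsimple⟩ := hs
  have hY : ∀ t ∈ U, IsUnit (imM (Z t)).det := fun t ht =>
    (hW _ ⟨t, ht, rfl⟩).2.isUnit.map Matrix.detMonoidHom
  have e1 : Submodule.span ℚ {φ | Small.IsEndomorphism U Z φ} = EndQ (Z '' U) := by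
    apply le_antisymm
    · exact Submodule.span_le.2 fun φ hφ => (endo_iff hY φ).1 hφ
    · exact fun φ hφ => Submodule.subset_span ((endo_iff hY φ).2 hφ)
  have e2 : Submodule.span ℚ {φ | Small.IsEndomorphism U Z φ ∧
      φ.transpose * fromBlocks 0 1 (-1) 0 = fromBlocks 0 1 (-1) 0 * φ} = SymQ (Z '' U) := by
    apply le_antisymm
    · exact Submodule.span_le.2 fun φ hφ => ⟨(endo_iff hY φ).1 hφ.1, hφ.2⟩
    · exact fun φ hφ => Submodule.subset_span ⟨(endo_iff hY φ).2 hφ.1, hφ.2⟩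
  rw [e1, e2] at hdim
  obtain ⟨E, hE, hEt⟩ := exists_exceptional hU hc Z hol hY
  refine ⟨E, hE, fun t ht htE => ?_⟩
  obtain ⟨hZt, hpos⟩ := hW _ ⟨t, ht, rfl⟩
  have h3 : LA (DZ '' (Z '' U)) ≤ lieM (DZ (Z t)) ℂ := by
    refine LA_le_lieM ?_
    rintro _ ⟨_, ⟨s', hs', rfl⟩, rfl⟩
    exact hEt t ht htE s' hs'
  have h4 : IsSimpleAV (Z t) := simple_of_mem hZt hpos (hW _ ⟨s, hs, rfl⟩).2
    (hEt t ht htE s hs) hsimple
  exact hasPcs_of_unipotent hW ⟨t, ht, rfl⟩ h4 h3 hdim (mono_mem hW ⟨s, hs⟩ hγ h2) h2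
    (sub_ne_zero.2 h1) hr

end Pool.Agent.Y91.JP
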