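import Mathlib
import Pool.Agent.Y91.JP.Fam2
import Pool.Agent.TH504.CB.Indep

/-!
# Families with small ranks: very general members and transcendental periods
-/

set_option linter.unusedSectionVars false

namespace Pool.Agent.Y91.JP

open Matrix Module Pool.Agent.W437.HC Pool.Agent.W437.HD Pool.Agent.H204R3.CM
  Pool.Agent.H194R3.CM Pool.Agent.W548.Odd Pool.Agent.W437.HR Pool.Agent.TH125

variable {g : ℕ}

/-- For a family which is not constant and a countable field `K`, almost all members have a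
transcendental period over `K`. -/
theorem exists_transcendental {U : Set ℂ} (hU : IsOpen U) (hc : IsPreconnected U)
    {Z : ℂ → Matrix (Fin g) (Fin g) ℂ} (hol : ∀ i j, DifferentiableOn ℂ (fun t => Z t i j) U)
    (hnc : ∃ s ∈ U, ∃ t ∈ U, Z s ≠ Z t) (K : Subfield ℂ) (hK : (K : Set ℂ).Countable) :
    ∃ E : Set ℂ, E.Countable ∧ ∀ t ∈ U, t ∉ E → ∃ a b, Transcendental K (Z t a b) := by
  obtain ⟨s, hs, t, ht, hst⟩ := hnc
  obtain ⟨a, b, hab⟩ : ∃ a b, Z s a b ≠ Z t a b := by
    by_contra h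
    push Not at h
    exact hst (Matrix.ext h)
  have : Countable K := hK.to_subtype
  have hA : {x : ℂ | IsAlgebraic K x}.Countable := Algebraic.countable K ℂ
  refine ⟨⋃ x ∈ {x : ℂ | IsAlgebraic K x}, {r | r ∈ U ∧ Z r a b - x = 0}, ?_, ?_⟩
  · refine hA.biUnion fun x _ => ?_
    refine countable_zero hU hc ((hol a b).sub (differentiableOn_const x)) ?_
    by_contra h
    push Not at h
    have h1 := h s hs
    have h2 := h t ht
    exact hab ((sub_eq_zero.1 h1).trans (sub_eq_zero.1 h2).symm)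
  · intro r hr hrE
    refine ⟨a, b, fun h => hrE ?_⟩
    refine Set.mem_biUnion (x := Z r a b) h ⟨hr, sub_self _⟩

/-- The very general member of a family with a simple member is simple. -/
theorem exists_simple {U : Set ℂ} (hU : IsOpen U) (hc : IsPreconnected U)
    {Z : ℂ → Matrix (Fin g) (Fin g) ℂ} (hol : ∀ i j, DifferentiableOn ℂ (fun t => Z t i j) U)
    (hW : IsPer (Z '' U)) (h : (∃ s ∈ U, IsSimpleAV (Z s)) ∨
      ∀ φ, Small.IsEndomorphism U Z φ → ∃ q : ℚ, φ = q • (1 : Matrix _ _ ℚ)) :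
    ∃ E : Set ℂ, E.Countable ∧ ∀ t ∈ U, t ∉ E → IsSimpleAV (Z t) := by
  have hY : ∀ t ∈ U, IsUnit (imM (Z t)).det := fun t ht =>
    (hW _ ⟨t, ht, rfl⟩).2.isUnit.map Matrix.detMonoidHom
  obtain ⟨E, hE, hEt⟩ := exists_exceptional hU hc Z hol hY
  refine ⟨E, hE, fun t ht htE => ?_⟩
  obtain ⟨hZt, hpos⟩ := hW _ ⟨t, ht, rfl⟩
  rcases h with ⟨s, hs, hsimple⟩ | h
  · exact simple_of_mem hZt hpos (hW _ ⟨s, hs, rfl⟩).2 (hEt t ht htE s hs) hsimple
  · exact simple_of_end hW h ht (hEt t ht htE)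

end Pool.Agent.Y91.JP
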