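import Mathlib
import Pool.Agent.Y91.JP.Piece
import Pool.Agent.Y91.JP.Sharp

/-!
# The Lie algebra acts on the non-isotropic irreducible summands as the symplectic Lie algebra:
# larger ranks
-/

set_option linter.unusedSectionVars false

namespace Pool.Agent.Y91.JP

open Module LinearMap Pool.Agent.W548.Odd

section gen

variable {K : Type*} [Field K] [CharZero K] {V : Type*} [AddCommGroup V] [Module K V]
  [FiniteDimensional K V]

variable {G : Submodule K (End K V)} {st : End K V →ₗ[K] End K V} (h : Setup G st)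

/-- The rank on a summand. -/
theorem rk_piece {M : Submodule K V} {p : V →ₗ[K] M} (c : Cor G st M p) {z : End K V}
    (hz : z ∈ G) : rk (rs M p z) = finrank K (M.map z) := by
  have hst : ∀ x : M, ((rs M p z x : M) : V) = z x := by
    intro x
    have h1 := LinearMap.congr_fun (c.comm z hz) (x : V)
    rw [Module.End.mul_apply, Module.End.mul_apply, pr_of_mem c.hp x.2] at h1
    exact h1
  have h5 : (LinearMap.range (rs M p z)).map M.subtype = M.map z := by
    apply le_antisymm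
    · rintro _ ⟨_, ⟨w, rfl⟩, rfl⟩
      exact ⟨w, w.2, (hst w).symm⟩
    · rintro _ ⟨w, hw, rfl⟩
      exact ⟨rs M p z ⟨w, hw⟩, ⟨_, rfl⟩, hst ⟨w, hw⟩⟩
  unfold rk
  rw [← Submodule.finrank_map_subtype_eq M (LinearMap.range (rs M p z)), h5]

end gen

open Pool.Agent.W437.HP in
/-- **The action on a summand is the symplectic Lie algebra.** -/
theorem piece_full3 {V : Type*} [AddCommGroup V] [Module ℂ V] [FiniteDimensional ℂ V]
    {G : Submodule ℂ (End ℂ V)} {st : End ℂ V →ₗ[ℂ] End ℂ V} (h : Setup G st)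
    {ω : V →ₗ[ℂ] V →ₗ[ℂ] ℂ} (hω : AltF st ω) (htr : TrSt st) {M : Submodule ℂ V}
    {p : V →ₗ[ℂ] M} (c : Cor G st M p) (hM : IrrS G M) {DD : Set (End ℂ V)}
    (hDG : ∀ d ∈ DD, d ∈ G ∧ d * d = 1)
    (hgen : ∀ L : Submodule ℂ (End ℂ V), (∀ d ∈ DD, d ∈ L) →
      (∀ y ∈ L, ∀ z ∈ L, y * z - z * y ∈ L) → G ≤ L)
    {N : End ℂ V} (hN : N ∈ G) (hN2 : N * N = 0)
    (hcomm : ∀ d ∈ DD, ¬ ∀ x ∈ M, d (N x) = N (d x)) {d0 : End ℂ V} (hd0 : d0 ∈ DD)
    (hN0 : finrank ℂ (M.map N) ≠ 0)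
    (h4 : 4 * finrank ℂ (M.map N) ≠ finrank ℂ M) (h2 : 2 * finrank ℂ (M.map N) ≠ finrank ℂ M)
    (h3 : (∀ j, 1 ≤ j → finrank ℂ M = (2 * j + 1).centralBinom →
        finrank ℂ (M.map N) ≠ (2 * j).centralBinom) ∨
      ∃ x ∈ G, x * x = 0 ∧ finrank ℂ (M.map x) ≠ 0 ∧ finrank ℂ (M.map x) ≠ finrank ℂ (M.map N))
    (x y : M) : EE (ω.domRestrict₁₂ M M) x y ∈ G.map (rs M p) := by
  have hs := scal_irr c hM
  have h' := c.setup h hs
  have hω' := c.altF h hω
  have hst : ∀ z ∈ G, ∀ x : M, ((rs M p z x : M) : V) = z x := by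
    intro z hz x
    have h1 := LinearMap.congr_fun (c.comm z hz) (x : V)
    rw [Module.End.mul_apply, Module.End.mul_apply, pr_of_mem c.hp x.2] at h1
    exact h1
  have hDG' : ∀ d ∈ (rs M p) '' DD, d ∈ G.map (rs M p) ∧ d * d = 1 := by
    rintro _ ⟨d, hd, rfl⟩
    refine ⟨⟨d, (hDG d hd).1, rfl⟩, ?_⟩
    rw [← c.rs_mem_mul h (hDG d hd).1, (hDG d hd).2, rs_one c.hp]
  have hgn := quad_idl h' hs (DD := (rs M p) '' DD) hDG'
    (by
      intro L h1 h2
      have h3 : G ≤ G ⊓ L.comap (rs M p) := by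
        refine hgen _ ?_ ?_
        · intro d hd
          exact ⟨(hDG d hd).1, h1 _ ⟨d, hd, rfl⟩⟩
        · rintro y ⟨hy, hy'⟩ z ⟨hz, hz'⟩
          refine ⟨h.br y hy z hz, ?_⟩
          change rs M p (y * z - z * y) ∈ L
          rw [c.rs_br h hy hz]
          exact h2 _ hy' _ hz'
      rintro _ ⟨y, hy, rfl⟩
      exact (h3 hy).2) (N := rs M p N) ⟨N, hN, rfl⟩
    (by rw [← c.rs_mem_mul h hN, hN2, map_zero])
    (by
      rintro _ ⟨d, hd, rfl⟩ h5
      apply hcomm d hd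
      intro z hz
      have h6 := congrArg Subtype.val (LinearMap.congr_fun h5 ⟨z, hz⟩)
      rw [Module.End.mul_apply, Module.End.mul_apply, hst d (hDG d hd).1, hst N hN, hst N hN,
        hst d (hDG d hd).1] at h6
      exact h6)
    ⟨d0, hd0, rfl⟩
  have hsq : ∀ z ∈ G, z * z = 0 → rs M p z * rs M p z = 0 := by
    intro z hz hz2
    rw [← c.rs_mem_mul h hz, hz2, map_zero]
  have hrk : ∀ z ∈ G, rk (rs M p z) = finrank ℂ (M.map z) := fun z hz => rk_piece c hz
  obtain ⟨e, he, f, hf, he1, hf1, hefe⟩ := rank_one_sharp h' hs hω' (c.trSt h htr)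
    (D := rs M p d0) (N := rs M p N) (hDG' _ ⟨d0, hd0, rfl⟩).1 (hDG' _ ⟨d0, hd0, rfl⟩).2 hgn
    ⟨N, hN, rfl⟩ (hsq N hN hN2) (by
      intro h0
      apply hN0
      rw [← hrk N hN, h0, rk_zero]) (by rw [hrk N hN]; exact h4) (by rw [hrk N hN]; exact h2) (by
      rw [hrk N hN]
      rcases h3 with h3 | ⟨x, hx, hx2, hx0, hxu⟩
      · exact Or.inl h3
      · refine Or.inr ⟨rs M p x, ⟨x, hx, rfl⟩, hsq x hx hx2, ?_, ?_⟩
        · intro h0
          apply hx0
          rw [← hrk x hx, h0, rk_zero]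
        · rw [hrk x hx]
          exact hxu)
  refine full_of_pair ?_ ?_ h'.br ?_ (fun W hW h0 => irr_res c hM hW h0) he hf he1 hf1 hefe x y
  · intro z
    have h1 := hω'.anti z z
    have h2 : (2 : ℂ) * (ω.domRestrict₁₂ M M) z z = 0 := by linear_combination h1
    exact (mul_eq_zero.1 h2).resolve_left two_ne_zero
  · intro z hz
    refine hω'.nd z fun v => ?_
    rw [hω'.anti, hz, neg_zero]
  · intro X hX v w
    rw [hω'.adj, h'.skew X hX]
    exact map_neg _ _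

end Pool.Agent.Y91.JP
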