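import Mathlib
import Pool.Agent.Y91.JP.UniMain
import Pool.Agent.Y91.JP.Piece3

/-!
# Rational unipotent operators: the decomposition into symplectic pieces, larger ranks
-/

set_option linter.unusedSectionVars false

namespace Pool.Agent.Y91.JP

open Matrix Module LinearMap Pool.Agent.W548.Odd Pool.Agent.W437.HC Pool.Agent.W437.HD
  Pool.Agent.H204R3.CM Pool.Agent.H194R3.CM Pool.Agent.W437.HQ Pool.Agent.W437.HR

variable {g : ℕ} {W : Set (Matrix (Fin g) (Fin g) ℂ)} {Z : Matrix (Fin g) (Fin g) ℂ}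

/-- Conjugates of images. -/
theorem tws_map' (σ : ℂ ≃+* ℂ) (M : Submodule ℂ (Fin g ⊕ Fin g → ℂ))
    (X : Matrix (Fin g ⊕ Fin g) (Fin g ⊕ Fin g) ℂ) :
    (tws σ M).map (ph _ (X.map σ)) = tws σ (M.map (ph _ X)) := by
  apply le_antisymm
  · rintro _ ⟨x, hx, rfl⟩
    obtain ⟨y, rfl⟩ : ∃ y, x = cj σ y := ⟨cj σ.symm x, (cj_cj' σ x).symm⟩
    rw [ph_apply, ← cj_mulVec, cj_mem_tws]
    exact ⟨y, cj_mem_tws.1 hx, rfl⟩
  · intro x hx
    obtain ⟨y, hy, hyx⟩ := mem_tws.1 hx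
    refine ⟨cj σ y, cj_mem_tws.2 hy, ?_⟩
    rw [ph_apply] at hyx ⊢
    rw [← cj_mulVec, hyx, cj_cj']

theorem tws_trans (σ τ : ℂ ≃+* ℂ) (M : Submodule ℂ (Fin g ⊕ Fin g → ℂ)) :
    tws (τ.symm.trans σ) (tws τ M) = tws σ M := by
  ext x
  rw [mem_tws, mem_tws, mem_tws]
  have h1 : cj τ.symm (cj (τ.symm.trans σ).symm x) = cj σ.symm x := by
    funext i
    change τ.symm (τ (σ.symm (x i))) = σ.symm (x i)
    rw [τ.symm_apply_apply]
  rw [h1]

theorem qm_rank_ne {N : Matrix (Fin g ⊕ Fin g) (Fin g ⊕ Fin g) ℚ} (hN : N ≠ 0) : N.rank ≠ 0 := by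
  intro h0
  apply hN
  have h1 : (qm N : Matrix (Fin g ⊕ Fin g) (Fin g ⊕ Fin g) ℂ).rank = N.rank :=
    Pool.Agent.TH125.rank_map_hom (Rat.castHom ℂ) N
  have h2 : finrank ℂ (LinearMap.range (ph _ (qm N : Matrix (Fin g ⊕ Fin g) (Fin g ⊕ Fin g) ℂ))) =
      (qm N : Matrix (Fin g ⊕ Fin g) (Fin g ⊕ Fin g) ℂ).rank := rk_ph (qm N)
  rw [h1, h0] at h2
  have h3 : ph _ (qm N : Matrix (Fin g ⊕ Fin g) (Fin g ⊕ Fin g) ℂ) = 0 := rk_eq_zero h2
  have h4 : (qm N : Matrix (Fin g ⊕ Fin g) (Fin g ⊕ Fin g) ℂ) = 0 :=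
    (ph _).injective (by rw [h3, map_zero])
  ext i j
  have h5 : ((N i j : ℚ) : ℂ) = 0 := congrFun (congrFun h4 i) j
  exact_mod_cast h5

/-- The ranks on the summands add up. -/
theorem Ind.le_rank {V : Type*} [AddCommGroup V] [Module ℂ V] [FiniteDimensional ℂ V] {ι : Type*}
    [DecidableEq ι] {M : ι → Submodule ℂ V} {s : Finset ι} (htop : ⨆ i ∈ s, M i = ⊤)
    (N : End ℂ V) : finrank ℂ (LinearMap.range N) ≤ ∑ i : s, finrank ℂ ((M i).map N) := by
  have h1 : LinearMap.range N = ⨆ i ∈ s, (M i).map N := by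
    rw [LinearMap.range_eq_map, ← htop, Submodule.map_iSup]
    simp only [Submodule.map_iSup]
  have h2 : ∀ t : Finset ι, finrank ℂ ((⨆ i ∈ t, (M i).map N : Submodule ℂ V)) ≤
      ∑ i ∈ t, finrank ℂ ((M i).map N) := by
    intro t
    induction t using Finset.induction_on with
    | empty => simp
    | insert a t ha ih =>
      rw [Finset.iSup_insert, Finset.sum_insert ha]
      refine (Submodule.finrank_add_le_finrank_add_finrank _ _).trans ?_
      exact Nat.add_le_add le_rfl ih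
  rw [h1, Finset.sum_coe_sort s (fun i => finrank ℂ ((M i).map N))]
  exact h2 s

/-- The exceptional pairs: `2 g = e * C(4j+2, 2j+1)` and `r = e * C(4j, 2j)` with `1 ≤ j`. -/
def Exc (g r : ℕ) : Prop :=
  ∃ j e : ℕ, 1 ≤ j ∧ 2 * g = e * (2 * j + 1).centralBinom ∧ r = e * (2 * j).centralBinom

/-- **Rational square zero elements.** If more than half of the endomorphisms are symmetric and the
Lie algebra contains a rational `N` with `N ^ 2 = 0` of rank neither `g / 2` nor `g` then, unless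
the pair of `g` and the rank is exceptional and there are no other ranks, the space is a sum of
pieces on which the Hodge Lie algebra is the full symplectic Lie algebra. -/
theorem hasPcs_of_unipotent3 (hW : IsPer W) (hZW : Z ∈ W) (hs : IsSimpleAV Z)
    (hVG : LA (DZ '' W) ≤ lieM (DZ Z) ℂ)
    (hdim : finrank ℚ (EndQ W) < 2 * finrank ℚ (SymQ W))
    {N : Matrix (Fin g ⊕ Fin g) (Fin g ⊕ Fin g) ℚ} (hN : qm N ∈ LA (DZ '' W))
    (hN2 : N * N = 0) (hN0 : N ≠ 0) (hr1 : 2 * N.rank ≠ g) (hr2 : N.rank ≠ g)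
    (hr3 : ¬ Exc g N.rank ∨
      (∃ N' : Matrix (Fin g ⊕ Fin g) (Fin g ⊕ Fin g) ℚ, qm N' ∈ LA (DZ '' W) ∧ N' * N' = 0 ∧
        N' ≠ 0 ∧ N'.rank ≠ N.rank) ∨
      ∃ X ∈ LA (DZ '' W), X * X = 0 ∧ N.rank < X.rank) :
    HasPcs (DZ Z) := by
  classical
  obtain ⟨hZ, hpos⟩ := hW Z hZW
  have hY : IsUnit (imM Z).det := hpos.isUnit.map Matrix.detMonoidHom
  obtain ⟨S, Si, H⟩ := hermZ hW hZW
  obtain ⟨G, hG⟩ : ∃ G, G = GG (LA (DZ '' W)) := ⟨_, rfl⟩
  have h := H.setup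
  rw [← hG] at h
  have hω := altF H.OmT H.Om2
  have htr := trSt H.Om2
  have hDm : ph _ (DZ Z) ∈ G := by
    rw [hG]
    exact mem_GG.2 (LA_self ⟨Z, hZW, rfl⟩)
  have hD2 : ph _ (DZ Z) * ph _ (DZ Z) = 1 := by rw [← map_mul, DZ_sq hY, map_one]
  -- a non-isotropic irreducible subspace
  obtain ⟨M, hM, hMni⟩ : ∃ M, IrrS G M ∧ ∃ x ∈ M, ∃ y ∈ M, om (Om g ℂ) x y ≠ 0 := by
    by_contra hcon
    push Not at hcon
    have h1 := sym_le_skew h hω (fun M hM x hx y hy => hcon M hM x hx y hy) hDm hD2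
    have h2 := sym_skew_le G (stE (Om g ℂ))
    have h3 := finrank_cmt_le (W := W)
    have h4 := le_finrank_sym (W := W)
    rw [← hG] at h3 h4
    omega
  obtain ⟨δ, hδ⟩ : ∃ δ, δ = finrank ℂ M := ⟨_, rfl⟩
  obtain ⟨ρ, hρ⟩ : ∃ ρ, ρ = finrank ℂ (M.map (ph _ (qm N))) := ⟨_, rfl⟩
  have hIrr : ∀ σ : ℂ ≃+* ℂ, IrrS G (tws σ M) := by
    intro σ
    rw [hG] at hM ⊢
    exact tws_irr σ hM
  have hδσ : ∀ σ : ℂ ≃+* ℂ, finrank ℂ (tws σ M) = δ := fun σ => by rw [finrank_tws, hδ]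
  have hρσ : ∀ σ : ℂ ≃+* ℂ, finrank ℂ ((tws σ M).map (ph _ (qm N))) = ρ := fun σ => by
    rw [tws_map, finrank_tws, hρ]
  -- the conjugates generate
  have htop : ⨆ σ : ℂ ≃+* ℂ, tws σ M = ⊤ := by
    refine stable_eq_top hY hs _ ?_ ?_ ?_
    · intro τ x hx
      induction hx using Submodule.iSup_induction' with
      | mem σ x hx =>
        refine Submodule.mem_iSup_of_mem (σ.trans τ) ?_
        have h1 : cj (σ.trans τ).symm (fun i => τ (x i)) = cj σ.symm x := by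
          funext i
          change σ.symm (τ.symm (τ (x i))) = σ.symm (x i)
          rw [τ.symm_apply_apply]
        rw [mem_tws, h1]
        exact hx
      | zero =>
        have h1 : (fun i => τ ((0 : Fin g ⊕ Fin g → ℂ) i)) = 0 := by
          funext i
          simp
        rw [h1]
        exact Submodule.zero_mem _
      | add x y _ _ h1 h2 =>
        have h3 : (fun i => τ ((x + y) i)) = (fun i => τ (x i)) + fun i => τ (y i) := by
          funext i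
          simp
        rw [h3]
        exact Submodule.add_mem _ h1 h2
    · intro x hx
      have h1 : (⨆ σ : ℂ ≃+* ℂ, tws σ M) ≤ (⨆ σ : ℂ ≃+* ℂ, tws σ M).comap (ph _ (DZ Z)) := by
        refine iSup_le fun σ y hy => ?_
        rw [Submodule.mem_comap]
        exact Submodule.mem_iSup_of_mem σ ((hIrr σ).st _ hDm y hy)
      exact h1 hx
    · intro h0
      have h1 := hIrr (RingEquiv.refl ℂ)
      exact h1.ne (le_bot_iff.1 ((le_iSup (fun σ : ℂ ≃+* ℂ => tws σ M) _).trans h0.le))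
  obtain ⟨s, hInd, htop'⟩ := exists_indep (fun σ : ℂ ≃+* ℂ => tws σ M) (by
    intro s σ
    rcases (hIrr σ).min (tws σ M ⊓ ⨆ j ∈ s, tws j M) (by
      rintro y hy x ⟨hx, hx'⟩
      refine ⟨(hIrr σ).st y hy x hx, ?_⟩
      have h1 : (⨆ j ∈ s, tws j M) ≤ (⨆ j ∈ s, tws j M).comap y :=
        iSup₂_le fun j hj z hz => (le_iSup₂_of_le (f := fun j (_ : j ∈ s) => tws j M) j hj le_rfl)
          ((hIrr j).st y hy z hz)
      exact h1 hx') inf_le_left with h1 | h1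
    · exact Or.inr h1
    · exact Or.inl (inf_eq_left.1 h1)) htop
  -- ranks
  have hcard : finrank ℂ (Fin g ⊕ Fin g → ℂ) = 2 * g := by
    rw [finrank_fintype_fun_eq_card, Fintype.card_sum, Fintype.card_fin]
    omega
  have hk1 : s.card * δ = 2 * g := by
    have h1 := hInd.finrank_eq htop'
    rw [hcard] at h1
    rw [h1]
    simp only [hδσ]
    rw [Finset.sum_const, Finset.card_univ, Fintype.card_coe, smul_eq_mul]
  have hNstab : ∀ σ ∈ s, (tws σ M).map (ph _ (qm N)) ≤ tws σ M := by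
    rintro σ _ _ ⟨x, hx, rfl⟩
    refine (hIrr σ).st _ ?_ x hx
    rw [hG]
    exact mem_GG.2 hN
  have hGst : ∀ X ∈ LA (DZ '' W), ∀ σ ∈ s, (tws σ M).map (ph _ X) ≤ tws σ M := by
    rintro X hX σ _ _ ⟨x, hx, rfl⟩
    refine (hIrr σ).st _ ?_ x hx
    rw [hG]
    exact mem_GG.2 hX
  have hrkX : ∀ X ∈ LA (DZ '' W), ∑ i : s, finrank ℂ ((tws i.1 M).map (ph _ X)) = X.rank := by
    intro X hX
    have h1 := hInd.rank_le (hGst X hX)
    have h2 := Ind.le_rank htop' (ph _ X)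
    have h3 : finrank ℂ (LinearMap.range (ph _ X)) = X.rank := rk_ph X
    omega
  have hrkq : ∀ N' : Matrix (Fin g ⊕ Fin g) (Fin g ⊕ Fin g) ℚ, qm N' ∈ LA (DZ '' W) →
      s.card * finrank ℂ (M.map (ph _ (qm N'))) = N'.rank := by
    intro N' hN'
    have h1 := hrkX _ hN'
    have h2 : ∀ σ : ℂ ≃+* ℂ, finrank ℂ ((tws σ M).map (ph _ (qm N'))) =
        finrank ℂ (M.map (ph _ (qm N'))) := fun σ => by rw [tws_map, finrank_tws]
    simp only [h2] at h1
    rw [Finset.sum_const, Finset.card_univ, Fintype.card_coe, smul_eq_mul] at h1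
    rw [h1]
    exact Pool.Agent.TH125.rank_map_hom (Rat.castHom ℂ) N'
  have hk2 : s.card * ρ = N.rank := by rw [hρ]; exact hrkq N hN
  have hρ0 : ρ ≠ 0 := by
    intro h0
    apply hN0
    have h1 : ph _ (qm N) = 0 := by
      rw [← LinearMap.ker_eq_top, eq_top_iff, ← htop]
      refine iSup_le fun σ x hx => ?_
      have h2 := hρσ σ
      rw [h0, Submodule.finrank_eq_zero] at h2
      have h3 : ph _ (qm N) x ∈ (tws σ M).map (ph _ (qm N)) := ⟨x, hx, rfl⟩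
      rw [h2, Submodule.mem_bot] at h3
      exact h3
    have h2 : (qm N : Matrix (Fin g ⊕ Fin g) (Fin g ⊕ Fin g) ℂ) = 0 :=
      (ph _).injective (by rw [h1, map_zero])
    ext i j
    have h3 : ((N i j : ℚ) : ℂ) = 0 := congrFun (congrFun h2 i) j
    exact_mod_cast h3
  -- the generators
  obtain ⟨DD, hDD⟩ : ∃ DD : Set (End ℂ (Fin g ⊕ Fin g → ℂ)),
      DD = {d | ∃ Z' ∈ W, ∃ τ : ℂ ≃+* ℂ, d = ph _ ((DZ Z').map τ)} := ⟨_, rfl⟩
  have hDG : ∀ d ∈ DD, d ∈ G ∧ d * d = 1 := by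
    rw [hDD]
    rintro _ ⟨Z', hZ', τ, rfl⟩
    refine ⟨?_, ?_⟩
    · rw [hG]
      exact mem_GG.2 (LA_aut (τ : ℂ →+* ℂ) (LA_self ⟨Z', hZ', rfl⟩))
    · have e1 : (DZ Z' * DZ Z').map (τ : ℂ →+* ℂ) = (DZ Z').map (τ : ℂ →+* ℂ) *
          (DZ Z').map (τ : ℂ →+* ℂ) := Matrix.map_mul
      rw [DZ_sq ((hW Z' hZ').2.isUnit.map Matrix.detMonoidHom)] at e1
      have e2 : (1 : Matrix (Fin g ⊕ Fin g) (Fin g ⊕ Fin g) ℂ).map (τ : ℂ →+* ℂ) = 1 :=
        Matrix.map_one _ (map_zero _) (map_one _)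
      rw [e2] at e1
      have e3 : (DZ Z').map τ * (DZ Z').map τ = 1 := e1.symm
      rw [← map_mul, e3, map_one]
  have hgen : ∀ L : Submodule ℂ (End ℂ (Fin g ⊕ Fin g → ℂ)), (∀ d ∈ DD, d ∈ L) →
      (∀ y ∈ L, ∀ z ∈ L, y * z - z * y ∈ L) → G ≤ L := by
    intro L h1 h2
    rw [hG]
    have h3 : LA (DZ '' W) ≤ L.comap (ph _).toLinearMap := by
      refine LA_le_of_conj ?_ ?_
      · rintro _ ⟨Z', hZ', rfl⟩ τ
        refine h1 _ ?_
        rw [hDD]
        exact ⟨Z', hZ', τ, rfl⟩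
      · intro A hA C hC
        change ph _ (A * C - C * A) ∈ L
        rw [map_sub, map_mul, map_mul]
        exact h2 _ hA _ hC
    intro y hy
    obtain ⟨A, hA, rfl⟩ := exists_GG hy
    exact h3 hA
  have hd0 : ph _ (DZ Z) ∈ DD := by
    rw [hDD]
    refine ⟨Z, hZW, RingEquiv.refl ℂ, ?_⟩
    congr 1
  -- the rational matrix does not commute with the generators on the pieces
  have hNsp := sp_LA hW hN
  obtain ⟨NR, hNR⟩ : ∃ NR : Matrix (Fin g ⊕ Fin g) (Fin g ⊕ Fin g) ℝ,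
      NR = N.map (fun x : ℚ => (x : ℝ)) := ⟨_, rfl⟩
  have hNRc : cm NR = qm N := by
    rw [hNR]
    ext i j
    simp [cm, qm]
  have cm_inj : ∀ {A C : Matrix (Fin g ⊕ Fin g) (Fin g ⊕ Fin g) ℝ}, cm A = cm C → A = C := by
    intro A C hAC
    ext i j
    have h1 : ((A i j : ℝ) : ℂ) = ((C i j : ℝ) : ℂ) := congrFun (congrFun hAC i) j
    exact_mod_cast h1
  have hNR1 : NRᵀ * Om g ℝ = -(Om g ℝ * NR) := by
    apply cm_inj
    rw [cm_mul, cm_transpose, cm_neg, cm_mul, cm_Om, hNRc]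
    exact eq_neg_of_add_eq_zero_left hNsp
  have hNR2 : NR * NR = 0 := by
    apply cm_inj
    rw [cm_mul, hNRc, ← qm_mul, hN2, qm_zero]
    ext i j
    simp [cm]
  have hcomm : ∀ σ : ℂ ≃+* ℂ, ∀ d ∈ DD, ¬ ∀ x ∈ tws σ M, d (ph _ (qm N) x) =
      ph _ (qm N) (d x) := by
    rw [hDD]
    rintro σ _ ⟨Z', hZ', τ, rfl⟩ hc
    obtain ⟨hZ't, hpos'⟩ := hW Z' hZ'
    have h1 : ∀ x ∈ tws τ.symm (tws σ M), qm N *ᵥ x = 0 := by
      intro x hx
      have h2 := hc (cj τ x) hx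
      rw [ph_apply, ph_apply, ph_apply, ph_apply, ← cj_qm, ← cj_mulVec, ← cj_mulVec, ← cj_qm] at h2
      have h3 : DZ Z' *ᵥ (qm N *ᵥ x) = qm N *ᵥ (DZ Z' *ᵥ x) := by
        have h5 := congrArg (cj τ.symm) h2
        rwa [cj_cj, cj_cj] at h5
      rw [← hNRc] at h3 ⊢
      exact pos_zero hZ't hpos' hNR1 hNR2 h3
    apply hρ0
    have h2 : (tws τ.symm (tws σ M)).map (ph _ (qm N)) = ⊥ := by
      rw [Submodule.eq_bot_iff]
      rintro _ ⟨x, hx, rfl⟩
      exact h1 x hx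
    have h3 : finrank ℂ ((tws τ.symm (tws σ M)).map (ph _ (qm N))) = ρ := by
      rw [tws_map, finrank_tws, tws_map, finrank_tws, hρ]
    rw [← h3, h2, finrank_bot]
  -- the pieces
  have hni : ∀ σ : ℂ ≃+* ℂ, ∃ x ∈ tws σ M, ∃ y ∈ tws σ M, om (Om g ℂ) x y ≠ 0 := by
    intro σ
    obtain ⟨x, hx, y, hy, hxy⟩ := hMni
    refine ⟨cj σ x, cj_mem_tws.2 hx, cj σ y, cj_mem_tws.2 hy, ?_⟩
    rw [om_cj]
    intro h0
    exact hxy ((map_eq_zero_iff σ σ.injective).1 h0)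
  have hNG : ph _ (qm N) ∈ G := by
    rw [hG]
    exact mem_GG.2 hN
  have hNN : ph _ (qm N) * ph _ (qm N) = 0 := by
    rw [← map_mul, ← qm_mul, hN2, qm_zero, map_zero]
  -- the conditions on the ranks
  have hs0 : s.card ≠ 0 := by
    intro h0
    rw [h0, zero_mul] at hk1
    apply hr2
    rw [← hk2, h0]
    omega
  have c1 : 4 * ρ ≠ δ := by
    intro h0
    apply hr1
    have h1 : s.card * δ = 4 * (s.card * ρ) := by rw [← h0]; ring
    omega
  have c2 : 2 * ρ ≠ δ := by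
    intro h0
    apply hr2
    have h1 : s.card * δ = 2 * (s.card * ρ) := by rw [← h0]; ring
    omega
  have hrat : ∀ σ ∈ s, (∀ j, 1 ≤ j → δ = (2 * j + 1).centralBinom →
      ρ ≠ (2 * j).centralBinom) ∨ ∃ x ∈ G, x * x = 0 ∧ finrank ℂ ((tws σ M).map x) ≠ 0 ∧
        finrank ℂ ((tws σ M).map x) ≠ ρ := by
    intro σ hσ
    rcases hr3 with h1 | ⟨N', hN', hN'2, hN'0, h1⟩ | ⟨X, hX, hX2, h1⟩
    · left
      intro j hj h2 h3
      exact h1 ⟨j, s.card, hj, by rw [← h2, hk1], by rw [← h3, hk2]⟩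
    · have h3 : finrank ℂ ((tws σ M).map (ph _ (qm N'))) =
          finrank ℂ (M.map (ph _ (qm N'))) := by rw [tws_map, finrank_tws]
      refine Or.inr ⟨ph _ (qm N'), ?_, ?_, ?_, ?_⟩
      · rw [hG]
        exact mem_GG.2 hN'
      · rw [← map_mul, ← qm_mul, hN'2, qm_zero, map_zero]
      · rw [h3]
        intro h4
        have h5 := hrkq N' hN'
        rw [h4, mul_zero] at h5
        exact qm_rank_ne hN'0 h5.symm
      · rw [h3]
        intro h4
        apply h1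
        rw [← hrkq N' hN', h4, hk2]
    · obtain ⟨σ₀, h2⟩ : ∃ σ₀ : ℂ ≃+* ℂ, ρ < finrank ℂ ((tws σ₀ M).map (ph _ X)) := by
        by_contra hcon
        push Not at hcon
        have h3 := hrkX X hX
        have h4 : ∑ i : s, finrank ℂ ((tws i.1 M).map (ph _ X)) ≤ ∑ i : s, ρ :=
          Finset.sum_le_sum fun i _ => hcon i.1
        rw [Finset.sum_const, Finset.card_univ, Fintype.card_coe, smul_eq_mul] at h4
        omega
      obtain ⟨τ, hτ⟩ : ∃ τ : ℂ ≃+* ℂ, τ = σ₀.symm.trans σ := ⟨_, rfl⟩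
      have h3 : finrank ℂ ((tws σ M).map (ph _ (X.map τ))) =
          finrank ℂ ((tws σ₀ M).map (ph _ X)) := by
        rw [← tws_trans σ σ₀ M, ← hτ, tws_map', finrank_tws]
      have hmm : ∀ A B : Matrix (Fin g ⊕ Fin g) (Fin g ⊕ Fin g) ℂ,
          A.map τ * B.map τ = (A * B).map τ := fun A B =>
        (Matrix.map_mul (L := A) (M := B) (f := (τ : ℂ →+* ℂ))).symm
      refine Or.inr ⟨ph _ (X.map τ), ?_, ?_, ?_, ?_⟩
      · rw [hG]
        exact mem_GG.2 (LA_aut (τ : ℂ →+* ℂ) hX)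
      · rw [← map_mul, hmm, hX2, Matrix.map_zero _ (map_zero τ), map_zero]
      · rw [h3]
        omega
      · rw [h3]
        omega
  -- stability under the Hodge Lie algebra
  have hstL : ∀ σ : ℂ ≃+* ℂ, ∀ X ∈ lieM (DZ Z) ℂ, ∀ x ∈ tws σ M, X *ᵥ x ∈ tws σ M := by
    intro σ X hX x hx
    obtain ⟨π, hπ1, hπ2, hπ3⟩ := h.cr (tws σ M) (hIrr σ).st
    obtain ⟨P, rfl⟩ := (ph _).surjective π
    have hP : InCm (DZ '' W) P := by
      rw [hG] at hπ1
      exact cmt_iff.1 hπ1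
    have h1 := cmt_lie hZ hZW hP X hX
    have h2 : P *ᵥ x = x := hπ3 x hx
    have h3 : X *ᵥ x = P *ᵥ (X *ᵥ x) := by
      rw [mulVec_mulVec, h1, ← mulVec_mulVec, h2]
    rw [h3]
    exact hπ2 _
  let e := LinearEquiv.ofBijective (sm (fun σ : ℂ ≃+* ℂ => tws σ M) s) ⟨hInd.inj, sm_surj htop'⟩
  have he : ∀ y, y = ∑ a : s, ((e.symm y a : tws a.1 M) : Fin g ⊕ Fin g → ℂ) := by
    intro y
    have h1 : sm (fun σ : ℂ ≃+* ℂ => tws σ M) s (e.symm y) = y := e.apply_symm_apply y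
    rw [sm_apply] at h1
    exact h1.symm
  refine ⟨{x // x ∈ s}, inferInstance, inferInstance, fun a => tws a.1 M,
    fun a => (om (Om g ℂ)).domRestrict₁₂ _ _, fun a => LinearMap.proj a ∘ₗ e.symm.toLinearMap,
    fun a => hstL a.1, he, ?_, ?_, ?_, ?_, ?_, ?_⟩
  · intro a
    exact Submodule.nontrivial_iff_ne_bot.2 (hIrr a.1).ne
  · intro a x
    have h1 := hω.anti (x : Fin g ⊕ Fin g → ℂ) x
    have h2 : (2 : ℂ) * om (Om g ℂ) (x : Fin g ⊕ Fin g → ℂ) x = 0 := by linear_combination h1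
    exact (mul_eq_zero.1 h2).resolve_left two_ne_zero
  · intro a x hx
    obtain ⟨p, c⟩ := exists_cor h hω (hIrr a.1) (hni a.1)
    have h1 := c.altF h hω
    refine h1.nd x fun v => ?_
    rw [h1.anti, hx, neg_zero]
  · intro a X x y
    have h1 := sp_C hZ X.1 X.2
    have h2 := (altF (Om := Om g ℂ) H.OmT H.Om2).adj (ph _ X.1) x y
    have h3 : stE (Om g ℂ) (ph _ X.1) = -(ph _ X.1) := by
      rw [stE_ph, ← map_neg]
      congr 1
      have h4 : X.1ᵀ * Om g ℂ = -(Om g ℂ * X.1) := eq_neg_of_add_eq_zero_left h1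
      rw [mul_assoc, h4, mul_neg, neg_neg, ← mul_assoc, Om_sq, neg_one_mul]
    rw [h3] at h2
    exact h2.trans (map_neg _ _)
  · intro a x y
    obtain ⟨p, c⟩ := exists_cor h hω (hIrr a.1) (hni a.1)
    have h3 := hrat a.1 a.2
    obtain ⟨z, hz, hz'⟩ := piece_full3 h hω htr c (hIrr a.1) hDG hgen hNG hNN (hcomm a.1) hd0
      (by rw [hρσ]; exact hρ0) (by rw [hρσ, hδσ]; exact c1) (by rw [hρσ, hδσ]; exact c2)
      (by rw [hρσ, hδσ]; exact h3) x y
    rw [hG] at hz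
    obtain ⟨A, hA, rfl⟩ := exists_GG hz
    refine ⟨⟨A, hVG hA⟩, ?_⟩
    rw [← hz']
    refine LinearMap.ext fun v => ?_
    rw [rs_apply]
    refine (c.hp ⟨A *ᵥ (v : Fin g ⊕ Fin g → ℂ), hstL a.1 A (hVG hA) v v.2⟩).symm.trans ?_
    rfl
  · intro a X hX y
    have h1 : e.symm (X *ᵥ y) = fun b => ⟨X *ᵥ (e.symm y b : Fin g ⊕ Fin g → ℂ),
        hstL b.1 X hX _ (e.symm y b).2⟩ := by
      rw [LinearEquiv.symm_apply_eq]
      change X *ᵥ y = sm (fun σ : ℂ ≃+* ℂ => tws σ M) s _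
      rw [sm_apply]
      conv_lhs => rw [he y]
      exact map_sum (ph _ X) _ _
    exact congrArg Subtype.val (congrFun h1 a)

end Pool.Agent.Y91.JP
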