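import Mathlib
import Pool.Agent.Y91.JP.Dich
import Pool.Agent.Y91.JP.UniMain3
import Pool.Agent.Y91.JP.Fam3

/-!
# Families of abelian varieties with monodromy of arbitrary rank
-/

set_option linter.unusedSectionVars false

namespace Pool.Agent.Y91.JP

open Matrix Module Pool.Agent.W437.HC Pool.Agent.W437.HD Pool.Agent.H204R3.CM
  Pool.Agent.H194R3.CM Pool.Agent.W548.Odd Pool.Agent.W437.HR Pool.Agent.TH125

variable {g : ℕ}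

/-- **Monodromy operators of arbitrary rank.** -/
theorem uni_pcs3 {U : Set ℂ} (hU : IsOpen U) (hc : IsPreconnected U)
    {Z : ℂ → Matrix (Fin g) (Fin g) ℂ} (hol : ∀ i j, DifferentiableOn ℂ (fun t => Z t i j) U)
    (hW : IsPer (Z '' U)) (hs : ∃ s ∈ U, IsSimpleAV (Z s))
    {γ : Matrix (Fin g ⊕ Fin g) (Fin g ⊕ Fin g) ℚ} (hγ : Small.IsMonodromy U Z γ)
    (h2 : (γ - 1) * (γ - 1) = 0) (h1 : γ ≠ 1) (hr1 : 2 * (γ - 1).rank ≠ g)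
    (hr2 : (γ - 1).rank ≠ g)
    (hr3 : ¬ Exc g (γ - 1).rank ∨ (∃ γ', Small.IsMonodromy U Z γ' ∧ (γ' - 1) * (γ' - 1) = 0 ∧ γ' ≠ 1 ∧
        (γ' - 1).rank ≠ (γ - 1).rank) ∨ ∃ r, RankIn (Z '' U) r ∧ (γ - 1).rank < r)
    (hdim : finrank ℚ (Submodule.span ℚ {φ | Small.IsEndomorphism U Z φ}) <
      2 * finrank ℚ (Submodule.span ℚ {φ | Small.IsEndomorphism U Z φ ∧
        φ.transpose * fromBlocks 0 1 (-1) 0 = fromBlocks 0 1 (-1) 0 * φ})) :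
    ∃ E : Set ℂ, E.Countable ∧ ∀ t ∈ U, t ∉ E → HasPcs (DZ (Z t)) := by
  obtain ⟨s, hs, hsimple⟩ := hs
  have hY : ∀ t ∈ U, IsUnit (imM (Z t)).det := fun t ht =>
    (hW _ ⟨t, ht, rfl⟩).2.isUnit.map Matrix.detMonoidHom
  have e1 : Submodule.span ℚ {φ | Small.IsEndomorphism U Z φ} = EndQ (Z '' U) := by
    apply le_antisymm
    · exact Submodule.span_le.2 fun φ hφ => (endo_iff hY φ).1 hφ
    · exact fun φ hφ => Submodule.subset_span ((endo_iff hY φ).2 hφ)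
  have e2 : Submodule.span ℚ {φ | Small.IsEndomorphism U Z φ ∧
      φ.transpose * fromBlocks 0 1 (-1) 0 = fromBlocks 0 1 (-1) 0 * φ} = SymQ (Z '' U) := by
    apply le_antisymm
    · exact Submodule.span_le.2 fun φ hφ => ⟨(endo_iff hY φ).1 hφ.1, hφ.2⟩
    · exact fun φ hφ => Submodule.subset_span ⟨(endo_iff hY φ).2 hφ.1, hφ.2⟩
  rw [e1, e2] at hdim
  obtain ⟨E, hE, hEt⟩ := exists_exceptional hU hc Z hol hY
  refine ⟨E, hE, fun t ht htE => ?_⟩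
  obtain ⟨hZt, hpos⟩ := hW _ ⟨t, ht, rfl⟩
  have h3 : LA (DZ '' (Z '' U)) ≤ lieM (DZ (Z t)) ℂ := by
    refine LA_le_lieM ?_
    rintro _ ⟨_, ⟨s', hs', rfl⟩, rfl⟩
    exact hEt t ht htE s' hs'
  have h4 : IsSimpleAV (Z t) := simple_of_mem hZt hpos (hW _ ⟨s, hs, rfl⟩).2
    (hEt t ht htE s hs) hsimple
  refine hasPcs_of_unipotent3 hW ⟨t, ht, rfl⟩ h4 h3 hdim (mono_mem hW ⟨s, hs⟩ hγ h2) h2
    (sub_ne_zero.2 h1) hr1 hr2 ?_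
  rcases hr3 with h5 | ⟨γ', h5, h6, h7, h8⟩ | ⟨r, ⟨X, hX, hX2, hXr⟩, h6⟩
  · exact Or.inl h5
  · exact Or.inr (Or.inl ⟨γ' - 1, mono_mem hW ⟨s, hs⟩ h5 h6, h6, sub_ne_zero.2 h7, h8⟩)
  · exact Or.inr (Or.inr ⟨X, hX, hX2, by omega⟩)

/-- **Square zero elements, no endomorphisms.** -/
theorem pcs_of_ranks {W : Set (Matrix (Fin g) (Fin g) ℂ)} {Z : Matrix (Fin g) (Fin g) ℂ}
    (hW : IsPer W) (hZW : Z ∈ W) (hs : IsSimpleAV Z)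
    (hVG : LA (DZ '' W) ≤ lieM (DZ Z) ℂ) (hconn : Conn (DZ '' W))
    (hsc : ∀ c, InCm (DZ '' W) c →
      ∃ s : ℂ, c = s • (1 : Matrix (Fin g ⊕ Fin g) (Fin g ⊕ Fin g) ℂ))
    {r r1 r2 : ℕ} (hr : RankIn W r) (hr0 : r ≠ 0) (hrg : 2 * r ≠ g)
    (hrg' : r ≠ g) (hr1 : RankIn W r1) (hr2 : RankIn W r2) (hdiv : ¬ 2 * g ∣ r1 * r2)
    (hr3 : (∀ j, 1 ≤ j → 2 * g = (2 * j + 1).centralBinom → r ≠ (2 * j).centralBinom) ∨
      ∃ r', RankIn W r' ∧ r' ≠ 0 ∧ r' ≠ r) :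
    HasPcs (DZ Z) := by
  obtain ⟨hZt, hpos⟩ := hW _ hZW
  have hY : IsUnit (imM Z).det := hpos.isUnit.map Matrix.detMonoidHom
  obtain ⟨S, Si, H⟩ := hermZ hW hZW
  have hcard : Fintype.card (Fin g ⊕ Fin g) = 2 * g := by
    rw [Fintype.card_sum, Fintype.card_fin]
    omega
  have hne : ∀ {A : Matrix (Fin g ⊕ Fin g) (Fin g ⊕ Fin g) ℂ}, A.rank ≠ 0 → A ≠ 0 := by
    rintro A h0 rfl
    exact h0 rank_zero
  obtain ⟨X, hX, hX2, hXr⟩ := hr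
  obtain ⟨X1, hX1, hX12, hX1r⟩ := hr1
  obtain ⟨X2, hX2', hX22, hX2r⟩ := hr2
  have hd : DZ Z ∈ DZ '' W := ⟨_, hZW, rfl⟩
  have hgn := gn_top_of_sq H hsc hconn hd hX1 hX12 hX2' hX22
    (by rw [hcard, hX1r, hX2r]; exact hdiv)
  obtain ⟨e, he, he1⟩ := exists_rank_one_of_sq H hsc hd hgn hX hX2
    (hne (by rw [hXr]; exact hr0)) (by rw [hcard, hXr]; omega) (by rw [hcard, hXr]; omega) (by
      rw [hcard, hXr]
      rcases hr3 with h3 | ⟨r', ⟨Y, hY, hY2, hYr⟩, h4, h5⟩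
      · exact Or.inl h3
      · exact Or.inr ⟨Y, hY, hY2, hne (by rw [hYr]; exact h4), by
          rw [hYr]; exact h5⟩)
  obtain ⟨v, hv, h3⟩ := sq_of_rank_one hZt (hVG he) he1
  exact hasPcs_of_top (Om_transpose ℂ) (Om_unit ℂ) (sp_C hZt)
    (UU_eq_top hZt hY hs ⟨v, good_of_sq_gen hZt hpos hv h3⟩)

/-- **Ranks of families without endomorphisms.** -/
theorem small_pcs3 {U : Set ℂ} (hU : IsOpen U) (hc : IsPreconnected U) (hne : U.Nonempty)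
    {Z : ℂ → Matrix (Fin g) (Fin g) ℂ} (hol : ∀ i j, DifferentiableOn ℂ (fun t => Z t i j) U)
    (hW : IsPer (Z '' U))
    (hE : ∀ φ, Small.IsEndomorphism U Z φ → ∃ q : ℚ, φ = q • (1 : Matrix _ _ ℚ))
    {r r1 r2 : ℕ} (hr : RankIn (Z '' U) r) (hr0 : r ≠ 0) (hrg : 2 * r ≠ g)
    (hrg' : r ≠ g) (hr1 : RankIn (Z '' U) r1) (hr2 : RankIn (Z '' U) r2)
    (hdiv : ¬ 2 * g ∣ r1 * r2)
    (hr3 : (∀ j, 1 ≤ j → 2 * g = (2 * j + 1).centralBinom → r ≠ (2 * j).centralBinom) ∨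
      ∃ r', RankIn (Z '' U) r' ∧ r' ≠ 0 ∧ r' ≠ r) :
    ∃ E : Set ℂ, E.Countable ∧ ∀ t ∈ U, t ∉ E → HasPcs (DZ (Z t)) := by
  have hY : ∀ t ∈ U, IsUnit (imM (Z t)).det := fun t ht =>
    (hW _ ⟨t, ht, rfl⟩).2.isUnit.map Matrix.detMonoidHom
  obtain ⟨E, hE1, hEt⟩ := exists_exceptional hU hc Z hol hY
  refine ⟨E, hE1, fun t ht htE => ?_⟩
  have h1 : LA (DZ '' (Z '' U)) ≤ lieM (DZ (Z t)) ℂ := by
    refine LA_le_lieM ?_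
    rintro _ ⟨_, ⟨s', hs', rfl⟩, rfl⟩
    exact hEt t ht htE s' hs'
  exact pcs_of_ranks hW ⟨t, ht, rfl⟩ (simple_of_end hW hE ht (hEt t ht htE)) h1
    (conn_family hc (fun i j => (hol i j).continuousOn) hY) (scalar_commutant hY hE) hr hr0 hrg
    hrg' hr1 hr2 hdiv hr3

end Pool.Agent.Y91.JP
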